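import Pool.Agent.OSP_h95.Disjoint

/-!
# From entropy to sumsets
-/

set_option autoImplicit false

namespace Pool.Agent.OSP

open Finset Real Pool.Agent.QFR
open scoped Pointwise

variable {G : Type} [AddCommGroup G] [Fintype G] [DecidableEq G]

/-- ABSORPTION.  `popular`, `disjoint_translates` (`J = 2^r`), and the Ruzsa triangle inequality
`|A'| |A + Q| ≤ |A' + A| |A' - Q|` (`Finset.ruzsa_triangle_inequality_add_add_sub`) with
`|A' - Q| = |A' + Q|` (`-Q` is a translate of `Q`), `|A' + A| ≤ |A + A|`, `|A| ≤ 4 |A'|`: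
`|A + Q| ≤ 4 exp k · 12 exp (2c) |A|`. -/
theorem absorb (A : Finset G) (hA : A.Nonempty) (w : G) (r : ℕ) {c k : ℝ} (hc : 0 ≤ c)
    (hJ : (prog w (2 ^ r)).card = 2 ^ r)
    (hk : ((A + A).card : ℝ) ≤ exp k * A.card)
    (h : ((Fam.unif A hA).add (walk w r)).H ≤ Real.log A.card + c) :
    ((A + prog w (2 ^ r)).card : ℝ) ≤ 48 * exp (k + 2 * c) * A.card := by
  obtain ⟨Z, hZ, hsum⟩ := popular A hA w r hc h
  have hsum' : (A.card : ℝ) * ((2 ^ r : ℕ) : ℝ) / 2 ≤
      ∑ a ∈ A, (((Finset.range (2 ^ r)).filter fun j : ℕ => a + j • w ∈ Z).card : ℝ) := by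
    rw [Nat.cast_pow, Nat.cast_ofNat]
    exact hsum
  obtain ⟨A', hA'A, hcard, hQ⟩ := disjoint_translates A Z w (2 ^ r) hJ hsum'
  set Q := prog w (2 ^ r) with hQdef
  have hApos : (0 : ℝ) < A.card := by exact_mod_cast hA.card_pos
  have hA'pos : (0 : ℝ) < A'.card := by linarith
  have htri : ((A + Q).card : ℝ) * A'.card ≤ (A + A').card * (A' + Q).card := by
    exact_mod_cast Finset.ruzsa_triangle_inequality_add_add_add A A' Q
  have h1 : ((A + A').card : ℝ) ≤ exp k * A.card := by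
    refine le_trans ?_ hk
    exact_mod_cast Finset.card_le_card (Finset.add_subset_add_left hA'A)
  have h2 : ((A' + Q).card : ℝ) ≤ 12 * (exp (2 * c) * A.card) :=
    hQ.trans (by linarith)
  have h3 : ((A + Q).card : ℝ) * A'.card ≤ (48 * exp (k + 2 * c) * A.card) * A'.card := by
    calc ((A + Q).card : ℝ) * A'.card ≤ (A + A').card * (A' + Q).card := htri
      _ ≤ (exp k * A.card) * (12 * (exp (2 * c) * A.card)) := by gcongr
      _ = (12 * exp (k + 2 * c) * A.card) * A.card := by rw [Real.exp_add]; ring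
      _ ≤ (12 * exp (k + 2 * c) * A.card) * (4 * A'.card) := by gcongr
      _ = (48 * exp (k + 2 * c) * A.card) * A'.card := by ring
  exact le_of_mul_le_mul_right h3 hA'pos

end Pool.Agent.OSP
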