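import Pool.Agent.OSP_h95.Center

/-!
# The size of Hellinger balls
-/

set_option autoImplicit false

namespace Pool.Agent.OSP

open Finset Real Pool.Agent.QFR

variable {G : Type} [AddCommGroup G] [Fintype G]

omit [AddCommGroup G] in
lemma Ball_ent_superadd (f g : G → ℝ) (hf : ∀ x, 0 ≤ f x) (hg : ∀ x, 0 ≤ g x) :
    ent f + ent g ≤ ent (fun x => f x + g x) := by
  have h := ent_sum_le (Finset.univ : Finset Bool) (fun b x => if b then f x else g x)
    (fun b _ x => by cases b <;> simp [hf x, hg x])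
  simp only [Fintype.sum_bool, if_true, Bool.false_eq_true, if_false] at h
  exact h

lemma Ball_conv_eq (f g : G → ℝ) : conv f g = fun x => ∑ t, g t * f (x - t) := by
  funext x
  unfold conv
  refine Fintype.sum_equiv (Equiv.subLeft x) _ _ fun y => ?_
  simp only [Equiv.subLeft_apply, sub_sub_cancel]
  ring

lemma Ball_conv_add (f g b : G → ℝ) :
    conv f (fun x => g x + b x) = fun x => conv f g x + conv f b x := by
  funext x
  unfold conv
  rw [← Finset.sum_add_distrib]
  exact Finset.sum_congr rfl fun y _ => by ring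

omit [AddCommGroup G] in
/-- subadditivity up to `log 2`: `ent (f + g) ≤ ent f + ent g + (Σ f + Σ g) log 2`
(`negMulLog (a+b) ≤ negMulLog a + negMulLog b` for the sums over `x`, and
`negMulLog a + negMulLog b ≤ negMulLog (a+b) + (a+b) log 2` for the total masses) -/
theorem Ball_ent_add_le (f g : G → ℝ) (hf : ∀ x, 0 ≤ f x) (hg : ∀ x, 0 ≤ g x) :
    ent (fun x => f x + g x) ≤ ent f + ent g + (∑ x, f x + ∑ x, g x) * Real.log 2 := by
  have h1 : ∀ a b : ℝ, 0 ≤ a → 0 ≤ b → negMulLog (a + b) ≤ negMulLog a + negMulLog b := by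
    intro a b ha hb
    unfold negMulLog
    rcases ha.eq_or_lt with h0 | h0
    · rw [← h0]
      simp
    rcases hb.eq_or_lt with h0' | h0'
    · rw [← h0']
      simp
    have e1 : Real.log a ≤ Real.log (a + b) := Real.log_le_log h0 (by linarith)
    have e2 : Real.log b ≤ Real.log (a + b) := Real.log_le_log h0' (by linarith)
    nlinarith [mul_le_mul_of_nonneg_left e1 ha, mul_le_mul_of_nonneg_left e2 hb]
  have h2 : ∀ a b : ℝ, 0 ≤ a → 0 ≤ b →
      negMulLog a + negMulLog b ≤ negMulLog (a + b) + (a + b) * Real.log 2 := by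
    intro a b ha hb
    have h := Real.concaveOn_negMulLog.2 (Set.mem_Ici.2 ha) (Set.mem_Ici.2 hb)
      (by norm_num : (0 : ℝ) ≤ 1 / 2) (by norm_num : (0 : ℝ) ≤ 1 / 2) (by norm_num)
    simp only [smul_eq_mul] at h
    rcases (add_nonneg ha hb).eq_or_lt with h0 | h0
    · have ha0 : a = 0 := by linarith
      have hb0 : b = 0 := by linarith
      rw [ha0, hb0]
      simp
    have e : negMulLog (1 / 2 * a + 1 / 2 * b) =
        1 / 2 * negMulLog (a + b) + 1 / 2 * ((a + b) * Real.log 2) := by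
      have e1 : 1 / 2 * a + 1 / 2 * b = (a + b) / 2 := by ring
      rw [e1]
      unfold negMulLog
      rw [Real.log_div h0.ne' (by norm_num)]
      ring
    rw [e] at h
    linarith
  unfold ent
  have h3 : ∑ x, negMulLog (f x + g x) ≤ ∑ x, negMulLog (f x) + ∑ x, negMulLog (g x) := by
    rw [← Finset.sum_add_distrib]
    exact Finset.sum_le_sum fun x _ => h1 _ _ (hf x) (hg x)
  have h4 := h2 (∑ x, f x) (∑ x, g x) (Finset.sum_nonneg fun x _ => hf x)
    (Finset.sum_nonneg fun x _ => hg x)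
  rw [Finset.sum_add_distrib]
  linarith

/-- subadditivity up to `log 2`: `ent (f + g) ≤ ent f + ent g + (Σ f + Σ g) log 2`
(`negMulLog (a+b) ≤ negMulLog a + negMulLog b` for the sums over `x`, and
`negMulLog a + negMulLog b ≤ negMulLog (a+b) + (a+b) log 2` for the total masses) -/
theorem ent_add_le (f g : G → ℝ) (hf : ∀ x, 0 ≤ f x) (hg : ∀ x, 0 ≤ g x) :
    ent (fun x => f x + g x) ≤ ent f + ent g + (∑ x, f x + ∑ x, g x) * Real.log 2 :=
  Ball_ent_add_le f g hf hg

lemma Ball_ent_conv_ge (f g : G → ℝ) (hf : ∀ x, 0 ≤ f x) (hg : ∀ x, 0 ≤ g x) :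
    (∑ x, g x) * ent f ≤ ent (conv f g) := by
  have h := ent_sum_le (Finset.univ : Finset G) (fun t x => g t * f (x - t))
    (fun t _ x => mul_nonneg (hg t) (hf _))
  rw [← Ball_conv_eq] at h
  have e : ∀ t : G, ent (fun x => g t * f (x - t)) = g t * ent f := by
    intro t
    rw [ent_smul, ← ent_equiv f (Equiv.subRight t)]
    rfl
  simp only [e, ← Finset.sum_mul] at h
  exact h

/-- `ent (conv f g) ≥ (Σ g) ent f` and `≥ (Σ f) ent g` (superadditivity `ent_sum_le` of the
translates; compare the proof of `H_le_add_left`) -/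
theorem ent_conv_ge (f g : G → ℝ) (hf : ∀ x, 0 ≤ f x) (hg : ∀ x, 0 ≤ g x) :
    (∑ x, g x) * ent f ≤ ent (conv f g) ∧ (∑ x, f x) * ent g ≤ ent (conv f g) := by
  refine ⟨Ball_ent_conv_ge f g hf hg, ?_⟩
  have h := Ball_ent_conv_ge g f hg hf
  have e : conv g f = conv f g := by
    rw [Ball_conv_eq]
    rfl
  rwa [e] at h

/-- THE SIZE OF A BALL.  Let `c` be the centres from `exists_center T V` and call `(v, x)` good if
`hel T (x - c v) ≤ ρ²`; by Markov the bad pairs have mass `P' ≤ 4 gain / ρ² ≤ 1/2`.  Split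
`V.m v = g_v + b_v`.  `ent g_v ≤ (Σ g_v) log |B|` (`ent_le_card`, `g_v` lives on `c v + B`),
`Σ_v ent b_v ≤ P' H(X) + (H(X+V) - H(X))` because
`H(X+V) ≥ Σ_{i,v} (ent (conv X_i g_v) + ent (conv X_i b_v)) ≥ (1-P') H(X) + Σ_v ent b_v`
(`ent_sum_le`, `ent_conv_ge`).  With `ent_add_le`:
`H(V) ≤ (1-P') log|B| + P' H(X) + (H(X+V) - H(X)) + log 2`, i.e.
`(1-P') (H(X) - log |B|) ≤ log 2 + (H(X) - H(V)) + (H(X+V) - H(X)) =: S`, `S ≥ 0`, `1-P' ≥ 1/2`. -/
theorem log_ball_ge (X T V : Fam G) {ρ : ℝ} (hρ : 0 < ρ) (B : Finset G)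
    (hB : ∀ D, hel T D ≤ ρ ^ 2 → D ∈ B) (hg : 8 * gain T (neg V) ≤ ρ ^ 2) :
    X.H - 2 * (Real.log 2 + (X.H - V.H) + ((X.add V).H - X.H)) ≤ Real.log B.card := by
  classical
  obtain ⟨c, hc⟩ := exists_center T V
  set good : V.ι → G → ℝ := fun v x => if hel T (x - c v) ≤ ρ ^ 2 then V.m v x else 0 with hgood
  set bad : V.ι → G → ℝ := fun v x => if hel T (x - c v) ≤ ρ ^ 2 then 0 else V.m v x with hbad
  have hg0 : ∀ v x, 0 ≤ good v x := by
    intro v x
    simp only [hgood]
    split_ifs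
    · exact V.nn v x
    · exact le_rfl
  have hb0 : ∀ v x, 0 ≤ bad v x := by
    intro v x
    simp only [hbad]
    split_ifs
    · exact le_rfl
    · exact V.nn v x
  have hsplit : ∀ v, V.m v = fun x => good v x + bad v x := by
    intro v
    funext x
    simp only [hgood, hbad]
    split_ifs <;> simp
  -- the bad mass
  set P : ℝ := ∑ v, ∑ x, bad v x with hP
  have hPg : ∑ v, ∑ x, good v x = 1 - P := by
    have h := V.tot
    have e : ∑ v, ∑ x, V.m v x = ∑ v, ∑ x, good v x + P := by
      rw [hP, ← Finset.sum_add_distrib]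
      refine Finset.sum_congr rfl fun v _ => ?_
      rw [← Finset.sum_add_distrib]
      exact Finset.sum_congr rfl fun x _ => congrFun (hsplit v) x
    linarith
  have hρ2 : 0 < ρ ^ 2 := by positivity
  have hPle : P ≤ 1 / 2 := by
    have h1 : ρ ^ 2 * P ≤ ∑ v, ∑ x, V.m v x * hel T (x - c v) := by
      rw [hP, Finset.mul_sum]
      refine Finset.sum_le_sum fun v _ => ?_
      rw [Finset.mul_sum]
      refine Finset.sum_le_sum fun x _ => ?_
      simp only [hbad]
      split_ifs with h
      · rw [mul_zero]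
        exact mul_nonneg (V.nn v x) (by
          unfold hel
          exact Finset.sum_nonneg fun i _ => Finset.sum_nonneg fun y _ => sq_nonneg _)
      · rw [mul_comm]
        exact mul_le_mul_of_nonneg_left (not_le.1 h).le (V.nn v x)
    have h2 : ρ ^ 2 * P ≤ ρ ^ 2 * (1 / 2) := by linarith
    exact le_of_mul_le_mul_left h2 hρ2
  -- (a)
  have ha : V.H ≤ ∑ v, ent (good v) + ∑ v, ent (bad v) + Real.log 2 := by
    unfold Fam.H
    have h1 : ∀ v ∈ (Finset.univ : Finset V.ι), ent (V.m v) ≤ ent (good v) + ent (bad v) +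
        (∑ x, good v x + ∑ x, bad v x) * Real.log 2 := by
      intro v _
      rw [hsplit v]
      exact ent_add_le _ _ (hg0 v) (hb0 v)
    have h2 := Finset.sum_le_sum h1
    rw [Finset.sum_add_distrib, Finset.sum_add_distrib, ← Finset.sum_mul,
      Finset.sum_add_distrib, hPg, ← hP] at h2
    have h3 : (1 - P + P) * Real.log 2 = Real.log 2 := by ring
    rw [h3] at h2
    exact h2
  -- (b)
  have hb : ∑ v, ent (good v) ≤ (1 - P) * Real.log B.card := by
    rw [← hPg, Finset.sum_mul]
    refine Finset.sum_le_sum fun v _ => ?_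
    have h1 := ent_le_card (good v) (hg0 v) (B.map (Equiv.addRight (c v)).toEmbedding) (by
      intro x hx
      simp only [hgood]
      rw [if_neg]
      intro h
      apply hx
      rw [Finset.mem_map]
      refine ⟨x - c v, hB _ h, ?_⟩
      simp)
    rwa [Finset.card_map] at h1
  -- (c)
  have hcc : (1 - P) * X.H + ∑ v, ent (bad v) ≤ (X.add V).H := by
    rw [fb_H_add, Finset.sum_comm]
    have h1 : ∀ v ∈ (Finset.univ : Finset V.ι),
        (∑ x, good v x) * X.H + ent (bad v) ≤ ∑ i, ent (conv (X.m i) (V.m v)) := by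
      intro v _
      have h2 : ∀ i ∈ (Finset.univ : Finset X.ι),
          (∑ x, good v x) * ent (X.m i) + (∑ x, X.m i x) * ent (bad v) ≤
            ent (conv (X.m i) (V.m v)) := by
        intro i _
        rw [hsplit v, Ball_conv_add]
        refine le_trans ?_ (Ball_ent_superadd _ _ (conv_nonneg (X.nn i) (hg0 v))
          (conv_nonneg (X.nn i) (hb0 v)))
        exact add_le_add (ent_conv_ge _ _ (X.nn i) (hg0 v)).1 (ent_conv_ge _ _ (X.nn i) (hb0 v)).2
      have h3 := Finset.sum_le_sum h2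
      rw [Finset.sum_add_distrib, ← Finset.mul_sum, ← Finset.sum_mul, X.tot, one_mul] at h3
      exact h3
    have h4 := Finset.sum_le_sum h1
    rw [Finset.sum_add_distrib, ← Finset.sum_mul, hPg] at h4
    exact h4
  have hVle : V.H ≤ (X.add V).H := H_le_add_right X V
  have hlog2 : 0 < Real.log 2 := Real.log_pos (by norm_num)
  set L := Real.log B.card with hL
  by_cases hu : X.H ≤ L
  · linarith
  · have hu' : 0 < X.H - L := by linarith
    have h5 : (1 - P) * (X.H - L) ≤ Real.log 2 + (X.H - V.H) + ((X.add V).H - X.H) := by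
      nlinarith
    have h6 : 1 / 2 * (X.H - L) ≤ (1 - P) * (X.H - L) :=
      mul_le_mul_of_nonneg_right (by linarith) hu'.le
    linarith

end Pool.Agent.OSP
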