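import Pool.Agent.OSP_h95.Defs

/-!
# Basic properties of the expectation `Ex`
-/

set_option autoImplicit false

namespace Pool.Agent.OSP

open Finset Real Pool.Agent.QFR

variable {G : Type} [AddCommGroup G] [Fintype G]

theorem Ex_add (T : Fam G) (f g : T.ι → G → ℝ) :
    Ex T (fun i x => f i x + g i x) = Ex T f + Ex T g := by
  unfold Ex
  rw [← Finset.sum_add_distrib]
  refine Finset.sum_congr rfl fun i _ => ?_
  rw [← Finset.sum_add_distrib]
  exact Finset.sum_congr rfl fun x _ => by ring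

theorem Ex_sub (T : Fam G) (f g : T.ι → G → ℝ) :
    Ex T (fun i x => f i x - g i x) = Ex T f - Ex T g := by
  unfold Ex
  rw [← Finset.sum_sub_distrib]
  refine Finset.sum_congr rfl fun i _ => ?_
  rw [← Finset.sum_sub_distrib]
  exact Finset.sum_congr rfl fun x _ => by ring

theorem Ex_mul_left (T : Fam G) (c : ℝ) (f : T.ι → G → ℝ) :
    Ex T (fun i x => c * f i x) = c * Ex T f := by
  unfold Ex
  rw [Finset.mul_sum]
  refine Finset.sum_congr rfl fun i _ => ?_
  rw [Finset.mul_sum]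
  exact Finset.sum_congr rfl fun x _ => by ring

theorem Ex_const (T : Fam G) (c : ℝ) : Ex T (fun _ _ => c) = c := by
  unfold Ex
  simp only [← Finset.sum_mul, T.tot, one_mul]

theorem Ex_mono (T : Fam G) {f g : T.ι → G → ℝ} (h : ∀ i x, f i x ≤ g i x) :
    Ex T f ≤ Ex T g :=
  Finset.sum_le_sum fun i _ => Finset.sum_le_sum fun x _ =>
    mul_le_mul_of_nonneg_left (h i x) (T.nn i x)

theorem Ex_nonneg (T : Fam G) {f : T.ι → G → ℝ} (h : ∀ i x, 0 ≤ f i x) : 0 ≤ Ex T f :=
  Finset.sum_nonneg fun i _ => Finset.sum_nonneg fun x _ => mul_nonneg (T.nn i x) (h i x)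

theorem Ex_sum (T : Fam G) {κ : Type} (s : Finset κ) (f : κ → T.ι → G → ℝ) :
    Ex T (fun i x => ∑ b ∈ s, f b i x) = ∑ b ∈ s, Ex T (f b) := by
  unfold Ex
  calc ∑ i, ∑ x, T.m i x * ∑ b ∈ s, f b i x = ∑ i, ∑ x, ∑ b ∈ s, T.m i x * f b i x := by
        simp only [Finset.mul_sum]
    _ = ∑ i, ∑ b ∈ s, ∑ x, T.m i x * f b i x :=
        Finset.sum_congr rfl fun i _ => Finset.sum_comm
    _ = ∑ b ∈ s, ∑ i, ∑ x, T.m i x * f b i x := Finset.sum_comm

theorem abs_Ex_le (T : Fam G) (f : T.ι → G → ℝ) : |Ex T f| ≤ Ex T (fun i x => |f i x|) := by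
  unfold Ex
  refine (Finset.abs_sum_le_sum_abs _ _).trans (Finset.sum_le_sum fun i _ => ?_)
  refine (Finset.abs_sum_le_sum_abs _ _).trans (Finset.sum_le_sum fun x _ => ?_)
  rw [abs_mul, abs_of_nonneg (T.nn i x)]

/-- Cauchy-Schwarz -/
theorem Ex_mul_sq_le (T : Fam G) (f g : T.ι → G → ℝ) :
    (Ex T fun i x => f i x * g i x) ^ 2 ≤
      (Ex T fun i x => f i x ^ 2) * Ex T fun i x => g i x ^ 2 := by
  have h := Finset.sum_mul_sq_le_sq_mul_sq (Finset.univ : Finset (T.ι × G))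
    (fun p => √(T.m p.1 p.2) * f p.1 p.2) (fun p => √(T.m p.1 p.2) * g p.1 p.2)
  simp only [Fintype.sum_prod_type] at h
  have e : ∀ (p q : T.ι → G → ℝ), ∑ i, ∑ x, (√(T.m i x) * p i x) * (√(T.m i x) * q i x) =
      Ex T fun i x => p i x * q i x := by
    intro p q
    refine Finset.sum_congr rfl fun i _ => Finset.sum_congr rfl fun x _ => ?_
    have := Real.mul_self_sqrt (T.nn i x)
    calc (√(T.m i x) * p i x) * (√(T.m i x) * q i x)
        = (√(T.m i x) * √(T.m i x)) * (p i x * q i x) := by ring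
      _ = _ := by rw [this]
  have e2 : ∀ (p : T.ι → G → ℝ), ∑ i, ∑ x, (√(T.m i x) * p i x) ^ 2 =
      Ex T fun i x => p i x ^ 2 := by
    intro p
    have := e p p
    simpa only [← sq] using this
  rw [e, e2, e2] at h
  exact h

/-- Cauchy-Schwarz with the constant function `1` -/
theorem Ex_sq_le (T : Fam G) (f : T.ι → G → ℝ) : (Ex T f) ^ 2 ≤ Ex T fun i x => f i x ^ 2 := by
  have h := Ex_mul_sq_le T f (fun _ _ => 1)
  simp only [mul_one, one_pow, Ex_const] at h
  exact h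

theorem Ex_comm (T : Fam G) (F : T.ι → G → T.ι → G → ℝ) :
    (Ex T fun i x => Ex T fun j y => F i x j y) = Ex T fun j y => Ex T fun i x => F i x j y := by
  have e : ∀ (H : T.ι → G → T.ι → G → ℝ), (Ex T fun i x => Ex T fun j y => H i x j y) =
      ∑ p : T.ι × G, ∑ q : T.ι × G, T.m p.1 p.2 * (T.m q.1 q.2 * H p.1 p.2 q.1 q.2) := by
    intro H
    unfold Ex
    rw [Fintype.sum_prod_type]
    refine Finset.sum_congr rfl fun i _ => Finset.sum_congr rfl fun x _ => ?_
    rw [Fintype.sum_prod_type, Finset.mul_sum]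
    exact Finset.sum_congr rfl fun j _ => by rw [Finset.mul_sum]
  rw [e, e (fun j y i x => F i x j y), Finset.sum_comm]
  refine Finset.sum_congr rfl fun p _ => Finset.sum_congr rfl fun q _ => ?_
  ring

end Pool.Agent.OSP
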