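import Pool.Agent.OSP_h95.MA
import Pool.Agent.OSP_h95.ExLem

/-!
# Random bits: lower bound for the entropy
-/

set_option autoImplicit false

namespace Pool.Agent.OSP

open Finset Real Pool.Agent.QFR

variable {G : Type} [AddCommGroup G] [Fintype G]

/-- `bitMass V ϑ n y û = P(label = y, bits = û)` for the random bits with conditional means
`cos (ϑ b y x)`, `b < n` -/
noncomputable def bitMass (V : Fam G) (ϑ : ℕ → V.ι → G → ℝ) (n : ℕ) (y : V.ι)
    (û : Fin n → Bool) : ℝ :=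
  ∑ x, V.m y x * bw (fun b : Fin n => ϑ b y x) û

theorem BitsLow_aux {P C : ℝ} (hC : 0 ≤ C) (h : C ≤ P) :
    negMulLog P + Real.log 2 * (P - C) ≤ negMulLog ((P + C) / 2) + negMulLog ((P - C) / 2) := by
  rcases (hC.trans h).eq_or_lt with hP | hP
  · have hC0 : C = 0 := le_antisymm (h.trans hP.ge) hC
    subst hC0
    rw [← hP]
    simp
  · have hconc := Real.concaveOn_negMulLog
    set lam := C / P with hlam
    have hl0 : 0 ≤ lam := div_nonneg hC hP.le
    have hl1 : lam ≤ 1 := (div_le_one hP).2 h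
    have hlP : lam * P = C := div_mul_cancel₀ _ hP.ne'
    have hP2 : P / 2 ∈ Set.Ici (0 : ℝ) := by
      simp only [Set.mem_Ici]
      linarith
    have hPm : P ∈ Set.Ici (0 : ℝ) := hP.le
    have h0m : (0 : ℝ) ∈ Set.Ici (0 : ℝ) := Set.self_mem_Ici
    have hl2 : 0 ≤ 1 - lam := by linarith
    have hl3 : 1 - lam + lam = 1 := by ring
    have h1 := hconc.2 hP2 hPm hl2 hl0 hl3
    have h2 := hconc.2 hP2 h0m hl2 hl0 hl3
    simp only [smul_eq_mul, mul_zero, add_zero, negMulLog_zero] at h1 h2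
    have e1 : (1 - lam) * (P / 2) + lam * P = (P + C) / 2 := by
      linear_combination (1 / 2) * hlP
    have e2 : (1 - lam) * (P / 2) = (P - C) / 2 := by
      linear_combination (-1 / 2) * hlP
    rw [e1] at h1
    rw [e2] at h2
    have e3 : negMulLog (P / 2) = negMulLog P / 2 + P / 2 * Real.log 2 := by
      unfold negMulLog
      rw [Real.log_div hP.ne' (by norm_num)]
      ring
    rw [e3] at h1 h2
    have e4 : negMulLog P + Real.log 2 * (P - C) =
        ((1 - lam) * (negMulLog P / 2 + P / 2 * Real.log 2) + lam * negMulLog P) +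
          (1 - lam) * (negMulLog P / 2 + P / 2 * Real.log 2) := by
      linear_combination (Real.log 2) * hlP
    rw [e4]
    linarith

/-- `negMulLog ((P+C)/2) + negMulLog ((P-C)/2) ≥ negMulLog P + log 2 (P - |C|)` for `|C| ≤ P`:
with `λ = |C|/P`, `(P+|C|)/2 = (1-λ) P/2 + λ P`, `(P-|C|)/2 = (1-λ) P/2`, and concavity. -/
theorem two_negMulLog_ge {P C : ℝ} (h : |C| ≤ P) :
    negMulLog P + Real.log 2 * (P - |C|) ≤ negMulLog ((P + C) / 2) + negMulLog ((P - C) / 2) := by
  rcases le_total 0 C with hC | hC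
  · rw [abs_of_nonneg hC] at h ⊢
    exact BitsLow_aux hC h
  · rw [abs_of_nonpos hC] at h ⊢
    have := BitsLow_aux (P := P) (C := -C) (by linarith) h
    have e1 : (P + -C) / 2 = (P - C) / 2 := by ring
    have e2 : (P - -C) / 2 = (P + C) / 2 := by ring
    rw [e1, e2] at this
    linarith

/-- the difference of the two halves of `bitMass (n+1)` -/
noncomputable def BitsLow_C (V : Fam G) (ϑ : ℕ → V.ι → G → ℝ) (n : ℕ) (y : V.ι)
    (û : Fin n → Bool) : ℝ :=
  ∑ x, V.m y x * (cos (ϑ n y x) * bw (fun b : Fin n => ϑ b y x) û)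

theorem BitsLow_snoc (V : Fam G) (ϑ : ℕ → V.ι → G → ℝ) (n : ℕ) (y : V.ι)
    (û : Fin n → Bool) (s : Bool) :
    bitMass V ϑ (n + 1) y (Fin.snoc (α := fun _ => Bool) û s) =
      (bitMass V ϑ n y û + sg s * BitsLow_C V ϑ n y û) / 2 := by
  unfold bitMass BitsLow_C
  rw [Finset.mul_sum, ← Finset.sum_add_distrib, Finset.sum_div]
  refine Finset.sum_congr rfl fun x _ => ?_
  rw [bw_snoc]
  simp only [Fin.val_castSucc, Fin.val_last]
  ring

theorem BitsLow_abs (V : Fam G) (ϑ : ℕ → V.ι → G → ℝ) (n : ℕ) (y : V.ι)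
    (û : Fin n → Bool) : |BitsLow_C V ϑ n y û| ≤ bitMass V ϑ n y û := by
  unfold bitMass BitsLow_C
  refine (Finset.abs_sum_le_sum_abs _ _).trans (Finset.sum_le_sum fun x _ => ?_)
  rw [abs_mul, abs_mul, abs_of_nonneg (V.nn y x), abs_of_nonneg (bw_nonneg _ _)]
  refine mul_le_mul_of_nonneg_left ?_ (V.nn y x)
  have h1 := abs_cos_le_one (ϑ n y x)
  have h2 := bw_nonneg (fun b : Fin n => ϑ b y x) û
  nlinarith

theorem BitsLow_tot (V : Fam G) (ϑ : ℕ → V.ι → G → ℝ) (n : ℕ) (y : V.ι) :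
    ∑ û, bitMass V ϑ n y û = ∑ x, V.m y x := by
  unfold bitMass
  rw [Finset.sum_comm]
  refine Finset.sum_congr rfl fun x _ => ?_
  rw [← Finset.mul_sum, sum_bw, mul_one]

open Classical in
theorem BitsLow_step (V : Fam G) (ϑ : ℕ → V.ι → G → ℝ) (n : ℕ) (X : ℝ)
    (h : ∀ g : V.ι → (Fin n → Bool) → ℝ, (∀ y û, |g y û| ≤ 1) →
      Ex V (fun y x => cos (ϑ n y x) * MA (g y) (fun b : Fin n => ϑ b y x)) ≤ X) :
    ∑ y, ∑ û, |BitsLow_C V ϑ n y û| ≤ X := by
  have hh := h (fun y û => if 0 ≤ BitsLow_C V ϑ n y û then 1 else -1) (fun y û => by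
    split_ifs <;> simp)
  refine le_of_eq_of_le ?_ hh
  unfold Ex
  refine Finset.sum_congr rfl fun y _ => ?_
  unfold MA
  have e : ∀ x : G, V.m y x * (cos (ϑ n y x) * ∑ û : Fin n → Bool,
      (if 0 ≤ BitsLow_C V ϑ n y û then (1 : ℝ) else -1) * bw (fun b : Fin n => ϑ b y x) û) =
      ∑ û : Fin n → Bool, (if 0 ≤ BitsLow_C V ϑ n y û then (1 : ℝ) else -1) *
        (V.m y x * (cos (ϑ n y x) * bw (fun b : Fin n => ϑ b y x) û)) := by
    intro x
    rw [Finset.mul_sum, Finset.mul_sum]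
    exact Finset.sum_congr rfl fun û _ => by ring
  simp only [e]
  rw [Finset.sum_comm]
  refine Finset.sum_congr rfl fun û _ => ?_
  rw [← Finset.mul_sum]
  change |BitsLow_C V ϑ n y û| = (if 0 ≤ BitsLow_C V ϑ n y û then (1 : ℝ) else -1) *
    BitsLow_C V ϑ n y û
  split_ifs with hc
  · rw [abs_of_nonneg hc, one_mul]
  · rw [abs_of_neg (not_le.1 hc)]
    ring

/-- LOWER BOUND FOR THE ENTROPY OF THE BITS.  Induction on `N`: `ent` of zero bits is `0`.  Step:
by `bw_snoc`, `bitMass (n+1) (snoc û s) = (P û + s C û)/2` with `P = bitMass n`,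
`C û = Σ_x V.m y x cos (ϑ n y x) bw û`, and `two_negMulLog_ge` gives
`ent (bitMass (n+1) y) ≥ ent (bitMass n y) + log 2 (Σ_û P û - Σ_û |C û|)`.  Sum over `y`:
`Σ_y Σ_û P û = 1` (`sum_bw`) and `Σ_y Σ_û |C û| = Ex (cos (ϑ n) MA (g y))` with
`g y û = sign (C û)`, which is `≤ x n` by hypothesis. -/
theorem bits_low (V : Fam G) (ϑ : ℕ → V.ι → G → ℝ) (N : ℕ) (X : ℕ → ℝ)
    (h : ∀ a < N, ∀ g : V.ι → (Fin a → Bool) → ℝ, (∀ y û, |g y û| ≤ 1) →
      Ex V (fun y x => cos (ϑ a y x) * MA (g y) (fun b : Fin a => ϑ b y x)) ≤ X a) :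
    Real.log 2 * (N - ∑ a ∈ range N, X a) ≤ ∑ y, ent (bitMass V ϑ N y) := by
  induction N with
  | zero =>
    simp only [Nat.cast_zero, Finset.range_zero, Finset.sum_empty, sub_zero, mul_zero]
    refine Finset.sum_nonneg fun y _ => ?_
    unfold ent
    simp
  | succ n ih =>
    have ih' := ih (fun a ha => h a (by omega))
    have hst := BitsLow_step V ϑ n (X n) (h n (by omega))
    have hy : ∀ y, ent (bitMass V ϑ n y) + Real.log 2 *
        ((∑ û, bitMass V ϑ n y û) - ∑ û, |BitsLow_C V ϑ n y û|) ≤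
          ent (bitMass V ϑ (n + 1) y) := by
      intro y
      unfold ent
      rw [BitsLow_tot, BitsLow_tot, ← BitsLow_tot V ϑ n y, sum_snoc]
      have h1 : ∑ û, (negMulLog (bitMass V ϑ n y û) +
          Real.log 2 * (bitMass V ϑ n y û - |BitsLow_C V ϑ n y û|)) ≤
          ∑ û, (negMulLog (bitMass V ϑ (n + 1) y (Fin.snoc (α := fun _ => Bool) û true)) +
            negMulLog (bitMass V ϑ (n + 1) y (Fin.snoc (α := fun _ => Bool) û false))) := by
        refine Finset.sum_le_sum fun û _ => ?_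
        rw [BitsLow_snoc, BitsLow_snoc]
        have := two_negMulLog_ge (BitsLow_abs V ϑ n y û)
        simpa [sg, sub_eq_add_neg] using this
      rw [Finset.sum_add_distrib, ← Finset.mul_sum, Finset.sum_sub_distrib] at h1
      linarith
    have hsum := Finset.sum_le_sum fun y (_ : y ∈ (Finset.univ : Finset V.ι)) => hy y
    rw [Finset.sum_add_distrib, ← Finset.mul_sum, Finset.sum_sub_distrib] at hsum
    simp only [BitsLow_tot] at hsum
    rw [V.tot] at hsum
    rw [Finset.sum_range_succ]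
    push_cast
    have hl : 0 < Real.log 2 := Real.log_pos (by norm_num)
    nlinarith

end Pool.Agent.OSP
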