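import Pool.Agent.OSP_h95.BitsLow

/-!
# Random bits: upper bound for the entropy
-/

set_option autoImplicit false

namespace Pool.Agent.OSP

open Finset Real Pool.Agent.QFR

variable {G : Type} [AddCommGroup G] [Fintype G]

/-- the case `0 ≤ c` -/
theorem BitsUp_ineq {c : ℝ} (h0 : 0 ≤ c) (h1 : c ≤ 1) :
    c ^ 2 / 4 ≤ (1 + c) / 2 * Real.log (1 + c / 2) + (1 - c) / 2 * Real.log (1 - c / 2) := by
  have k1 : c / 2 - c ^ 2 / 8 ≤ Real.log (1 + c / 2) := by
    have h := Real.le_log_one_add_of_nonneg (x := c / 2) (by linarith)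
    have h2 : c / 2 - c ^ 2 / 8 ≤ 2 * (c / 2) / (c / 2 + 2) := by
      rw [le_div_iff₀ (by linarith)]
      nlinarith [pow_nonneg h0 3]
    exact h2.trans h
  have k2 : -(c / 2) - 3 * c ^ 2 / 8 ≤ Real.log (1 - c / 2) := by
    have hx : |c / 2| = c / 2 := abs_of_nonneg (by linarith)
    have h := Real.abs_log_sub_add_sum_range_le (x := c / 2) (by rw [hx]; linarith) 2
    rw [hx] at h
    have h2 := (abs_le.1 h).1
    have h3 : ∑ i ∈ Finset.range 2, (c / 2) ^ (i + 1) / ((i : ℝ) + 1) = c / 2 + c ^ 2 / 8 := by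
      simp [Finset.sum_range_succ]
      ring
    rw [h3] at h2
    have h4 : (c / 2) ^ (2 + 1) / (1 - c / 2) ≤ c ^ 2 / 4 := by
      rw [div_le_iff₀ (by linarith)]
      nlinarith [mul_nonneg (pow_nonneg h0 2) (sub_nonneg.2 h1)]
    linarith
  have e1 : (1 + c) / 2 * (c / 2 - c ^ 2 / 8) ≤ (1 + c) / 2 * Real.log (1 + c / 2) :=
    mul_le_mul_of_nonneg_left k1 (by linarith)
  have e2 : (1 - c) / 2 * (-(c / 2) - 3 * c ^ 2 / 8) ≤ (1 - c) / 2 * Real.log (1 - c / 2) :=
    mul_le_mul_of_nonneg_left k2 (by linarith)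
  have e3 : c ^ 2 / 4 ≤ (1 + c) / 2 * (c / 2 - c ^ 2 / 8) +
      (1 - c) / 2 * (-(c / 2) - 3 * c ^ 2 / 8) := by
    nlinarith [pow_nonneg h0 3]
  linarith

/-- `(1+c) log(1+c/2)/2 + (1-c) log(1-c/2)/2 ≥ c²/4` for `|c| ≤ 1`
(`log(1+z) ≥ z - z²/2` for `z ≥ 0`, `log(1-z) ≥ -z - z²` for `0 ≤ z ≤ 1/2`; by symmetry `c ≥ 0`). -/
theorem log_half_ineq {c : ℝ} (hc : |c| ≤ 1) :
    c ^ 2 / 4 ≤ (1 + c) / 2 * Real.log (1 + c / 2) + (1 - c) / 2 * Real.log (1 - c / 2) := by
  obtain ⟨h1, h2⟩ := abs_le.1 hc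
  rcases le_total 0 c with h | h
  · exact BitsUp_ineq h h2
  · have h3 := BitsUp_ineq (c := -c) (by linarith) (by linarith)
    have e1 : 1 + -c = 1 - c := by ring
    have e2 : 1 - -c = 1 + c := by ring
    have e3 : 1 + -c / 2 = 1 - c / 2 := by ring
    have e4 : 1 - -c / 2 = 1 + c / 2 := by ring
    rw [neg_sq, e1, e2, e3, e4] at h3
    linarith

theorem BitsUp_sum_p (V : Fam G) : ∑ y, V.p y = 1 := V.tot

theorem BitsUp_p_nonneg (V : Fam G) (y : V.ι) : 0 ≤ V.p y :=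
  Finset.sum_nonneg fun x _ => V.nn y x

theorem BitsUp_m_zero (V : Fam G) {y : V.ι} (h : V.p y = 0) (x : G) : V.m y x = 0 :=
  (Finset.sum_eq_zero_iff_of_nonneg fun x _ => V.nn y x).1 h x (Finset.mem_univ x)

theorem BitsUp_sum (V : Fam G) (ϑ : ℕ → V.ι → G → ℝ) (N : ℕ) (y : V.ι) :
    ∑ û : Fin N → Bool, bitMass V ϑ N y û = V.p y := by
  unfold bitMass
  rw [Finset.sum_comm]
  unfold Fam.p
  refine Finset.sum_congr rfl fun x _ => ?_
  rw [← Finset.mul_sum, sum_bw, mul_one]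

theorem BitsUp_sum_sg (V : Fam G) (ϑ : ℕ → V.ι → G → ℝ) (N : ℕ) (y : V.ι) (b : Fin N) :
    ∑ û : Fin N → Bool, sg (û b) * bitMass V ϑ N y û = ∑ x, V.m y x * cos (ϑ b y x) := by
  unfold bitMass
  have h1 : ∀ û : Fin N → Bool, sg (û b) * ∑ x, V.m y x * bw (fun b : Fin N => ϑ b y x) û =
      ∑ x, V.m y x * (sg (û b) * bw (fun b : Fin N => ϑ b y x) û) := by
    intro û
    rw [Finset.mul_sum]
    exact Finset.sum_congr rfl fun x _ => by ring
  rw [Finset.sum_congr rfl fun û _ => h1 û, Finset.sum_comm]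
  refine Finset.sum_congr rfl fun x _ => ?_
  rw [← Finset.mul_sum, sum_sg_bw]

theorem BitsUp_abs (V : Fam G) (y : V.ι) (θ : G → ℝ) :
    |∑ x, V.m y x * cos (θ x)| ≤ V.p y := by
  refine (Finset.abs_sum_le_sum_abs _ _).trans ?_
  unfold Fam.p
  refine Finset.sum_le_sum fun x _ => ?_
  rw [abs_mul, abs_of_nonneg (V.nn y x)]
  exact mul_le_of_le_one_right (V.nn y x) (abs_cos_le_one _)

theorem BitsUp_sg (b : Bool) : |sg b| = 1 := by
  cases b <;> simp [sg]

theorem BitsUp_log (b : Bool) {c : ℝ} (hc : |c| ≤ 1) :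
    Real.log ((1 + sg b * (c / 2)) / 2) =
      (Real.log (1 + c / 2) + Real.log (1 - c / 2)) / 2 - Real.log 2 +
      sg b * ((Real.log (1 + c / 2) - Real.log (1 - c / 2)) / 2) := by
  obtain ⟨h1, h2⟩ := abs_le.1 hc
  cases b
  · have e : 1 + sg false * (c / 2) = 1 - c / 2 := by
      simp [sg]
      ring
    rw [e, Real.log_div (by linarith) (by norm_num)]
    simp [sg]
    ring
  · have e : 1 + sg true * (c / 2) = 1 + c / 2 := by
      simp [sg]
    rw [e, Real.log_div (by linarith) (by norm_num)]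
    simp [sg]
    ring

theorem BitsUp_one (V : Fam G) (ϑ : ℕ → V.ι → G → ℝ) (N : ℕ) (y : V.ι) :
    ent (bitMass V ϑ N y) ≤ ∑ b ∈ range N, (V.p y * Real.log 2 -
      (1 / 4) * ((∑ x, V.m y x * cos (ϑ b y x)) ^ 2 / V.p y)) := by
  rcases (BitsUp_p_nonneg V y).eq_or_lt with hp | hp
  · have h1 : bitMass V ϑ N y = fun _ => 0 := by
      funext û
      unfold bitMass
      exact Finset.sum_eq_zero fun x _ => by rw [BitsUp_m_zero V hp.symm x, zero_mul]
    rw [h1, ← hp]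
    unfold ent
    simp
  · rw [Finset.sum_range]
    set p := V.p y with hpd
    set C : Fin N → ℝ := fun b => ∑ x, V.m y x * cos (ϑ b y x) with hC
    have hCp : ∀ b, |C b| ≤ p := fun b => BitsUp_abs V y _
    have hc : ∀ b, |C b / p| ≤ 1 := fun b => by
      rw [abs_div, abs_of_pos hp, div_le_one hp]
      exact hCp b
    set s : (Fin N → Bool) → ℝ := bw (fun b => arccos (C b / p / 2)) with hs
    have hcos : ∀ b, cos (arccos (C b / p / 2)) = C b / p / 2 := fun b => by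
      obtain ⟨h1, h2⟩ := abs_le.1 (hc b)
      exact Real.cos_arccos (by linarith) (by linarith)
    have hfac : ∀ (û : Fin N → Bool) b, 0 < (1 + sg (û b) * (C b / p / 2)) / 2 := fun û b => by
      have h3 : |sg (û b) * (C b / p / 2)| ≤ 1 / 2 := by
        rw [abs_mul, BitsUp_sg, one_mul, abs_div, abs_of_pos (by norm_num : (0 : ℝ) < 2)]
        have := hc b
        linarith
      have h4 := (abs_le.1 h3).1
      linarith
    have hsv : ∀ û, s û = ∏ b, (1 + sg (û b) * (C b / p / 2)) / 2 := fun û => by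
      rw [hs]
      unfold bw
      exact Finset.prod_congr rfl fun b _ => by rw [hcos]
    have hspos : ∀ û, 0 < s û := fun û => by
      rw [hsv]
      exact Finset.prod_pos fun b _ => hfac û b
    have hf : ∀ û, 0 ≤ bitMass V ϑ N y û := fun û =>
      Finset.sum_nonneg fun x _ => mul_nonneg (V.nn y x) (bw_nonneg _ _)
    have hg := ent_gibbs (bitMass V ϑ N y) s hf (fun û => (hspos û).le)
      (fun û h => absurd h (hspos û).ne')
    have hs1 : ∑ û, s û = 1 := sum_bw _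
    rw [hs1, Real.log_one, mul_zero, zero_sub] at hg
    refine hg.trans ?_
    have hlog : ∀ û, Real.log (s û) = ∑ b,
        ((Real.log (1 + C b / p / 2) + Real.log (1 - C b / p / 2)) / 2 - Real.log 2 +
        sg (û b) * ((Real.log (1 + C b / p / 2) - Real.log (1 - C b / p / 2)) / 2)) := fun û => by
      rw [hsv, Real.log_prod fun b _ => (hfac û b).ne']
      exact Finset.sum_congr rfl fun b _ => BitsUp_log (û b) (hc b)
    have hsum : ∑ û, bitMass V ϑ N y û * Real.log (s û) = ∑ b : Fin N,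
        (p * ((Real.log (1 + C b / p / 2) + Real.log (1 - C b / p / 2)) / 2 - Real.log 2) +
        C b * ((Real.log (1 + C b / p / 2) - Real.log (1 - C b / p / 2)) / 2)) := by
      rw [Finset.sum_congr rfl fun û _ => by rw [hlog û, Finset.mul_sum], Finset.sum_comm]
      refine Finset.sum_congr rfl fun b _ => ?_
      have h5 : ∀ û : Fin N → Bool, bitMass V ϑ N y û *
          ((Real.log (1 + C b / p / 2) + Real.log (1 - C b / p / 2)) / 2 - Real.log 2 +
          sg (û b) * ((Real.log (1 + C b / p / 2) - Real.log (1 - C b / p / 2)) / 2)) =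
          bitMass V ϑ N y û *
          ((Real.log (1 + C b / p / 2) + Real.log (1 - C b / p / 2)) / 2 - Real.log 2) +
          (sg (û b) * bitMass V ϑ N y û) *
            ((Real.log (1 + C b / p / 2) - Real.log (1 - C b / p / 2)) / 2) := fun û => by ring
      rw [Finset.sum_congr rfl fun û _ => h5 û, Finset.sum_add_distrib, ← Finset.sum_mul,
        ← Finset.sum_mul, BitsUp_sum, BitsUp_sum_sg]
    rw [hsum, ← Finset.sum_neg_distrib]
    refine Finset.sum_le_sum fun b _ => ?_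
    have h6 := mul_le_mul_of_nonneg_left (log_half_ineq (hc b)) hp.le
    have h7 : p * (C b / p) = C b := mul_div_cancel₀ _ hp.ne'
    have h8 : p * ((C b / p) ^ 2 / 4) = 1 / 4 * (C b ^ 2 / p) := by
      field_simp
    have h9 : p * ((1 + C b / p) / 2 * Real.log (1 + C b / p / 2) +
        (1 - C b / p) / 2 * Real.log (1 - C b / p / 2)) =
        p * ((Real.log (1 + C b / p / 2) + Real.log (1 - C b / p / 2)) / 2) +
        C b * ((Real.log (1 + C b / p / 2) - Real.log (1 - C b / p / 2)) / 2) := by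
      calc p * ((1 + C b / p) / 2 * Real.log (1 + C b / p / 2) +
          (1 - C b / p) / 2 * Real.log (1 - C b / p / 2)) =
          p * ((Real.log (1 + C b / p / 2) + Real.log (1 - C b / p / 2)) / 2) +
          (p * (C b / p)) * ((Real.log (1 + C b / p / 2) - Real.log (1 - C b / p / 2)) / 2) := by
            ring
        _ = _ := by rw [h7]
    rw [h8, h9] at h6
    have h10 : C b = ∑ x, V.m y x * cos (ϑ b y x) := rfl
    rw [← h10]
    linarith

/-- UPPER BOUND FOR THE ENTROPY OF THE BITS.  Fix `y`, `p = V.p y` (`> 0`, else all is `0`),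
`C_b = Σ_x V.m y x cos (ϑ b y x)`, `c_b = C_b / p`, `|c_b| ≤ 1`.  `ent_gibbs` for
`f = bitMass V ϑ N y` and the positive law `s û = Π_b (1 + û_b c_b/2)/2` (`Σ s = 1`) gives
`ent f ≤ -Σ_û f û Σ_b log ((1 + û_b c_b/2)/2)`; the marginals are
`Σ_û f û 1[û_b = ±] = (p ± C_b)/2` (`sum_bw`, `sum_sg_bw`), so
`ent f ≤ Σ_b p (log 2 - (1+c_b)/2 log(1+c_b/2) - (1-c_b)/2 log(1-c_b/2)) ≤ Σ_b p (log 2 - c_b²/4)`
(`log_half_ineq`). -/
theorem bits_up (V : Fam G) (ϑ : ℕ → V.ι → G → ℝ) (N : ℕ) :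
    ∑ y, ent (bitMass V ϑ N y) ≤ N * Real.log 2 -
      (1 / 4) * ∑ b ∈ range N, ∑ y, (∑ x, V.m y x * cos (ϑ b y x)) ^ 2 / V.p y := by
  refine (Finset.sum_le_sum fun y _ => BitsUp_one V ϑ N y).trans (le_of_eq ?_)
  rw [Finset.sum_comm, Finset.mul_sum]
  simp only [Finset.sum_sub_distrib, ← Finset.mul_sum, ← Finset.sum_mul]
  rw [BitsUp_sum_p, Finset.sum_const, Finset.card_range, nsmul_eq_mul]
  ring

/-- For any estimator `c y` of `cos ϑ`:
`Σ_y (Σ_x m cos ϑ)² / p ≥ Ex cos² ϑ - Ex (cos ϑ - cos (c y))²`. -/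
theorem cos_est (V : Fam G) (ϑ : V.ι → G → ℝ) (c : V.ι → ℝ) :
    Ex V (fun y x => cos (ϑ y x) ^ 2) - Ex V (fun y x => (ϑ y x - c y) ^ 2) ≤
      ∑ y, (∑ x, V.m y x * cos (ϑ y x)) ^ 2 / V.p y := by
  have h1 : Ex V (fun y x => (cos (ϑ y x) - cos (c y)) ^ 2) ≤
      Ex V (fun y x => (ϑ y x - c y) ^ 2) :=
    Ex_mono V fun y x => sq_le_sq.2 (Real.abs_cos_sub_cos_le _ _)
  have h2 : Ex V (fun y x => cos (ϑ y x) ^ 2) - Ex V (fun y x => (cos (ϑ y x) - cos (c y)) ^ 2) ≤
      ∑ y, (∑ x, V.m y x * cos (ϑ y x)) ^ 2 / V.p y := by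
    rw [← Ex_sub]
    unfold Ex
    refine Finset.sum_le_sum fun y _ => ?_
    have h3 : ∑ x, V.m y x * (cos (ϑ y x) ^ 2 - (cos (ϑ y x) - cos (c y)) ^ 2) =
        2 * cos (c y) * (∑ x, V.m y x * cos (ϑ y x)) - cos (c y) ^ 2 * V.p y := by
      unfold Fam.p
      rw [Finset.mul_sum, Finset.mul_sum, ← Finset.sum_sub_distrib]
      exact Finset.sum_congr rfl fun x _ => by ring
    rw [h3]
    rcases (BitsUp_p_nonneg V y).eq_or_lt with hp | hp
    · have h4 : ∑ x, V.m y x * cos (ϑ y x) = 0 :=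
        Finset.sum_eq_zero fun x _ => by rw [BitsUp_m_zero V hp.symm x, zero_mul]
      rw [h4, ← hp]
      simp
    · rw [le_div_iff₀ hp]
      nlinarith [sq_nonneg ((∑ x, V.m y x * cos (ϑ y x)) - cos (c y) * V.p y)]
  linarith

end Pool.Agent.OSP
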