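import Pool.Agent.OSP_h95.Defs
import Pool.Agent.W_626a77_h48.HellB

/-!
# Centres: a small gain forces small Hellinger distances
-/

set_option autoImplicit false

namespace Pool.Agent.OSP

open Finset Real Pool.Agent.QFR

variable {G : Type} [AddCommGroup G] [Fintype G]

/-- `(T + V)` is described by the masses `conv (T.m i) (V.m v)`.  For a law `f`
(`f ≥ 0`, `Σ f = 1`), `ent (conv m f) - ent m = Σ_t f t Σ_x m(x-t) log (m(x-t) / conv m f x)`
(`klt_one`), and `a log (a/b) ≥ 2 (a - √a √b)` (`l1_term`, the hypothesis `b = 0 → a = 0` holds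
when `f t > 0`) gives
`ent (conv m f) - ent m ≥ Σ_t f t Σ_x (√(m (x-t)) - √(conv m f x))²`
(both functions of `x` have the same sum). -/
theorem hel_le_kl (m f : G → ℝ) (hm : ∀ x, 0 ≤ m x) (hf : ∀ x, 0 ≤ f x) (h1 : ∑ x, f x = 1) :
    ∑ t, f t * ∑ x, (√(m (x - t)) - √(conv m f x)) ^ 2 ≤ ent (conv m f) - ent m := by
  rw [← klt_one m f hm hf h1]
  refine Finset.sum_le_sum fun t _ => ?_
  rcases (hf t).eq_or_lt with h | h
  · rw [← h, zero_mul, zero_mul]
  refine mul_le_mul_of_nonneg_left ?_ h.le
  have hc : ∀ x, 0 ≤ conv m f x := conv_nonneg hm hf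
  have h2 : ∑ x, m (x - t) = ∑ x, conv m f x := by
    rw [sum_conv, h1, mul_one]
    exact Fintype.sum_equiv (Equiv.subRight t) _ _ fun x => rfl
  calc ∑ x, (√(m (x - t)) - √(conv m f x)) ^ 2
      = ∑ x, (2 * (m (x - t) - √(m (x - t)) * √(conv m f x)) + (conv m f x - m (x - t))) := by
        refine Finset.sum_congr rfl fun x _ => ?_
        rw [sub_sq, Real.sq_sqrt (hm _), Real.sq_sqrt (hc x)]
        ring
    _ = ∑ x, 2 * (m (x - t) - √(m (x - t)) * √(conv m f x)) := by
        rw [Finset.sum_add_distrib, Finset.sum_sub_distrib (f := fun x => conv m f x), h2, sub_self,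
          add_zero]
    _ ≤ _ := by
        refine Finset.sum_le_sum fun x _ => l1_term (hm _) (hc x) fun h0 => ?_
        have h3 := klt_le_conv hm hf x t
        rw [h0] at h3
        have h4 : 0 ≤ m (x - t) * f t := mul_nonneg (hm _) h.le
        have h5 : m (x - t) * f t = 0 := le_antisymm h3 h4
        rcases mul_eq_zero.1 h5 with h6 | h6
        · exact h6
        · exact absurd h6 h.ne'

/-- one label -/
theorem center_one (T : Fam G) (g : G → ℝ) (hg : ∀ x, 0 ≤ g x) : ∃ c : G,
    ∑ x, g x * hel T (x - c) ≤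
      4 * (∑ i, ent (conv (T.m i) fun x => g (-x)) - (∑ x, g x) * ∑ i, ent (T.m i)) := by
  classical
  set q := ∑ x, g x with hq
  have hq0 : 0 ≤ q := Finset.sum_nonneg fun x _ => hg x
  rcases hq0.eq_or_lt with h0 | h0
  · have hz : ∀ x, g x = 0 := by
      intro x
      have := (Finset.sum_eq_zero_iff_of_nonneg fun x _ => hg x).1 (hq ▸ h0.symm)
      exact this x (Finset.mem_univ x)
    refine ⟨0, le_of_eq ?_⟩
    have hcz : ∀ i, ent (conv (T.m i) fun x => g (-x)) = 0 := by
      intro i
      have : conv (T.m i) (fun x => g (-x)) = fun x => 0 := by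
        funext x
        unfold conv
        exact Finset.sum_eq_zero fun y _ => by simp only [hz, mul_zero]
      rw [this]
      unfold ent
      simp
    rw [Finset.sum_eq_zero fun x _ => by rw [hz, zero_mul],
      Finset.sum_eq_zero fun i _ => hcz i, ← h0]
    ring
  · set f : G → ℝ := fun t => q⁻¹ * g (-t) with hf
    have hf0 : ∀ t, 0 ≤ f t := fun t => mul_nonneg (inv_nonneg.2 h0.le) (hg _)
    have hf1 : ∑ t, f t = 1 := by
      rw [hf, ← Finset.mul_sum]
      have : ∑ t, g (-t) = q := Fintype.sum_equiv (Equiv.neg G) _ _ fun x => rfl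
      rw [this, inv_mul_cancel₀ h0.ne']
    set Φ : G → ℝ := fun x => ∑ i, ∑ y, (√(T.m i (y + x)) - √(conv (T.m i) f y)) ^ 2 with hΦ
    obtain ⟨c, hc⟩ := Finite.exists_min Φ
    refine ⟨c, ?_⟩
    have hhel : ∀ x, hel T (x - c) ≤ 4 * Φ x := by
      intro x
      have h1 : hel T (x - c) = ∑ i, ∑ y, (√(T.m i (y + c)) - √(T.m i (y + x))) ^ 2 := by
        unfold hel
        refine Finset.sum_congr rfl fun i _ => ?_
        refine (Fintype.sum_equiv (Equiv.addRight x) _ _ fun y => ?_).symm
        simp only [Equiv.coe_addRight]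
        have : y + x - (x - c) = y + c := by abel
        rw [this]
      have h2 : hel T (x - c) ≤ 2 * Φ c + 2 * Φ x := by
        rw [h1, hΦ]
        simp only [Finset.mul_sum]
        rw [← Finset.sum_add_distrib]
        refine Finset.sum_le_sum fun i _ => ?_
        rw [← Finset.sum_add_distrib]
        refine Finset.sum_le_sum fun y _ => ?_
        nlinarith [sq_nonneg (√(T.m i (y + c)) - √(conv (T.m i) f y) +
          (√(T.m i (y + x)) - √(conv (T.m i) f y)))]
      have h3 := hc x
      linarith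
    have hconv : ∀ i, ent (conv (T.m i) fun x => g (-x)) = q * ent (conv (T.m i) f) := by
      intro i
      rw [← ent_smul]
      congr 1
      funext x
      unfold conv
      rw [Finset.mul_sum]
      refine Finset.sum_congr rfl fun y _ => ?_
      rw [hf]
      field_simp
    have hkey : ∑ x, g x * Φ x ≤ q * ∑ i, (ent (conv (T.m i) f) - ent (T.m i)) := by
      have h1 : ∑ x, g x * Φ x = q * ∑ t, f t * Φ (-t) := by
        rw [Finset.mul_sum]
        refine (Fintype.sum_equiv (Equiv.neg G) _ _ fun t => ?_).symm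
        simp only [Equiv.neg_apply, hf]
        field_simp
      rw [h1]
      refine mul_le_mul_of_nonneg_left ?_ h0.le
      have h2 : ∑ t, f t * Φ (-t) =
          ∑ i, ∑ t, f t * ∑ y, (√(T.m i (y - t)) - √(conv (T.m i) f y)) ^ 2 := by
        rw [Finset.sum_comm]
        refine Finset.sum_congr rfl fun t _ => ?_
        rw [hΦ, ← Finset.mul_sum]
        simp only [← sub_eq_add_neg]
      rw [h2]
      exact Finset.sum_le_sum fun i _ => hel_le_kl (T.m i) f (T.nn i) hf0 hf1
    calc ∑ x, g x * hel T (x - c) ≤ ∑ x, g x * (4 * Φ x) :=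
          Finset.sum_le_sum fun x _ => mul_le_mul_of_nonneg_left (hhel x) (hg x)
      _ = 4 * ∑ x, g x * Φ x := by
          rw [Finset.mul_sum]
          exact Finset.sum_congr rfl fun x _ => by ring
      _ ≤ 4 * (q * ∑ i, (ent (conv (T.m i) f) - ent (T.m i))) := by linarith
      _ = _ := by
          have h5 : ∑ i, ent (conv (T.m i) fun x => g (-x)) = q * ∑ i, ent (conv (T.m i) f) := by
            rw [Finset.mul_sum]
            exact Finset.sum_congr rfl fun i _ => hconv i
          rw [Finset.sum_sub_distrib, mul_sub, h5]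

/-- CENTRES.  For a label `v` of `V` with mass `q = Σ_x V.m v x > 0` let `f t = V.m v (-t) / q`
and `Φ x = Σ_i Σ_y (√(T.m i (y + x)) - √(conv (T.m i) f y))²`; take for `c v` a minimum point of
`Φ` on `G`.  Then `hel T (x - c) = Σ_i Σ_y (√(T.m i (y+x)) - √(T.m i (y+c)))²
≤ 2 Φ x + 2 Φ c ≤ 4 Φ x`, and by `hel_le_kl` (and `ent_smul` to pass from `V.m v` to `f`)
`Σ_v Σ_x V.m v x Φ_v x ≤ H(T - V) - H(T)`. -/
theorem exists_center (T V : Fam G) : ∃ c : V.ι → G,
    ∑ v, ∑ x, V.m v x * hel T (x - c v) ≤ 4 * gain T (neg V) := by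
  choose c hc using fun v => center_one T (V.m v) (V.nn v)
  refine ⟨c, (Finset.sum_le_sum fun v _ => hc v).trans (le_of_eq ?_)⟩
  have h1 : (T.add (neg V)).H = ∑ v, ∑ i, ent (conv (T.m i) fun x => V.m v (-x)) := by
    rw [fb_H_add, Finset.sum_comm]
    rfl
  have h2 : ∑ v, (∑ x, V.m v x) * ∑ i, ent (T.m i) = T.H := by
    rw [← Finset.sum_mul, V.tot, one_mul]
    rfl
  rw [← Finset.mul_sum, Finset.sum_sub_distrib, h2]
  unfold gain
  rw [h1]

end Pool.Agent.OSP
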