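import Pool.Agent.W_626a77_h48.Ent

/-!
# Data processing for finite sums
-/

set_option autoImplicit false

namespace Pool.Agent.OSP

open Finset Real Pool.Agent.QFR

/-- `a log (a / b)` for `b = 0 → a = 0` -/
theorem Channel_log {a b : ℝ} (hab : b = 0 → a = 0) :
    a * Real.log (a / b) = a * Real.log a - a * Real.log b := by
  rcases eq_or_ne a 0 with h | h
  · rw [h]; ring
  · have hb : b ≠ 0 := fun hb => h (hab hb)
    rw [Real.log_div h hb]
    ring

/-- DATA PROCESSING FOR `Σ a log (a/b)`: for `a, b ≥ 0` on `X` with `b = 0 → a = 0` and a channel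
`K : X → U`, `K ≥ 0`, `Σ_u K x u = 1`:
`Σ_u A u log (A u / B u) ≤ Σ_x a x log (a x / b x)`, `A u = Σ_x a x K x u`, `B` similarly.
For each `u` the log sum inequality (equivalent to `ent_gibbs` for `f = a K`, `s = b K`). -/
theorem kl_channel {X U : Type} [Fintype X] [Fintype U] (a b : X → ℝ) (K : X → U → ℝ)
    (ha : ∀ x, 0 ≤ a x) (hb : ∀ x, 0 ≤ b x) (hab : ∀ x, b x = 0 → a x = 0)
    (hK : ∀ x u, 0 ≤ K x u) (hK1 : ∀ x, ∑ u, K x u = 1) :
    ∑ u, (∑ x, a x * K x u) * Real.log ((∑ x, a x * K x u) / ∑ x, b x * K x u) ≤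
      ∑ x, a x * Real.log (a x / b x) := by
  have hfs : ∀ u x, b x * K x u = 0 → a x * K x u = 0 := by
    intro u x h
    rcases mul_eq_zero.1 h with h | h
    · rw [hab x h, zero_mul]
    · rw [h, mul_zero]
  have hu : ∀ u, (∑ x, a x * K x u) * Real.log ((∑ x, a x * K x u) / ∑ x, b x * K x u) ≤
      ∑ x, (a x * K x u) * Real.log (a x / b x) := by
    intro u
    have h1 := ent_gibbs (fun x => a x * K x u) (fun x => b x * K x u)
      (fun x => mul_nonneg (ha x) (hK x u)) (fun x => mul_nonneg (hb x) (hK x u)) (hfs u)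
    have h2 : (∑ x, b x * K x u) = 0 → (∑ x, a x * K x u) = 0 := by
      intro h
      have h3 := (Finset.sum_eq_zero_iff_of_nonneg
        (fun x _ => mul_nonneg (hb x) (hK x u))).1 h
      exact Finset.sum_eq_zero fun x hx => hfs u x (h3 x hx)
    rw [Channel_log h2]
    have h4 : ∑ x, (a x * K x u) * Real.log (a x / b x) =
        ∑ x, ((a x * K x u) * Real.log (a x * K x u) - (a x * K x u) * Real.log (b x * K x u)) := by
      refine Finset.sum_congr rfl fun x _ => ?_
      rw [← Channel_log (hfs u x)]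
      rcases eq_or_ne (K x u) 0 with h | h
      · rw [h]; ring
      · rw [mul_div_mul_right _ _ h]
    rw [h4, Finset.sum_sub_distrib]
    unfold ent negMulLog at h1
    simp only [neg_mul, Finset.sum_neg_distrib] at h1
    linarith
  refine (Finset.sum_le_sum fun u _ => hu u).trans (le_of_eq ?_)
  rw [Finset.sum_comm]
  refine Finset.sum_congr rfl fun x _ => ?_
  rw [← Finset.sum_mul, ← Finset.mul_sum, hK1 x, mul_one]

theorem Channel_diff {X κ : Type} [Fintype X] (s : Finset κ) (m : κ → X → ℝ)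
    (hm : ∀ y ∈ s, ∀ x, 0 ≤ m y x) :
    ent (fun x => ∑ y ∈ s, m y x) - ∑ y ∈ s, ent (m y) =
      ∑ y ∈ s, ∑ x, m y x * Real.log (m y x / ∑ z ∈ s, m z x)
        + ((∑ y ∈ s, ∑ x, m y x) * Real.log (∑ y ∈ s, ∑ x, m y x)
        - ∑ y ∈ s, (∑ x, m y x) * Real.log (∑ x, m y x)) := by
  have h1 : ∑ y ∈ s, ∑ x, m y x * Real.log (m y x / ∑ z ∈ s, m z x) =
      ∑ y ∈ s, ∑ x, m y x * Real.log (m y x)
        - ∑ x, (∑ y ∈ s, m y x) * Real.log (∑ z ∈ s, m z x) := by
    rw [eq_sub_iff_add_eq]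
    have h2 : ∑ x, (∑ y ∈ s, m y x) * Real.log (∑ z ∈ s, m z x) =
        ∑ y ∈ s, ∑ x, m y x * Real.log (∑ z ∈ s, m z x) := by
      rw [Finset.sum_comm]
      exact Finset.sum_congr rfl fun x _ => Finset.sum_mul _ _ _
    rw [h2, ← Finset.sum_add_distrib]
    refine Finset.sum_congr rfl fun y hy => ?_
    rw [← Finset.sum_add_distrib]
    refine Finset.sum_congr rfl fun x _ => ?_
    have h3 : (∑ z ∈ s, m z x) = 0 → m y x = 0 := fun h =>
      (Finset.sum_eq_zero_iff_of_nonneg fun z hz => hm z hz x).1 h y hy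
    rw [Channel_log h3]
    ring
  rw [h1]
  unfold ent negMulLog
  simp only [neg_mul, Finset.sum_neg_distrib, Finset.sum_sub_distrib]
  rw [Finset.sum_comm (s := Finset.univ) (t := s)]
  ring

/-- DATA PROCESSING FOR A PARTITION.  `m y ≥ 0` (`y ∈ s`) functions on `X` with sum `M`; then
`ent (M K) - Σ_y ent (m y K) ≤ ent M - Σ_y ent (m y)`, because
`ent M - Σ ent (m y) = Σ_y [Σ_x m_y log (m_y / M) - p_y log (p_y / P)]` and similarly for the
images (the masses `p_y`, `P` are preserved); `kl_channel` for each `y`. -/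
theorem ent_channel {X U κ : Type} [Fintype X] [Fintype U] (s : Finset κ) (m : κ → X → ℝ)
    (K : X → U → ℝ) (hm : ∀ y ∈ s, ∀ x, 0 ≤ m y x) (hK : ∀ x u, 0 ≤ K x u)
    (hK1 : ∀ x, ∑ u, K x u = 1) :
    ent (fun u => ∑ x, (∑ y ∈ s, m y x) * K x u) - ∑ y ∈ s, ent (fun u => ∑ x, m y x * K x u) ≤
      ent (fun x => ∑ y ∈ s, m y x) - ∑ y ∈ s, ent (m y) := by
  have e1 : ∀ u, ∑ x, (∑ y ∈ s, m y x) * K x u = ∑ y ∈ s, ∑ x, m y x * K x u := by
    intro u
    rw [Finset.sum_comm]
    exact Finset.sum_congr rfl fun x _ => Finset.sum_mul _ _ _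
  have e2 : (fun u => ∑ x, (∑ y ∈ s, m y x) * K x u) =
      fun u => ∑ y ∈ s, (fun y u => ∑ x, m y x * K x u) y u := funext e1
  have e3 : ∀ y, ∑ u, ∑ x, m y x * K x u = ∑ x, m y x := by
    intro y
    rw [Finset.sum_comm]
    refine Finset.sum_congr rfl fun x _ => ?_
    rw [← Finset.mul_sum, hK1 x, mul_one]
  have h1 := Channel_diff s (fun y u => ∑ x, m y x * K x u)
    (fun y hy u => Finset.sum_nonneg fun x _ => mul_nonneg (hm y hy x) (hK x u))
  rw [e2]
  simp only [e3] at h1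
  rw [h1, Channel_diff s m hm]
  refine add_le_add_left (Finset.sum_le_sum fun y hy => ?_) _
  have h2 := kl_channel (m y) (fun x => ∑ z ∈ s, m z x) K (hm y hy)
    (fun x => Finset.sum_nonneg fun z hz => hm z hz x)
    (fun x h => (Finset.sum_eq_zero_iff_of_nonneg fun z hz => hm z hz x).1 h y hy) hK hK1
  simpa only [e1] using h2

end Pool.Agent.OSP
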