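import Pool.Agent.OSP_h95.F1
import Pool.Agent.OSP_h95.Channel

/-!
# Data processing
-/

set_option autoImplicit false

namespace Pool.Agent.OSP

open Finset Real Pool.Agent.QFR

variable {G : Type} [AddCommGroup G] [Fintype G]

theorem DataProc_tot (T : Fam G) (x : G) : ∑ j, ∑ s : G, (neg T).m j (s - x) = 1 := by
  have h1 : ∀ j, ∑ s : G, (neg T).m j (s - x) = ∑ y, (neg T).m j y := fun j =>
    Fintype.sum_equiv (Equiv.subRight x) _ _ fun s => rfl
  simp only [h1]
  exact (neg T).tot

open Classical in
/-- the labels of `W T n` project to the labels of `T` (induction; compare `refines_fib_left`) -/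
theorem W_proj (T : Fam G) (n : ℕ) (i : T.ι) (x : G) :
    T.m i x = ∑ y, if lab T n y = i then (W T n).m y x else 0 := by
  induction n with
  | zero =>
    show T.m i x = ∑ y : T.ι, if y = i then T.m y x else 0
    rw [Finset.sum_eq_single i]
    · rw [if_pos rfl]
    · intro b _ hb
      rw [if_neg hb]
    · intro h
      exact absurd (Finset.mem_univ i) h
  | succ n ih =>
    rw [ih]
    show _ = ∑ y : (W T n).ι × T.ι × G, if lab T n y.1 = i then
      (W T n).m y.1 x * (neg T).m y.2.1 (y.2.2 - x) else 0
    rw [Fintype.sum_prod_type]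
    refine Finset.sum_congr rfl fun y _ => ?_
    rw [Fintype.sum_prod_type]
    by_cases h : lab T n y = i
    · simp only [if_pos h]
      have h2 : ∑ j : T.ι, ∑ s : G, (W T n).m y x * (neg T).m j (s - x) =
          (W T n).m y x * ∑ j, ∑ s : G, (neg T).m j (s - x) := by
        rw [Finset.mul_sum]
        exact Finset.sum_congr rfl fun j _ => (Finset.mul_sum _ _ _).symm
      rw [h2, DataProc_tot, mul_one]
    · simp only [if_neg h, Finset.sum_const_zero]

/-- expectations of functions of the first label and of `x` -/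
theorem Ex_W (T : Fam G) (n : ℕ) (f : T.ι → G → ℝ) :
    Ex (W T n) (fun y x => f (lab T n y) x) = Ex T f := by
  classical
  unfold Ex
  have h1 : ∀ i, ∑ x, T.m i x * f i x =
      ∑ y : (W T n).ι, ∑ x : G,
        if lab T n y = i then (W T n).m y x * f (lab T n y) x else 0 := by
    intro i
    rw [Finset.sum_comm]
    refine Finset.sum_congr rfl fun x _ => ?_
    rw [W_proj T n i x, Finset.sum_mul]
    refine Finset.sum_congr rfl fun y _ => ?_
    by_cases h : lab T n y = i
    · simp only [if_pos h]
      rw [h]
    · simp only [if_neg h, zero_mul]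
  simp only [h1]
  symm
  rw [Finset.sum_comm]
  refine Finset.sum_congr rfl fun y _ => ?_
  rw [Finset.sum_comm]
  refine Finset.sum_congr rfl fun x _ => ?_
  rw [Finset.sum_ite_eq Finset.univ (lab T n y)
    (fun _ => (W T n).m y x * f (lab T n y) x), if_pos (Finset.mem_univ _)]

/-- `ent_channel` for every label `i` of `T`, `s = {y | lab T n y = i}`, `m = (W T n).m`, and the
channel `K x û = k i x û`. -/
theorem data_proc (T : Fam G) (n : ℕ) {U : Type} [Fintype U] (k : T.ι → G → U → ℝ)
    (hk : ∀ i x u, 0 ≤ k i x u) (hk1 : ∀ i x, ∑ u, k i x u = 1) :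
    ∑ i, ent (fun u => ∑ x, T.m i x * k i x u) -
      ∑ y, ent (fun u => ∑ x, (W T n).m y x * k (lab T n y) x u) ≤ T.H - (W T n).H := by
  classical
  have hW : ∀ i x, T.m i x = ∑ y ∈ Finset.univ.filter (fun y => lab T n y = i),
      (W T n).m y x := by
    intro i x
    rw [Finset.sum_filter, W_proj T n i x]
  have h1 : ∀ i, ent (fun u => ∑ x, T.m i x * k i x u) -
      ∑ y ∈ Finset.univ.filter (fun y => lab T n y = i),
        ent (fun u => ∑ x, (W T n).m y x * k (lab T n y) x u) ≤
      ent (T.m i) - ∑ y ∈ Finset.univ.filter (fun y => lab T n y = i), ent ((W T n).m y) := by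
    intro i
    have h2 := ent_channel (Finset.univ.filter (fun y => lab T n y = i)) (W T n).m (k i)
      (fun y _ x => (W T n).nn y x) (hk i) (hk1 i)
    simp only [← hW] at h2
    have h3 : ∑ y ∈ Finset.univ.filter (fun y => lab T n y = i),
        ent (fun u => ∑ x, (W T n).m y x * k (lab T n y) x u) =
        ∑ y ∈ Finset.univ.filter (fun y => lab T n y = i),
        ent (fun u => ∑ x, (W T n).m y x * k i x u) := by
      refine Finset.sum_congr rfl fun y hy => ?_
      rw [(Finset.mem_filter.1 hy).2]
    rw [h3]
    exact h2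
  have h4 := Finset.sum_le_sum fun i (_ : i ∈ Finset.univ) => h1 i
  rw [Finset.sum_sub_distrib, Finset.sum_sub_distrib,
    Finset.sum_fiberwise Finset.univ (lab T n), Finset.sum_fiberwise Finset.univ (lab T n)] at h4
  exact h4

end Pool.Agent.OSP
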