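import Pool.Agent.W_626a77_h48.FamB
import Pool.Agent.W_626a77_h48.FamX
import Pool.Agent.W_626a77_h48.FamU

/-!
# One-sided Freiman-Ruzsa theorem with polynomial constants: definitions

We work with the conditional random variables (families) `Fam G` of `Pool.Agent.QFR`:
`T.m i x = P(Z = i, Y = x)`.
-/

set_option autoImplicit false

namespace Pool.Agent.OSP

open Finset Real Pool.Agent.QFR

variable {G : Type} [AddCommGroup G] [Fintype G]

/-- the family of `-Y` -/
noncomputable def neg (a : Fam G) : Fam G where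
  ι := a.ι
  m := fun i x => a.m i (-x)
  nn := fun i x => a.nn i (-x)
  tot := by
    rw [← a.tot]
    refine Finset.sum_congr rfl fun i _ => ?_
    exact Fintype.sum_equiv (Equiv.neg G) _ _ fun x => rfl

/-- `H(Y - Y') - H(Y)` -/
noncomputable def dbl (T : Fam G) : ℝ := (T.add (neg T)).H - T.H

/-- `H(T + V) - H(T)` -/
noncomputable def gain (T V : Fam G) : ℝ := (T.add V).H - T.H

/-- the functional which is minimised -/
noncomputable def Phi (X : Fam G) (lam : ℝ) (T : Fam G) : ℝ :=
  dbl T + lam * (2 * (X.add T).H - X.H - T.H)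

/-- the consequence of near-minimality which is used throughout -/
def Mini (T : Fam G) (lam δ : ℝ) : Prop :=
  ∀ V : Fam G, (1 - lam) * gain T V - δ ≤
    ((T.add V).add (neg (T.add V))).H - (T.add (neg T)).H

/-- `W 0 = T`, `W (n+1) = (W n | W n - T)` with a new independent copy of `T` -/
noncomputable def W (T : Fam G) : ℕ → Fam G
  | 0 => T
  | n + 1 => (W T n).fib (neg T)

/-- the label of the first copy of `T` -/
noncomputable def lab (T : Fam G) : (n : ℕ) → (W T n).ι → T.ι
  | 0 => fun i => i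
  | n + 1 => fun y => lab T n y.1

/-- squared Hellinger distance between `T` and its translate by `D` -/
noncomputable def hel (T : Fam G) (D : G) : ℝ :=
  ∑ i, ∑ x, (√(T.m i (x - D)) - √(T.m i x)) ^ 2

/-- expectation -/
noncomputable def Ex (T : Fam G) (f : T.ι → G → ℝ) : ℝ := ∑ i, ∑ x, T.m i x * f i x

open Classical in
/-- the uniform law on `{0, D}` -/
noncomputable def berLaw (D : G) (x : G) : ℝ :=
  (if x = 0 then 1 / 2 else 0) + (if x = D then 1 / 2 else 0)

lemma berLaw_nonneg (D x : G) : 0 ≤ berLaw D x := by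
  unfold berLaw
  split_ifs <;> norm_num

lemma sum_berLaw (D : G) : ∑ x, berLaw D x = 1 := by
  classical
  unfold berLaw
  rw [Finset.sum_add_distrib, Finset.sum_ite_eq', Finset.sum_ite_eq']
  simp only [Finset.mem_univ, if_true]
  norm_num

/-- the uniform law on `{0, D}` as a family -/
noncomputable def ber (D : G) : Fam G := Fam.single (berLaw D) (berLaw_nonneg D) (sum_berLaw D)

/-- `(T + T^D) / 2` -/
noncomputable def avg (T : Fam G) (D : G) (i : T.ι) (x : G) : ℝ := (T.m i x + T.m i (x - D)) / 2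

/-- `(T^D - T) / (T^D + T)` -/
noncomputable def rat (T : Fam G) (D : G) (i : T.ι) (x : G) : ℝ :=
  (T.m i (x - D) - T.m i x) / (T.m i (x - D) + T.m i x)

/-- the expectation of `rat ^ 2` with respect to `avg` -/
noncomputable def eps2 (T : Fam G) (D : G) : ℝ := ∑ i, ∑ x, avg T D i x * rat T D i x ^ 2

/-- the translate by `D` is described by a bounded near-homomorphism `f` -/
def Nice (T : Fam G) (D : G) (R η B C : ℝ) : Prop :=
  ∃ (u f : T.ι → G → ℝ) (w : T.ι → T.ι → G → ℝ),
    (∑ i, ∑ x, |T.m i (x - D) - T.m i x - T.m i x * u i x| ≤ C * R ^ 2) ∧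
    (∀ i x, |f i x| ≤ B * R) ∧ (∀ i j s, |w i j s| ≤ 2 * (B * R)) ∧
    (Ex T (fun i x => (u i x - f i x) ^ 2) ≤ η * R ^ 2) ∧
    (Ex T (fun i x => Ex T fun j y => (w i j (x - y) - (f i x - f j y)) ^ 2) ≤ η * R ^ 2) ∧
    (∑ i, ∑ x, (√(T.m i (x - D)) - √(T.m i x) - √(T.m i x) * u i x / 2) ^ 2 ≤ η * R ^ 2)

end Pool.Agent.OSP
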