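import Pool.Agent.OSP_h95.DataProc
import Pool.Agent.OSP_h95.ExLem

/-!
# Estimating from the differences with `n` new copies
-/

set_option autoImplicit false

namespace Pool.Agent.OSP

open Finset Real Pool.Agent.QFR

variable {G : Type} [AddCommGroup G] [Fintype G]

/-- sum of `h` over the `n` observed differences -/
noncomputable def est (T : Fam G) (h : T.ι → T.ι → G → ℝ) : (n : ℕ) → (W T n).ι → ℝ
  | 0 => fun _ => 0
  | n + 1 => fun y => est T h n y.1 + h (lab T n y.1) y.2.1 y.2.2

/-- expectations over `W T (n+1)`: a new independent copy of `T` -/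
theorem Est_step (T : Fam G) (n : ℕ) (F : (W T n).ι → T.ι → G → G → ℝ) :
    Ex (W T (n + 1)) (fun y x => F y.1 y.2.1 y.2.2 x) =
      Ex (W T n) (fun y x => Ex T (fun j z => F y j (x - z) x)) := by
  have h1 : Ex (W T (n + 1)) (fun y x => F y.1 y.2.1 y.2.2 x) =
      ∑ y : (W T n).ι × T.ι × G, ∑ x, ((W T n).m y.1 x * T.m y.2.1 (-(y.2.2 - x))) *
        F y.1 y.2.1 y.2.2 x := rfl
  rw [h1, Fintype.sum_prod_type]
  unfold Ex
  refine Finset.sum_congr rfl fun y _ => ?_
  rw [Fintype.sum_prod_type]
  calc ∑ j, ∑ s, ∑ x, ((W T n).m y x * T.m j (-(s - x))) * F y j s x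
      = ∑ j, ∑ x, ∑ s, ((W T n).m y x * T.m j (-(s - x))) * F y j s x :=
        Finset.sum_congr rfl fun j _ => Finset.sum_comm
    _ = ∑ x, ∑ j, ∑ s, ((W T n).m y x * T.m j (-(s - x))) * F y j s x := Finset.sum_comm
    _ = ∑ x, (W T n).m y x * ∑ j, ∑ z, T.m j z * F y j (x - z) x := by
        refine Finset.sum_congr rfl fun x _ => ?_
        rw [Finset.mul_sum]
        refine Finset.sum_congr rfl fun j _ => ?_
        rw [Finset.mul_sum]
        refine Fintype.sum_equiv (Equiv.subLeft x) _ _ fun s => ?_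
        rw [Equiv.subLeft_apply, sub_sub_cancel, neg_sub, mul_assoc]

/-- variance -/
theorem Est_var (T : Fam G) (f : T.ι → G → ℝ) (a : ℝ) :
    Ex T (fun j z => (a + (f j z - Ex T f)) ^ 2) ≤ a ^ 2 + Ex T fun j z => f j z ^ 2 := by
  set e := Ex T f with he
  have h1 : Ex T (fun j z => (a + (f j z - e)) ^ 2) =
      Ex T (fun j z => f j z ^ 2) + (2 * (a - e)) * Ex T f + (a - e) ^ 2 := by
    rw [← Ex_mul_left, ← Ex_add, ← Ex_const T ((a - e) ^ 2), ← Ex_add]
    refine congrArg (Ex T) ?_
    funext j z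
    ring
  rw [h1, ← he]
  nlinarith [sq_nonneg e]

/-- THE ESTIMATOR.  With `et i x = Ex_{(j,y)} h i j (x - y)`:
`Ex_{W T n} (est - n et)² ≤ n Ex Ex h²`.  Induction: the family `W T (n+1) = (W T n).fib (neg T)`
has labels `(y, j, s)` and masses `(W T n).m y x * T.m j (x - s)`; summing over `s` amounts to
summing over the value `z = x - s` of a new independent copy of `T`, and
`est_{n+1} - (n+1) et = (est_n - n et) + (h i j (x - z) - et i x)`, where the second term has
conditional mean `0` given `(y, x)` and second moment `≤ Ex Ex h²` (`Ex_W`). -/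
theorem est_bound (T : Fam G) (h : T.ι → T.ι → G → ℝ) (n : ℕ) :
    Ex (W T n) (fun y x =>
      (est T h n y - n * Ex T fun j z => h (lab T n y) j (x - z)) ^ 2) ≤
    n * Ex T fun i x => Ex T fun j z => h i j (x - z) ^ 2 := by
  induction n with
  | zero =>
    have h0 : Ex (W T 0) (fun y x =>
        (est T h 0 y - (0 : ℕ) * Ex T fun j z => h (lab T 0 y) j (x - z)) ^ 2) =
        Ex (W T 0) (fun _ _ => (0 : ℝ)) := by
      refine congrArg (Ex (W T 0)) ?_
      funext y x
      simp [est]
    rw [h0, Ex_const]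
    simp
  | succ n ih =>
    have h1 : Ex (W T (n + 1)) (fun y x =>
        (est T h (n + 1) y - ((n + 1 : ℕ) : ℝ) *
          Ex T fun j z => h (lab T (n + 1) y) j (x - z)) ^ 2) =
        Ex (W T n) (fun y x => Ex T (fun j z =>
          ((est T h n y + h (lab T n y) j (x - z)) - ((n + 1 : ℕ) : ℝ) *
            Ex T fun j z => h (lab T n y) j (x - z)) ^ 2)) :=
      Est_step T n (fun y j s x => ((est T h n y + h (lab T n y) j s) - ((n + 1 : ℕ) : ℝ) *
            Ex T fun j z => h (lab T n y) j (x - z)) ^ 2)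
    have h2 : ∀ (y : (W T n).ι) (x : G), Ex T (fun j z =>
          ((est T h n y + h (lab T n y) j (x - z)) - ((n + 1 : ℕ) : ℝ) *
            Ex T fun j z => h (lab T n y) j (x - z)) ^ 2) ≤
          (est T h n y - n * Ex T fun j z => h (lab T n y) j (x - z)) ^ 2 +
            Ex T fun j z => h (lab T n y) j (x - z) ^ 2 := by
      intro y x
      have h3 := Est_var T (fun j z => h (lab T n y) j (x - z))
        (est T h n y - n * Ex T fun j z => h (lab T n y) j (x - z))
      refine le_trans (le_of_eq ?_) h3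
      refine congrArg (Ex T) ?_
      funext j z
      push_cast
      ring
    rw [h1]
    refine (Ex_mono (W T n) h2).trans ?_
    rw [Ex_add]
    have h4 := Ex_W T n (fun i x => Ex T fun j z => h i j (x - z) ^ 2)
    rw [h4]
    push_cast
    linarith

end Pool.Agent.OSP
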