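import Pool.Agent.OSP_h95.TestB
import Pool.Agent.OSP_h95.BitsUp
import Pool.Agent.OSP_h95.Est

/-!
# The number of independent near-homomorphisms is at most `O(κ)`
-/

set_option autoImplicit false

namespace Pool.Agent.OSP

open Finset Real Pool.Agent.QFR

variable {G : Type} [AddCommGroup G] [Fintype G]

/-- one observable: the entropy of its bit given the observed differences is small -/
theorem dim_one {T : Fam G} {N : ℕ} {S : SysData T N} {η B C ν : ℝ} (h : S.Ok η B C ν)
    (h2 : SysData.err N S.R S.t B C 200 ≤ 1) (M : ℕ) (hM : 0 < M) {b : ℕ} (hb : b < N) :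
    1 / 2 - (1 / 100 + S.xi b) / 2 - 10000 / M * (Ex T fun i x => Ex T fun j y =>
      S.hh b i j (x - y) ^ 2) ≤
    ∑ y, (∑ x, (W T M).m y x * cos (100 * S.et b (lab T M y) x)) ^ 2 / (W T M).p y := by
  have hM0 : (0 : ℝ) < M := by exact_mod_cast hM
  have h3 := cos_est (W T M) (fun y x => 100 * S.et b (lab T M y) x)
    (fun y => 100 * (est T (S.hh b) M y / M))
  refine le_trans ?_ h3
  have h4 : Ex (W T M) (fun y x => cos (100 * S.et b (lab T M y) x) ^ 2) =
      Ex T (fun i x => cos (100 * S.et b i x) ^ 2) :=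
    Ex_W T M (fun i x => cos (100 * S.et b i x) ^ 2)
  have h5 : Ex T (fun i x => cos (100 * S.et b i x) ^ 2) =
      1 / 2 + Ex T (fun i x => cos (2 * (100 * S.et b i x))) / 2 := by
    have e : (fun (i : T.ι) (x : G) => cos (100 * S.et b i x) ^ 2) = fun i x =>
        1 / 2 + (1 / 2) * cos (2 * (100 * S.et b i x)) := by
      funext i x
      rw [Real.cos_sq]
      ring
    rw [e, Ex_add T (fun _ _ => 1 / 2), Ex_const, Ex_mul_left]
    ring
  have h6 := SysData.test_cos_two h hb (τ := 100) (by norm_num)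
  have h7 : (1 + SysData.err N S.R S.t B C (2 * 100)) / (2 * 100) ≤ 1 / 100 := by
    norm_num at h2 ⊢
    linarith
  have h8 := (abs_le.1 h6).1
  have h9 : Ex (W T M) (fun y x => (100 * S.et b (lab T M y) x -
      100 * (est T (S.hh b) M y / M)) ^ 2) ≤
      10000 / M * (Ex T fun i x => Ex T fun j y => S.hh b i j (x - y) ^ 2) := by
    have e : (fun (y : (W T M).ι) (x : G) => (100 * S.et b (lab T M y) x -
        100 * (est T (S.hh b) M y / M)) ^ 2) = fun y x => 10000 / (M : ℝ) ^ 2 *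
        (est T (S.hh b) M y - M * Ex T fun j z => S.hh b (lab T M y) j (x - z)) ^ 2 := by
      funext y x
      show (100 * (Ex T fun j z => S.hh b (lab T M y) j (x - z)) -
        100 * (est T (S.hh b) M y / M)) ^ 2 = _
      field_simp
      ring
    rw [e, Ex_mul_left]
    have h10 := est_bound T (S.hh b) M
    calc 10000 / (M : ℝ) ^ 2 * _ ≤ 10000 / (M : ℝ) ^ 2 *
          (M * Ex T fun i x => Ex T fun j z => S.hh b i j (x - z) ^ 2) := by gcongr
      _ = _ := by field_simp
  rw [h4, h5]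
  linarith

/-- the main inequality -/
theorem dim_bound {T : Fam G} {N : ℕ} {S : SysData T N} {η B C ν κ : ℝ} (h : S.Ok η B C ν)
    (hη : η ≤ S.t) (hκ : dbl T ≤ κ)
    (hΞ : 6 * ν + 9 * η / S.t + 27 * B ^ 2 * C ^ 2 * N ^ 3 * S.R ^ 2 / S.t ^ 2 ≤ 1 / 2500)
    (h1 : SysData.err N S.R S.t B C 100 ≤ 1) (h2 : SysData.err N S.R S.t B C 200 ≤ 1) :
    (N : ℝ) ≤ 40000000 * κ := by
  obtain ⟨M, hM⟩ : ∃ M : ℕ, M = 2000000 := ⟨_, rfl⟩
  have hM0 : 0 < M := by rw [hM]; norm_num
  have hMr : (M : ℝ) = 2000000 := by rw [hM]; norm_num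
  have hN0 : (0 : ℝ) ≤ N := Nat.cast_nonneg _
  -- sum of the errors
  have hxi : ∑ a ∈ range N, S.xi a ≤ N / 50 := by
    have e1 := SysData.sum_xi h
    have e2 : √(6 * ν + 9 * η / S.t + 27 * B ^ 2 * C ^ 2 * N ^ 3 * S.R ^ 2 / S.t ^ 2) ≤ 1 / 50 := by
      rw [Real.sqrt_le_left (by norm_num)]
      linarith
    calc _ ≤ _ := e1
      _ ≤ N * (1 / 50) := by gcongr
      _ = _ := by ring
  -- lower bound
  have hlow := bits_low T (fun a i x => 100 * S.et a i x) N (fun a => 1 / 50 + S.xi a) (by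
    intro a ha g hg
    have e1 := (le_abs_self _).trans (SysData.test_cos h ha (τ := 100) (by norm_num) g hg)
    refine e1.trans ?_
    have : (1 + SysData.err N S.R S.t B C 100) / 100 ≤ 1 / 50 := by linarith
    linarith)
  rw [Finset.sum_add_distrib, Finset.sum_const, Finset.card_range, nsmul_eq_mul] at hlow
  -- upper bound
  have hup := bits_up (W T M) (fun b y x => 100 * S.et b (lab T M y) x) N
  have hsum : ∑ b ∈ range N, (1 / 2 - (1 / 100 + S.xi b) / 2 - 10000 / M *
      (Ex T fun i x => Ex T fun j y => S.hh b i j (x - y) ^ 2)) ≤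
      ∑ b ∈ range N, ∑ y, (∑ x, (W T M).m y x * cos (100 * S.et b (lab T M y) x)) ^ 2 /
        (W T M).p y :=
    Finset.sum_le_sum fun b hb => dim_one h h2 M hM0 (Finset.mem_range.1 hb)
  have hV := SysData.sum_hh_sq h hη
  have e0 : ∑ b ∈ range N, (1 / 2 - (1 / 100 + S.xi b) / 2 - 10000 / M *
      (Ex T fun i x => Ex T fun j y => S.hh b i j (x - y) ^ 2)) =
      N / 2 - (N / 100 + ∑ b ∈ range N, S.xi b) / 2 - 10000 / 2000000 *
        ∑ b ∈ range N, (Ex T fun i x => Ex T fun j y => S.hh b i j (x - y) ^ 2) := by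
    have e1 : ∑ b ∈ range N, (1 / 100 + S.xi b) / 2 =
        (N / 100 + ∑ b ∈ range N, S.xi b) / 2 := by
      rw [← Finset.sum_div, Finset.sum_add_distrib, Finset.sum_const, Finset.card_range,
        nsmul_eq_mul]
      ring
    rw [Finset.sum_sub_distrib, Finset.sum_sub_distrib, e1, ← Finset.mul_sum, hMr,
      Finset.sum_const, Finset.card_range, nsmul_eq_mul]
    ring
  rw [e0] at hsum
  -- data processing
  have hdp := data_proc T M (U := Fin N → Bool)
    (fun i x û => bw (fun b : Fin N => 100 * S.et b i x) û)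
    (fun i x û => bw_nonneg _ _) (fun i x => sum_bw _)
  have hW := H_W_ge T M
  have hdp' : ∑ i, ent (bitMass T (fun a i x => 100 * S.et a i x) N i) -
      ∑ y, ent (bitMass (W T M) (fun b y x => 100 * S.et b (lab T M y) x) N y) ≤
      T.H - (W T M).H := hdp
  rw [hMr] at hW
  have hκ0 : 0 ≤ κ := (sub_nonneg.2 (H_le_add_left _ _) : 0 ≤ dbl T).trans hκ
  have hlog1 := Real.log_two_gt_d9
  have hlog2 := Real.log_two_lt_d9
  have e3 : Real.log 2 * (N * (1 / 50) + ∑ a ∈ range N, S.xi a) ≤ 0.694 * (N / 25) := by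
    have : (N : ℝ) * (1 / 50) + ∑ a ∈ range N, S.xi a ≤ N / 25 := by linarith
    calc Real.log 2 * (N * (1 / 50) + ∑ a ∈ range N, S.xi a) ≤ Real.log 2 * (N / 25) := by
          gcongr
      _ ≤ 0.694 * (N / 25) := by gcongr; linarith
  have e4 : Real.log 2 * ((N : ℝ) - (N * (1 / 50) + ∑ a ∈ range N, S.xi a)) =
      Real.log 2 * N - Real.log 2 * (N * (1 / 50) + ∑ a ∈ range N, S.xi a) := by ring
  rw [e4] at hlow
  have e5 : 2000000 * dbl T ≤ 2000000 * κ := by linarith
  nlinarith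

end Pool.Agent.OSP
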