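import Pool.Agent.OSP_h95.Popular

/-!
# Disjoint translates
-/

set_option autoImplicit false

namespace Pool.Agent.OSP

open Finset Real
open scoped Pointwise

variable {G : Type} [AddCommGroup G] [DecidableEq G]

/-- DISJOINT TRANSLATES.  Let `Q = prog w J` (`|Q| = J`, so `j ↦ j w` is injective on `range J`) and
`A' = {a ∈ A : #{j < J : a + j w ∈ Z} ≥ J/4}`; `|A'| ≥ |A|/4` (otherwise the sum would be
less than `|A| J/4 + |A| J/4`).  Choose `A'' ⊆ A'` maximal with the translates `a + Q` pairwise
disjoint; `|A''| J / 4 ≤ |Z|`.  Every `a' ∈ A'` lies in `A'' + Q - Q`, so `A' + Q` is contained in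
`A'' + {j w : -J < j < 2J}`, a set of at most `3 J |A''| ≤ 12 |Z|` elements. -/
theorem disjoint_translates (A Z : Finset G) (w : G) (J : ℕ) (hJ : (prog w J).card = J)
    (h : (A.card : ℝ) * J / 2 ≤
        ∑ a ∈ A, (((Finset.range J).filter fun j : ℕ => a + j • w ∈ Z).card : ℝ)) :
    ∃ A' ⊆ A, (A.card : ℝ) ≤ 4 * A'.card ∧
      ((A' + prog w J).card : ℝ) ≤ 12 * Z.card := by
  rcases Nat.eq_zero_or_pos J with hJ0 | hJpos
  · subst hJ0
    refine ⟨A, subset_rfl, by linarith [(Nat.cast_nonneg A.card : (0 : ℝ) ≤ A.card)], ?_⟩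
    have h0 : prog w 0 = ∅ := by unfold prog; simp
    rw [h0]
    simp
  have hinj : Set.InjOn (fun j : ℕ => j • w) (Finset.range J : Finset ℕ) := by
    apply Finset.injOn_of_card_image_eq
    rw [Finset.card_range]
    exact hJ
  have hJr : (0 : ℝ) < J := by exact_mod_cast hJpos
  set F : G → Finset ℕ := fun a => (Finset.range J).filter fun j : ℕ => a + j • w ∈ Z with hF
  set A' := A.filter (fun a => (J : ℝ) / 4 ≤ (F a).card) with hA'
  -- the size of A'
  have hsize : (A.card : ℝ) ≤ 4 * A'.card := by
    have h1 : ∑ a ∈ A, ((F a).card : ℝ) ≤ A'.card * J + A.card * (J / 4) := by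
      rw [← Finset.sum_filter_add_sum_filter_not A (fun a => (J : ℝ) / 4 ≤ (F a).card)]
      refine add_le_add ?_ ?_
      · have : ∑ a ∈ A', ((F a).card : ℝ) ≤ ∑ a ∈ A', (J : ℝ) := by
          refine Finset.sum_le_sum fun a _ => ?_
          have : (F a).card ≤ (Finset.range J).card := Finset.card_le_card (Finset.filter_subset _ _)
          rw [Finset.card_range] at this
          exact_mod_cast this
        rwa [Finset.sum_const, nsmul_eq_mul] at this
      · have : ∑ a ∈ A.filter (fun a => ¬ (J : ℝ) / 4 ≤ (F a).card), ((F a).card : ℝ) ≤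
            ∑ a ∈ A.filter (fun a => ¬ (J : ℝ) / 4 ≤ (F a).card), ((J : ℝ) / 4) := by
          refine Finset.sum_le_sum fun a ha => ?_
          exact (not_le.1 (Finset.mem_filter.1 ha).2).le
        rw [Finset.sum_const, nsmul_eq_mul] at this
        refine this.trans ?_
        have h2 : ((A.filter (fun a => ¬ (J : ℝ) / 4 ≤ (F a).card)).card : ℝ) ≤ A.card := by
          exact_mod_cast Finset.card_le_card (Finset.filter_subset _ _)
        exact mul_le_mul_of_nonneg_right h2 (by positivity)
    have h2 : (A.card : ℝ) * J / 2 ≤ A'.card * J + A.card * (J / 4) := h.trans h1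
    have h3 : (A.card : ℝ) * J ≤ (4 * A'.card) * J := by linarith
    exact le_of_mul_le_mul_right h3 hJr
  refine ⟨A', Finset.filter_subset _ _, hsize, ?_⟩
  -- maximal disjoint subfamily
  let D : Finset G → Prop := fun S => ∀ a ∈ S, ∀ b ∈ S, a ≠ b → ∀ j < J, ∀ j' < J,
    a + j • w ≠ b + j' • w
  classical
  obtain ⟨M, hM, hmax⟩ := Finset.exists_max_image (A'.powerset.filter D) Finset.card
    ⟨∅, Finset.mem_filter.2 ⟨Finset.mem_powerset.2 (Finset.empty_subset _),
      fun a ha => absurd ha (Finset.notMem_empty a)⟩⟩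
  have hMA : M ⊆ A' := Finset.mem_powerset.1 (Finset.mem_filter.1 hM).1
  have hMD : D M := (Finset.mem_filter.1 hM).2
  have hmeet : ∀ a ∈ A', ∃ b ∈ M, ∃ j < J, ∃ j' < J, a + j • w = b + j' • w := by
    intro a ha
    by_cases haM : a ∈ M
    · exact ⟨a, haM, 0, hJpos, 0, hJpos, rfl⟩
    · by_contra hcon
      push Not at hcon
      have hD : D (insert a M) := by
        intro x hx y hy hxy j hj j' hj'
        rcases Finset.mem_insert.1 hx with hx1 | hx1
        · rcases Finset.mem_insert.1 hy with hy1 | hy1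
          · exact absurd (hx1.trans hy1.symm) hxy
          · rw [hx1]
            exact hcon y hy1 j hj j' hj'
        · rcases Finset.mem_insert.1 hy with hy1 | hy1
          · rw [hy1]
            exact fun h => hcon x hx1 j' hj' j hj h.symm
          · exact hMD x hx1 y hy1 hxy j hj j' hj'
      have := hmax (insert a M) (Finset.mem_filter.2 ⟨Finset.mem_powerset.2
        (Finset.insert_subset ha hMA), hD⟩)
      rw [Finset.card_insert_of_notMem haM] at this
      omega
  -- M is small
  have hMZ : (M.card : ℝ) * (J / 4) ≤ Z.card := by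
    set T : G → Finset G := fun a => (F a).image fun j : ℕ => a + j • w with hT
    have hTcard : ∀ a, (T a).card = (F a).card := by
      intro a
      refine Finset.card_image_of_injOn ?_
      intro i hi j hj hij
      exact hinj (Finset.mem_coe.2 (Finset.mem_filter.1 hi).1)
        (Finset.mem_coe.2 (Finset.mem_filter.1 hj).1) (add_left_cancel hij)
    have hdis : (M : Set G).PairwiseDisjoint T := by
      intro a ha b hb hab
      change Disjoint (T a) (T b)
      rw [Finset.disjoint_left]
      intro z hz hz'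
      obtain ⟨j, hj, rfl⟩ := Finset.mem_image.1 hz
      obtain ⟨j', hj', h'⟩ := Finset.mem_image.1 hz'
      exact hMD a ha b hb hab j (Finset.mem_range.1 (Finset.mem_filter.1 hj).1) j'
        (Finset.mem_range.1 (Finset.mem_filter.1 hj').1) h'.symm
    have hsub : M.biUnion T ⊆ Z := by
      intro z hz
      obtain ⟨a, _, hz⟩ := Finset.mem_biUnion.1 hz
      obtain ⟨j, hj, rfl⟩ := Finset.mem_image.1 hz
      exact (Finset.mem_filter.1 hj).2
    have h1 : (∑ a ∈ M, (F a).card : ℕ) ≤ Z.card := by
      rw [← Finset.sum_congr rfl fun a _ => hTcard a, ← Finset.card_biUnion hdis]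
      exact Finset.card_le_card hsub
    have h2 : (M.card : ℝ) * (J / 4) ≤ ∑ a ∈ M, ((F a).card : ℝ) := by
      rw [← nsmul_eq_mul, ← Finset.sum_const]
      exact Finset.sum_le_sum fun a ha => (Finset.mem_filter.1 (hMA ha)).2
    exact h2.trans (by exact_mod_cast h1)
  -- the sumset
  have hsub : A' + prog w J ⊆ (M ×ˢ Finset.range (3 * J)).image
      (fun x : G × ℕ => x.1 + x.2 • w - J • w) := by
    intro z hz
    obtain ⟨a, ha, y, hy, rfl⟩ := Finset.mem_add.1 hz
    obtain ⟨i, hi, rfl⟩ := Finset.mem_image.1 hy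
    obtain ⟨b, hb, j, hj, j', hj', hab⟩ := hmeet a ha
    rw [Finset.mem_range] at hi
    refine Finset.mem_image.2 ⟨(b, j' + i + (J - j)), Finset.mem_product.2 ⟨hb,
      Finset.mem_range.2 (by dsimp only; omega)⟩, ?_⟩
    have h1 : (J - j) • w = J • w - j • w := by
      rw [eq_sub_iff_add_eq, ← add_nsmul, Nat.sub_add_cancel hj.le]
    have h2 : a = b + j' • w - j • w := by rw [← hab]; abel
    simp only [add_nsmul]
    rw [h1, h2]
    abel
  have h1 : (A' + prog w J).card ≤ M.card * (3 * J) := by
    calc (A' + prog w J).card ≤ _ := Finset.card_le_card hsub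
      _ ≤ (M ×ˢ Finset.range (3 * J)).card := Finset.card_image_le
      _ = M.card * (3 * J) := by rw [Finset.card_product, Finset.card_range]
  have h2 : ((A' + prog w J).card : ℝ) ≤ M.card * (3 * J) := by exact_mod_cast h1
  linarith

end Pool.Agent.OSP
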