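import Pool.Agent.OSP_h95.Neg

/-!
# The recursion for the gains of the fibres `W T n`
-/

set_option autoImplicit false

namespace Pool.Agent.OSP

open Finset Real Pool.Agent.QFR

variable {G : Type} [AddCommGroup G] [Fintype G]

/-- induction on `m` with `iso_assoc`, `iso_fib` -/
theorem W_iso (T : Fam G) (n m : ℕ) : Iso ((W T n).fib (neg (W T m))) (W T (n + m + 1)) := by
  induction m with
  | zero => exact Iso.refl _
  | succ m ih =>
    exact (iso_assoc (W T n) (W T m) T).trans (iso_fib ih (Iso.refl _))

/-- `refines_fib_left` -/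
theorem W_refines (T : Fam G) (n : ℕ) : Refines (W T n) T := by
  induction n with
  | zero => exact Refines.refl _
  | succ n ih => exact (refines_fib_left _ _).trans ih

/-- chain rule `H_fib_add_H_add` for `W T (n+1) = (W T n).fib (neg T)`:
`H(W_{n+1}) + H(W_n - T) = H(W_n) + H(T)`, and `H(W_n - T) = H(T - W_n)` (`iso_neg_add`,
`iso_neg_neg`, `iso_add_comm`). -/
theorem gain_W (T : Fam G) (n : ℕ) :
    gain T (neg (W T n)) = (W T n).H - (W T (n + 1)).H := by
  have h1 := H_fib_add_H_add (W T n) (neg T)
  have h2 : (T.add (neg (W T n))).H = ((W T n).add (neg T)).H := by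
    rw [← H_neg (T.add (neg (W T n))), (iso_neg_add T (neg (W T n))).H_eq,
      ((Iso.refl (neg T)).add (iso_neg_neg (W T n))).H_eq, (iso_add_comm (neg T) (W T n)).H_eq]
  have h3 := H_neg T
  have h4 : (W T (n + 1)).H = ((W T n).fib (neg T)).H := rfl
  unfold gain
  rw [h2, h4]
  linarith

/-- `W T (n+1)` refines `W T n` (`Refines.add`, `refines_neg`, `Refines.H_le`) -/
theorem gain_W_anti (T : Fam G) (n : ℕ) :
    gain T (neg (W T (n + 1))) ≤ gain T (neg (W T n)) := by
  have h1 : Refines (T.add (neg (W T (n + 1)))) (T.add (neg (W T n))) :=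
    (Refines.refl T).add (refines_neg (refines_fib_left _ _))
  have h2 := h1.H_le
  unfold gain
  linarith

/-- `gain ≥ 0` (`H_le_add_left`) -/
theorem gain_nonneg (T V : Fam G) : 0 ≤ gain T V := by
  have h := H_le_add_left T V
  unfold gain
  linarith

/-- `gain T (neg (W T 0)) = dbl T` and all gains are at most `dbl T`, so
`H(W T n) ≥ H(T) - n dbl T`. -/
theorem H_W_ge (T : Fam G) (n : ℕ) : T.H - n * dbl T ≤ (W T n).H := by
  have h1 : ∀ n, gain T (neg (W T n)) ≤ dbl T := by
    intro n
    induction n with
    | zero => exact le_of_eq rfl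
    | succ n ih => exact (gain_W_anti T n).trans ih
  induction n with
  | zero =>
    simp only [Nat.cast_zero, zero_mul, sub_zero]
    exact le_of_eq rfl
  | succ n ih =>
    have h2 := gain_W T n
    have h3 := h1 n
    push_cast
    linarith

end Pool.Agent.OSP
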