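import Pool.Agent.OSP_h95.F1

/-!
# The key recursion for the gains
-/

set_option autoImplicit false

namespace Pool.Agent.OSP

open Finset Real Pool.Agent.QFR

variable {G : Type} [AddCommGroup G] [Fintype G]

/-- `H(F + V.fib(-V)) - H(F) ≤ (1 + lam) g + δ` with `F = T.fib (-T)`, `g = gain T V`. -/
theorem F1B_exchange (T V : Fam G) {lam δ : ℝ} (hM : Mini T lam δ) :
    ((T.fib (neg T)).add (V.fib (neg V))).H - (T.fib (neg T)).H ≤
      (1 + lam) * gain T V + δ := by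
  have h1 := (exchange T (neg T) V (neg V)).H_le
  have h2 : ((T.add V).fib ((neg T).add (neg V))).H = ((T.add V).fib (neg (T.add V))).H :=
    (iso_fib (Iso.refl _) (iso_neg_add T V).symm).H_eq
  have h3 := H_fib_add_H_add (T.add V) (neg (T.add V))
  have h4 := H_neg (T.add V)
  have h5 := H_fib_add_H_add T (neg T)
  have h6 := H_neg T
  have h7 := hM V
  unfold gain at h7 ⊢
  linarith

/-- `H(W_1 - W_m) - H(W_1) = H(W_m) - H(W_{m+2})` -/
theorem F1B_chain (T : Fam G) (m : ℕ) :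
    ((W T 1).add (neg (W T m))).H - (W T 1).H = (W T m).H - (W T (m + 2)).H := by
  have h1 := H_fib_add_H_add (W T 1) (neg (W T m))
  have h2 := H_neg (W T m)
  have h3 := (W_iso T 1 m).H_eq
  have h4 : 1 + m + 1 = m + 2 := by omega
  rw [h4] at h3
  linarith

/-- THE KEY RECURSION.  Let `V = neg (W T n)`, `F = T.fib (neg T)`.
`exchange T (neg T) V (neg V)` : `F + V.fib(-V)` refines `(T+V).fib(-T-V)`, so (chain rule,
`iso_neg_add`) `H(F + V.fib(-V)) ≤ 2 H(T+V) - H((T+V)-(T+V)')`, while `H(F) = 2 H(T) - H(T-T')`.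
By `Mini`: `H(F + V.fib(-V)) - H(F) ≤ 2 g - ((1-lam) g - δ) = (1+lam) g + δ`, `g = gain T V`.
`V.fib(-V) ≅ -(W_n.fib(-W_n)) ≅ -W_{2n+1}` (`iso_neg_fib`, `W_iso`), and by the chain rule for
`W_{2n+1}.fib(-F) ≅ W_{2n+3}` (`iso_assoc` twice/definition of `W`):
`H(F - W_{2n+1}) - H(F) = H(W_{2n+1}) - H(W_{2n+3})`, which is
`gain(neg W_{2n+1}) + gain(neg W_{2n+2}) ≥ 2 gain (neg W_{2n+2})`. -/
theorem gain_W_step (T : Fam G) {lam δ : ℝ} (hM : Mini T lam δ) (n : ℕ) :
    2 * gain T (neg (W T (2 * n + 2))) ≤ (1 + lam) * gain T (neg (W T n)) + δ := by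
  have h1 := F1B_exchange T (neg (W T n)) hM
  have h2 : Iso ((neg (W T n)).fib (neg (neg (W T n)))) (neg (W T (2 * n + 1))) := by
    have h3 := (iso_neg_fib (W T n) (neg (W T n))).symm
    have h4 := iso_neg (W_iso T n n)
    have h5 : n + n + 1 = 2 * n + 1 := by omega
    rw [h5] at h4
    exact h3.trans h4
  have h6 : ((T.fib (neg T)).add ((neg (W T n)).fib (neg (neg (W T n))))).H =
      ((W T 1).add (neg (W T (2 * n + 1)))).H := (Iso.add (Iso.refl _) h2).H_eq
  have h7 : (T.fib (neg T)).H = (W T 1).H := rfl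
  have h8 := F1B_chain T (2 * n + 1)
  have h9 := gain_W T (2 * n + 1)
  have h10 := gain_W T (2 * n + 2)
  have h11 := gain_W_anti T (2 * n + 1)
  rw [h6, h7, h8] at h1
  have e1 : 2 * n + 1 + 1 = 2 * n + 2 := by omega
  have e2 : 2 * n + 1 + 2 = 2 * n + 2 + 1 := by omega
  rw [e1] at h9 h11
  rw [e2] at h1
  linarith

end Pool.Agent.OSP
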