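import Pool.Agent.OSP_h95.F1B

/-!
# %s
-/

set_option autoImplicit false

namespace Pool.Agent.OSP

open Finset Real Pool.Agent.QFR

variable {G : Type} [AddCommGroup G] [Fintype G]

theorem F1C_drop (T : Fam G) (n k : ℕ) :
    (W T n).H - k * gain T (neg (W T n)) ≤ (W T (n + k)).H := by
  induction k with
  | zero => simp
  | succ k ih =>
    have h1 := gain_W T (n + k)
    have h2 : ∀ m, gain T (neg (W T (n + m))) ≤ gain T (neg (W T n)) := by
      intro m
      induction m with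
      | zero => exact le_rfl
      | succ m ihm => exact (gain_W_anti T (n + m)).trans ihm
    have h3 := h2 k
    have h4 : n + (k + 1) = n + k + 1 := rfl
    rw [h4]
    push_cast
    linarith

/-- Put `n₀ = 0`, `n_{l+1} = 2 n_l + 2`, i.e. `n_l = 2^(l+1) - 2`.  By `gain_W_step`
`gain (neg W_{n_l}) ≤ ((1+lam)/2)^l κ + 2δ` (induction, `lam ≤ 1/2`), and
`H(T) - H(W_{n_j}) = Σ_{i < n_j} gain (neg W_i) ≤ Σ_{l<j} 2^(l+1) (((1+lam)/2)^l κ + 2 δ)
 ≤ 2 κ j (1+lam)^j + 2^(j+2) δ`. -/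
theorem exists_W (T : Fam G) {lam δ κ : ℝ} (h0 : 0 ≤ lam) (h1 : lam ≤ 1 / 2) (hδ : 0 ≤ δ)
    (hκ : dbl T ≤ κ) (hM : Mini T lam δ) (j : ℕ) :
    ∃ n : ℕ, gain T (neg (W T n)) ≤ ((1 + lam) / 2) ^ j * κ + 2 * δ ∧
      T.H - 2 * κ * j * (1 + lam) ^ j - 2 ^ (j + 2) * δ ≤ (W T n).H := by
  have hκ0 : 0 ≤ κ := (gain_nonneg T (neg T)).trans hκ
  suffices H : ∃ n : ℕ, (n : ℝ) + 2 = 2 ^ (j + 1) ∧
      gain T (neg (W T n)) ≤ ((1 + lam) / 2) ^ j * κ + 2 * δ ∧
      T.H - 2 * κ * j * (1 + lam) ^ j - (2 ^ (j + 2) - 4) * δ ≤ (W T n).H by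
    obtain ⟨n, -, h2, h3⟩ := H
    exact ⟨n, h2, by linarith⟩
  induction j with
  | zero =>
    refine ⟨0, by norm_num, ?_, ?_⟩
    · have h2 : gain T (neg (W T 0)) = dbl T := rfl
      rw [h2, pow_zero, one_mul]
      linarith
    · have h2 : (W T 0).H = T.H := rfl
      rw [h2]
      norm_num
  | succ j ih =>
    obtain ⟨n, hn, hg, hH⟩ := ih
    refine ⟨2 * n + 2, ?_, ?_, ?_⟩
    · push_cast
      rw [pow_succ, ← hn]
      ring
    · have h2 := gain_W_step T hM n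
      have h3 : (1 + lam) * gain T (neg (W T n)) ≤
          (1 + lam) * (((1 + lam) / 2) ^ j * κ + 2 * δ) :=
        mul_le_mul_of_nonneg_left hg (by linarith)
      have h4 : ((1 + lam) / 2) ^ (j + 1) * κ =
          (1 + lam) * (((1 + lam) / 2) ^ j * κ) / 2 := by
        rw [pow_succ]
        ring
      rw [h4]
      nlinarith
    · have h2 := F1C_drop T n (n + 2)
      have h3 : n + (n + 2) = 2 * n + 2 := by ring
      rw [h3] at h2
      push_cast at h2 ⊢
      have h4 : ((n : ℝ) + 2) * gain T (neg (W T n)) ≤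
          2 ^ (j + 1) * (((1 + lam) / 2) ^ j * κ + 2 * δ) := by
        rw [hn]
        exact mul_le_mul_of_nonneg_left hg (by positivity)
      have h5 : (2 : ℝ) ^ (j + 1) * (((1 + lam) / 2) ^ j * κ + 2 * δ) =
          2 * κ * (1 + lam) ^ j + 2 ^ (j + 2) * δ := by
        rw [div_pow, pow_succ, pow_succ, pow_succ]
        field_simp
      have h6 : 2 * κ * (j + 1) * (1 + lam) ^ j ≤ 2 * κ * (j + 1) * (1 + lam) ^ (j + 1) := by
        refine mul_le_mul_of_nonneg_left ?_ (by positivity)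
        exact pow_le_pow_right₀ (by linarith) (Nat.le_succ j)
      have h7 : (2 : ℝ) ^ (j + 1 + 2) = 2 * 2 ^ (j + 2) := by ring
      rw [h7]
      have h8 : 2 * κ * (j + 1) * (1 + lam) ^ j =
          2 * κ * j * (1 + lam) ^ j + 2 * κ * (1 + lam) ^ j := by ring
      nlinarith

end Pool.Agent.OSP
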