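import Pool.Agent.OSP_h95.GSA

/-!
# A well conditioned system of combinations (augmented Gram-Schmidt)
-/

set_option autoImplicit false

namespace Pool.Agent.OSP

open Finset Real

/-- sum of a function which vanishes above `b` -/
lemma GS_split {M : Type} [AddCommMonoid M] {N : ℕ} (f : Fin N → M) (b : Fin N)
    (hf : ∀ l, b < l → f l = 0) :
    ∑ l, f l = f b + ∑ k ∈ univ.filter (· < b), f k := by
  rw [← Finset.sum_filter_add_sum_filter_not univ (· < b), add_comm]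
  congr 1
  refine Finset.sum_eq_single b (fun l hl hlb => ?_) (fun h => ?_)
  · have h1 := (Finset.mem_filter.1 hl).2
    exact hf l (lt_of_le_of_ne (not_lt.1 h1) (Ne.symm hlb))
  · exact absurd (Finset.mem_filter.2 ⟨Finset.mem_univ b, lt_irrefl b⟩) h

/-- Bessel's inequality in `E × ℝ^N` -/
lemma GS_bessel {E : Type} [NormedAddCommGroup E] [InnerProductSpace ℝ E] {N : ℕ}
    (ω : Fin N → E) (γ : Fin N → Fin N → ℝ)
    (h : ∀ b b', inner ℝ (ω b) (ω b') + ∑ l, γ b l * γ b' l = if b = b' then 1 else 0)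
    (φ : E) (g : Fin N → ℝ) :
    ∑ b, (inner ℝ φ (ω b) + ∑ l, γ b l * g l) ^ 2 ≤ ‖φ‖ ^ 2 + ∑ l, g l ^ 2 := by
  have ho : Orthonormal ℝ (fun b : Fin N =>
      (WithLp.toLp 2 (ω b, WithLp.toLp 2 (γ b)) : WithLp 2 (E × EuclideanSpace ℝ (Fin N)))) := by
    rw [orthonormal_iff_ite]
    intro b b'
    rw [WithLp.prod_inner_apply, PiLp.inner_apply, ← h b b']
    simp [mul_comm]
  have h1 := ho.sum_inner_products_le
    (WithLp.toLp 2 (φ, WithLp.toLp 2 g) : WithLp 2 (E × EuclideanSpace ℝ (Fin N))) (s := Finset.univ)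
  rw [WithLp.prod_norm_sq_eq_of_L2, EuclideanSpace.norm_sq_eq] at h1
  simp only [Real.norm_eq_abs, sq_abs] at h1
  refine le_trans (le_of_eq ?_) h1
  refine Finset.sum_congr rfl fun b _ => ?_
  rw [WithLp.prod_inner_apply, PiLp.inner_apply]
  congr 1
  simp [real_inner_comm, mul_comm]

/-- the data for a fixed parameter -/
structure GS_data {E : Type} [NormedAddCommGroup E] [InnerProductSpace ℝ E] {N : ℕ}
    (a : Fin N → E) (t : ℝ) (β : Fin N → Fin N → ℝ) : Prop where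
  one : ∀ b, β b b = 1
  zero : ∀ b l, b < l → β b l = 0
  orth : ∀ b b', b ≠ b' → inner ℝ (∑ l, β b l • a l) (∑ l, β b' l • a l) +
        t * ∑ l, β b l * β b' l = 0
  min : ∀ b (c : Fin N → ℝ), ‖∑ l, β b l • a l‖ ^ 2 + t * ∑ l, β b l ^ 2 ≤
        ‖a b - ∑ k ∈ univ.filter (· < b), c k • a k‖ ^ 2 +
          t * (1 + ∑ k ∈ univ.filter (· < b), c k ^ 2)

section
variable {E : Type} [NormedAddCommGroup E] [InnerProductSpace ℝ E] {N : ℕ}
  {a : Fin N → E} {t : ℝ} {β : Fin N → Fin N → ℝ}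

/-- `d b = ‖e b‖² + t Σ (β b l)²` -/
noncomputable def GS_d (a : Fin N → E) (t : ℝ) (β : Fin N → Fin N → ℝ) (b : Fin N) : ℝ :=
  ‖∑ l, β b l • a l‖ ^ 2 + t * ∑ l, β b l ^ 2

lemma GS_e (h : GS_data a t β) (b : Fin N) :
    ∑ l, β b l • a l = a b - ∑ k ∈ univ.filter (· < b), (-β b k) • a k := by
  rw [GS_split (fun l => β b l • a l) b (fun l hl => by simp [h.zero b l hl])]
  simp only [h.one, one_smul, neg_smul, Finset.sum_neg_distrib, sub_neg_eq_add]

lemma GS_sq (h : GS_data a t β) (b : Fin N) :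
    ∑ l, β b l ^ 2 = 1 + ∑ k ∈ univ.filter (· < b), (-β b k) ^ 2 := by
  rw [GS_split (fun l => β b l ^ 2) b (fun l hl => by simp [h.zero b l hl])]
  simp only [h.one, one_pow, neg_sq]

lemma GS_d_lower (h : GS_data a t β) (ht : 0 < t)
    (h8 : ∀ l (c : Fin N → ℝ), 1 / 8 ≤ ‖a l - ∑ k ∈ univ.filter (· < l), c k • a k‖) (b : Fin N) :
    1 / 64 ≤ GS_d a t β b := by
  have h1 := h8 b (fun k => -β b k)
  rw [← GS_e h b] at h1
  have h2 : 0 ≤ t * ∑ l, β b l ^ 2 := mul_nonneg ht.le (Finset.sum_nonneg fun l _ => sq_nonneg _)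
  unfold GS_d
  nlinarith

lemma GS_d_upper (h : GS_data a t β) (ht1 : t ≤ 1) (h3 : ∀ l, ‖a l‖ ≤ 3) (b : Fin N) :
    GS_d a t β b ≤ 10 := by
  have h1 := h.min b (fun _ => 0)
  simp only [zero_smul, Finset.sum_const_zero, sub_zero, ne_eq, OfNat.ofNat_ne_zero,
    not_false_eq_true, zero_pow, add_zero, mul_one] at h1
  have h2 := h3 b
  have h4 : ‖a b‖ ^ 2 ≤ 3 ^ 2 := pow_le_pow_left₀ (norm_nonneg _) h2 2
  unfold GS_d
  linarith

/-- the step from `t` to a smaller parameter -/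
lemma GS_step {t' : ℝ} {β' : Fin N → Fin N → ℝ} (h : GS_data a t β) (h' : GS_data a t' β')
    (b : Fin N) : GS_d a t' β' b ≤ GS_d a t β b - (t - t') * ∑ l, β b l ^ 2 := by
  have h1 := h'.min b (fun k => -β b k)
  rw [← GS_e h b, ← GS_sq h b] at h1
  unfold GS_d
  linarith

/-- conclusion for a fixed parameter -/
lemma GS_concl (h : GS_data a t β) (ht : 0 < t)
    (h8 : ∀ l (c : Fin N → ℝ), 1 / 8 ≤ ‖a l - ∑ k ∈ univ.filter (· < l), c k • a k‖) :
    ∃ α : Fin N → Fin N → ℝ,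
      (∀ φ : E, ∑ b, (inner ℝ φ (∑ l, α b l • a l)) ^ 2 ≤ ‖φ‖ ^ 2) ∧
      (∀ g : Fin N → ℝ, t * ∑ b, (∑ l, α b l * g l) ^ 2 ≤ ∑ l, g l ^ 2) ∧
      (∑ b, ∑ b', (inner ℝ (∑ l, α b l • a l) (∑ l, α b' l • a l) - if b = b' then 1 else 0) ^ 2 ≤
            64 * ∑ b, t * ∑ l, β b l ^ 2) := by
  have hd : ∀ b, 0 < GS_d a t β b := fun b => lt_of_lt_of_le (by norm_num) (GS_d_lower h ht h8 b)
  set s : Fin N → ℝ := fun b => (√(GS_d a t β b))⁻¹ with hs
  have hs2 : ∀ b, s b ^ 2 * GS_d a t β b = 1 := by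
    intro b
    rw [hs]
    simp only
    rw [inv_pow, Real.sq_sqrt (hd b).le, inv_mul_cancel₀ (hd b).ne']
  set α : Fin N → Fin N → ℝ := fun b l => s b * β b l with hα
  have hω : ∀ b, ∑ l, α b l • a l = s b • ∑ l, β b l • a l := by
    intro b
    rw [Finset.smul_sum]
    exact Finset.sum_congr rfl fun l _ => by rw [hα, mul_smul]
  have hg : ∀ b (g : Fin N → ℝ), ∑ l, α b l * g l = s b * ∑ l, β b l * g l := by
    intro b g
    rw [Finset.mul_sum]
    exact Finset.sum_congr rfl fun l _ => by rw [hα]; ring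
  have horth : ∀ b b', inner ℝ (∑ l, α b l • a l) (∑ l, α b' l • a l) +
      t * ∑ l, α b l * α b' l = if b = b' then 1 else 0 := by
    intro b b'
    have e1 : ∑ l, α b l * α b' l = s b * s b' * ∑ l, β b l * β b' l := by
      rw [Finset.mul_sum]
      exact Finset.sum_congr rfl fun l _ => by rw [hα]; ring
    rw [e1, hω, hω, real_inner_smul_left, real_inner_smul_right]
    by_cases hb : b = b'
    · subst hb
      rw [if_pos rfl, real_inner_self_eq_norm_sq, ← hs2 b]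
      unfold GS_d
      have : ∑ l, β b l * β b l = ∑ l, β b l ^ 2 := Finset.sum_congr rfl fun l _ => by ring
      rw [this]
      ring
    · rw [if_neg hb]
      have := h.orth b b' hb
      linear_combination s b * s b' * this
  have hst : √t * √t = t := Real.mul_self_sqrt ht.le
  have hB := GS_bessel (fun b => ∑ l, α b l • a l) (fun b l => √t * α b l) (fun b b' => by
    rw [← horth b b']
    congr 1
    rw [Finset.mul_sum]
    refine Finset.sum_congr rfl fun l _ => ?_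
    linear_combination α b l * α b' l * hst)
  have h2 : ∀ g : Fin N → ℝ, t * ∑ b, (∑ l, α b l * g l) ^ 2 ≤ ∑ l, g l ^ 2 := by
    intro g
    have := hB 0 g
    simp only [inner_zero_left, zero_add, norm_zero, ne_eq, OfNat.ofNat_ne_zero,
      not_false_eq_true, zero_pow] at this
    refine le_trans (le_of_eq ?_) this
    rw [Finset.mul_sum]
    refine Finset.sum_congr rfl fun b _ => ?_
    have e1 : ∑ l, √t * α b l * g l = √t * ∑ l, α b l * g l := by
      rw [Finset.mul_sum]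
      exact Finset.sum_congr rfl fun l _ => by ring
    rw [e1, mul_pow, Real.sq_sqrt ht.le]
  refine ⟨α, ?_, h2, ?_⟩
  · intro φ
    have := hB φ 0
    simpa using this
  · rw [Finset.mul_sum]
    refine Finset.sum_le_sum fun b _ => ?_
    have e1 : ∀ b', (inner ℝ (∑ l, α b l • a l) (∑ l, α b' l • a l) -
        if b = b' then (1 : ℝ) else 0) ^ 2 = t * (t * (∑ l, α b' l * α b l) ^ 2) := by
      intro b'
      rw [← horth b b']
      have : ∑ l, α b l * α b' l = ∑ l, α b' l * α b l :=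
        Finset.sum_congr rfl fun l _ => mul_comm _ _
      rw [this]
      ring
    rw [Finset.sum_congr rfl fun b' _ => e1 b', ← Finset.mul_sum, ← Finset.mul_sum]
    have h5 := mul_le_mul_of_nonneg_left (h2 (α b)) ht.le
    refine h5.trans ?_
    have e2 : ∑ l, α b l ^ 2 = s b ^ 2 * ∑ l, β b l ^ 2 := by
      rw [Finset.mul_sum]
      exact Finset.sum_congr rfl fun l _ => by rw [hα]; ring
    have hs64 : s b ^ 2 ≤ 64 := by
      have h6 := GS_d_lower h ht h8 b
      have h7 := hs2 b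
      have h8 : 0 ≤ s b ^ 2 := sq_nonneg _
      nlinarith
    rw [e2]
    have h9 : 0 ≤ t * ∑ l, β b l ^ 2 := mul_nonneg ht.le (Finset.sum_nonneg fun l _ => sq_nonneg _)
    nlinarith

end

/-- AUGMENTED GRAM-SCHMIDT WITH A GOOD PARAMETER.  Let `L = ⌈20·64·.../ν⌉` be large,
`t₀ = 2^{-L}`, and for `t = 2^{-i}`, `i = 0..L`, take `β^t` from `gs_fixed` and
`d b t = ‖e b‖² + t Σ_l (β b l)²`.  Then `1/64 ≤ d b t` (the hypothesis on distances, as
`β b b = 1`, and `‖e b‖ = ‖a b - Σ_{k<b} (-β b k) a k‖ ≥ 1/8`), `d b t ≤ ‖a b‖² + t ≤ 10`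
(take `c = 0`), and by minimality for `t/2` compared with `c = -β^t`:
`d b (t/2) ≤ d b t - (t/2) Σ_l (β^t b l)²`.  Summing over `i < L` and `b`:
`Σ_i Σ_b t_i Σ_l (β b l)² ≤ 20 N`, so for some `i` it is `≤ 20 N / L`; fix this `t`.
Put `α b l = β b l / √(d b t)`.  The vectors `(Σ_l α b l a l, √t α b)` are orthonormal in
`E × ℝ^N`, so Bessel's inequality for `(φ, 0)` and `(0, g)` gives the first two claims, and
`⟨ω a, ω b⟩ - δ_ab = -t Σ_l α a l α b l`, so by the second claim with `g = α a`: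
`Σ_b (t Σ_l α a l α b l)² ≤ t Σ_l (α a l)² ≤ 64 t Σ_l (β a l)²`; sum over `a`:
`≤ 64 · 20 N / L ≤ ν N`.  (The index `b` runs over `range N`; put `α b = 0` for `b ≥ N`.) -/
theorem gs {ν : ℝ} (hν : 0 < ν) : ∃ t₀ : ℝ, 0 < t₀ ∧ t₀ ≤ 1 ∧
    ∀ (E : Type) [NormedAddCommGroup E] [InnerProductSpace ℝ E] (N : ℕ) (a : Fin N → E),
      (∀ l, ‖a l‖ ≤ 3) →
      (∀ l (c : Fin N → ℝ), 1 / 8 ≤ ‖a l - ∑ k ∈ univ.filter (· < l), c k • a k‖) →
      ∃ (t : ℝ) (α : ℕ → Fin N → ℝ), t₀ ≤ t ∧ t ≤ 1 ∧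
        (∀ φ : E, ∑ b ∈ range N, (inner ℝ φ (∑ l, α b l • a l)) ^ 2 ≤ ‖φ‖ ^ 2) ∧
        (∀ g : Fin N → ℝ, t * ∑ b ∈ range N, (∑ l, α b l * g l) ^ 2 ≤ ∑ l, g l ^ 2) ∧
        (∑ b ∈ range N, ∑ b' ∈ range N,
          (inner ℝ (∑ l, α b l • a l) (∑ l, α b' l • a l) - if b = b' then 1 else 0) ^ 2 ≤
            ν * N) := by
  obtain ⟨L, hL⟩ := exists_nat_ge (1280 / ν)
  have hLpos : (0 : ℝ) < L := lt_of_lt_of_le (by positivity) hL
  have hL0 : 0 < L := by exact_mod_cast hLpos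
  refine ⟨(1 / 2) ^ L, by positivity, pow_le_one₀ (by norm_num) (by norm_num), ?_⟩
  intro E _ _ N a h3 h8
  have hex : ∀ i : ℕ, ∃ β : Fin N → Fin N → ℝ, GS_data a ((1 / 2) ^ i) β := by
    intro i
    obtain ⟨β, h1, h2, h4, h5⟩ := gs_fixed a (t := (1 / 2) ^ i) (by positivity)
    exact ⟨β, h1, h2, h4, h5⟩
  choose β hβ using hex
  set S : ℕ → ℝ := fun i => ∑ b, (1 / 2) ^ i * ∑ l, β i b l ^ 2 with hS
  -- telescoping
  have htel : ∀ b, ∀ n, ∑ i ∈ range n, (1 / 2 : ℝ) ^ i * ∑ l, β i b l ^ 2 ≤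
      2 * (GS_d a ((1 / 2) ^ 0) (β 0) b - GS_d a ((1 / 2) ^ n) (β n) b) := by
    intro b n
    induction n with
    | zero => simp
    | succ n ih =>
      rw [Finset.sum_range_succ]
      have h1 := GS_step (hβ n) (hβ (n + 1)) b
      have h2 : ((1 / 2 : ℝ) ^ n - (1 / 2) ^ (n + 1)) = (1 / 2) ^ n / 2 := by
        rw [pow_succ]; ring
      rw [h2] at h1
      linarith
  have hsum : ∑ i ∈ range L, S i ≤ 20 * N := by
    rw [hS, Finset.sum_comm]
    have h1 : ∀ b ∈ (univ : Finset (Fin N)), ∑ i ∈ range L, (1 / 2 : ℝ) ^ i * ∑ l, β i b l ^ 2 ≤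
        20 := by
      intro b _
      refine (htel b L).trans ?_
      have h1 := GS_d_upper (hβ 0) (by norm_num) h3 b
      have h2 := GS_d_lower (hβ L) (by positivity) h8 b
      linarith
    refine (Finset.sum_le_sum h1).trans ?_
    simp [mul_comm]
  obtain ⟨i, hi, hiS⟩ : ∃ i ∈ range L, S i ≤ 20 * N / L := by
    by_contra hcon
    push Not at hcon
    have h1 := Finset.sum_lt_sum_of_nonempty (Finset.nonempty_range_iff.2 hL0.ne') hcon
    rw [Finset.sum_const, Finset.card_range, nsmul_eq_mul, mul_div_cancel₀ _ hLpos.ne'] at h1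
    linarith
  obtain ⟨α, c1, c2, c3⟩ := GS_concl (hβ i) (by positivity) h8
  set α' : ℕ → Fin N → ℝ := fun b l => if h : b < N then α ⟨b, h⟩ l else 0 with hα'
  have hval : ∀ b : Fin N, α' (b : ℕ) = α b := by
    intro b
    funext l
    simp [hα']
  refine ⟨(1 / 2) ^ i, α', ?_, pow_le_one₀ (by norm_num) (by norm_num), ?_, ?_, ?_⟩
  · exact pow_le_pow_of_le_one (by norm_num) (by norm_num) (Finset.mem_range.1 hi).le
  · intro φ
    rw [Finset.sum_range]
    simp only [hval]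
    exact c1 φ
  · intro g
    rw [Finset.sum_range]
    simp only [hval]
    exact c2 g
  · rw [Finset.sum_range]
    simp only [Finset.sum_range, hval]
    have h1 : (64 : ℝ) * S i ≤ ν * N := by
      have h2 : 1280 ≤ ν * L := by
        rw [div_le_iff₀ hν] at hL
        linarith
      have h3 : 64 * S i ≤ 64 * (20 * N / L) := by linarith
      refine h3.trans ?_
      rw [show 64 * (20 * (N : ℝ) / L) = 1280 * N / L by ring, div_le_iff₀ hLpos]
      have : (0 : ℝ) ≤ N := Nat.cast_nonneg N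
      nlinarith
    refine le_trans (le_of_eq ?_) (c3.trans h1)
    refine Finset.sum_congr rfl fun b _ => Finset.sum_congr rfl fun b' _ => ?_
    congr 2
    simp only [Fin.ext_iff]

end Pool.Agent.OSP
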