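import Mathlib

/-!
# A well conditioned system of combinations (augmented Gram-Schmidt)
-/

set_option autoImplicit false

namespace Pool.Agent.OSP

open Finset Real

/-- the augmented vectors -/
noncomputable def GSA_vec {E : Type} [NormedAddCommGroup E] [InnerProductSpace ℝ E] {N : ℕ}
    (a : Fin N → E) (t : ℝ) (l : Fin N) : WithLp 2 (E × EuclideanSpace ℝ (Fin N)) :=
  WithLp.toLp 2 (a l, EuclideanSpace.single l (√t))

/-- the condition linking the two components -/
def GSA_link {E : Type} [NormedAddCommGroup E] [InnerProductSpace ℝ E] {N : ℕ}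
    (a : Fin N → E) (t : ℝ) : Submodule ℝ (WithLp 2 (E × EuclideanSpace ℝ (Fin N))) where
  carrier := {v | v.fst = ∑ l, (v.snd l / √t) • a l}
  add_mem' := by
    intro v w hv hw
    simp only [Set.mem_setOf_eq] at hv hw ⊢
    rw [WithLp.add_fst, hv, hw, ← Finset.sum_add_distrib]
    refine Finset.sum_congr rfl (fun l _ => ?_)
    rw [WithLp.add_snd, PiLp.add_apply, add_div, add_smul]
  zero_mem' := by
    simp
  smul_mem' := by
    intro c v hv
    simp only [Set.mem_setOf_eq] at hv ⊢
    rw [WithLp.smul_fst, hv, Finset.smul_sum]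
    refine Finset.sum_congr rfl (fun l _ => ?_)
    rw [WithLp.smul_snd, PiLp.smul_apply, smul_smul, smul_eq_mul, mul_div_assoc]

/-- the condition that the coordinates from `b` on vanish -/
def GSA_van {E : Type} [NormedAddCommGroup E] [InnerProductSpace ℝ E] {N : ℕ}
    (b : Fin N) : Submodule ℝ (WithLp 2 (E × EuclideanSpace ℝ (Fin N))) where
  carrier := {v | ∀ l, b ≤ l → v.snd l = 0}
  add_mem' := by
    intro v w hv hw l hl
    rw [WithLp.add_snd, PiLp.add_apply, hv l hl, hw l hl, add_zero]
  zero_mem' := by
    intro l _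
    simp
  smul_mem' := by
    intro c v hv l hl
    rw [WithLp.smul_snd, PiLp.smul_apply, hv l hl, smul_zero]

/-- FIXED `t`.  For `0 < t` there are numbers `β b l` (`β b b = 1`, `β b l = 0` for `l > b`)
such that, with `e b = Σ_l β b l • a l`, the vectors `ê b = (e b, √t β b) ∈ E × ℝ^N` are the
Gram-Schmidt orthogonalisation of `â l = (a l, √t ε_l)`:
`⟨e b, e b'⟩ + t Σ_l β b l β b' l = 0` for `b ≠ b'`, and `ê b` has minimal norm in
`â b + span (â k : k < b)`:
for all `c`:  `‖e b‖² + t Σ_l (β b l)² ≤ ‖a b - Σ_{k<b} c k • a k‖² + t (1 + Σ_{k<b} (c k)²)`. -/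
theorem gs_fixed {E : Type} [NormedAddCommGroup E] [InnerProductSpace ℝ E] {N : ℕ}
    (a : Fin N → E) {t : ℝ} (ht : 0 < t) :
    ∃ β : Fin N → Fin N → ℝ, (∀ b, β b b = 1) ∧ (∀ b l, b < l → β b l = 0) ∧
      (∀ b b', b ≠ b' → inner ℝ (∑ l, β b l • a l) (∑ l, β b' l • a l) +
        t * ∑ l, β b l * β b' l = 0) ∧
      (∀ b (c : Fin N → ℝ), ‖∑ l, β b l • a l‖ ^ 2 + t * ∑ l, β b l ^ 2 ≤
        ‖a b - ∑ k ∈ univ.filter (· < b), c k • a k‖ ^ 2 +
          t * (1 + ∑ k ∈ univ.filter (· < b), c k ^ 2)) := by
  classical
  have hst : 0 < √t := Real.sqrt_pos.2 ht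
  have hst2 : √t * √t = t := Real.mul_self_sqrt ht.le
  -- the subspaces
  let S : Fin N → Submodule ℝ (WithLp 2 (E × EuclideanSpace ℝ (Fin N))) :=
    fun b => Submodule.span ℝ (GSA_vec a t '' {k | k < b})
  have hfin : ∀ b, FiniteDimensional ℝ (S b) := fun b =>
    FiniteDimensional.span_of_finite ℝ ((Set.toFinite _).image _)
  let e : Fin N → WithLp 2 (E × EuclideanSpace ℝ (Fin N)) :=
    fun b => GSA_vec a t b - (S b).starProjection (GSA_vec a t b)
  have hSlink : ∀ b, S b ≤ GSA_link a t := by
    intro b
    refine Submodule.span_le.2 ?_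
    rintro v ⟨k, -, rfl⟩
    show a k = ∑ l, ((EuclideanSpace.single k (√t) : EuclideanSpace ℝ (Fin N)) l / √t) • a l
    rw [Finset.sum_eq_single k]
    · simp [hst.ne']
    · intro l _ hl
      simp [hl]
    · simp
  have hvlink : ∀ b, GSA_vec a t b ∈ GSA_link a t := by
    intro k
    show a k = ∑ l, ((EuclideanSpace.single k (√t) : EuclideanSpace ℝ (Fin N)) l / √t) • a l
    rw [Finset.sum_eq_single k]
    · simp [hst.ne']
    · intro l _ hl
      simp [hl]
    · simp
  have hSvan : ∀ b, S b ≤ GSA_van b := by
    intro b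
    refine Submodule.span_le.2 ?_
    rintro v ⟨k, hk, rfl⟩
    intro l hl
    show (EuclideanSpace.single k (√t) : EuclideanSpace ℝ (Fin N)) l = 0
    have : l ≠ k := fun h => absurd hk (by simp only [Set.mem_setOf_eq, not_lt]; rw [← h]; exact hl)
    simp [this]
  have helink : ∀ b, (e b).fst = ∑ l, ((e b).snd l / √t) • a l := fun b =>
    (GSA_link a t).sub_mem (hvlink b) (hSlink b (Submodule.starProjection_apply_mem _ _))
  have hsnd : ∀ b l, (e b).snd l = (GSA_vec a t b).snd l -
      ((S b).starProjection (GSA_vec a t b)).snd l := by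
    intro b l
    show (GSA_vec a t b - (S b).starProjection (GSA_vec a t b)).snd l = _
    rw [WithLp.sub_snd, PiLp.sub_apply]
  have hpz : ∀ b l, b ≤ l → ((S b).starProjection (GSA_vec a t b)).snd l = 0 := by
    intro b l hl
    exact hSvan b (Submodule.starProjection_apply_mem _ _) l hl
  have heperp : ∀ b, ∀ v ∈ S b, inner ℝ (e b) v = 0 := by
    intro b v hv
    rw [real_inner_comm]
    exact (Submodule.mem_orthogonal _ _).1 (Submodule.sub_starProjection_mem_orthogonal _) v hv
  have hinner : ∀ b b', inner ℝ (e b) (e b') =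
      inner ℝ (∑ l, ((e b).snd l / √t) • a l) (∑ l, ((e b').snd l / √t) • a l)
        + t * ∑ l, ((e b).snd l / √t) * ((e b').snd l / √t) := by
    intro b b'
    have h1 : inner ℝ (e b) (e b') = inner ℝ (e b).fst (e b').fst + inner ℝ (e b).snd (e b').snd :=
      WithLp.prod_inner_apply _ _
    rw [h1, helink b, helink b']
    congr 1
    rw [PiLp.inner_apply, Finset.mul_sum]
    refine Finset.sum_congr rfl (fun l _ => ?_)
    simp only [RCLike.inner_apply, conj_trivial]
    have : t = √t * √t := hst2.symm
    rw [this]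
    simp only [Real.sqrt_mul_self hst.le]
    field_simp
  refine ⟨fun b l => (e b).snd l / √t, ?_, ?_, ?_, ?_⟩
  · intro b
    show (e b).snd b / √t = 1
    rw [hsnd, hpz b b le_rfl, sub_zero]
    show (EuclideanSpace.single b (√t) : EuclideanSpace ℝ (Fin N)) b / √t = 1
    simp [hst.ne']
  · intro b l hl
    show (e b).snd l / √t = 0
    rw [hsnd, hpz b l hl.le, sub_zero]
    show (EuclideanSpace.single b (√t) : EuclideanSpace ℝ (Fin N)) l / √t = 0
    simp [hl.ne']
  · have key : ∀ b b', b < b' → inner ℝ (e b) (e b') = 0 := by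
      intro b b' hb
      rw [real_inner_comm]
      apply heperp b'
      refine (S b').sub_mem (Submodule.subset_span ⟨b, hb, rfl⟩) ?_
      have hle : S b ≤ S b' := Submodule.span_mono (Set.image_mono (fun k hk => lt_trans hk hb))
      exact hle (Submodule.starProjection_apply_mem _ _)
    intro b b' hb
    show inner ℝ (∑ l, ((e b).snd l / √t) • a l) (∑ l, ((e b').snd l / √t) • a l)
        + t * ∑ l, ((e b).snd l / √t) * ((e b').snd l / √t) = 0
    rw [← hinner]
    rcases lt_or_gt_of_ne hb with h | h
    · exact key b b' h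
    · rw [real_inner_comm]; exact key b' b h
  · intro b c
    have h1 : ‖e b‖ ^ 2 = ‖∑ l, ((e b).snd l / √t) • a l‖ ^ 2
        + t * ∑ l, ((e b).snd l / √t) ^ 2 := by
      rw [← real_inner_self_eq_norm_sq, hinner, real_inner_self_eq_norm_sq]
      simp only [sq]
    show ‖∑ l, ((e b).snd l / √t) • a l‖ ^ 2 + t * ∑ l, ((e b).snd l / √t) ^ 2 ≤ _
    rw [← h1]
    -- the competitor
    let w : WithLp 2 (E × EuclideanSpace ℝ (Fin N)) :=
      ∑ k ∈ univ.filter (· < b), c k • GSA_vec a t k
    have hw : w ∈ S b := by
      refine Submodule.sum_mem _ (fun k hk => Submodule.smul_mem _ _ (Submodule.subset_span ?_))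
      exact ⟨k, (Finset.mem_filter.1 hk).2, rfl⟩
    have h2 : ‖e b‖ ^ 2 ≤ ‖GSA_vec a t b - w‖ ^ 2 := by
      have h3 : GSA_vec a t b - w = e b + ((S b).starProjection (GSA_vec a t b) - w) := by
        show _ = (GSA_vec a t b - (S b).starProjection (GSA_vec a t b)) + _
        abel
      have h4 : inner ℝ (e b) ((S b).starProjection (GSA_vec a t b) - w) = 0 :=
        heperp b _ ((S b).sub_mem (Submodule.starProjection_apply_mem _ _) hw)
      rw [h3, @norm_add_sq_real, h4]
      nlinarith [sq_nonneg ‖(S b).starProjection (GSA_vec a t b) - w‖]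
    refine h2.trans (le_of_eq ?_)
    rw [WithLp.prod_norm_sq_eq_of_L2]
    have hwf : w.fst = ∑ k ∈ univ.filter (· < b), c k • a k := by
      show (∑ k ∈ univ.filter (· < b), c k • GSA_vec a t k).fst = _
      have : ∀ s : Finset (Fin N), (∑ k ∈ s, c k • GSA_vec a t k).fst = ∑ k ∈ s, c k • a k := by
        intro s
        induction s using Finset.induction_on with
        | empty => simp
        | insert x s hx ih =>
          rw [Finset.sum_insert hx, Finset.sum_insert hx, WithLp.add_fst, ih, WithLp.smul_fst]
          rfl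
      exact this _
    have hws : ∀ l, w.snd l = if l < b then c l * √t else 0 := by
      intro l
      have : ∀ s : Finset (Fin N), (∑ k ∈ s, c k • GSA_vec a t k).snd l
          = if l ∈ s then c l * √t else 0 := by
        intro s
        induction s using Finset.induction_on with
        | empty => simp
        | insert x s hx ih =>
          rw [Finset.sum_insert hx, WithLp.add_snd, PiLp.add_apply, ih, WithLp.smul_snd,
            PiLp.smul_apply]
          have hv : (GSA_vec a t x).snd l = if l = x then √t else 0 := by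
            show (EuclideanSpace.single x (√t) : EuclideanSpace ℝ (Fin N)) l = _
            by_cases h : l = x
            · subst h; simp
            · simp [h]
          rw [hv]
          by_cases h : l = x
          · subst h
            simp [hx]
          · simp [h]
      rw [show w.snd l = _ from this _]
      simp
    have hfst : (GSA_vec a t b - w).fst = a b - ∑ k ∈ univ.filter (· < b), c k • a k := by
      rw [WithLp.sub_fst, hwf]
      rfl
    rw [hfst]
    congr 1
    rw [EuclideanSpace.real_norm_sq_eq]
    have hcoord : ∀ l, (GSA_vec a t b - w).snd l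
        = (if l = b then √t else 0) - (if l < b then c l * √t else 0) := by
      intro l
      rw [WithLp.sub_snd, PiLp.sub_apply, hws]
      congr 1
      show (EuclideanSpace.single b (√t) : EuclideanSpace ℝ (Fin N)) l = _
      by_cases h : l = b
      · subst h; simp
      · simp [h]
    have hsq : ∀ l, ((GSA_vec a t b - w).snd l) ^ 2
        = (if l = b then t else 0) + (if l < b then t * c l ^ 2 else 0) := by
      intro l
      rw [hcoord]
      by_cases h : l = b
      · subst h
        simp [Real.sq_sqrt ht.le]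
      · by_cases h' : l < b
        · rw [if_neg h, if_pos h', if_neg h, if_pos h']
          have : (0 - c l * √t) ^ 2 = c l ^ 2 * (√t * √t) := by ring
          rw [this, hst2]; ring
        · rw [if_neg h, if_neg h', if_neg h, if_neg h']; ring
    rw [Finset.sum_congr rfl (fun l _ => hsq l), Finset.sum_add_distrib, Finset.sum_ite_eq',
      if_pos (Finset.mem_univ b), ← Finset.sum_filter, ← Finset.mul_sum]
    ring

end Pool.Agent.OSP
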