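import Pool.Agent.OSP_h95.SysB

/-!
# The shift identity
-/

set_option autoImplicit false

namespace Pool.Agent.OSP

open Finset Real Pool.Agent.QFR

variable {G : Type} [AddCommGroup G] [Fintype G]

namespace SysData

variable {T : Fam G} {N : ℕ} {S : SysData T N} {η B C ν : ℝ}

theorem Gam_aux1 (a b : ℕ) (i : T.ι) (x : G) :
    S.Gam a b i x = ∑ j, ∑ y, (∑ l, S.α a l * (T.m j (y - S.D l) - T.m j y)) / S.R *
      S.hh b i j (x - y) := by
  have h1 : ∀ l, S.et b i (x - S.D l) - S.et b i x =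
      ∑ j, ∑ y, (T.m j (y - S.D l) - T.m j y) * S.hh b i j (x - y) := by
    intro l
    rw [et_shift]
    unfold et Ex
    rw [← Finset.sum_sub_distrib]
    refine Finset.sum_congr rfl fun j _ => ?_
    rw [← Finset.sum_sub_distrib]
    refine Finset.sum_congr rfl fun y _ => ?_
    ring
  unfold Gam
  simp_rw [h1]
  have h2 : ∀ j y, (∑ l, S.α a l * (T.m j (y - S.D l) - T.m j y)) / S.R *
      S.hh b i j (x - y) = ∑ l, S.α a l *
        ((T.m j (y - S.D l) - T.m j y) * S.hh b i j (x - y)) / S.R := by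
    intro j y
    rw [Finset.sum_div, Finset.sum_mul]
    refine Finset.sum_congr rfl fun l _ => ?_
    ring
  simp_rw [h2]
  have h3 : ∀ j : T.ι, ∑ y, ∑ l, S.α a l *
      ((T.m j (y - S.D l) - T.m j y) * S.hh b i j (x - y)) / S.R =
      ∑ l, ∑ y, S.α a l * ((T.m j (y - S.D l) - T.m j y) * S.hh b i j (x - y)) / S.R :=
    fun j => Finset.sum_comm
  simp_rw [h3]
  rw [Finset.sum_comm, Finset.sum_div]
  refine Finset.sum_congr rfl fun l _ => ?_
  rw [Finset.mul_sum, Finset.sum_div]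
  refine Finset.sum_congr rfl fun j _ => ?_
  rw [Finset.mul_sum, Finset.sum_div]

theorem Gam_aux2 (a : ℕ) (j : T.ι) (y : G) :
    (∑ l, S.α a l * (T.m j (y - S.D l) - T.m j y)) / S.R =
      T.m j y * S.om a j y +
      (∑ l, S.α a l * (T.m j (y - S.D l) - T.m j y - T.m j y * S.u l j y)) / S.R := by
  have h : ∑ l, S.α a l * (T.m j (y - S.D l) - T.m j y) =
      T.m j y * ∑ l, S.α a l * S.u l j y +
      ∑ l, S.α a l * (T.m j (y - S.D l) - T.m j y - T.m j y * S.u l j y) := by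
    rw [Finset.mul_sum, ← Finset.sum_add_distrib]
    refine Finset.sum_congr rfl fun l _ => ?_
    ring
  rw [h]
  unfold om
  ring

/-- With `v l = T^D - T - T u l`, `V a (j,y) = Σ_l α a l v l (j,y) / R`, `r = h - (e - e')`:
`Γ a b (i,x) = Σ_{j,y} (T ω a + V a)(j,y) h b i j (x-y)`
`= e b (i,x) Ex(ω a) - Ex(e b ω a) + Ex_{j,y}(r b (i,x,j,y) ω a (j,y)) + Σ V a h b`. -/
theorem Gam_eq (h : S.Ok η B C ν) {a b : ℕ} (i : T.ι) (x : G) :
    S.Gam a b i x = S.ee b i x * Ex T (S.om a) - Ex T (fun j y => S.ee b j y * S.om a j y) +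
      Ex T (fun j y => (S.hh b i j (x - y) - (S.ee b i x - S.ee b j y)) * S.om a j y) +
      ∑ j, ∑ y, (∑ l, S.α a l * (T.m j (y - S.D l) - T.m j y - T.m j y * S.u l j y)) / S.R *
        S.hh b i j (x - y) := by
  have _ := h.R0
  rw [Gam_aux1, ← Ex_mul_left T (S.ee b i x) (S.om a),
    ← Ex_sub T (fun j y => S.ee b i x * S.om a j y) (fun j y => S.ee b j y * S.om a j y),
    ← Ex_add]
  unfold Ex
  rw [← Finset.sum_add_distrib]
  refine Finset.sum_congr rfl fun j _ => ?_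
  rw [← Finset.sum_add_distrib]
  refine Finset.sum_congr rfl fun y _ => ?_
  rw [Gam_aux2]
  ring

theorem Gam_aux3 (a : ℕ) : Ex T (S.om a) = (∑ l, S.α a l * Ex T (S.u l)) / S.R := by
  have h1 : Ex T (S.om a) = Ex T (fun i x => ∑ l, S.α a l / S.R * S.u l i x) := by
    congr 1
    funext i x
    unfold om
    rw [Finset.sum_div]
    refine Finset.sum_congr rfl fun l _ => ?_
    ring
  rw [h1, Ex_sum T Finset.univ (fun l i x => S.α a l / S.R * S.u l i x), Finset.sum_div]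
  refine Finset.sum_congr rfl fun l _ => ?_
  rw [Ex_mul_left T (S.α a l / S.R) (S.u l)]
  ring

theorem Gam_aux4 (l : Fin N) :
    Ex T (S.u l) = -∑ j, ∑ y, (T.m j (y - S.D l) - T.m j y - T.m j y * S.u l j y) := by
  have h1 : ∀ j : T.ι, ∑ y, (T.m j (y - S.D l) - T.m j y - T.m j y * S.u l j y) =
      -∑ y, T.m j y * S.u l j y := by
    intro j
    rw [Finset.sum_sub_distrib, Finset.sum_sub_distrib]
    have h2 : ∑ y, T.m j (y - S.D l) = ∑ y, T.m j y :=
      Fintype.sum_equiv (Equiv.subRight (S.D l)) _ _ fun y => rfl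
    rw [h2]
    ring
  simp_rw [h1]
  rw [Finset.sum_neg_distrib, neg_neg]
  rfl

/-- the size of `V` -/
theorem Gam_aux5 (h : S.Ok η B C ν) {a : ℕ} (ha : a < N) :
    (∑ l, |S.α a l| * (C * S.R ^ 2)) / S.R ≤ √(N / S.t) * C * S.R := by
  have hR := h.R0
  have hC := h.C0
  rw [← Finset.sum_mul, div_le_iff₀ hR]
  calc (∑ l, |S.α a l|) * (C * S.R ^ 2) ≤ √(N / S.t) * (C * S.R ^ 2) :=
        mul_le_mul_of_nonneg_right (sum_abs_alpha h ha) (by positivity)
    _ = √(N / S.t) * C * S.R * S.R := by ring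

/-- `Σ (T^D - T) = 0`, so `Ex (ω a) = -Σ V a`, bounded by `√(N/t) C R` -/
theorem abs_Ex_om_le (h : S.Ok η B C ν) {a : ℕ} (ha : a < N) :
    |Ex T (S.om a)| ≤ √(N / S.t) * C * S.R := by
  have hR := h.R0
  refine le_trans ?_ (Gam_aux5 h ha)
  rw [Gam_aux3, abs_div, abs_of_pos hR]
  refine div_le_div_of_nonneg_right ?_ hR.le
  refine (Finset.abs_sum_le_sum_abs _ _).trans (Finset.sum_le_sum fun l _ => ?_)
  rw [abs_mul, Gam_aux4, abs_neg]
  refine mul_le_mul_of_nonneg_left ?_ (abs_nonneg _)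
  refine le_trans ?_ (h.v_le l)
  exact (Finset.abs_sum_le_sum_abs _ _).trans
    (Finset.sum_le_sum fun j _ => Finset.abs_sum_le_sum_abs _ _)

/-- the term with `V` -/
theorem Gam_aux6 (h : S.Ok η B C ν) {a b : ℕ} (ha : a < N) (hb : b < N) (i : T.ι) (x : G) :
    |∑ j, ∑ y, (∑ l, S.α a l * (T.m j (y - S.D l) - T.m j y - T.m j y * S.u l j y)) / S.R *
        S.hh b i j (x - y)| ≤ √(N / S.t) * C * S.R * (2 * B * √(N / S.t)) := by
  have hR := h.R0
  have hB := h.B0
  have hK : 0 ≤ 2 * B * √(N / S.t) := by positivity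
  have h1 : ∀ j y, |(∑ l, S.α a l * (T.m j (y - S.D l) - T.m j y - T.m j y * S.u l j y)) / S.R *
      S.hh b i j (x - y)| ≤ ∑ l, (|S.α a l| *
        |T.m j (y - S.D l) - T.m j y - T.m j y * S.u l j y|) / S.R * (2 * B * √(N / S.t)) := by
    intro j y
    rw [abs_mul, abs_div, abs_of_pos hR, ← Finset.sum_mul, ← Finset.sum_div]
    refine mul_le_mul (div_le_div_of_nonneg_right ?_ hR.le) (abs_hh_le h hb i j (x - y))
      (abs_nonneg _) ?_
    · refine (Finset.abs_sum_le_sum_abs _ _).trans (le_of_eq ?_)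
      exact Finset.sum_congr rfl fun l _ => abs_mul _ _
    · exact div_nonneg (Finset.sum_nonneg fun l _ => mul_nonneg (abs_nonneg _) (abs_nonneg _))
        hR.le
  calc |∑ j, ∑ y, (∑ l, S.α a l * (T.m j (y - S.D l) - T.m j y - T.m j y * S.u l j y)) / S.R *
        S.hh b i j (x - y)|
      ≤ ∑ j, ∑ y, |(∑ l, S.α a l * (T.m j (y - S.D l) - T.m j y - T.m j y * S.u l j y)) / S.R *
        S.hh b i j (x - y)| := (Finset.abs_sum_le_sum_abs _ _).trans
          (Finset.sum_le_sum fun j _ => Finset.abs_sum_le_sum_abs _ _)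
    _ ≤ ∑ j, ∑ y, ∑ l, (|S.α a l| *
        |T.m j (y - S.D l) - T.m j y - T.m j y * S.u l j y|) / S.R * (2 * B * √(N / S.t)) :=
        Finset.sum_le_sum fun j _ => Finset.sum_le_sum fun y _ => h1 j y
    _ = ∑ l, ∑ j, ∑ y, (|S.α a l| *
        |T.m j (y - S.D l) - T.m j y - T.m j y * S.u l j y|) / S.R * (2 * B * √(N / S.t)) := by
        rw [Finset.sum_comm]
        refine Eq.trans (Finset.sum_congr rfl fun j _ => Finset.sum_comm) ?_
        refine Eq.trans (Finset.sum_comm) ?_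
        rw [Finset.sum_comm]
        rw [Finset.sum_comm]
        refine Finset.sum_congr rfl fun l _ => ?_
        rw [Finset.sum_comm]
    _ ≤ ∑ l, |S.α a l| * (C * S.R ^ 2) / S.R * (2 * B * √(N / S.t)) := by
        refine Finset.sum_le_sum fun l _ => ?_
        have e : ∑ j, ∑ y, (|S.α a l| *
            |T.m j (y - S.D l) - T.m j y - T.m j y * S.u l j y|) / S.R * (2 * B * √(N / S.t)) =
            |S.α a l| * (∑ j, ∑ y, |T.m j (y - S.D l) - T.m j y - T.m j y * S.u l j y|) / S.R *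
              (2 * B * √(N / S.t)) := by
          rw [Finset.mul_sum, Finset.sum_div, Finset.sum_mul]
          refine Finset.sum_congr rfl fun j _ => ?_
          rw [Finset.mul_sum, Finset.sum_div, Finset.sum_mul]
        rw [e]
        refine mul_le_mul_of_nonneg_right (div_le_div_of_nonneg_right ?_ hR.le) hK
        exact mul_le_mul_of_nonneg_left (h.v_le l) (abs_nonneg _)
    _ = (∑ l, |S.α a l| * (C * S.R ^ 2)) / S.R * (2 * B * √(N / S.t)) := by
        rw [Finset.sum_div, Finset.sum_mul]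
    _ ≤ √(N / S.t) * C * S.R * (2 * B * √(N / S.t)) :=
        mul_le_mul_of_nonneg_right (Gam_aux5 h ha) hK

theorem Gam_sq3 (p q s : ℝ) : (p + q + s) ^ 2 ≤ 3 * p ^ 2 + 3 * q ^ 2 + 3 * s ^ 2 := by
  nlinarith [sq_nonneg (p - q), sq_nonneg (q - s), sq_nonneg (p - s)]

/-- the pointwise bound -/
theorem Gam_aux7 (h : S.Ok η B C ν) {a b : ℕ} (ha : a < N) (hb : b < N) (i : T.ι) (x : G) :
    (S.Gam a b i x + if a = b then 1 else 0) ^ 2 ≤
      3 * (Ex T (fun j y => S.ee b j y * S.om a j y) - if a = b then 1 else 0) ^ 2 +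
      3 * (Ex T (fun j y => (S.hh b i j (x - y) - (S.ee b i x - S.ee b j y)) *
        S.om a j y)) ^ 2 + 3 * (3 * B * C * (N / S.t) * S.R) ^ 2 := by
  have hR := h.R0
  have hB := h.B0
  have hC := h.C0
  have ht := h.t0
  rw [Gam_eq h i x]
  set P := Ex T (fun j y => S.ee b j y * S.om a j y)
  set Q := Ex T (fun j y => (S.hh b i j (x - y) - (S.ee b i x - S.ee b j y)) * S.om a j y)
  set V := ∑ j, ∑ y, (∑ l, S.α a l * (T.m j (y - S.D l) - T.m j y - T.m j y * S.u l j y)) / S.R *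
        S.hh b i j (x - y) with hV
  set δ : ℝ := if a = b then 1 else 0
  have hsq : √(N / S.t) * √(N / S.t) = N / S.t :=
    Real.mul_self_sqrt (div_nonneg (Nat.cast_nonneg N) ht.le)
  have h1 : |S.ee b i x * Ex T (S.om a)| ≤ B * C * (N / S.t) * S.R := by
    rw [abs_mul]
    calc |S.ee b i x| * |Ex T (S.om a)| ≤ (B * √(N / S.t)) * (√(N / S.t) * C * S.R) :=
          mul_le_mul (abs_ee_le h hb i x) (abs_Ex_om_le h ha) (abs_nonneg _) (by positivity)
      _ = B * C * (√(N / S.t) * √(N / S.t)) * S.R := by ring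
      _ = _ := by rw [hsq]
  have h2 : |V| ≤ 2 * B * C * (N / S.t) * S.R := by
    refine (Gam_aux6 h ha hb i x).trans (le_of_eq ?_)
    calc √(N / S.t) * C * S.R * (2 * B * √(N / S.t)) =
          2 * B * C * (√(N / S.t) * √(N / S.t)) * S.R := by ring
      _ = _ := by rw [hsq]
  have h3 : (S.ee b i x * Ex T (S.om a) + V) ^ 2 ≤ (3 * B * C * (N / S.t) * S.R) ^ 2 := by
    refine sq_le_sq.2 ?_
    have h4 : |S.ee b i x * Ex T (S.om a) + V| ≤ 3 * B * C * (N / S.t) * S.R :=
      (abs_add_le _ _).trans (by linarith)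
    exact h4.trans (le_abs_self _)
  have h5 := Gam_sq3 (-(P - δ)) Q (S.ee b i x * Ex T (S.om a) + V)
  have h6 : S.ee b i x * Ex T (S.om a) - P + Q + V + δ =
      -(P - δ) + Q + (S.ee b i x * Ex T (S.om a) + V) := by ring
  rw [h6]
  have h7 : (-(P - δ)) ^ 2 = (P - δ) ^ 2 := by ring
  rw [h7] at h5
  linarith

/-- the first sum -/
theorem Gam_aux8 (h : S.Ok η B C ν) :
    ∑ a ∈ range N, ∑ b ∈ range N,
      (Ex T (fun j y => S.ee b j y * S.om a j y) - if a = b then 1 else 0) ^ 2 ≤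
      2 * (ν * N) + 2 * (N * η / S.t) := by
  have h1 : ∀ a b, (Ex T (fun j y => S.ee b j y * S.om a j y) - if a = b then 1 else 0) ^ 2 ≤
      2 * (Ex T (fun j y => S.om a j y * S.om b j y) - if a = b then 1 else 0) ^ 2 +
      2 * (Ex T (fun j y => (S.ee b j y - S.om b j y) * S.om a j y)) ^ 2 := by
    intro a b
    have e : Ex T (fun j y => S.ee b j y * S.om a j y) =
        Ex T (fun j y => S.om a j y * S.om b j y) +
        Ex T (fun j y => (S.ee b j y - S.om b j y) * S.om a j y) := by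
      rw [← Ex_add]
      congr 1
      funext j y
      ring
    rw [e]
    set p := Ex T (fun j y => S.om a j y * S.om b j y)
    set q := Ex T (fun j y => (S.ee b j y - S.om b j y) * S.om a j y)
    set δ : ℝ := if a = b then 1 else 0
    nlinarith [sq_nonneg (p - δ - q)]
  calc ∑ a ∈ range N, ∑ b ∈ range N,
      (Ex T (fun j y => S.ee b j y * S.om a j y) - if a = b then 1 else 0) ^ 2
      ≤ ∑ a ∈ range N, ∑ b ∈ range N,
        (2 * (Ex T (fun j y => S.om a j y * S.om b j y) - if a = b then 1 else 0) ^ 2 +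
        2 * (Ex T (fun j y => (S.ee b j y - S.om b j y) * S.om a j y)) ^ 2) :=
        Finset.sum_le_sum fun a _ => Finset.sum_le_sum fun b _ => h1 a b
    _ = 2 * (∑ a ∈ range N, ∑ b ∈ range N,
          (Ex T (fun j y => S.om a j y * S.om b j y) - if a = b then 1 else 0) ^ 2) +
        2 * ∑ b ∈ range N, ∑ a ∈ range N,
          (Ex T (fun j y => (S.ee b j y - S.om b j y) * S.om a j y)) ^ 2 := by
        rw [Finset.sum_comm (s := range N) (t := range N)
          (f := fun b a => (Ex T (fun j y => (S.ee b j y - S.om b j y) * S.om a j y)) ^ 2)]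
        simp only [Finset.sum_add_distrib, Finset.mul_sum]
    _ ≤ 2 * (ν * N) + 2 * ∑ b ∈ range N, Ex T (fun j y => (S.ee b j y - S.om b j y) ^ 2) := by
        refine add_le_add (mul_le_mul_of_nonneg_left h.gram (by norm_num))
          (mul_le_mul_of_nonneg_left (Finset.sum_le_sum fun b _ => ?_) (by norm_num))
        exact h.bessel (fun j y => S.ee b j y - S.om b j y)
    _ ≤ _ := by
        have := sum_ee_om h
        linarith

/-- the second sum -/
theorem Gam_aux9 (h : S.Ok η B C ν) :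
    ∑ a ∈ range N, ∑ b ∈ range N, Ex T (fun i x =>
      (Ex T (fun j y => (S.hh b i j (x - y) - (S.ee b i x - S.ee b j y)) * S.om a j y)) ^ 2) ≤
      N * η / S.t := by
  rw [Finset.sum_comm]
  refine le_trans (Finset.sum_le_sum fun b _ => ?_) (sum_hh_ee h)
  rw [← Ex_sum T (range N) (fun a i x =>
    (Ex T (fun j y => (S.hh b i j (x - y) - (S.ee b i x - S.ee b j y)) * S.om a j y)) ^ 2)]
  refine Ex_mono T fun i x => ?_
  exact h.bessel (fun j y => S.hh b i j (x - y) - (S.ee b i x - S.ee b j y))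

/-- THE SHIFT IDENTITY IN MEAN SQUARE.  By `Gam_eq`
`Γ a b + δ_ab = -(Ex(e b ω a) - δ_ab) + Ex(r b ω a) + small`, `|small| ≤ 3 B C (N/t) R`
(`abs_ee_le`, `abs_Ex_om_le`, `abs_hh_le`, `v_le`).  Square (`(a+b+c)² ≤ 3(a²+b²+c²)`), sum:
* `Σ_{a,b} (Ex(e b ω a) - δ)² ≤ 2 Σ (Ex(ω b ω a) - δ)² + 2 Σ_b Σ_a (Ex((e b - ω b) ω a))²
  ≤ 2 ν N + 2 N η / t` (`gram`, `bessel`, `sum_ee_om`);
* `Σ_{a,b} Ex_{i,x} (Ex(r b (i,x,·) ω a))² ≤ Σ_b Ex Ex r b² ≤ N η / t` (`bessel`, `sum_hh_ee`);
* `N² (3 B C (N/t) R)²`. -/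
theorem sum_Gam (h : S.Ok η B C ν) :
    ∑ a ∈ range N, ∑ b ∈ range N, Ex T (fun i x => (S.Gam a b i x + if a = b then 1 else 0) ^ 2) ≤
      N * (6 * ν + 9 * η / S.t + 27 * B ^ 2 * C ^ 2 * N ^ 3 * S.R ^ 2 / S.t ^ 2) := by
  have ht := h.t0
  calc ∑ a ∈ range N, ∑ b ∈ range N,
        Ex T (fun i x => (S.Gam a b i x + if a = b then 1 else 0) ^ 2)
      ≤ ∑ a ∈ range N, ∑ b ∈ range N,
        (3 * (Ex T (fun j y => S.ee b j y * S.om a j y) - if a = b then 1 else 0) ^ 2 +
        3 * Ex T (fun i x => (Ex T (fun j y => (S.hh b i j (x - y) - (S.ee b i x - S.ee b j y)) *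
          S.om a j y)) ^ 2) + 3 * (3 * B * C * (N / S.t) * S.R) ^ 2) := by
        refine Finset.sum_le_sum fun a ha => Finset.sum_le_sum fun b hb => ?_
        refine (Ex_mono T fun i x => Gam_aux7 h (Finset.mem_range.1 ha)
          (Finset.mem_range.1 hb) i x).trans (le_of_eq ?_)
        rw [Ex_add, Ex_add, Ex_const, Ex_const, Ex_mul_left]
    _ = 3 * (∑ a ∈ range N, ∑ b ∈ range N,
        (Ex T (fun j y => S.ee b j y * S.om a j y) - if a = b then 1 else 0) ^ 2) +
        3 * (∑ a ∈ range N, ∑ b ∈ range N, Ex T (fun i x =>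
          (Ex T (fun j y => (S.hh b i j (x - y) - (S.ee b i x - S.ee b j y)) *
          S.om a j y)) ^ 2)) + N * (N * (3 * (3 * B * C * (N / S.t) * S.R) ^ 2)) := by
        simp only [Finset.sum_add_distrib, Finset.mul_sum, Finset.sum_const, Finset.card_range,
          nsmul_eq_mul]
    _ ≤ 3 * (2 * (ν * N) + 2 * (N * η / S.t)) + 3 * (N * η / S.t) +
        N * (N * (3 * (3 * B * C * (N / S.t) * S.R) ^ 2)) := by
        have h1 := Gam_aux8 h
        have h2 := Gam_aux9 h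
        linarith
    _ = _ := by
        field_simp
        ring

end SysData

end Pool.Agent.OSP
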