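import Mathlib

/-!
# A separated set is small or contains many vectors in general position
-/

set_option autoImplicit false

namespace Pool.Agent.OSP

open Finset Real

/-- one step of the selection -/
theorem Greedy_step {E : Type} [NormedAddCommGroup E] [InnerProductSpace ℝ E] {ι : Type}
    (S : Finset ι) (x v : ι → E) {R : ℝ} (hR : 0 < R) (N : ℕ)
    (h1 : ∀ D ∈ S, ‖x D‖ ≤ R)
    (h2 : ∀ D ∈ S, ∀ D' ∈ S, D ≠ D' → 2 / 3 * R ≤ ‖x D - x D'‖)
    (h3 : ∀ D ∈ S, ‖x D - v D‖ ≤ R / 48) (h4 : 5 ^ N < S.card)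
    (V : Submodule ℝ E) [FiniteDimensional ℝ V] (hV : Module.finrank ℝ V ≤ N) :
    ∃ D ∈ S, ∀ y ∈ V, R / 16 ≤ ‖v D - y‖ := by
  classical
  by_contra hcon
  push Not at hcon
  set P := V.orthogonalProjectionOnto with hP
  have hP1 : ∀ z : E, ‖P z‖ ≤ ‖z‖ := fun z => V.norm_orthogonalProjectionOnto_apply_le z
  -- distance to the projection
  have hdist : ∀ D ∈ S, ‖x D - (P (x D) : E)‖ < R / 12 := by
    intro D hD
    obtain ⟨y, hy, hyD⟩ := hcon D hD
    have h5 : ‖x D - (P (x D) : E)‖ ≤ ‖x D - y‖ := by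
      have h6 := V.starProjection_minimal (x D)
      have h7 : ‖x D - (P (x D) : E)‖ = ⨅ w : V, ‖x D - w‖ := h6
      rw [h7]
      exact ciInf_le ⟨0, fun r ⟨w, hw⟩ => hw ▸ norm_nonneg _⟩ (⟨y, hy⟩ : V)
    have h6 : ‖x D - y‖ ≤ ‖x D - v D‖ + ‖v D - y‖ := by
      have h7 := norm_add_le (x D - v D) (v D - y)
      rwa [sub_add_sub_cancel] at h7
    have h7 := h3 D hD
    linarith
  have hsep : ∀ D ∈ S, ∀ D' ∈ S, D ≠ D' → 1 ≤ ‖(2 / R) • P (x D) - (2 / R) • P (x D')‖ := by
    intro D hD D' hD' hne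
    rw [← smul_sub, norm_smul, Real.norm_of_nonneg (by positivity)]
    have h5 : ‖x D - x D'‖ ≤ ‖x D - (P (x D) : E)‖ + ‖(P (x D) : E) - (P (x D') : E)‖ +
        ‖x D' - (P (x D') : E)‖ := by
      have h6 : x D - x D' = (x D - (P (x D) : E)) + ((P (x D) : E) - (P (x D') : E)) -
          (x D' - (P (x D') : E)) := by abel
      rw [h6]
      exact (norm_sub_le _ _).trans (add_le_add_left (norm_add_le _ _) _)
    have h6 := h2 D hD D' hD' hne
    have h7 := hdist D hD
    have h8 := hdist D' hD'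
    have h9 : ‖P (x D) - P (x D')‖ = ‖(P (x D) : E) - (P (x D') : E)‖ := rfl
    have h10 : R / 2 ≤ ‖P (x D) - P (x D')‖ := by
      rw [h9]
      linarith
    calc (1 : ℝ) = 2 / R * (R / 2) := by field_simp
      _ ≤ _ := mul_le_mul_of_nonneg_left h10 (by positivity)
  have hinj : Set.InjOn (fun D => (2 / R) • P (x D)) S := by
    intro D hD D' hD' heq
    by_contra hne
    have h5 := hsep D hD D' hD' hne
    have h6 : (2 / R) • P (x D) = (2 / R) • P (x D') := heq
    rw [h6, sub_self, norm_zero] at h5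
    linarith
  have hcard : (S.image fun D => (2 / R) • P (x D)).card ≤ 5 ^ Module.finrank ℝ V := by
    refine Besicovitch.card_le_of_separated _ ?_ ?_
    · intro c hc
      obtain ⟨D, hD, rfl⟩ := Finset.mem_image.1 hc
      rw [norm_smul, Real.norm_of_nonneg (by positivity)]
      calc 2 / R * ‖P (x D)‖ ≤ 2 / R * R :=
            mul_le_mul_of_nonneg_left ((hP1 _).trans (h1 D hD)) (by positivity)
        _ = 2 := by field_simp
    · intro c hc d hd hcd
      obtain ⟨D, hD, rfl⟩ := Finset.mem_image.1 hc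
      obtain ⟨D', hD', rfl⟩ := Finset.mem_image.1 hd
      exact hsep D hD D' hD' fun h => hcd (by rw [h])
  rw [Finset.card_image_of_injOn hinj] at hcard
  have h5 : 5 ^ Module.finrank ℝ V ≤ 5 ^ N := Nat.pow_le_pow_right (by norm_num) hV
  omega

/-- the selection of `m ≤ N` vectors -/
theorem Greedy_aux {E : Type} [NormedAddCommGroup E] [InnerProductSpace ℝ E] {ι : Type}
    (S : Finset ι) (x v : ι → E) {R : ℝ} (hR : 0 < R) (N : ℕ)
    (h1 : ∀ D ∈ S, ‖x D‖ ≤ R)
    (h2 : ∀ D ∈ S, ∀ D' ∈ S, D ≠ D' → 2 / 3 * R ≤ ‖x D - x D'‖)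
    (h3 : ∀ D ∈ S, ‖x D - v D‖ ≤ R / 48) (h4 : 5 ^ N < S.card) (m : ℕ) (hm : m ≤ N) :
    ∃ d : Fin m → ι, (∀ l, d l ∈ S) ∧ ∀ l (c : Fin m → ℝ),
      R / 16 ≤ ‖v (d l) - ∑ k ∈ univ.filter (· < l), c k • v (d k)‖ := by
  induction m with
  | zero => exact ⟨Fin.elim0, fun l => l.elim0, fun l => l.elim0⟩
  | succ m ih =>
    obtain ⟨d, hd, hdl⟩ := ih (by omega)
    set V : Submodule ℝ E := Submodule.span ℝ (Set.range fun k => v (d k)) with hV
    have hfin : FiniteDimensional ℝ V :=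
      FiniteDimensional.span_of_finite ℝ (Set.finite_range _)
    have hVm : Module.finrank ℝ V ≤ N := by
      have h5 := finrank_range_le_card (R := ℝ) (fun k => v (d k))
      rw [Fintype.card_fin] at h5
      have h6 : Module.finrank ℝ V = (Set.range fun k => v (d k)).finrank ℝ := rfl
      omega
    obtain ⟨D, hD, hDV⟩ := Greedy_step S x v hR N h1 h2 h3 h4 V hVm
    refine ⟨Fin.snoc d D, fun l => ?_, fun l c => ?_⟩
    · refine Fin.lastCases ?_ (fun l => ?_) l
      · rw [Fin.snoc_last]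
        exact hD
      · rw [Fin.snoc_castSucc]
        exact hd l
    · rw [Finset.sum_filter, Fin.sum_univ_castSucc]
      refine Fin.lastCases ?_ (fun l => ?_) l
      · rw [if_neg (lt_irrefl _), add_zero, Fin.snoc_last]
        refine hDV _ (Submodule.sum_mem _ fun k _ => ?_)
        rw [if_pos (Fin.castSucc_lt_last k), Fin.snoc_castSucc]
        exact Submodule.smul_mem _ _ (Submodule.subset_span ⟨k, rfl⟩)
      · rw [if_neg (not_lt.2 (Fin.le_last _)), add_zero, Fin.snoc_castSucc]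
        have h5 := hdl l fun k => c k.castSucc
        rw [Finset.sum_filter] at h5
        have h6 : ∀ k : Fin m, (if k.castSucc < l.castSucc then
            c k.castSucc • v (Fin.snoc (α := fun _ => ι) d D k.castSucc) else 0) =
            if k < l then c k.castSucc • v (d k) else 0 := by
          intro k
          rw [Fin.snoc_castSucc]
          rfl
        rw [Finset.sum_congr rfl fun k _ => h6 k]
        exact h5

/-- GREEDY SELECTION.  Suppose `n < N` indices have been chosen and let `V` be the span of the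
chosen `v (d k)`, of dimension `≤ n`.  If all `v D` (`D ∈ S`) were within `R/16` of `V`, let `P`
be the orthogonal projection to `V`; then `‖x D - P (x D)‖ ≤ R/48 + R/16 = R/12`, so the points
`P (x D)` have norm `≤ R` and are `2R/3 - R/6 = R/2`-separated; multiplied by `2/R`:
`Besicovitch.card_le_of_separated` gives `|S| ≤ 5^n ≤ 5^N`, a contradiction (`P ∘ x` is
injective on `S`).  So some `D ∈ S` has `v D` at distance `> R/16` from `V`. -/
theorem greedy {E : Type} [NormedAddCommGroup E] [InnerProductSpace ℝ E] {ι : Type}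
    (S : Finset ι) (x v : ι → E) {R : ℝ} (hR : 0 < R) (N : ℕ)
    (h1 : ∀ D ∈ S, ‖x D‖ ≤ R)
    (h2 : ∀ D ∈ S, ∀ D' ∈ S, D ≠ D' → 2 / 3 * R ≤ ‖x D - x D'‖)
    (h3 : ∀ D ∈ S, ‖x D - v D‖ ≤ R / 48) (h4 : 5 ^ N < S.card) :
    ∃ d : Fin N → ι, (∀ l, d l ∈ S) ∧ ∀ l (c : Fin N → ℝ),
      R / 16 ≤ ‖v (d l) - ∑ k ∈ univ.filter (· < l), c k • v (d k)‖ :=
  Greedy_aux S x v hR N h1 h2 h3 h4 N le_rfl

end Pool.Agent.OSP
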