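import Pool.Agent.OSP_h95.Defs

/-!
# Near-minimisers of the functional `Phi`
-/

set_option autoImplicit false

namespace Pool.Agent.OSP

open Finset Real Pool.Agent.QFR

variable {G : Type} [AddCommGroup G] [Fintype G]

/-- `Phi ≥ 0`: `H(T) ≤ H(T - T')` (`H_le_add_left`), `H(X), H(T) ≤ H(X + T)`. -/
theorem Phi_nonneg (X : Fam G) {lam : ℝ} (hlam : 0 ≤ lam) (T : Fam G) : 0 ≤ Phi X lam T := by
  have h1 := H_le_add_left T (neg T)
  have h2 := H_le_add_left X T
  have h3 := H_le_add_right X T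
  unfold Phi dbl
  have h4 : 0 ≤ lam * (2 * (X.add T).H - X.H - T.H) := mul_nonneg hlam (by linarith)
  linarith

/-- A near-minimiser exists: `Phi ≥ 0`, so the infimum of the (nonempty, bounded below) set
`Set.range (Phi X lam)` is approached. -/
theorem exists_min (X : Fam G) {lam : ℝ} (hlam : 0 ≤ lam) {δ : ℝ} (hδ : 0 < δ) :
    ∃ T : Fam G, ∀ Z : Fam G, Phi X lam T ≤ Phi X lam Z + δ := by
  have hb : BddBelow (Set.range (Phi X lam)) := by
    refine ⟨0, ?_⟩
    rintro y ⟨T, rfl⟩
    exact Phi_nonneg X hlam T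
  have hne : (Set.range (Phi X lam)).Nonempty := ⟨_, X, rfl⟩
  obtain ⟨y, ⟨T, rfl⟩, hT⟩ := exists_lt_of_csInf_lt hne
    (lt_add_of_pos_right (sInf (Set.range (Phi X lam))) hδ)
  refine ⟨T, fun Z => ?_⟩
  have h1 : sInf (Set.range (Phi X lam)) ≤ Phi X lam Z := csInf_le hb ⟨Z, rfl⟩
  linarith

/-- (M3).  Compare with `Z = T + V`.  By `submod X T V`
(`H(X+T+V) + H(T) ≤ H(X+T) + H(T+V)`) and `iso_add_assoc`,
`H(X+T+V) - H(X+T) ≤ g := H(T+V) - H(T)`; so
`H((T+V)-(T+V)') - H(T-T') ≥ g - lam (2 (H(X+T+V) - H(X+T)) - g) - δ ≥ (1 - lam) g - δ`. -/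
theorem mini_of_near (X : Fam G) {lam : ℝ} (hlam : 0 ≤ lam) {δ : ℝ} (T : Fam G)
    (h : ∀ Z : Fam G, Phi X lam T ≤ Phi X lam Z + δ) : Mini T lam δ := by
  intro V
  have h1 := h (T.add V)
  have h2 := submod X T V
  have h3 := (iso_add_assoc X T V).H_eq
  unfold Phi dbl at h1
  unfold gain
  have h4 : (X.add (T.add V)).H - (X.add T).H ≤ (T.add V).H - T.H := by linarith
  have h5 := mul_le_mul_of_nonneg_left h4 hlam
  linarith

/-- The three bounds read off from `Phi X lam T ≤ P`: all terms are nonnegative. -/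
theorem bounds_of_Phi (X T : Fam G) {lam P : ℝ} (hlam : 0 < lam) (h : Phi X lam T ≤ P) :
    dbl T ≤ P ∧ (X.add T).H - X.H ≤ P / lam ∧ (X.add T).H - T.H ≤ P / lam := by
  have h1 := H_le_add_left T (neg T)
  have h2 := H_le_add_left X T
  have h3 := H_le_add_right X T
  unfold Phi at h
  have hd : 0 ≤ dbl T := by
    unfold dbl
    linarith
  have h4 : 0 ≤ lam * ((X.add T).H - X.H) := mul_nonneg hlam.le (by linarith)
  have h5 : 0 ≤ lam * ((X.add T).H - T.H) := mul_nonneg hlam.le (by linarith)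
  refine ⟨by linarith, ?_, ?_⟩
  · rw [le_div_iff₀ hlam]
    linarith
  · rw [le_div_iff₀ hlam]
    linarith

open scoped Pointwise in
/-- `Phi (unif A) ≤ (2 + 2 lam) k`: the law of `X - X'` is supported in `A - A`
(compare `H_unif_add_unif_le`, `ent_le_card`), the law of `X + X'` in `A + A`. -/
theorem Phi_unif_le [DecidableEq G] (A : Finset G) (hA : A.Nonempty) {lam k : ℝ}
    (hlam : 0 ≤ lam) (h1 : ((A + A).card : ℝ) ≤ exp k * A.card)
    (h2 : ((A - A).card : ℝ) ≤ exp (2 * k) * A.card) :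
    Phi (Fam.unif A hA) lam (Fam.unif A hA) ≤ (2 + 2 * lam) * k := by
  have hc : (0 : ℝ) < A.card := by exact_mod_cast hA.card_pos
  have h0 := H_unif A hA
  have h3 := H_unif_add_unif_le A hA
  have hs : Real.log (A + A).card ≤ k + Real.log A.card := by
    have hp : (0 : ℝ) < (A + A).card := by exact_mod_cast (hA.add hA).card_pos
    have := Real.log_le_log hp h1
    rwa [Real.log_mul (exp_pos _).ne' hc.ne', Real.log_exp] at this
  have hd : Real.log (A - A).card ≤ 2 * k + Real.log A.card := by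
    have hp : (0 : ℝ) < (A - A).card := by exact_mod_cast (hA.sub hA).card_pos
    have := Real.log_le_log hp h2
    rwa [Real.log_mul (exp_pos _).ne' hc.ne', Real.log_exp] at this
  have h4 : ((Fam.unif A hA).add (neg (Fam.unif A hA))).H ≤ Real.log (A - A).card := by
    have e1 : ((Fam.unif A hA).add (neg (Fam.unif A hA))).H =
        ent (conv (QFR.unif A) (fun x => QFR.unif A (-x))) := by
      show ∑ _i : Unit × Unit, ent (conv (QFR.unif A) (fun x => QFR.unif A (-x))) = _
      simp
    rw [e1]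
    have hsum : ∑ x, QFR.unif A (-x) = 1 := by
      rw [← sum_unif hA]
      exact Fintype.sum_equiv (Equiv.neg G) _ _ fun x => rfl
    have h5 := ent_le_card (conv (QFR.unif A) (fun x => QFR.unif A (-x)))
      (conv_nonneg (unif_nonneg A) (fun x => unif_nonneg A (-x))) (A - A) (by
        intro x hx
        unfold conv
        refine Finset.sum_eq_zero fun y _ => ?_
        unfold QFR.unif
        simp only
        by_cases hy : y ∈ A
        · by_cases hz : -(x - y) ∈ A
          · exact absurd (Finset.mem_sub.2 ⟨y, hy, -(x - y), hz, by abel⟩) hx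
          · rw [if_neg hz, mul_zero]
        · rw [if_neg hy, zero_mul])
    rw [sum_conv, sum_unif hA, hsum, mul_one, one_mul] at h5
    exact h5
  unfold Phi dbl
  rw [h0]
  have h6 : lam * (2 * ((Fam.unif A hA).add (Fam.unif A hA)).H - Real.log A.card -
      Real.log A.card) ≤ lam * (2 * k) := mul_le_mul_of_nonneg_left (by linarith) hlam
  linarith

end Pool.Agent.OSP
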