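import Mathlib

/-!
# Jensen's inequality with a defect
-/

set_option autoImplicit false

namespace Pool.Agent.OSP

open Finset Real

/-- For `0 ≤ h ≤ 4`, `0 < H ≤ 4`: `h log (h / H) - h + H ≥ (√h - √H)² ≥ (h - H)² / 16`
(`log t ≥ 1 - 1/t` for `t = √(h/H)`, and `√h + √H ≤ 4`). -/
theorem klog_ge {h H : ℝ} (h0 : 0 ≤ h) (h4 : h ≤ 4) (H0 : 0 < H) (H4 : H ≤ 4) :
    (h - H) ^ 2 / 16 ≤ h * Real.log (h / H) - h + H := by
  rcases h0.eq_or_lt with h00 | hpos
  · rw [← h00]
    nlinarith
  · have hs : 0 < √h := Real.sqrt_pos.2 hpos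
    have hS : 0 < √H := Real.sqrt_pos.2 H0
    have e1 : √h * √h = h := Real.mul_self_sqrt h0
    have e2 : √H * √H = H := Real.mul_self_sqrt H0.le
    have b1 : √h ≤ 2 := by
      rw [Real.sqrt_le_left (by norm_num)]
      linarith
    have b2 : √H ≤ 2 := by
      rw [Real.sqrt_le_left (by norm_num)]
      linarith
    have hlog : Real.log (h / H) = 2 * Real.log (√h / √H) := by
      have e3 : h / H = (√h / √H) ^ 2 := by
        rw [div_pow, sq, sq, e1, e2]
      rw [e3, Real.log_pow]
      push_cast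
      ring
    have hge : 1 - √H / √h ≤ Real.log (√h / √H) := by
      have h1 := Real.one_sub_inv_le_log_of_pos (div_pos hs hS)
      rwa [inv_div] at h1
    have h2 : 2 * (h - √h * √H) ≤ h * Real.log (h / H) := by
      have h3 : h * (1 - √H / √h) = h - √h * √H := by
        have h4 : h * (√H / √h) = √h * √H := by
          nth_rewrite 1 [← e1]
          field_simp
        rw [mul_sub, mul_one, h4]
      have h5 := mul_le_mul_of_nonneg_left hge h0
      rw [h3] at h5
      rw [hlog]
      linarith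
    have h6 : (h - H) ^ 2 = (√h - √H) ^ 2 * (√h + √H) ^ 2 := by
      nth_rewrite 1 [← e1, ← e2]
      ring
    have h7 : (√h + √H) ^ 2 ≤ 16 := by nlinarith
    have h8 : (h - H) ^ 2 ≤ (√h - √H) ^ 2 * 16 := by
      rw [h6]
      exact mul_le_mul_of_nonneg_left h7 (sq_nonneg _)
    have h9 : (√h - √H) ^ 2 = h - 2 * (√h * √H) + H := by
      calc (√h - √H) ^ 2 = √h * √h - 2 * (√h * √H) + √H * √H := by ring
        _ = _ := by rw [e1, e2]
    linarith

/-- Jensen's inequality for `x log x` with a defect term: sum `a x` times `klog_ge` for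
`H = P / R` (if `R = 0` or `P = 0` everything vanishes). -/
theorem jensen_defect {κ : Type} (s : Finset κ) (a h : κ → ℝ) (ha : ∀ x ∈ s, 0 ≤ a x)
    (h0 : ∀ x ∈ s, 0 ≤ h x) (h4 : ∀ x ∈ s, h x ≤ 4) (R P : ℝ) (hR : ∑ x ∈ s, a x = R)
    (hP : ∑ x ∈ s, a x * h x = P) :
    P * Real.log (P / R) + (1 / 16) * ∑ x ∈ s, a x * (h x - P / R) ^ 2 ≤
      ∑ x ∈ s, a x * (h x * Real.log (h x)) := by
  have hR0 : 0 ≤ R := by
    rw [← hR]
    exact Finset.sum_nonneg ha
  have hP0 : 0 ≤ P := by
    rw [← hP]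
    exact Finset.sum_nonneg fun x hx => mul_nonneg (ha x hx) (h0 x hx)
  have hP4 : P ≤ 4 * R := by
    rw [← hP, ← hR, Finset.mul_sum]
    refine Finset.sum_le_sum fun x hx => ?_
    have := mul_le_mul_of_nonneg_left (h4 x hx) (ha x hx)
    linarith
  rcases hP0.eq_or_lt with hP00 | hPpos
  · -- every term vanishes
    have h1 : ∀ x ∈ s, a x * h x = 0 := by
      rw [← hP00] at hP
      exact (Finset.sum_eq_zero_iff_of_nonneg fun x hx =>
        mul_nonneg (ha x hx) (h0 x hx)).1 hP
    rw [← hP00, zero_mul, zero_div, zero_add]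
    have h2 : ∑ x ∈ s, a x * (h x - 0) ^ 2 = 0 := Finset.sum_eq_zero fun x hx => by
      rw [sub_zero, sq, ← mul_assoc, h1 x hx, zero_mul]
    have h3 : ∑ x ∈ s, a x * (h x * Real.log (h x)) = 0 := Finset.sum_eq_zero fun x hx => by
      rw [← mul_assoc, h1 x hx, zero_mul]
    rw [h2, h3, mul_zero]
  · have hRpos : 0 < R := by linarith
    have hH : 0 < P / R := div_pos hPpos hRpos
    have hH4 : P / R ≤ 4 := by
      rw [div_le_iff₀ hRpos]
      exact hP4
    have h1 : ∀ x ∈ s, a x * ((h x - P / R) ^ 2 / 16) ≤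
        a x * (h x * Real.log (h x)) - (a x * h x) * Real.log (P / R) - a x * h x
          + a x * (P / R) := by
      intro x hx
      have h2 := mul_le_mul_of_nonneg_left (klog_ge (h0 x hx) (h4 x hx) hH hH4) (ha x hx)
      have h3 : h x * Real.log (h x / (P / R)) = h x * Real.log (h x) - h x * Real.log (P / R) := by
        rcases (h0 x hx).eq_or_lt with h00 | hpos
        · rw [← h00]
          simp
        · rw [Real.log_div hpos.ne' hH.ne']
          ring
      rw [h3] at h2
      refine h2.trans (le_of_eq ?_)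
      ring
    have h2 := Finset.sum_le_sum h1
    rw [Finset.sum_add_distrib, Finset.sum_sub_distrib, Finset.sum_sub_distrib,
      ← Finset.sum_mul, ← Finset.sum_mul, hP, hR, mul_div_cancel₀ P hRpos.ne'] at h2
    have h3 : ∑ x ∈ s, a x * ((h x - P / R) ^ 2 / 16) =
        1 / 16 * ∑ x ∈ s, a x * (h x - P / R) ^ 2 := by
      rw [Finset.mul_sum]
      exact Finset.sum_congr rfl fun x _ => by ring
    rw [h3] at h2
    linarith

end Pool.Agent.OSP
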