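import Pool.Agent.OSP_h95.Rat
import Pool.Agent.OSP_h95.Jensen

/-!
# Scores are near-homomorphisms
-/

set_option autoImplicit false

namespace Pool.Agent.OSP

open Finset Real Pool.Agent.QFR

variable {G : Type} [AddCommGroup G] [Fintype G]

/-- correlation -/
noncomputable def NearHom_corr (f g : G → ℝ) (s : G) : ℝ := ∑ x, f x * g (x - s)

lemma NearHom_sum_corr (f g : G → ℝ) : ∑ s, NearHom_corr f g s = (∑ x, f x) * ∑ x, g x := by
  unfold NearHom_corr
  rw [Finset.sum_comm, Finset.sum_mul]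
  refine Finset.sum_congr rfl fun x _ => ?_
  rw [← Finset.mul_sum]
  congr 1
  exact Fintype.sum_equiv (Equiv.subLeft x) _ _ fun s => rfl

lemma NearHom_corr_nonneg {f g : G → ℝ} (hf : ∀ x, 0 ≤ f x) (hg : ∀ x, 0 ≤ g x) (s : G) :
    0 ≤ NearHom_corr f g s := Finset.sum_nonneg fun x _ => mul_nonneg (hf x) (hg _)

lemma NearHom_H_sub (a : Fam G) : (a.add (neg a)).H =
    ∑ i, ∑ j, ent (NearHom_corr (a.m i) (a.m j)) := by
  rw [fb_H_add]
  refine Finset.sum_congr rfl fun i _ => ?_
  refine Finset.sum_congr rfl fun j _ => ?_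
  congr 1
  funext s
  unfold conv NearHom_corr
  refine Finset.sum_congr rfl fun y _ => ?_
  show a.m i y * a.m j (-(s - y)) = _
  rw [neg_sub]

lemma NearHom_sum_idx (T : Fam G) (D : G) (F : (T.add (ber D)).ι → ℝ) :
    ∑ t, F t = ∑ i : T.ι, F (i, ()) := by
  exact (Fintype.sum_prod_type (fun t : T.ι × Unit => F t)).trans
    (Finset.sum_congr rfl fun i _ => by
      show ∑ u : Unit, F (i, u) = F (i, ())
      rw [Fintype.sum_unique])

lemma NearHom_sum_shift (f : G → ℝ) (D : G) : ∑ x, f (x - D) = ∑ x, f x :=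
  Fintype.sum_equiv (Equiv.subRight D) _ _ fun _ => rfl

lemma NearHom_sum_shift' (f : G → ℝ) (D : G) : ∑ x, f (x + D) = ∑ x, f x :=
  Fintype.sum_equiv (Equiv.addRight D) _ _ fun _ => rfl

lemma NearHom_sum_avg (T : Fam G) (D : G) (i : T.ι) : ∑ x, avg T D i x = ∑ x, T.m i x := by
  unfold avg
  rw [← Finset.sum_div, Finset.sum_add_distrib, NearHom_sum_shift (T.m i) D]
  ring

lemma NearHom_corr_avg (T : Fam G) (D : G) (i j : T.ι) (s : G) :
    NearHom_corr (avg T D i) (avg T D j) s =
      NearHom_corr (T.m i) (T.m j) s / 2 + NearHom_corr (T.m i) (T.m j) (s - D) / 4 +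
        NearHom_corr (T.m i) (T.m j) (s + D) / 4 := by
  have h1 : ∑ x, T.m i (x - D) * T.m j (x - s) = NearHom_corr (T.m i) (T.m j) (s - D) := by
    unfold NearHom_corr
    rw [← NearHom_sum_shift (fun x => T.m i x * T.m j (x - (s - D))) D]
    refine Finset.sum_congr rfl fun x _ => ?_
    congr 2; abel
  have h2 : ∑ x, T.m i x * T.m j (x - s - D) = NearHom_corr (T.m i) (T.m j) (s + D) := by
    unfold NearHom_corr
    refine Finset.sum_congr rfl fun x _ => ?_
    congr 2; abel
  have h3 : ∑ x, T.m i (x - D) * T.m j (x - s - D) = NearHom_corr (T.m i) (T.m j) s := by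
    unfold NearHom_corr
    rw [← NearHom_sum_shift (fun x => T.m i x * T.m j (x - s)) D]
    refine Finset.sum_congr rfl fun x _ => ?_
    congr 2; abel
  rw [← h1, ← h2]
  conv_rhs => rw [show NearHom_corr (T.m i) (T.m j) s / 2 =
    (NearHom_corr (T.m i) (T.m j) s) / 4 + NearHom_corr (T.m i) (T.m j) s / 4 by ring]
  nth_rewrite 2 [← h3]
  unfold NearHom_corr avg
  simp only [Finset.sum_div]
  rw [← Finset.sum_add_distrib, ← Finset.sum_add_distrib, ← Finset.sum_add_distrib]
  refine Finset.sum_congr rfl fun x _ => ?_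
  ring

lemma NearHom_P00 (T : Fam G) (D : G) (i j : T.ι) (s : G) :
    ∑ x, (avg T D i x * avg T D j (x - s)) * (1 + rat T D i x * rat T D j (x - s)) =
      NearHom_corr (T.m i) (T.m j) s := by
  have h3 : ∑ x, T.m i (x - D) * T.m j (x - s - D) = NearHom_corr (T.m i) (T.m j) s := by
    unfold NearHom_corr
    rw [← NearHom_sum_shift (fun x => T.m i x * T.m j (x - s)) D]
    refine Finset.sum_congr rfl fun x _ => ?_
    congr 2; abel
  have h4 : NearHom_corr (T.m i) (T.m j) s = (∑ x, T.m i x * T.m j (x - s)) / 2 +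
      (∑ x, T.m i (x - D) * T.m j (x - s - D)) / 2 := by
    rw [h3]; unfold NearHom_corr; ring
  rw [h4, Finset.sum_div, Finset.sum_div, ← Finset.sum_add_distrib]
  refine Finset.sum_congr rfl fun x _ => ?_
  rw [m_eq T D i x, m_eq T D j (x - s), m_shift_eq T D i x, m_shift_eq T D j (x - s)]
  ring

lemma NearHom_P10 (T : Fam G) (D : G) (i j : T.ι) (s : G) :
    ∑ x, (avg T D i x * avg T D j (x - s)) * ((1 + rat T D i x) * (1 - rat T D j (x - s))) =
      NearHom_corr (T.m i) (T.m j) (s - D) := by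
  have h1 : ∑ x, T.m i (x - D) * T.m j (x - s) = NearHom_corr (T.m i) (T.m j) (s - D) := by
    unfold NearHom_corr
    rw [← NearHom_sum_shift (fun x => T.m i x * T.m j (x - (s - D))) D]
    refine Finset.sum_congr rfl fun x _ => ?_
    congr 2; abel
  rw [← h1]
  refine Finset.sum_congr rfl fun x _ => ?_
  rw [m_eq T D j (x - s), m_shift_eq T D i x]
  ring

lemma NearHom_P01 (T : Fam G) (D : G) (i j : T.ι) (s : G) :
    ∑ x, (avg T D i x * avg T D j (x - s)) * ((1 - rat T D i x) * (1 + rat T D j (x - s))) =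
      NearHom_corr (T.m i) (T.m j) (s + D) := by
  have h2 : ∑ x, T.m i x * T.m j (x - s - D) = NearHom_corr (T.m i) (T.m j) (s + D) := by
    unfold NearHom_corr
    refine Finset.sum_congr rfl fun x _ => ?_
    congr 2; abel
  rw [← h2]
  refine Finset.sum_congr rfl fun x _ => ?_
  rw [m_eq T D i x, m_shift_eq T D j (x - s)]
  ring

lemma NearHom_log (P R : ℝ) (hP : 0 ≤ P) (h : R = 0 → P = 0) :
    P * Real.log (P / R) = -negMulLog P - P * Real.log R := by
  rcases hP.eq_or_lt with h0 | h0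
  · rw [← h0]; simp
  · have hR : R ≠ 0 := fun hR => by rw [h hR] at h0; exact lt_irrefl _ h0
    rw [Real.log_div h0.ne' hR]
    unfold negMulLog
    ring

/-- the main pointwise inequality -/
lemma NearHom_point (T : Fam G) (D : G) (i j : T.ι) (s : G) (w : ℝ)
    (hw : w = (NearHom_corr (T.m i) (T.m j) (s - D) / NearHom_corr (avg T D i) (avg T D j) s -
      NearHom_corr (T.m i) (T.m j) (s + D) / NearHom_corr (avg T D i) (avg T D j) s) / 2) :
    negMulLog (NearHom_corr (avg T D i) (avg T D j) s) -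
      (negMulLog (NearHom_corr (T.m i) (T.m j) s) / 2 +
       negMulLog (NearHom_corr (T.m i) (T.m j) (s - D)) / 4 +
       negMulLog (NearHom_corr (T.m i) (T.m j) (s + D)) / 4) +
      (1 / 32) * ∑ x, (avg T D i x * avg T D j (x - s)) *
        (w - (rat T D i x - rat T D j (x - s))) ^ 2 ≤
    ∑ x, (avg T D i x * avg T D j (x - s)) *
      ((1 + rat T D i x * rat T D j (x - s)) * Real.log (1 + rat T D i x * rat T D j (x - s)) / 2 +
       ((1 + rat T D i x) * (1 - rat T D j (x - s))) *
         Real.log ((1 + rat T D i x) * (1 - rat T D j (x - s))) / 4 +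
       ((1 - rat T D i x) * (1 + rat T D j (x - s))) *
         Real.log ((1 - rat T D i x) * (1 + rat T D j (x - s))) / 4) := by
  set R := NearHom_corr (avg T D i) (avg T D j) s with hR
  set P := NearHom_corr (T.m i) (T.m j) s with hP
  set P1 := NearHom_corr (T.m i) (T.m j) (s - D) with hP1
  set P2 := NearHom_corr (T.m i) (T.m j) (s + D) with hP2
  have hP0 : 0 ≤ P := NearHom_corr_nonneg (T.nn i) (T.nn j) _
  have hP10 : 0 ≤ P1 := NearHom_corr_nonneg (T.nn i) (T.nn j) _
  have hP20 : 0 ≤ P2 := NearHom_corr_nonneg (T.nn i) (T.nn j) _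
  have hRP : R = P / 2 + P1 / 4 + P2 / 4 := NearHom_corr_avg T D i j s
  set a : G → ℝ := fun x => avg T D i x * avg T D j (x - s) with ha
  set u : G → ℝ := fun x => rat T D i x with hu
  set v : G → ℝ := fun x => rat T D j (x - s) with hv
  have ha0 : ∀ x ∈ (Finset.univ : Finset G), 0 ≤ a x := fun x _ =>
    mul_nonneg (avg_nonneg T D i x) (avg_nonneg T D j _)
  have hu1 : ∀ x, -1 ≤ u x ∧ u x ≤ 1 := fun x => abs_le.1 (abs_rat_le T D i x)
  have hv1 : ∀ x, -1 ≤ v x ∧ v x ≤ 1 := fun x => abs_le.1 (abs_rat_le T D j (x - s))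
  have j0 := jensen_defect Finset.univ a (fun x => 1 + u x * v x) ha0
    (fun x _ => by nlinarith [(hu1 x).1, (hu1 x).2, (hv1 x).1, (hv1 x).2])
    (fun x _ => by nlinarith [(hu1 x).1, (hu1 x).2, (hv1 x).1, (hv1 x).2]) R P rfl
    (NearHom_P00 T D i j s)
  have j1 := jensen_defect Finset.univ a (fun x => (1 + u x) * (1 - v x)) ha0
    (fun x _ => mul_nonneg (by linarith [(hu1 x).1]) (by linarith [(hv1 x).2]))
    (fun x _ => by nlinarith [(hu1 x).1, (hu1 x).2, (hv1 x).1, (hv1 x).2]) R P1 rfl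
    (NearHom_P10 T D i j s)
  have j2 := jensen_defect Finset.univ a (fun x => (1 - u x) * (1 + v x)) ha0
    (fun x _ => mul_nonneg (by linarith [(hu1 x).2]) (by linarith [(hv1 x).1]))
    (fun x _ => by nlinarith [(hu1 x).1, (hu1 x).2, (hv1 x).1, (hv1 x).2]) R P2 rfl
    (NearHom_P01 T D i j s)
  have l0 := NearHom_log P R hP0 (fun h => by linarith)
  have l1 := NearHom_log P1 R hP10 (fun h => by linarith)
  have l2 := NearHom_log P2 R hP20 (fun h => by linarith)
  have d0 : 0 ≤ ∑ x, a x * (1 + u x * v x - P / R) ^ 2 :=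
    Finset.sum_nonneg fun x hx => mul_nonneg (ha0 x hx) (sq_nonneg _)
  have d1 : (1 / 32) * ∑ x, a x * (w - (u x - v x)) ^ 2 ≤
      (1 / 64) * ∑ x, a x * ((1 + u x) * (1 - v x) - P1 / R) ^ 2 +
      (1 / 64) * ∑ x, a x * ((1 - u x) * (1 + v x) - P2 / R) ^ 2 := by
    rw [Finset.mul_sum, Finset.mul_sum, Finset.mul_sum, ← Finset.sum_add_distrib]
    refine Finset.sum_le_sum fun x hx => ?_
    have h1 : (w - (u x - v x)) ^ 2 ≤ (1 / 2) * ((1 + u x) * (1 - v x) - P1 / R) ^ 2 +
        (1 / 2) * ((1 - u x) * (1 + v x) - P2 / R) ^ 2 := by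
      rw [hw]
      nlinarith [sq_nonneg (((1 + u x) * (1 - v x) - P1 / R) +
        ((1 - u x) * (1 + v x) - P2 / R))]
    nlinarith [mul_le_mul_of_nonneg_left h1 (ha0 x hx)]
  have hη : negMulLog R = -(R * Real.log R) := by unfold negMulLog; ring
  have hsum : ∑ x, a x *
      ((1 + u x * v x) * Real.log (1 + u x * v x) / 2 +
       ((1 + u x) * (1 - v x)) * Real.log ((1 + u x) * (1 - v x)) / 4 +
       ((1 - u x) * (1 + v x)) * Real.log ((1 - u x) * (1 + v x)) / 4) =
      (∑ x, a x * ((1 + u x * v x) * Real.log (1 + u x * v x))) / 2 +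
      (∑ x, a x * ((1 + u x) * (1 - v x) * Real.log ((1 + u x) * (1 - v x)))) / 4 +
      (∑ x, a x * ((1 - u x) * (1 + v x) * Real.log ((1 - u x) * (1 + v x)))) / 4 := by
    rw [Finset.sum_div, Finset.sum_div, Finset.sum_div, ← Finset.sum_add_distrib,
      ← Finset.sum_add_distrib]
    refine Finset.sum_congr rfl fun x _ => ?_
    ring
  rw [hsum, hη]
  have hRlog : R * Real.log R = P * Real.log R / 2 + P1 * Real.log R / 4 + P2 * Real.log R / 4 := by
    have h5 : R * Real.log R = (P / 2 + P1 / 4 + P2 / 4) * Real.log R :=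
      congrArg (fun t : ℝ => t * Real.log R) hRP
    rw [h5]
    ring
  rw [hRlog]
  rw [l0] at j0
  rw [l1] at j1
  rw [l2] at j2
  linarith

/-- `gain T (ber D)` -/
lemma NearHom_gain (T : Fam G) (D : G) : gain T (ber D) =
    ∑ i, ∑ x, avg T D i x * (((1 + rat T D i x) * Real.log (1 + rat T D i x) +
      (1 - rat T D i x) * Real.log (1 - rat T D i x)) / 2) := by
  have h1 : (T.add (ber D)).H = ∑ i, ent (avg T D i) := by
    unfold Fam.H
    rw [NearHom_sum_idx]
    refine Finset.sum_congr rfl fun i _ => ?_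
    congr 1
    funext x
    exact add_ber_m T D i x
  unfold gain
  rw [h1]
  unfold Fam.H
  rw [← Finset.sum_sub_distrib]
  refine Finset.sum_congr rfl fun i _ => ?_
  unfold ent
  rw [NearHom_sum_avg]
  have h2 : ∑ x, negMulLog (T.m i x) =
      ∑ x, (negMulLog (T.m i x) / 2 + negMulLog (T.m i (x - D)) / 2) := by
    rw [Finset.sum_add_distrib, ← Finset.sum_div, ← Finset.sum_div,
      NearHom_sum_shift (fun x => negMulLog (T.m i x)) D]
    ring
  rw [h2, sub_sub_sub_cancel_right, ← Finset.sum_sub_distrib]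
  refine Finset.sum_congr rfl fun x _ => ?_
  rw [m_eq T D i x, m_shift_eq T D i x, negMulLog_mul, negMulLog_mul]
  unfold negMulLog
  ring

omit [AddCommGroup G] in
lemma NearHom_ent_sub (f g : G → ℝ) (h : ∑ x, f x = ∑ x, g x) :
    ent f - ent g = ∑ x, negMulLog (f x) - ∑ x, negMulLog (g x) := by
  unfold ent
  rw [h]; ring

/-- sum of products over the two copies -/
lemma NearHom_prod (T : Fam G) (D : G) (p q : T.ι → G → ℝ) :
    ∑ i, ∑ x, ∑ j, ∑ y, (avg T D i x * avg T D j y) * (p i x * q j y) =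
      (∑ i, ∑ x, avg T D i x * p i x) * ∑ j, ∑ y, avg T D j y * q j y := by
  rw [Finset.sum_mul]
  refine Finset.sum_congr rfl fun i _ => ?_
  rw [Finset.sum_mul]
  refine Finset.sum_congr rfl fun x _ => ?_
  rw [Finset.mul_sum]
  refine Finset.sum_congr rfl fun j _ => ?_
  rw [Finset.mul_sum]
  refine Finset.sum_congr rfl fun y _ => ?_
  ring

/-- the sum of the right sides -/
lemma NearHom_S (T : Fam G) (D : G) :
    ∑ i, ∑ x, ∑ j, ∑ y, (avg T D i x * avg T D j y) *
      ((1 + rat T D i x * rat T D j y) * Real.log (1 + rat T D i x * rat T D j y) / 2 +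
       ((1 + rat T D i x) * (1 - rat T D j y)) *
         Real.log ((1 + rat T D i x) * (1 - rat T D j y)) / 4 +
       ((1 - rat T D i x) * (1 + rat T D j y)) *
         Real.log ((1 - rat T D i x) * (1 + rat T D j y)) / 4) ≤
      eps2 T D ^ 2 / 2 + gain T (ber D) := by
  have hu1 : ∀ i x, -1 ≤ rat T D i x ∧ rat T D i x ≤ 1 := fun i x => abs_le.1 (abs_rat_le T D i x)
  have key : ∀ i x j y, (avg T D i x * avg T D j y) *
      ((1 + rat T D i x * rat T D j y) * Real.log (1 + rat T D i x * rat T D j y) / 2 +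
       ((1 + rat T D i x) * (1 - rat T D j y)) *
         Real.log ((1 + rat T D i x) * (1 - rat T D j y)) / 4 +
       ((1 - rat T D i x) * (1 + rat T D j y)) *
         Real.log ((1 - rat T D i x) * (1 + rat T D j y)) / 4) ≤
      (avg T D i x * avg T D j y) * (rat T D i x * rat T D j y) / 2 +
      (avg T D i x * avg T D j y) * (rat T D i x ^ 2 * rat T D j y ^ 2) / 2 -
      (avg T D i x * avg T D j y) * (negMulLog (1 + rat T D i x) * (1 - rat T D j y)) / 4 -
      (avg T D i x * avg T D j y) * ((1 + rat T D i x) * negMulLog (1 - rat T D j y)) / 4 -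
      (avg T D i x * avg T D j y) * (negMulLog (1 - rat T D i x) * (1 + rat T D j y)) / 4 -
      (avg T D i x * avg T D j y) * ((1 - rat T D i x) * negMulLog (1 + rat T D j y)) / 4 := by
    intro i x j y
    have ha : 0 ≤ avg T D i x * avg T D j y := mul_nonneg (avg_nonneg T D i x) (avg_nonneg T D j y)
    have n1 := negMulLog_mul (1 + rat T D i x) (1 - rat T D j y)
    have n2 := negMulLog_mul (1 - rat T D i x) (1 + rat T D j y)
    have e1 : ((1 + rat T D i x) * (1 - rat T D j y)) *
         Real.log ((1 + rat T D i x) * (1 - rat T D j y)) =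
        -((1 - rat T D j y) * negMulLog (1 + rat T D i x) +
          (1 + rat T D i x) * negMulLog (1 - rat T D j y)) := by
      rw [← n1]; unfold negMulLog; ring
    have e2 : ((1 - rat T D i x) * (1 + rat T D j y)) *
         Real.log ((1 - rat T D i x) * (1 + rat T D j y)) =
        -((1 + rat T D j y) * negMulLog (1 - rat T D i x) +
          (1 - rat T D i x) * negMulLog (1 + rat T D j y)) := by
      rw [← n2]; unfold negMulLog; ring
    have hz : 0 ≤ 1 + rat T D i x * rat T D j y := by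
      nlinarith [(hu1 i x).1, (hu1 i x).2, (hu1 j y).1, (hu1 j y).2]
    have e3 : (1 + rat T D i x * rat T D j y) * Real.log (1 + rat T D i x * rat T D j y) ≤
        rat T D i x * rat T D j y + rat T D i x ^ 2 * rat T D j y ^ 2 := by
      rcases hz.eq_or_lt with h | h
      · rw [← h, zero_mul]
        have : rat T D i x * rat T D j y = -1 := by linarith
        have h2 : rat T D i x ^ 2 * rat T D j y ^ 2 = 1 := by
          rw [← mul_pow, this]; norm_num
        rw [this, h2]; norm_num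
      · have hl := Real.log_le_sub_one_of_pos h
        calc _ ≤ (1 + rat T D i x * rat T D j y) * (1 + rat T D i x * rat T D j y - 1) :=
              mul_le_mul_of_nonneg_left hl h.le
          _ = _ := by ring
    rw [e1, e2]
    have := mul_le_mul_of_nonneg_left e3 ha
    nlinarith [this]
  refine (Finset.sum_le_sum fun i _ => Finset.sum_le_sum fun x _ =>
    Finset.sum_le_sum fun j _ => Finset.sum_le_sum fun y _ => key i x j y).trans ?_
  simp only [Finset.sum_sub_distrib, Finset.sum_add_distrib, ← Finset.sum_div]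
  have p1 := NearHom_prod T D (fun i x => rat T D i x) (fun i x => rat T D i x)
  have p2 := NearHom_prod T D (fun i x => rat T D i x ^ 2) (fun i x => rat T D i x ^ 2)
  have p3 := NearHom_prod T D (fun i x => negMulLog (1 + rat T D i x)) (fun i x => 1 - rat T D i x)
  have p4 := NearHom_prod T D (fun i x => 1 + rat T D i x) (fun i x => negMulLog (1 - rat T D i x))
  have p5 := NearHom_prod T D (fun i x => negMulLog (1 - rat T D i x)) (fun i x => 1 + rat T D i x)
  have p6 := NearHom_prod T D (fun i x => 1 - rat T D i x) (fun i x => negMulLog (1 + rat T D i x))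
  have z0 : ∑ i, ∑ x, avg T D i x * rat T D i x = 0 :=
    Finset.sum_eq_zero fun i _ => sum_avg_rat T D i
  have z1 : ∑ i, ∑ x, avg T D i x * (1 + rat T D i x) = 1 := by
    simp only [mul_add, mul_one, Finset.sum_add_distrib]
    rw [z0, sum_avg, add_zero]
  have z2 : ∑ i, ∑ x, avg T D i x * (1 - rat T D i x) = 1 := by
    simp only [mul_sub, mul_one, Finset.sum_sub_distrib]
    rw [z0, sum_avg, sub_zero]
  rw [z0] at p1
  rw [z2] at p3
  rw [z1] at p4
  rw [z1] at p5
  rw [z2] at p6
  rw [p1, p2, p3, p4, p5, p6, NearHom_gain]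
  have hg : ∑ i, ∑ x, avg T D i x * (((1 + rat T D i x) * Real.log (1 + rat T D i x) +
      (1 - rat T D i x) * Real.log (1 - rat T D i x)) / 2) =
      -(∑ i, ∑ x, avg T D i x * negMulLog (1 + rat T D i x)) / 2 -
      (∑ i, ∑ x, avg T D i x * negMulLog (1 - rat T D i x)) / 2 := by
    rw [← Finset.sum_neg_distrib, Finset.sum_div, Finset.sum_div, ← Finset.sum_sub_distrib]
    refine Finset.sum_congr rfl fun i _ => ?_
    rw [← Finset.sum_neg_distrib, Finset.sum_div, Finset.sum_div, ← Finset.sum_sub_distrib]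
    refine Finset.sum_congr rfl fun x _ => ?_
    unfold negMulLog
    ring
  rw [hg]
  unfold eps2
  apply le_of_eq
  ring

/-- NEAR-HOMOMORPHISM.  Write `m = avg T D`, `u = rat T D`, `V = ber D`, so `(T + V)_i = m_i`,
`T_i = m_i (1 - u_i)`, `T_i(· - D) = m_i (1 + u_i)`.  For labels `i, j` and `s : G` put
`R s = Σ_x m_i(x) m_j(x-s)`, `P00 s = Σ_x T_i(x) T_j(x-s)`, `P10 s = P00 (s-D)`,
`P01 s = P00 (s+D)`.  Then `P00 = Σ_x m m' (1 + u u')` (average of the expressions for
`T T'` and `T^D T'^D`, both equal to `P00 s`), `P10 = Σ m m' (1+u)(1-u')`,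
`P01 = Σ m m' (1-u)(1+u')`, where `u = u_i(x)`, `u' = u_j(x-s)`, and `R = P00/2 + P10/4 + P01/4`.
Hence `H((T+V)-(T+V)') - H(T-T') = Σ_{i,j,s} [η(R) - η(P00)/2 - η(P10)/4 - η(P01)/4]`
`= Σ_{i,j,s} [P00 log(P00/R)/2 + P10 log(P10/R)/4 + P01 log(P01/R)/4]`, `η = negMulLog`
(the sums over `s` of `η(P00), η(P10), η(P01)` agree).  By `jensen_defect` (all densities are in
`[0, 4]`) this is at most
`Σ m m' [ψ(1+uu')/2 + ψ((1+u)(1-u'))/4 + ψ((1-u)(1+u'))/4] - (1/32) Σ m m' (w - (u-u'))²`,
`ψ(x) = x log x`, `w = (P10/R - P01/R)/2`, because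
`((1+u)(1-u') - (1-u)(1+u')) = 2(u - u')` and `(a-b)² ≤ 2 a² + 2 b²`.
The first sum is `≤ g + eps2²/2` with `g = gain T V`:  by `sum_avg_rat` the second and third terms
give exactly `g = Σ m φ(u)` (see `gain_ber_le`), and `ψ(1+x) ≤ x + x²`, `Σ m m' u u' = 0`,
`Σ m m' u² u'² = eps2²`.  Finally `Mini` gives the lower bound `(1-lam) g - δ`, and `g ≤ eps2`. -/
theorem near_hom (T : Fam G) (D : G) {lam δ : ℝ} (h0 : 0 ≤ lam) (hM : Mini T lam δ) :
    ∃ w : T.ι → T.ι → G → ℝ,
      ∑ i, ∑ x, ∑ j, ∑ y, avg T D i x * avg T D j y *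
        (w i j (x - y) - (rat T D i x - rat T D j y)) ^ 2 ≤
      32 * (lam * eps2 T D + eps2 T D ^ 2 / 2 + δ) := by
  refine ⟨fun i j s => (NearHom_corr (T.m i) (T.m j) (s - D) /
    NearHom_corr (avg T D i) (avg T D j) s - NearHom_corr (T.m i) (T.m j) (s + D) /
    NearHom_corr (avg T D i) (avg T D j) s) / 2, ?_⟩
  set w : T.ι → T.ι → G → ℝ := fun i j s => (NearHom_corr (T.m i) (T.m j) (s - D) /
    NearHom_corr (avg T D i) (avg T D j) s - NearHom_corr (T.m i) (T.m j) (s + D) /
    NearHom_corr (avg T D i) (avg T D j) s) / 2 with hw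
  -- change of variables
  have hcv : ∀ F : T.ι → G → T.ι → G → ℝ, ∑ i, ∑ x, ∑ j, ∑ y, F i x j y =
      ∑ i, ∑ j, ∑ s, ∑ x, F i x j (x - s) := by
    intro F
    refine Finset.sum_congr rfl fun i _ => ?_
    rw [Finset.sum_comm]
    refine Finset.sum_congr rfl fun j _ => ?_
    rw [Finset.sum_comm (s := (Finset.univ : Finset G)) (t := (Finset.univ : Finset G))
      (f := fun s x => F i x j (x - s))]
    refine Finset.sum_congr rfl fun x _ => ?_
    exact (Fintype.sum_equiv (Equiv.subLeft x) _ _ fun s => rfl).symm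
  -- the entropy difference
  have hH : ((T.add (ber D)).add (neg (T.add (ber D)))).H - (T.add (neg T)).H =
      ∑ i, ∑ j, ∑ s, (negMulLog (NearHom_corr (avg T D i) (avg T D j) s) -
      (negMulLog (NearHom_corr (T.m i) (T.m j) s) / 2 +
       negMulLog (NearHom_corr (T.m i) (T.m j) (s - D)) / 4 +
       negMulLog (NearHom_corr (T.m i) (T.m j) (s + D)) / 4)) := by
    rw [NearHom_H_sub, NearHom_H_sub, NearHom_sum_idx, ← Finset.sum_sub_distrib]
    refine Finset.sum_congr rfl fun i _ => ?_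
    rw [NearHom_sum_idx, ← Finset.sum_sub_distrib]
    refine Finset.sum_congr rfl fun j _ => ?_
    have e : ∀ k : T.ι, (T.add (ber D)).m (k, ()) = avg T D k := fun k => by
      funext x; exact add_ber_m T D k x
    rw [e, e, NearHom_ent_sub _ _ (by
      rw [NearHom_sum_corr, NearHom_sum_corr, NearHom_sum_avg, NearHom_sum_avg]),
      Finset.sum_sub_distrib]
    congr 1
    rw [Finset.sum_add_distrib, Finset.sum_add_distrib, ← Finset.sum_div, ← Finset.sum_div,
      ← Finset.sum_div,
      NearHom_sum_shift (fun s => negMulLog (NearHom_corr (T.m i) (T.m j) s)) D,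
      NearHom_sum_shift' (fun s => negMulLog (NearHom_corr (T.m i) (T.m j) s)) D]
    ring
  -- sum of the pointwise inequalities
  have hpt := Finset.sum_le_sum fun i (_ : i ∈ (Finset.univ : Finset T.ι)) =>
    Finset.sum_le_sum fun j (_ : j ∈ (Finset.univ : Finset T.ι)) =>
    Finset.sum_le_sum fun s (_ : s ∈ (Finset.univ : Finset G)) =>
    NearHom_point T D i j s (w i j s) rfl
  have hE : ∑ i, ∑ x, ∑ j, ∑ y, avg T D i x * avg T D j y *
      (w i j (x - y) - (rat T D i x - rat T D j y)) ^ 2 =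
      ∑ i, ∑ j, ∑ s, ∑ x, (avg T D i x * avg T D j (x - s)) *
        (w i j s - (rat T D i x - rat T D j (x - s))) ^ 2 := by
    rw [hcv (fun i x j y => avg T D i x * avg T D j y *
      (w i j (x - y) - (rat T D i x - rat T D j y)) ^ 2)]
    simp only [sub_sub_cancel]
  set E := ∑ i, ∑ x, ∑ j, ∑ y, avg T D i x * avg T D j y *
      (w i j (x - y) - (rat T D i x - rat T D j y)) ^ 2 with hEdef
  have hS := NearHom_S T D
  rw [hcv (fun i x j y => (avg T D i x * avg T D j y) *
      ((1 + rat T D i x * rat T D j y) * Real.log (1 + rat T D i x * rat T D j y) / 2 +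
       ((1 + rat T D i x) * (1 - rat T D j y)) *
         Real.log ((1 + rat T D i x) * (1 - rat T D j y)) / 4 +
       ((1 - rat T D i x) * (1 + rat T D j y)) *
         Real.log ((1 - rat T D i x) * (1 + rat T D j y)) / 4))] at hS
  have hL : ∑ i, ∑ j, ∑ s, (negMulLog (NearHom_corr (avg T D i) (avg T D j) s) -
      (negMulLog (NearHom_corr (T.m i) (T.m j) s) / 2 +
       negMulLog (NearHom_corr (T.m i) (T.m j) (s - D)) / 4 +
       negMulLog (NearHom_corr (T.m i) (T.m j) (s + D)) / 4) +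
      (1 / 32) * ∑ x, (avg T D i x * avg T D j (x - s)) *
        (w i j s - (rat T D i x - rat T D j (x - s))) ^ 2) =
      (((T.add (ber D)).add (neg (T.add (ber D)))).H - (T.add (neg T)).H) + (1 / 32) * E := by
    rw [hH, hE]
    simp only [Finset.mul_sum, Finset.sum_add_distrib]
  rw [hL] at hpt
  have hm := hM (ber D)
  have hg := gain_ber_le T D
  have hlg := mul_le_mul_of_nonneg_left hg h0
  have h9 := hpt.trans hS
  linarith

end Pool.Agent.OSP
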