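import Pool.Agent.OSP_h95.NiceA
import Pool.Agent.OSP_h95.NearHom

/-!
# All short translates are nice
-/

set_option autoImplicit false

namespace Pool.Agent.OSP

open Finset Real Pool.Agent.QFR

/-- the choice of the constants -/
lemma NiceB_consts {η : ℝ} (hη : 0 < η) : ∃ θ A c z : ℝ, 0 < θ ∧ θ ≤ 1 / 4 ∧ 0 < A ∧ 0 < c ∧
    96 * c ≤ 1 ∧ 2 * A * c ≤ θ ∧ 0 ≤ z ∧ 28 / A ^ 2 + √(192 * c) + √(2 * c ^ 2 + 384 * c) ≤ z ∧
    64 * θ ^ 2 + 48 * z ≤ η ∧ 32 * (96 * c) + 64 * z ≤ η ∧ 4 * θ ^ 2 + 4 * z ≤ η := by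
  obtain ⟨θ, hθ⟩ : ∃ θ : ℝ, θ = min (1 / 4) (√η / 16) := ⟨_, rfl⟩
  obtain ⟨A, hA⟩ : ∃ A : ℝ, A = 1 + 28000 / η := ⟨_, rfl⟩
  have hsq : 0 < √η := Real.sqrt_pos.mpr hη
  have hθ0 : 0 < θ := by rw [hθ]; positivity
  have hθ1 : θ ≤ 1 / 4 := by rw [hθ]; exact min_le_left _ _
  have hθ2 : θ ^ 2 ≤ η / 256 := by
    have h1 : θ ≤ √η / 16 := by rw [hθ]; exact min_le_right _ _
    have h2 : θ ^ 2 ≤ (√η / 16) ^ 2 := pow_le_pow_left₀ hθ0.le h1 2
    rw [div_pow, Real.sq_sqrt hη.le] at h2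
    linarith
  have hA1 : 1 ≤ A := by
    rw [hA]
    have : 0 < 28000 / η := by positivity
    linarith
  have hA0 : 0 < A := by linarith
  have hAsq : 28 / A ^ 2 ≤ η / 1000 := by
    have h1 : 28000 / η ≤ A ^ 2 := by
      have : 28000 / η ≤ A := by rw [hA]; linarith
      nlinarith
    rw [div_le_div_iff₀ (by positivity) (by norm_num)]
    rw [div_le_iff₀ hη] at h1
    linarith
  obtain ⟨c, hc⟩ : ∃ c : ℝ, c = min (1 / 96) (min (η / 6144) (min (η ^ 2 / 386000000)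
      (θ / (2 * A)))) := ⟨_, rfl⟩
  have hc0 : 0 < c := by rw [hc]; positivity
  have hc1 : c ≤ 1 / 96 := by rw [hc]; exact min_le_left _ _
  have hc2 : c ≤ η / 6144 := by
    rw [hc]; exact (min_le_right _ _).trans (min_le_left _ _)
  have hc3 : c ≤ η ^ 2 / 386000000 := by
    rw [hc]; exact (min_le_right _ _).trans ((min_le_right _ _).trans (min_le_left _ _))
  have hc4 : c ≤ θ / (2 * A) := by
    rw [hc]; exact (min_le_right _ _).trans ((min_le_right _ _).trans (min_le_right _ _))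
  have h5 : √(192 * c) ≤ η / 1000 := by
    rw [Real.sqrt_le_left (by positivity)]
    nlinarith
  have h6 : √(2 * c ^ 2 + 384 * c) ≤ η / 1000 := by
    rw [Real.sqrt_le_left (by positivity)]
    nlinarith
  refine ⟨θ, A, c, 3 * (η / 1000), hθ0, hθ1, hA0, hc0, by linarith, ?_, by positivity,
    by linarith, by linarith, by linarith, by linarith⟩
  rw [le_div_iff₀ (by positivity)] at hc4
  linarith

/-- ALL SHORT TRANSLATES ARE NICE.  `eps2 ≤ hel ≤ R²` (`eps2_le_hel`).  By `near_hom`,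
`Q := 32 (lam eps2 + eps2²/2 + δ) ≤ 32 (lam + R²/2 + c) R² ≤ 96 c R²` if `R, lam ≤ c ≤ 1`.
With `a = A R` in `ui`: `Z ≤ R² (28/A² + √(192 c) + √(2 c² + 384 c))`.
Choose `θ = min (1/4) (√η/16)`, then `A` and `c` such that `64 θ² + 48 Z/R² ≤ η`,
`32·96 c + 64 Z/R² ≤ η`, `4θ² + 4 Z/R² ≤ η`, `2 A c ≤ θ`, and apply `nice_of_tail`;
`B = 2A`, `C = 2/θ`. -/
theorem nice_of_mini {η : ℝ} (hη : 0 < η) : ∃ B C c : ℝ, 0 < B ∧ 0 < C ∧ 0 < c ∧
    ∀ (G : Type) [AddCommGroup G] [Fintype G] (T : Fam G) (lam δ R : ℝ) (D : G),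
      0 ≤ lam → lam ≤ c → 0 ≤ δ → δ ≤ c * R ^ 2 → 0 < R → R ≤ c → Mini T lam δ →
      hel T D ≤ R ^ 2 → Nice T D R η B C := by
  obtain ⟨θ, A, c, z, hθ0, hθ1, hA0, hc0, hc1, hAc, hz0, hz, k1, k2, k3⟩ := NiceB_consts hη
  refine ⟨2 * A, 2 / θ, c, by positivity, by positivity, hc0, ?_⟩
  intro G _ _ T lam δ R D hlam hlam' hδ hδ' hR hR' hM hhel
  obtain ⟨w, hw⟩ := near_hom T D hlam hM
  have he1 : eps2 T D ≤ R ^ 2 := (eps2_le_hel T D).trans hhel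
  have he0 : 0 ≤ eps2 T D := by
    unfold eps2
    refine Finset.sum_nonneg fun i _ => Finset.sum_nonneg fun x _ => ?_
    refine mul_nonneg ?_ (sq_nonneg _)
    unfold avg
    have := T.nn i x
    have := T.nn i (x - D)
    linarith
  obtain ⟨e, he⟩ : ∃ e : ℝ, e = eps2 T D := ⟨_, rfl⟩
  rw [← he] at he0 he1 hw
  have hR2 : R ^ 2 ≤ c ^ 2 := pow_le_pow_left₀ hR.le hR' 2
  have hcc : c ^ 2 ≤ c := by nlinarith
  have hR2pos : 0 < R ^ 2 := by positivity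
  have hee : e ^ 2 ≤ R ^ 2 * R ^ 2 := by nlinarith
  have hee' : R ^ 2 * R ^ 2 ≤ c * R ^ 2 := mul_le_mul_of_nonneg_right (hR2.trans hcc) hR2pos.le
  have hQ : 32 * (lam * e + e ^ 2 / 2 + δ) ≤ 96 * c * R ^ 2 := by
    have h1 : lam * e ≤ c * R ^ 2 := mul_le_mul hlam' he1 he0 hc0.le
    nlinarith
  have hw' := hw.trans hQ
  have ha : 0 < A * R := by positivity
  have hui := ui T D w ha hw'
  rw [← he] at hui
  have hZ : e * (2 / (A * R) ^ 2 * (2 * e + 4 * e ^ 2 + 8 * (96 * c * R ^ 2))) +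
        √(2 * e * (96 * c * R ^ 2)) + √(e * (2 * e ^ 2 + 4 * (96 * c * R ^ 2))) ≤
        z * R ^ 2 := by
    have h1 : e * (2 / (A * R) ^ 2 * (2 * e + 4 * e ^ 2 + 8 * (96 * c * R ^ 2))) ≤
        28 / A ^ 2 * R ^ 2 := by
      have h2 : 2 * e + 4 * e ^ 2 + 8 * (96 * c * R ^ 2) ≤ 14 * R ^ 2 := by
        have : c * R ^ 2 ≤ 1 / 96 * R ^ 2 := mul_le_mul_of_nonneg_right (by linarith) hR2pos.le
        nlinarith
      have h3 : 2 / (A * R) ^ 2 * (2 * e + 4 * e ^ 2 + 8 * (96 * c * R ^ 2)) ≤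
          2 / (A * R) ^ 2 * (14 * R ^ 2) := mul_le_mul_of_nonneg_left h2 (by positivity)
      have h4 : 2 / (A * R) ^ 2 * (14 * R ^ 2) = 28 / A ^ 2 := by
        field_simp
        norm_num
      rw [h4] at h3
      calc e * (2 / (A * R) ^ 2 * (2 * e + 4 * e ^ 2 + 8 * (96 * c * R ^ 2)))
          ≤ e * (28 / A ^ 2) := mul_le_mul_of_nonneg_left h3 he0
        _ ≤ R ^ 2 * (28 / A ^ 2) := mul_le_mul_of_nonneg_right he1 (by positivity)
        _ = 28 / A ^ 2 * R ^ 2 := mul_comm _ _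
    have h5 : √(2 * e * (96 * c * R ^ 2)) ≤ √(192 * c) * R ^ 2 := by
      have h6 : 2 * e * (96 * c * R ^ 2) ≤ 192 * c * (R ^ 2) ^ 2 := by
        have := mul_le_mul_of_nonneg_right he1 (by positivity : 0 ≤ 192 * c * R ^ 2)
        nlinarith
      calc √(2 * e * (96 * c * R ^ 2)) ≤ √(192 * c * (R ^ 2) ^ 2) := Real.sqrt_le_sqrt h6
        _ = √(192 * c) * R ^ 2 := by
          rw [Real.sqrt_mul (by positivity), Real.sqrt_sq hR2pos.le]
    have h7 : √(e * (2 * e ^ 2 + 4 * (96 * c * R ^ 2))) ≤ √(2 * c ^ 2 + 384 * c) * R ^ 2 := by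
      have h8 : e * (2 * e ^ 2 + 4 * (96 * c * R ^ 2)) ≤ (2 * c ^ 2 + 384 * c) * (R ^ 2) ^ 2 := by
        have h9 : 2 * e ^ 2 + 4 * (96 * c * R ^ 2) ≤ (2 * c ^ 2 + 384 * c) * R ^ 2 := by
          have := mul_le_mul_of_nonneg_right hR2 hR2pos.le
          nlinarith
        calc e * (2 * e ^ 2 + 4 * (96 * c * R ^ 2)) ≤ R ^ 2 * ((2 * c ^ 2 + 384 * c) * R ^ 2) :=
              mul_le_mul he1 h9 (by positivity) hR2pos.le
          _ = (2 * c ^ 2 + 384 * c) * (R ^ 2) ^ 2 := by ring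
      calc √(e * (2 * e ^ 2 + 4 * (96 * c * R ^ 2))) ≤ √((2 * c ^ 2 + 384 * c) * (R ^ 2) ^ 2) :=
            Real.sqrt_le_sqrt h8
        _ = √(2 * c ^ 2 + 384 * c) * R ^ 2 := by
          rw [Real.sqrt_mul (by positivity), Real.sqrt_sq hR2pos.le]
    have h10 := mul_le_mul_of_nonneg_right hz hR2pos.le
    linarith
  have ha' : 2 * (A * R) ≤ θ := by
    have : A * R ≤ A * c := mul_le_mul_of_nonneg_left hR' hA0.le
    linarith
  obtain ⟨u, f, w', g1, g2, g3, g4, g5, g6⟩ :=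
    nice_of_tail T D w hθ0 hθ1 ha ha' hw' (hui.trans hZ)
  rw [← he] at g1 g4
  refine ⟨u, f, w', ?_, ?_, ?_, ?_, ?_, ?_⟩
  · exact g1.trans (mul_le_mul_of_nonneg_left he1 (by positivity))
  · intro i x
    have := g2 i x
    linarith
  · intro i j s
    have := g3 i j s
    linarith
  · have := mul_le_mul_of_nonneg_left he1 (by positivity : 0 ≤ 64 * θ ^ 2)
    have := mul_le_mul_of_nonneg_right k1 hR2pos.le
    linarith
  · have := mul_le_mul_of_nonneg_right k2 hR2pos.le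
    linarith
  · have := mul_le_mul_of_nonneg_left hhel (by positivity : 0 ≤ 4 * θ ^ 2)
    have := mul_le_mul_of_nonneg_right k3 hR2pos.le
    linarith

end Pool.Agent.OSP
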