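import Pool.Agent.OSP_h95.Defs

/-!
# The functions `avg`, `rat`, `eps2`
-/

set_option autoImplicit false

namespace Pool.Agent.OSP

open Finset Real Pool.Agent.QFR

variable {G : Type} [AddCommGroup G] [Fintype G]

theorem avg_nonneg (T : Fam G) (D : G) (i : T.ι) (x : G) : 0 ≤ avg T D i x := by
  unfold avg
  have h1 := T.nn i x
  have h2 := T.nn i (x - D)
  positivity

lemma Rat_eq {a b : ℝ} (ha : 0 ≤ a) (hb : 0 ≤ b) :
    a = (a + b) / 2 * (1 - (b - a) / (b + a)) ∧ b = (a + b) / 2 * (1 + (b - a) / (b + a)) := by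
  rcases (add_nonneg hb ha).eq_or_lt with h | h
  · have h1 : a = 0 := by linarith
    have h2 : b = 0 := by linarith
    rw [h1, h2]
    simp
  · constructor
    · field_simp
      ring
    · field_simp
      ring

/-- if `avg = 0` then both masses vanish -/
theorem m_eq (T : Fam G) (D : G) (i : T.ι) (x : G) :
    T.m i x = avg T D i x * (1 - rat T D i x) := by
  exact (Rat_eq (T.nn i x) (T.nn i (x - D))).1

theorem m_shift_eq (T : Fam G) (D : G) (i : T.ι) (x : G) :
    T.m i (x - D) = avg T D i x * (1 + rat T D i x) := by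
  exact (Rat_eq (T.nn i x) (T.nn i (x - D))).2

theorem abs_rat_le (T : Fam G) (D : G) (i : T.ι) (x : G) : |rat T D i x| ≤ 1 := by
  unfold rat
  have h1 := T.nn i x
  have h2 := T.nn i (x - D)
  rcases (add_nonneg h2 h1).eq_or_lt with h | h
  · rw [← h, div_zero, abs_zero]
    exact zero_le_one
  · rw [abs_div, abs_of_pos h, div_le_one h, abs_le]
    constructor <;> linarith

theorem m_le (T : Fam G) (D : G) (i : T.ι) (x : G) : T.m i x ≤ 2 * avg T D i x := by
  unfold avg
  have h2 := T.nn i (x - D)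
  linarith

theorem m_shift_le (T : Fam G) (D : G) (i : T.ι) (x : G) : T.m i (x - D) ≤ 2 * avg T D i x := by
  unfold avg
  have h2 := T.nn i x
  linarith

lemma Rat_shift (f : G → ℝ) (D : G) : ∑ x, f (x - D) = ∑ x, f x :=
  Fintype.sum_equiv (Equiv.subRight D) _ _ fun _ => rfl

lemma Rat_sum_avg (T : Fam G) (D : G) (i : T.ι) : ∑ x, avg T D i x = ∑ x, T.m i x := by
  unfold avg
  rw [← Finset.sum_div, Finset.sum_add_distrib, Rat_shift (T.m i)]
  ring

theorem sum_avg (T : Fam G) (D : G) : ∑ i, ∑ x, avg T D i x = 1 := by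
  simp only [Rat_sum_avg]
  exact T.tot

/-- `avg * rat = (T^D - T) / 2` -/
theorem sum_avg_rat (T : Fam G) (D : G) (i : T.ι) : ∑ x, avg T D i x * rat T D i x = 0 := by
  have h1 : ∀ x, avg T D i x * rat T D i x = (T.m i (x - D) - T.m i x) / 2 := by
    intro x
    have h2 := m_eq T D i x
    have h3 := m_shift_eq T D i x
    rw [eq_div_iff (by norm_num : (2 : ℝ) ≠ 0)]
    linarith
  simp only [h1]
  rw [← Finset.sum_div, Finset.sum_sub_distrib, Rat_shift (T.m i), sub_self, zero_div]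

/-- `T = avg (1 - rat)` -/
theorem sum_m_rat (T : Fam G) (D : G) : ∑ i, ∑ x, T.m i x * rat T D i x = -eps2 T D := by
  have h1 : ∀ i x, T.m i x * rat T D i x =
      avg T D i x * rat T D i x - avg T D i x * rat T D i x ^ 2 := by
    intro i x
    nth_rewrite 1 [m_eq T D i x]
    ring
  simp only [h1, Finset.sum_sub_distrib, sum_avg_rat, zero_sub]
  rw [Finset.sum_neg_distrib]
  rfl

theorem eps2_nonneg (T : Fam G) (D : G) : 0 ≤ eps2 T D := by
  exact Finset.sum_nonneg fun i _ => Finset.sum_nonneg fun x _ =>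
    mul_nonneg (avg_nonneg T D i x) (sq_nonneg _)

theorem eps2_le_one (T : Fam G) (D : G) : eps2 T D ≤ 1 := by
  rw [← sum_avg T D]
  refine Finset.sum_le_sum fun i _ => Finset.sum_le_sum fun x _ => ?_
  have h1 : rat T D i x ^ 2 ≤ 1 := by
    rw [← sq_abs]
    exact pow_le_one₀ (abs_nonneg _) (abs_rat_le T D i x)
  calc avg T D i x * rat T D i x ^ 2 ≤ avg T D i x * 1 :=
        mul_le_mul_of_nonneg_left h1 (avg_nonneg T D i x)
    _ = avg T D i x := mul_one _

lemma Rat_sqrt {a b : ℝ} (ha : 0 ≤ a) (hb : 0 ≤ b) :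
    (a + b) / 2 * ((b - a) / (b + a)) ^ 2 ≤ (√b - √a) ^ 2 ∧
      (√b - √a) ^ 2 ≤ 2 * ((a + b) / 2 * ((b - a) / (b + a)) ^ 2) := by
  rcases (add_nonneg hb ha).eq_or_lt with h | h
  · have h1 : a = 0 := by linarith
    have h2 : b = 0 := by linarith
    rw [h1, h2]
    simp
  · obtain ⟨p, hp⟩ : ∃ p, p = √a := ⟨_, rfl⟩
    obtain ⟨q, hq⟩ : ∃ q, q = √b := ⟨_, rfl⟩
    have hp0 : 0 ≤ p := by rw [hp]; exact Real.sqrt_nonneg _
    have hq0 : 0 ≤ q := by rw [hq]; exact Real.sqrt_nonneg _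
    have ea : a = p ^ 2 := by rw [hp, Real.sq_sqrt ha]
    have eb : b = q ^ 2 := by rw [hq, Real.sq_sqrt hb]
    rw [← hp, ← hq, ea, eb]
    rw [ea, eb] at h
    have h1 : (p ^ 2 + q ^ 2) / 2 * ((q ^ 2 - p ^ 2) / (q ^ 2 + p ^ 2)) ^ 2 =
        (q - p) ^ 2 * (q + p) ^ 2 / (2 * (q ^ 2 + p ^ 2)) := by
      field_simp
      ring
    have h0 := sq_nonneg (q - p)
    constructor
    · rw [h1, div_le_iff₀ (by positivity)]
      have h2 : (q + p) ^ 2 ≤ 2 * (q ^ 2 + p ^ 2) := by nlinarith [sq_nonneg (q - p)]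
      exact mul_le_mul_of_nonneg_left h2 h0
    · have h3 : 2 * ((q - p) ^ 2 * (q + p) ^ 2 / (2 * (q ^ 2 + p ^ 2))) =
          (q - p) ^ 2 * (q + p) ^ 2 / (q ^ 2 + p ^ 2) := by
        field_simp
      rw [h1, h3, le_div_iff₀ h]
      have h2 : q ^ 2 + p ^ 2 ≤ (q + p) ^ 2 := by nlinarith [mul_nonneg hp0 hq0]
      exact mul_le_mul_of_nonneg_left h2 h0

/-- `avg rat² = (a-b)² / (2(a+b)) ≤ (√a - √b)²` as `(√a + √b)² ≤ 2 (a + b)` -/
theorem avg_rat_sq_le (T : Fam G) (D : G) (i : T.ι) (x : G) :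
    avg T D i x * rat T D i x ^ 2 ≤ (√(T.m i (x - D)) - √(T.m i x)) ^ 2 := by
  exact (Rat_sqrt (T.nn i x) (T.nn i (x - D))).1

theorem eps2_le_hel (T : Fam G) (D : G) : eps2 T D ≤ hel T D := by
  exact Finset.sum_le_sum fun i _ => Finset.sum_le_sum fun x _ => avg_rat_sq_le T D i x

/-- `(√a - √b)² ≤ (a-b)²/(a+b) = 2 avg rat²` as `(√a + √b)² ≥ a + b` -/
theorem hel_term_le (T : Fam G) (D : G) (i : T.ι) (x : G) :
    (√(T.m i (x - D)) - √(T.m i x)) ^ 2 ≤ 2 * (avg T D i x * rat T D i x ^ 2) := by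
  exact (Rat_sqrt (T.nn i x) (T.nn i (x - D))).2

/-- the mass functions of `T + ber D` -/
theorem add_ber_m (T : Fam G) (D : G) (i : T.ι) (x : G) :
    (T.add (ber D)).m (i, ()) x = avg T D i x := by
  classical
  show conv (T.m i) (berLaw D) x = avg T D i x
  unfold conv berLaw avg
  have h1 : ∀ y, T.m i y * ((if x - y = 0 then 1 / 2 else 0) + (if x - y = D then 1 / 2 else 0)) =
      (if y = x then T.m i y / 2 else 0) + (if y = x - D then T.m i y / 2 else 0) := by
    intro y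
    have e1 : (x - y = 0) ↔ y = x := by
      rw [sub_eq_zero]
      exact eq_comm
    have e2 : (x - y = D) ↔ y = x - D := by
      constructor
      · intro h
        rw [← h]
        abel
      · intro h
        rw [h]
        abel
    simp only [e1, e2]
    split_ifs <;> ring
  have h2 : ∑ y, T.m i y * ((if x - y = 0 then 1 / 2 else 0) + (if x - y = D then 1 / 2 else 0)) =
      T.m i x / 2 + T.m i (x - D) / 2 := by
    rw [Finset.sum_congr rfl fun y _ => h1 y, Finset.sum_add_distrib, Finset.sum_ite_eq',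
      Finset.sum_ite_eq']
    simp
  have h3 : (T.m i x + T.m i (x - D)) / 2 = T.m i x / 2 + T.m i (x - D) / 2 := by ring
  rw [h3, ← h2]

lemma Rat_log {u : ℝ} (h0 : 0 ≤ 1 + u) : -negMulLog (1 + u) ≤ (1 + u) * u := by
  unfold negMulLog
  rw [neg_mul, neg_neg]
  rcases h0.eq_or_lt with h | h
  · rw [← h, zero_mul, zero_mul]
  · have := Real.log_le_sub_one_of_pos h
    exact mul_le_mul_of_nonneg_left (by linarith) h0

lemma Rat_phi {u : ℝ} (h : |u| ≤ 1) : -(negMulLog (1 - u) + negMulLog (1 + u)) ≤ 2 * u ^ 2 := by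
  rw [abs_le] at h
  have h1 := Rat_log (u := u) (by linarith)
  have h2 := Rat_log (u := -u) (by linarith)
  have h3 : 1 + -u = 1 - u := by ring
  rw [h3] at h2
  nlinarith

lemma Rat_term (T : Fam G) (D : G) (i : T.ι) (x : G) :
    negMulLog (avg T D i x) - (negMulLog (T.m i x) + negMulLog (T.m i (x - D))) / 2 ≤
      avg T D i x * rat T D i x ^ 2 := by
  have h1 : negMulLog (T.m i x) = (1 - rat T D i x) * negMulLog (avg T D i x) +
      avg T D i x * negMulLog (1 - rat T D i x) := by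
    nth_rewrite 1 [m_eq T D i x]
    rw [negMulLog_mul]
  have h2 : negMulLog (T.m i (x - D)) = (1 + rat T D i x) * negMulLog (avg T D i x) +
      avg T D i x * negMulLog (1 + rat T D i x) := by
    nth_rewrite 1 [m_shift_eq T D i x]
    rw [negMulLog_mul]
  have h3 := mul_le_mul_of_nonneg_left (Rat_phi (abs_rat_le T D i x)) (avg_nonneg T D i x)
  rw [h1, h2]
  nlinarith

lemma Rat_ent (T : Fam G) (D : G) (i : T.ι) :
    ent (avg T D i) - ent (T.m i) ≤ ∑ x, avg T D i x * rat T D i x ^ 2 := by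
  unfold ent
  rw [Rat_sum_avg]
  have h1 : ∑ x, negMulLog (T.m i x) =
      ∑ x, (negMulLog (T.m i x) + negMulLog (T.m i (x - D))) / 2 := by
    rw [← Finset.sum_div, Finset.sum_add_distrib, Rat_shift (fun x => negMulLog (T.m i x))]
    ring
  have h2 : ∑ x, negMulLog (avg T D i x) - ∑ x, negMulLog (T.m i x) ≤
      ∑ x, avg T D i x * rat T D i x ^ 2 := by
    rw [h1, ← Finset.sum_sub_distrib]
    exact Finset.sum_le_sum fun x _ => Rat_term T D i x
  linarith

/-- `gain T (ber D) = Σ avg φ(rat)` with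
`φ(u) = ((1+u) log(1+u) + (1-u) log(1-u)) / 2 ≤ u²` (`log (1+u) ≤ u`); indeed
`Σ_x negMulLog (T.m i x) = Σ_x (negMulLog (T.m i x) + negMulLog (T.m i (x-D))) / 2`, and
`negMulLog (a (1±u)) = (1±u) negMulLog a + a negMulLog (1±u)`. -/
theorem gain_ber_le (T : Fam G) (D : G) : gain T (ber D) ≤ eps2 T D := by
  have h1 : (T.add (ber D)).H = ∑ i, ent (avg T D i) := by
    have h2 : (T.add (ber D)).H = ∑ t : T.ι × Unit, ent ((T.add (ber D)).m (t.1, ())) := rfl
    rw [h2, Fintype.sum_prod_type]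
    refine Finset.sum_congr rfl fun i _ => ?_
    rw [Fintype.sum_unique]
    congr 1
    funext x
    exact add_ber_m T D i x
  unfold gain eps2
  rw [h1]
  unfold Fam.H
  rw [← Finset.sum_sub_distrib]
  exact Finset.sum_le_sum fun i _ => Rat_ent T D i

end Pool.Agent.OSP
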