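import Pool.Agent.OSP_h95.Hel
import Pool.Agent.OSP_h95.Rat

/-!
# Long progressions with a short step
-/

set_option autoImplicit false

namespace Pool.Agent.OSP

open Finset Real Pool.Agent.QFR

variable {G : Type} [AddCommGroup G] [Fintype G]

/-- the uniform law on the multiset `{j w : j < 2^r}`, as a sum of independent `ber (2^i w)` -/
noncomputable def walk (w : G) : ℕ → Fam G
  | 0 => Fam.single (fun x => berLaw 0 x) (berLaw_nonneg 0) (sum_berLaw 0)
  | r + 1 => (walk w r).add (ber (2 ^ r • w))

/-- the family `walk w r` has a single label; its mass function is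
`x ↦ #{j < 2^r : j w = x} / 2^r` -/
theorem walk_m [DecidableEq G] (w : G) (r : ℕ) :
    ∃ e : (walk w r).ι ≃ Unit, ∀ i x, (walk w r).m i x =
      (((Finset.range (2 ^ r)).filter fun j : ℕ => j • w = x).card : ℝ) / 2 ^ r := by
  induction r with
  | zero =>
    refine ⟨Equiv.refl Unit, fun i x => ?_⟩
    show berLaw 0 x = _
    unfold berLaw
    have h1 : (Finset.range (2 ^ 0)).filter (fun j : ℕ => j • w = x) =
        if x = 0 then {0} else ∅ := by
      ext j
      by_cases hx : x = 0
      · subst hx
        simp only [pow_zero, Finset.range_one, Finset.mem_filter, Finset.mem_singleton, if_true]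
        constructor
        · exact fun h => h.1
        · rintro rfl
          exact ⟨rfl, zero_nsmul w⟩
      · simp only [pow_zero, Finset.range_one, Finset.mem_filter, Finset.mem_singleton,
          if_neg hx, Finset.notMem_empty, iff_false]
        rintro ⟨rfl, h⟩
        rw [zero_nsmul] at h
        exact hx h.symm
    rw [h1]
    by_cases hx : x = 0
    · simp only [if_pos hx, Finset.card_singleton]
      norm_num
    · simp only [if_neg hx, Finset.card_empty]
      norm_num
  | succ r ih =>
    obtain ⟨e, he⟩ := ih
    refine ⟨(Equiv.prodCongr e (Equiv.refl Unit)).trans (Equiv.prodUnique Unit Unit),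
      fun i x => ?_⟩
    obtain ⟨i, j⟩ := i
    show conv ((walk w r).m i) (berLaw (2 ^ r • w)) x = _
    have h1 : conv ((walk w r).m i) (berLaw (2 ^ r • w)) x =
        ((walk w r).m i x + (walk w r).m i (x - 2 ^ r • w)) / 2 := by
      rw [conv_comm']
      unfold conv
      have h2 : ∀ y : G, berLaw (2 ^ r • w) y * (walk w r).m i (x - y) =
          (if y = 0 then 1 / 2 * (walk w r).m i (x - y) else 0) +
          (if y = 2 ^ r • w then 1 / 2 * (walk w r).m i (x - y) else 0) := by
        intro y
        have h3 : berLaw (2 ^ r • w) y = (if y = 0 then 1 / 2 else 0) +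
            (if y = 2 ^ r • w then 1 / 2 else 0) := by
          unfold berLaw
          congr
        rw [h3, add_mul, ite_mul, ite_mul, zero_mul]
      rw [Finset.sum_congr rfl fun y _ => h2 y, Finset.sum_add_distrib,
        Finset.sum_ite_eq', Finset.sum_ite_eq']
      simp only [Finset.mem_univ, if_true, sub_zero]
      ring
    rw [h1, he, he]
    have h4 : ((Finset.range (2 ^ (r + 1))).filter fun j : ℕ => j • w = x).card =
        ((Finset.range (2 ^ r)).filter fun j : ℕ => j • w = x).card +
        ((Finset.range (2 ^ r)).filter fun j : ℕ => j • w = x - 2 ^ r • w).card := by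
      rw [pow_succ, mul_two, Finset.card_filter, Finset.card_filter, Finset.card_filter,
        Finset.sum_range_add]
      congr 1
      refine Finset.sum_congr rfl fun j _ => ?_
      have h5 : ((2 ^ r + j) • w = x) ↔ (j • w = x - 2 ^ r • w) := by
        rw [add_nsmul, eq_sub_iff_add_eq, add_comm]
      simp only [h5]
    rw [h4]
    push_cast
    rw [pow_succ]
    ring

/-- `gain T (walk w r) ≤ Σ_{i<r} gain T (ber (2^i w)) ≤ Σ_{i<r} 4^i hel T w ≤ 4^r hel T w`
(`submod` applied to `(walk w r) + T + ber`: `H(T+walk+ber) - H(T+walk) ≤ H(T+ber) - H(T)`,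
`gain_ber_le`, `eps2_le_hel`, `hel_pow_two`; `walk w 0` is the constant `0`). -/
theorem gain_walk_le (T : Fam G) (w : G) (r : ℕ) : gain T (walk w r) ≤ 4 ^ r * hel T w := by
  have hn := hel_nonneg T w
  induction r with
  | zero =>
    have h1 : gain T (walk w 0) ≤ eps2 T 0 := gain_ber_le T 0
    have h2 := eps2_le_hel T 0
    rw [hel_zero] at h2
    rw [pow_zero, one_mul]
    linarith
  | succ r ih =>
    have h1 := submod (walk w r) T (ber (2 ^ r • w))
    have h2 := (gain_ber_le T (2 ^ r • w)).trans
      ((eps2_le_hel T _).trans (hel_pow_two T w r))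
    have h3 : (T.add (walk w (r + 1))).H = (((walk w r).add T).add (ber (2 ^ r • w))).H := by
      have i1 : Iso ((T.add (walk w r)).add (ber (2 ^ r • w))) (T.add (walk w (r + 1))) :=
        iso_add_assoc T (walk w r) (ber (2 ^ r • w))
      have i2 : Iso ((T.add (walk w r)).add (ber (2 ^ r • w)))
          (((walk w r).add T).add (ber (2 ^ r • w))) :=
        (iso_add_comm T (walk w r)).add (Iso.refl _)
      rw [← i1.H_eq, i2.H_eq]
    have h4 : (T.add (walk w r)).H = ((walk w r).add T).H := (iso_add_comm T (walk w r)).H_eq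
    have h5 : (4 : ℝ) ^ (r + 1) * hel T w = 4 * (4 ^ r * hel T w) := by ring
    have h6 : 0 ≤ (4 : ℝ) ^ r * hel T w := mul_nonneg (by positivity) hn
    unfold gain at ih h2 ⊢
    rw [h3, h5]
    linarith

/-- `H(X + walk) ≤ H(X + T + walk) ≤ H(X + T) + gain T walk` (`submod`) -/
theorem H_add_walk_le (X T : Fam G) (w : G) (r : ℕ) :
    (X.add (walk w r)).H ≤ (X.add T).H + gain T (walk w r) := by
  have h1 := H_le_add_right T (X.add (walk w r))
  have h2 := submod X T (walk w r)
  have i1 : Iso ((T.add X).add (walk w r)) (T.add (X.add (walk w r))) :=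
    iso_add_assoc T X (walk w r)
  have i2 : Iso ((T.add X).add (walk w r)) ((X.add T).add (walk w r)) :=
    (iso_add_comm T X).add (Iso.refl _)
  rw [← i1.H_eq, i2.H_eq] at h1
  unfold gain
  linarith

end Pool.Agent.OSP
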