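import Pool.Agent.OSP_h95.Pack
import Pool.Agent.OSP_h95.NiceB
import Pool.Agent.OSP_h95.Ball
import Pool.Agent.OSP_h95.Walk
import Pool.Agent.OSP_h95.Min
import Pool.Agent.OSP_h95.F1C

/-!
# The theorem in a finite abelian group, entropy form
-/

set_option autoImplicit false

namespace Pool.Agent.OSP

open Finset Real Pool.Agent.QFR
open scoped Pointwise

open Classical in
/-- the Hellinger ball -/
noncomputable def hball {G : Type} [AddCommGroup G] [Fintype G] (T : Fam G) (R : ℝ) : Finset G :=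
  Finset.univ.filter fun D => hel T D ≤ R ^ 2

theorem mem_hball {G : Type} [AddCommGroup G] [Fintype G] (T : Fam G) (R : ℝ) (D : G) :
    D ∈ hball T R ↔ hel T D ≤ R ^ 2 := by
  simp [hball]

/-- covering a ball by translates of a smaller one -/
theorem cover_ball {G : Type} [AddCommGroup G] [Fintype G] (T : Fam G) (R F : ℝ)
    (hF : ∀ 𝒟 : Finset G, (∀ D ∈ 𝒟, hel T D ≤ R ^ 2) →
      (∀ D ∈ 𝒟, ∀ D' ∈ 𝒟, D ≠ D' → (2 / 3 * R) ^ 2 ≤ hel T (D - D')) → (𝒟.card : ℝ) ≤ F) :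
    ((hball T R).card : ℝ) ≤ F * (hball T (2 / 3 * R)).card := by
  classical
  let 𝒮 : Finset (Finset G) := (hball T R).powerset.filter fun 𝒟 =>
    ∀ D ∈ 𝒟, ∀ D' ∈ 𝒟, D ≠ D' → (2 / 3 * R) ^ 2 ≤ hel T (D - D')
  have hne : 𝒮.Nonempty := ⟨∅, by simp [𝒮]⟩
  obtain ⟨𝒟, h𝒟, hmax⟩ := Finset.exists_max_image 𝒮 Finset.card hne
  simp only [𝒮, Finset.mem_filter, Finset.mem_powerset] at h𝒟
  have hcov : hball T R ⊆ 𝒟 + hball T (2 / 3 * R) := by
    intro x hx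
    by_contra hcon
    have hfar : ∀ D ∈ 𝒟, (2 / 3 * R) ^ 2 < hel T (x - D) := by
      intro D hD
      by_contra h
      push Not at h
      exact hcon (Finset.mem_add.2 ⟨D, hD, x - D, (mem_hball _ _ _).2 h, by abel⟩)
    have hxD : x ∉ 𝒟 := by
      intro h
      have h1 := hfar x h
      rw [sub_self, hel_zero] at h1
      have := sq_nonneg (2 / 3 * R)
      linarith
    have hins : insert x 𝒟 ∈ 𝒮 := by
      simp only [𝒮, Finset.mem_filter, Finset.mem_powerset]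
      refine ⟨Finset.insert_subset hx h𝒟.1, ?_⟩
      intro D hD D' hD' hne
      rcases Finset.mem_insert.1 hD with h3 | h3
      · rcases Finset.mem_insert.1 hD' with h4 | h4
        · exact absurd (h3.trans h4.symm) hne
        · rw [h3]; exact (hfar D' h4).le
      · rcases Finset.mem_insert.1 hD' with h4 | h4
        · have h1 := (hfar D h3).le
          rw [← hel_neg, neg_sub] at h1
          rw [h4]; exact h1
        · exact h𝒟.2 D h3 D' h4 hne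
    have h2 := hmax _ hins
    rw [Finset.card_insert_of_notMem hxD] at h2
    omega
  have h1 : ((hball T R).card : ℝ) ≤ 𝒟.card * (hball T (2 / 3 * R)).card := by
    exact_mod_cast (Finset.card_le_card hcov).trans Finset.card_add_le
  have h2 := hF 𝒟 (fun D hD => (mem_hball _ _ _).1 (h𝒟.1 hD)) h𝒟.2
  exact h1.trans (by gcongr)

/-- choice of the number of steps -/
theorem exists_steps : ∃ CJ : ℝ, 1 ≤ CJ ∧ ∀ y : ℝ, 1 ≤ y → ∃ j : ℕ,
    ((1 + 1 / 100) / 2) ^ j * y ≤ 1 ∧ ((j : ℝ) * (101 / 100) ^ j) ^ 9 ≤ CJ * y := by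
  have hb : ∃ M : ℝ, ∀ n : ℕ, ((n : ℝ) * (101 / 100) ^ n) ^ 9 * (3 / 5) ^ n ≤ M := by
    have h1 := tendsto_pow_const_mul_const_pow_of_abs_lt_one 9
      (r := (101 / 100 : ℝ) ^ 9 * (3 / 5)) (by rw [abs_of_pos (by positivity)]; norm_num)
    obtain ⟨M, hM⟩ := h1.bddAbove_range
    refine ⟨M, fun n => ?_⟩
    have h2 := hM ⟨n, rfl⟩
    refine le_trans (le_of_eq ?_) h2
    show ((n : ℝ) * (101 / 100) ^ n) ^ 9 * (3 / 5) ^ n =
      (n : ℝ) ^ 9 * ((101 / 100) ^ 9 * (3 / 5)) ^ n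
    rw [mul_pow, mul_pow ((101 / 100 : ℝ) ^ 9), ← pow_mul, ← pow_mul, mul_comm n 9, mul_assoc]
  obtain ⟨M, hM⟩ := hb
  refine ⟨max 1 (2 * M), le_max_left _ _, ?_⟩
  intro y hy
  have hex : ∃ j : ℕ, (3 / 5 : ℝ) ^ j * y ≤ 1 := by
    obtain ⟨j, hj⟩ := exists_pow_lt_of_lt_one (show (0 : ℝ) < 1 / y by positivity)
      (show (3 / 5 : ℝ) < 1 by norm_num)
    refine ⟨j, ?_⟩
    rw [lt_div_iff₀ (by linarith)] at hj
    exact hj.le
  classical
  obtain ⟨j, hj, hmin⟩ : ∃ j : ℕ, (3 / 5 : ℝ) ^ j * y ≤ 1 ∧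
      ∀ i < j, ¬ (3 / 5 : ℝ) ^ i * y ≤ 1 :=
    ⟨Nat.find hex, Nat.find_spec hex, fun i hi => Nat.find_min hex hi⟩
  refine ⟨j, ?_, ?_⟩
  · refine le_trans ?_ hj
    have : ((1 + 1 / 100) / 2 : ℝ) ^ j ≤ (3 / 5) ^ j :=
      pow_le_pow_left₀ (by norm_num) (by norm_num) j
    gcongr
  · have h1 := hM j
    have hM0 : 0 ≤ M := le_trans (by positivity) h1
    have h2 : 1 ≤ 2 * ((3 / 5 : ℝ) ^ j * y) := by
      rcases j with _ | j
      · simp only [pow_zero]; linarith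
      · have h3 := hmin j (by omega)
        push Not at h3
        rw [pow_succ]
        linarith
    have h35 : (0 : ℝ) < (3 / 5) ^ j := by positivity
    calc ((j : ℝ) * (101 / 100) ^ j) ^ 9
        ≤ ((j : ℝ) * (101 / 100) ^ j) ^ 9 * (2 * ((3 / 5 : ℝ) ^ j * y)) :=
          le_mul_of_one_le_right (by positivity) h2
      _ = 2 * (((j : ℝ) * (101 / 100) ^ j) ^ 9 * (3 / 5) ^ j) * y := by ring
      _ ≤ 2 * M * y := by gcongr
      _ ≤ max 1 (2 * M) * y := by gcongr; exact le_max_right _ _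

/-- the ball of radius `R₀` around `0` is large -/
theorem big_ball {G : Type} [AddCommGroup G] [Fintype G] (X T : Fam G) {lam δ κ q R₀ D : ℝ}
    (h0 : 0 ≤ lam) (h1 : lam ≤ 1 / 100) (hδ : 0 ≤ δ) (hκ : dbl T ≤ κ) (hM : Mini T lam δ)
    (hX1 : (X.add T).H - X.H ≤ q) (hX2 : (X.add T).H - T.H ≤ q) (hR : 0 < R₀) (j : ℕ)
    (hj : ((1 + 1 / 100) / 2) ^ j * κ ≤ R₀ ^ 2 / 16) (hδ1 : 2 * δ ≤ R₀ ^ 2 / 16)
    (hδ2 : 2 ^ (j + 2) * δ ≤ 1) (hD : 2 * κ * ((j : ℝ) * (101 / 100) ^ j) ≤ D) :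
    X.H - 2 * (2 + 2 * q + D) ≤ Real.log (hball T R₀).card := by
  have hκ0 : 0 ≤ κ := (dbl_nonneg T).trans hκ
  obtain ⟨n, hn1, hn2⟩ := exists_W T h0 (by linarith) hδ hκ hM j
  have e1 : ((1 + lam) / 2) ^ j * κ ≤ ((1 + 1 / 100) / 2) ^ j * κ := by
    gcongr
  have e2 := log_ball_ge X T (W T n) hR (hball T R₀) (fun D h => (mem_hball _ _ _).2 h)
    (by linarith)
  have e3 : (X.add (W T n)).H ≤ (X.add T).H :=
    ((Refines.refl X).add (W_refines T n)).H_le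
  have e4 : X.H ≤ (X.add T).H := H_le_add_left X T
  have e5 : 2 * κ * j * (1 + lam) ^ j ≤ D := by
    refine le_trans ?_ hD
    rw [mul_assoc (2 * κ)]
    have : (1 + lam) ^ j ≤ (101 / 100) ^ j := pow_le_pow_left₀ (by linarith) (by linarith) j
    gcongr
  have hlog := Real.log_two_lt_d9
  linarith

/-- iterating `cover_ball` -/
theorem iter_ball {G : Type} [AddCommGroup G] [Fintype G] (T : Fam G) (R₀ p : ℝ) (m : ℕ)
    (h : ∀ s < m, ((hball T ((2 / 3) ^ s * R₀)).card : ℝ) ≤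
      exp p * (hball T (2 / 3 * ((2 / 3) ^ s * R₀))).card) :
    ((hball T R₀).card : ℝ) ≤ exp (p * m) * (hball T ((2 / 3) ^ m * R₀)).card := by
  induction m with
  | zero => simp
  | succ m ih =>
    have h1 := ih fun s hs => h s (by omega)
    have h2 := h m (by omega)
    have h3 : 2 / 3 * ((2 / 3) ^ m * R₀) = (2 / 3) ^ (m + 1) * R₀ := by rw [pow_succ]; ring
    rw [h3] at h2
    calc ((hball T R₀).card : ℝ) ≤ exp (p * m) * (hball T ((2 / 3) ^ m * R₀)).card := h1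
      _ ≤ exp (p * m) * (exp p * (hball T ((2 / 3) ^ (m + 1) * R₀)).card) := by gcongr
      _ = exp (p * (m + 1 : ℕ)) * (hball T ((2 / 3) ^ (m + 1) * R₀)).card := by
          rw [← mul_assoc, ← Real.exp_add]
          congr 2
          push_cast
          ring

/-- THE THEOREM IN A FINITE ABELIAN GROUP. -/
theorem group_step : ∃ C : ℝ, 1 ≤ C ∧ ∀ (G : Type) [AddCommGroup G] [Fintype G] [DecidableEq G]
    (A : Finset G) (hA : A.Nonempty) (k : ℝ) (r : ℕ), 1 ≤ k →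
    ((A + A).card : ℝ) ≤ exp k * A.card → ((A - A).card : ℝ) ≤ exp (2 * k) * A.card →
    C * k * r + C * k ^ 2 < Real.log A.card →
    ∃ w : G, w ≠ 0 ∧ ((Fam.unif A hA).add (walk w r)).H ≤ Real.log A.card + C * k := by
  obtain ⟨η, hη, hpack⟩ := pack
  obtain ⟨B, C, c, hB, hC, hc, hnice⟩ := nice_of_mini hη
  obtain ⟨P, hP1, hpack⟩ := hpack B C hB hC
  obtain ⟨CJ, hCJ1, hsteps⟩ := exists_steps
  -- constants
  obtain ⟨c', hc'⟩ : ∃ c' : ℝ, c' = min c 1 := ⟨_, rfl⟩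
  have hc'0 : 0 < c' := by rw [hc']; exact lt_min hc one_pos
  have hc'c : c' ≤ c := by rw [hc']; exact min_le_left _ _
  have hc'1 : c' ≤ 1 := by rw [hc']; exact min_le_right _ _
  obtain ⟨lam, hlam⟩ : ∃ lam : ℝ, lam = min c (1 / 100) := ⟨_, rfl⟩
  have hlam0 : 0 < lam := by rw [hlam]; exact lt_min hc (by norm_num)
  have hlamc : lam ≤ c := by rw [hlam]; exact min_le_left _ _
  have hlam1 : lam ≤ 1 / 100 := by rw [hlam]; exact min_le_right _ _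
  obtain ⟨Cy, hCy⟩ : ∃ Cy : ℝ, Cy = 16 * P ^ 8 * 5 ^ 9 / c' ^ 2 := ⟨_, rfl⟩
  have hCy1 : 1 ≤ Cy := by
    rw [hCy, le_div_iff₀ (by positivity)]
    have h1 : c' ^ 2 ≤ 1 := pow_le_one₀ hc'0.le hc'1
    have h2 : 1 ≤ P ^ 8 := one_le_pow₀ hP1
    linarith
  obtain ⟨Dc, hDc⟩ : ∃ Dc : ℝ, Dc = CJ * Cy := ⟨_, rfl⟩
  have hDc1 : 1 ≤ Dc := by rw [hDc]; exact one_le_mul_of_one_le_of_one_le hCJ1 hCy1
  refine ⟨10 * P + 2 * (2 + 8 / lam + 8 * Dc) + (4 / lam + 1), ?_, ?_⟩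
  · have : 0 < 8 / lam := by positivity
    have : 0 < 4 / lam := by positivity
    linarith
  intro G _ _ _ A hA k r hk hAA hAA' hr
  have hk0 : 0 < k := by linarith
  obtain ⟨κ, hκ⟩ : ∃ κ : ℝ, κ = 4 * k := ⟨_, rfl⟩
  have hκ5 : 1 + κ ≤ 5 * k := by rw [hκ]; linarith
  have hκ0 : 0 < κ := by rw [hκ]; linarith
  obtain ⟨R₀, hR₀⟩ : ∃ R₀ : ℝ, R₀ = c' / (P * (1 + κ)) ^ 4 := ⟨_, rfl⟩
  have hPκ : 1 ≤ P * (1 + κ) := one_le_mul_of_one_le_of_one_le hP1 (by linarith)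
  have hPκ4 : 1 ≤ (P * (1 + κ)) ^ 4 := one_le_pow₀ hPκ
  have hR0 : 0 < R₀ := by rw [hR₀]; positivity
  have hR1 : R₀ * (P * (1 + κ)) ^ 4 = c' := by rw [hR₀]; field_simp
  have hRc : R₀ ≤ c' := by rw [hR₀]; exact div_le_self hc'0.le hPκ4
  -- number of steps
  obtain ⟨j, hj1, hj2⟩ := hsteps (Cy * k ^ 9)
    (one_le_mul_of_one_le_of_one_le hCy1 (one_le_pow₀ hk))
  have hκR : κ ≤ Cy * k ^ 9 * (R₀ ^ 2 / 16) := by
    have h1 : R₀ ^ 2 = c' ^ 2 / (P * (1 + κ)) ^ 8 := by rw [hR₀, div_pow, ← pow_mul]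
    have h2 : (P * (1 + κ)) ^ 8 * κ ≤ P ^ 8 * (5 * k) ^ 9 := by
      calc (P * (1 + κ)) ^ 8 * κ ≤ (P * (5 * k)) ^ 8 * (5 * k) := by
            gcongr; linarith
        _ = _ := by ring
    rw [h1, hCy]
    have h3 : 16 * P ^ 8 * 5 ^ 9 / c' ^ 2 * k ^ 9 * (c' ^ 2 / (P * (1 + κ)) ^ 8 / 16) =
        P ^ 8 * (5 * k) ^ 9 / (P * (1 + κ)) ^ 8 := by
      field_simp
    rw [h3, le_div_iff₀ (by positivity)]
    linarith
  have hj : ((1 + 1 / 100) / 2) ^ j * κ ≤ R₀ ^ 2 / 16 := by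
    calc ((1 + 1 / 100) / 2) ^ j * κ ≤ ((1 + 1 / 100) / 2) ^ j * (Cy * k ^ 9 * (R₀ ^ 2 / 16)) := by
          gcongr
      _ = (((1 + 1 / 100) / 2) ^ j * (Cy * k ^ 9)) * (R₀ ^ 2 / 16) := by ring
      _ ≤ 1 * (R₀ ^ 2 / 16) := by gcongr
      _ = _ := one_mul _
  have hjD : (j : ℝ) * (101 / 100) ^ j ≤ Dc * k := by
    have h1 : ((j : ℝ) * (101 / 100) ^ j) ^ 9 ≤ (Dc * k) ^ 9 := by
      calc ((j : ℝ) * (101 / 100) ^ j) ^ 9 ≤ CJ * (Cy * k ^ 9) := hj2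
        _ = Dc ^ 1 * k ^ 9 := by rw [hDc]; ring
        _ ≤ Dc ^ 9 * k ^ 9 := by gcongr; norm_num
        _ = _ := by ring
    exact le_of_pow_le_pow_left₀ (by norm_num) (by positivity) h1
  -- the error
  obtain ⟨δ, hδ⟩ : ∃ δ : ℝ, δ = min (c * ((2 / 3) ^ (2 * r) * R₀) ^ 2)
    (min (R₀ ^ 2 / 32) (min (1 / 2 ^ (j + 2)) k)) := ⟨_, rfl⟩
  have hδ0 : 0 < δ := by
    rw [hδ]
    refine lt_min (by positivity) (lt_min (by positivity) (lt_min (by positivity) hk0))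
  have hδ1 : δ ≤ c * ((2 / 3) ^ (2 * r) * R₀) ^ 2 := by rw [hδ]; exact min_le_left _ _
  have hδ2 : δ ≤ R₀ ^ 2 / 32 := by
    rw [hδ]; exact (min_le_right _ _).trans (min_le_left _ _)
  have hδ3 : δ ≤ 1 / 2 ^ (j + 2) := by
    rw [hδ]; exact (min_le_right _ _).trans ((min_le_right _ _).trans (min_le_left _ _))
  have hδ4 : δ ≤ k := by
    rw [hδ]; exact (min_le_right _ _).trans ((min_le_right _ _).trans (min_le_right _ _))
  -- the near-minimiser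
  obtain ⟨T, hT⟩ := exists_min (Fam.unif A hA) hlam0.le hδ0
  have hM := mini_of_near (Fam.unif A hA) hlam0.le T hT
  have hPhi : Phi (Fam.unif A hA) lam T ≤ κ := by
    have h1 := hT (Fam.unif A hA)
    have h2 := Phi_unif_le A hA hlam0.le hAA hAA'
    have h3 : (2 + 2 * lam) * k ≤ 3 * k := by
      have : 2 + 2 * lam ≤ 3 := by linarith
      gcongr
    rw [hκ]
    linarith
  obtain ⟨b1, b2, b3⟩ := bounds_of_Phi (Fam.unif A hA) T hlam0 hPhi
  have hX : (Fam.unif A hA).H = Real.log A.card := H_unif A hA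
  have hbig := big_ball (Fam.unif A hA) T (D := 2 * κ * (Dc * k)) hlam0.le hlam1 hδ0.le b1 hM
    b2 b3 hR0 j hj (by linarith) (by
      have : (0 : ℝ) < 2 ^ (j + 2) := by positivity
      calc (2 : ℝ) ^ (j + 2) * δ ≤ 2 ^ (j + 2) * (1 / 2 ^ (j + 2)) := by gcongr
        _ = 1 := by field_simp) (by gcongr)
  rw [hX] at hbig
  -- descending
  have hit := iter_ball T R₀ (P * (1 + κ)) (2 * r) (by
    intro s hs
    have h23 : (0 : ℝ) < (2 / 3) ^ s := by positivity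
    have hs1 : ((2 : ℝ) / 3) ^ s ≤ 1 := pow_le_one₀ (by norm_num) (by norm_num)
    have hRs : (2 / 3) ^ s * R₀ ≤ R₀ := mul_le_of_le_one_left hR0.le hs1
    refine cover_ball T ((2 / 3) ^ s * R₀) (exp (P * (1 + κ))) fun 𝒟 h1 h2 => ?_
    refine hpack G T κ ((2 / 3) ^ s * R₀) 𝒟 b1 (by positivity) ?_ ?_ h2
    · calc (2 / 3) ^ s * R₀ * (P * (1 + κ)) ^ 4 ≤ R₀ * (P * (1 + κ)) ^ 4 := by gcongr
        _ = c' := hR1
        _ ≤ 1 := hc'1
    · intro D hD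
      refine ⟨h1 D hD, ?_⟩
      refine hnice G T lam δ ((2 / 3) ^ s * R₀) D hlam0.le hlamc hδ0.le ?_ (by positivity) ?_ hM
        (h1 D hD)
      · refine hδ1.trans ?_
        have : ((2 : ℝ) / 3) ^ (2 * r) ≤ (2 / 3) ^ s :=
          pow_le_pow_of_le_one (by norm_num) (by norm_num) hs.le
        gcongr
      · linarith)
  have hcard0 : (0 : ℝ) < (hball T R₀).card := by
    have : (0 : G) ∈ hball T R₀ := by rw [mem_hball, hel_zero]; positivity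
    exact_mod_cast Finset.card_pos.2 ⟨0, this⟩
  have hone : 1 < (hball T ((2 / 3) ^ (2 * r) * R₀)).card := by
    by_contra hcon
    have h1 : ((hball T ((2 / 3) ^ (2 * r) * R₀)).card : ℝ) ≤ 1 := by
      exact_mod_cast not_lt.1 hcon
    have h2 : ((hball T R₀).card : ℝ) ≤ exp (P * (1 + κ) * (2 * r : ℕ)) := by
      calc _ ≤ _ := hit
        _ ≤ exp (P * (1 + κ) * (2 * r : ℕ)) * 1 := by gcongr
        _ = _ := mul_one _
    have h3 := Real.log_le_log hcard0 h2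
    rw [Real.log_exp] at h3
    push_cast at h3
    have h4 : P * (1 + κ) * (2 * r) ≤ 10 * P * k * r := by
      have : P * (1 + κ) * (2 * r) ≤ P * (5 * k) * (2 * r) := by gcongr
      linarith
    have h5 : 2 * (2 + 2 * (κ / lam) + 2 * κ * (Dc * k)) ≤ 2 * (2 + 8 / lam + 8 * Dc) * k ^ 2 := by
      rw [hκ]
      have hkk : k ≤ k ^ 2 := le_self_pow₀ hk (by norm_num)
      have hkk1 : 1 ≤ k ^ 2 := one_le_pow₀ hk
      have h6 : 2 * (4 * k / lam) ≤ 8 / lam * k ^ 2 := by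
        calc 2 * (4 * k / lam) = 8 / lam * k := by ring
          _ ≤ 8 / lam * k ^ 2 := by gcongr
      have h7 : 2 * (4 * k) * (Dc * k) = 8 * Dc * k ^ 2 := by ring
      rw [h7]
      linarith
    have h8 : 0 ≤ (10 * P + (4 / lam + 1)) * k ^ 2 := by positivity
    have h9 : 0 ≤ (2 * (2 + 8 / lam + 8 * Dc) + (4 / lam + 1)) * k * r := by positivity
    have h10 : (10 * P + 2 * (2 + 8 / lam + 8 * Dc) + (4 / lam + 1)) * k * r =
      10 * P * k * r + (2 * (2 + 8 / lam + 8 * Dc) + (4 / lam + 1)) * k * r := by ring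
    have h11 : (10 * P + 2 * (2 + 8 / lam + 8 * Dc) + (4 / lam + 1)) * k ^ 2 =
      2 * (2 + 8 / lam + 8 * Dc) * k ^ 2 + (10 * P + (4 / lam + 1)) * k ^ 2 := by ring
    rw [h10, h11] at hr
    linarith
  obtain ⟨w, hw, hw0⟩ := Finset.exists_mem_ne hone 0
  rw [mem_hball] at hw
  refine ⟨w, hw0, ?_⟩
  have g1 := gain_walk_le T w r
  have g2 := H_add_walk_le (Fam.unif A hA) T w r
  have g3 : 4 ^ r * hel T w ≤ 1 := by
    calc 4 ^ r * hel T w ≤ 4 ^ r * ((2 / 3) ^ (2 * r) * R₀) ^ 2 := by gcongr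
      _ = (64 / 81) ^ r * R₀ ^ 2 := by
          have : ((2 : ℝ) / 3) ^ (2 * r) = (4 / 9) ^ r := by rw [pow_mul]; norm_num
          rw [this, mul_pow, ← pow_mul, mul_comm r 2, pow_mul, ← mul_assoc, ← mul_pow]
          norm_num
      _ ≤ 1 * 1 := by
          have h1 : ((64 : ℝ) / 81) ^ r ≤ 1 := pow_le_one₀ (by norm_num) (by norm_num)
          have h2 : R₀ ^ 2 ≤ 1 := pow_le_one₀ hR0.le (by linarith)
          gcongr
      _ = 1 := one_mul _
  have g4 : κ / lam = 4 / lam * k := by rw [hκ]; ring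
  have g5 : 0 ≤ (10 * P + 2 * (2 + 8 / lam + 8 * Dc)) * k := by positivity
  have g6 : (10 * P + 2 * (2 + 8 / lam + 8 * Dc) + (4 / lam + 1)) * k =
    (10 * P + 2 * (2 + 8 / lam + 8 * Dc)) * k + 4 / lam * k + k := by ring
  rw [hX] at b2
  rw [g6]
  rw [g4] at b2
  linarith

end Pool.Agent.OSP
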