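import Pool.Agent.OSP_h95.Defs

/-!
# The Hellinger metric
-/

set_option autoImplicit false

namespace Pool.Agent.OSP

open Finset Real Pool.Agent.QFR

variable {G : Type} [AddCommGroup G] [Fintype G]

/-- Cauchy-Schwarz for double sums -/
theorem Hel_aux_cs {κ : Type} [Fintype κ] (u v : κ → G → ℝ) :
    ∑ i, ∑ x, u i x * v i x ≤ √(∑ i, ∑ x, u i x ^ 2) * √(∑ i, ∑ x, v i x ^ 2) := by
  have h := Real.sum_mul_le_sqrt_mul_sqrt (Finset.univ : Finset (κ × G))
    (fun p => u p.1 p.2) (fun p => v p.1 p.2)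
  simpa only [Fintype.sum_prod_type] using h

/-- Minkowski for double sums -/
theorem Hel_aux_mink {κ : Type} [Fintype κ] (u v : κ → G → ℝ) :
    √(∑ i, ∑ x, (u i x + v i x) ^ 2) ≤ √(∑ i, ∑ x, u i x ^ 2) + √(∑ i, ∑ x, v i x ^ 2) := by
  have hU : 0 ≤ ∑ i, ∑ x, u i x ^ 2 :=
    Finset.sum_nonneg fun i _ => Finset.sum_nonneg fun x _ => sq_nonneg _
  have hV : 0 ≤ ∑ i, ∑ x, v i x ^ 2 :=
    Finset.sum_nonneg fun i _ => Finset.sum_nonneg fun x _ => sq_nonneg _
  refine Real.sqrt_le_iff.2 ⟨by positivity, ?_⟩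
  have h1 : ∑ i, ∑ x, (u i x + v i x) ^ 2 =
      ∑ i, ∑ x, u i x ^ 2 + 2 * ∑ i, ∑ x, u i x * v i x + ∑ i, ∑ x, v i x ^ 2 := by
    simp only [Finset.mul_sum, ← Finset.sum_add_distrib]
    exact Finset.sum_congr rfl fun i _ => Finset.sum_congr rfl fun x _ => by ring
  have h2 := Hel_aux_cs u v
  have h3 := Real.sq_sqrt hU
  have h4 := Real.sq_sqrt hV
  rw [h1]
  nlinarith

theorem hel_nonneg (T : Fam G) (D : G) : 0 ≤ hel T D :=
  Finset.sum_nonneg fun _ _ => Finset.sum_nonneg fun _ _ => sq_nonneg _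

theorem hel_zero (T : Fam G) : hel T 0 = 0 := by
  simp [hel]

/-- substitute `x ↦ x + D'` in the sum over `x` -/
theorem hel_sub_eq (T : Fam G) (D D' : G) :
    ∑ i, ∑ x, (√(T.m i (x - D)) - √(T.m i (x - D'))) ^ 2 = hel T (D - D') := by
  unfold hel
  refine Finset.sum_congr rfl fun i _ => ?_
  refine Fintype.sum_equiv (Equiv.subRight D') _ _ fun x => ?_
  have h : Equiv.subRight D' x - (D - D') = x - D := by
    rw [Equiv.subRight_apply]
    abel
  rw [h, Equiv.subRight_apply]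

theorem hel_neg (T : Fam G) (D : G) : hel T (-D) = hel T D := by
  have h := hel_sub_eq T 0 D
  rw [zero_sub] at h
  rw [← h]
  unfold hel
  refine Finset.sum_congr rfl fun i _ => Finset.sum_congr rfl fun x _ => ?_
  rw [sub_zero]
  ring

/-- triangle inequality (Minkowski) for the vectors `√(T.m i (x - D - D'))`, `√(T.m i (x - D'))`,
`√(T.m i x)` in `ℓ²`, and `hel_sub_eq` -/
theorem sqrt_hel_add (T : Fam G) (D D' : G) :
    √(hel T (D + D')) ≤ √(hel T D) + √(hel T D') := by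
  have h := Hel_aux_mink (fun i x => √(T.m i (x - (D + D'))) - √(T.m i (x - D')))
    (fun i x => √(T.m i (x - D')) - √(T.m i x))
  rw [hel_sub_eq T (D + D') D', add_sub_cancel_right] at h
  have h1 : ∑ i, ∑ x, (√(T.m i (x - (D + D'))) - √(T.m i (x - D')) +
      (√(T.m i (x - D')) - √(T.m i x))) ^ 2 = hel T (D + D') := by
    unfold hel
    exact Finset.sum_congr rfl fun i _ => Finset.sum_congr rfl fun x _ => by ring
  rw [h1] at h
  exact h

/-- `√hel` is subadditive, so `√(hel T (2^n D)) ≤ 2^n √(hel T D)` -/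
theorem hel_pow_two (T : Fam G) (D : G) (n : ℕ) : hel T (2 ^ n • D) ≤ 4 ^ n * hel T D := by
  have h : √(hel T (2 ^ n • D)) ≤ 2 ^ n * √(hel T D) := by
    induction n with
    | zero => simp
    | succ n ih =>
      have h1 : (2 ^ (n + 1) • D : G) = 2 ^ n • D + 2 ^ n • D := by
        rw [← two_nsmul, ← mul_nsmul, pow_succ]
      rw [h1, pow_succ]
      have h2 := sqrt_hel_add T (2 ^ n • D) (2 ^ n • D)
      linarith
  have h0 : 0 ≤ √(hel T (2 ^ n • D)) := Real.sqrt_nonneg _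
  have h1 := Real.sq_sqrt (hel_nonneg T (2 ^ n • D))
  have h2 := Real.sq_sqrt (hel_nonneg T D)
  calc hel T (2 ^ n • D) = √(hel T (2 ^ n • D)) ^ 2 := h1.symm
    _ ≤ (2 ^ n * √(hel T D)) ^ 2 := pow_le_pow_left₀ h0 h 2
    _ = 4 ^ n * hel T D := by
      rw [mul_pow, h2, ← pow_mul, mul_comm n 2, pow_mul]
      norm_num

/-- Cauchy-Schwarz: `|a - b| = |√a - √b| (√a + √b)` and `Σ (√a + √b)² ≤ 2 Σ (a + b) = 4` -/
theorem l1_le (T : Fam G) (D : G) :
    ∑ i, ∑ x, |T.m i (x - D) - T.m i x| ≤ 2 * √(hel T D) := by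
  have h1 : ∀ i x, |T.m i (x - D) - T.m i x| =
      |√(T.m i (x - D)) - √(T.m i x)| * (√(T.m i (x - D)) + √(T.m i x)) := by
    intro i x
    have e1 := Real.mul_self_sqrt (T.nn i (x - D))
    have e2 := Real.mul_self_sqrt (T.nn i x)
    have e3 : T.m i (x - D) - T.m i x =
        (√(T.m i (x - D)) - √(T.m i x)) * (√(T.m i (x - D)) + √(T.m i x)) := by
      nlinarith
    rw [e3, abs_mul, abs_of_nonneg (a := √(T.m i (x - D)) + √(T.m i x)) (by positivity)]
  simp only [h1]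
  have h2 := Hel_aux_cs (fun i x => |√(T.m i (x - D)) - √(T.m i x)|)
    (fun i x => √(T.m i (x - D)) + √(T.m i x))
  simp only [sq_abs] at h2
  have h3 : ∑ i, ∑ x, T.m i (x - D) = 1 := by
    rw [← T.tot]
    exact Finset.sum_congr rfl fun i _ =>
      Fintype.sum_equiv (Equiv.subRight D) _ _ fun x => rfl
  have h4 : ∑ i, ∑ x, (√(T.m i (x - D)) + √(T.m i x)) ^ 2 ≤ 4 := by
    calc ∑ i, ∑ x, (√(T.m i (x - D)) + √(T.m i x)) ^ 2
        ≤ ∑ i, ∑ x, (2 * T.m i (x - D) + 2 * T.m i x) := by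
          refine Finset.sum_le_sum fun i _ => Finset.sum_le_sum fun x _ => ?_
          have e1 := Real.mul_self_sqrt (T.nn i (x - D))
          have e2 := Real.mul_self_sqrt (T.nn i x)
          nlinarith [sq_nonneg (√(T.m i (x - D)) - √(T.m i x))]
      _ = 4 := by
          simp only [Finset.sum_add_distrib, ← Finset.mul_sum, h3, T.tot]
          norm_num
  have h5 : √(∑ i, ∑ x, (√(T.m i (x - D)) + √(T.m i x)) ^ 2) ≤ 2 := by
    rw [Real.sqrt_le_iff]
    exact ⟨by norm_num, by linarith⟩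
  have h6 : 0 ≤ √(hel T D) := Real.sqrt_nonneg _
  calc _ ≤ √(hel T D) * √(∑ i, ∑ x, (√(T.m i (x - D)) + √(T.m i x)) ^ 2) := h2
    _ ≤ √(hel T D) * 2 := mul_le_mul_of_nonneg_left h5 h6
    _ = 2 * √(hel T D) := by ring

end Pool.Agent.OSP
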