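import Pool.Agent.OSP_h95.Returns

/-!
# From `ZMod M` back to the integers
-/

set_option autoImplicit false

namespace Pool.Agent.OSP

open Finset Real Pool.Agent.QFR
open scoped Pointwise

lemma ToInt_refl (A : Finset ℤ) (d : ℤ) (n : ℕ) :
    (A + prog (-d) n).card ≤ (A + prog d n).card := by
  have h1 : A + prog (-d) n ⊆ (A + prog d n).image (fun x => x - ((n : ℤ) - 1) * d) := by
    intro x hx
    obtain ⟨a, ha, y, hy, rfl⟩ := Finset.mem_add.1 hx
    obtain ⟨j, hj, rfl⟩ := Finset.mem_image.1 hy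
    rw [Finset.mem_range] at hj
    refine Finset.mem_image.2 ⟨a + (n - 1 - j) • d, Finset.mem_add.2 ⟨a, ha, _,
      Finset.mem_image.2 ⟨n - 1 - j, Finset.mem_range.2 (by omega), rfl⟩, rfl⟩, ?_⟩
    have h2 : ((n - 1 - j : ℕ) : ℤ) = (n : ℤ) - 1 - j := by omega
    simp only [nsmul_eq_mul, h2]
    ring
  exact (Finset.card_le_card h1).trans Finset.card_image_le

lemma ToInt_pigeon (J : ℕ) {E : ℝ} (hE : 1 ≤ E) (hJE : 8 * E < J) (P : Finset ℕ)
    (hP : P ⊆ Finset.range J) (hPc : (J : ℝ) / E ≤ P.card) :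
    ∃ i ∈ P, ∃ i' ∈ P, i < i' ∧ ((i' - i : ℕ) : ℝ) ≤ 2 * E := by
  have hE0 : 0 < E := by linarith
  set k := ⌊2 * E⌋₊ with hk
  have hk1 : (k : ℝ) ≤ 2 * E := Nat.floor_le (by linarith)
  have hk2 : 2 * E < k + 1 := Nat.lt_floor_add_one _
  have hk3 : 2 ≤ k := Nat.le_floor (by push_cast; linarith)
  have hk4 : (2 : ℝ) ≤ k := by exact_mod_cast hk3
  have hkE : 4 * E / 3 ≤ k := by linarith
  have hJ4 : 1 < (J : ℝ) / (4 * E) := by
    rw [lt_div_iff₀ (by linarith)]
    linarith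
  have hJk : (J : ℝ) / k ≤ 3 * J / (4 * E) := by
    rw [div_le_div_iff₀ (by linarith) (by linarith)]
    have hJ0 : (0 : ℝ) ≤ J := Nat.cast_nonneg J
    nlinarith
  have hcard : (Finset.range (J / k + 1)).card < P.card := by
    rw [Finset.card_range]
    have h1 : (((J / k : ℕ) : ℝ)) ≤ (J : ℝ) / k := Nat.cast_div_le
    have h2 : (J : ℝ) / E = 3 * J / (4 * E) + J / (4 * E) := by
      field_simp
      ring
    have h3 : (((J / k + 1 : ℕ) : ℝ)) < P.card := by
      push_cast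
      linarith
    exact_mod_cast h3
  obtain ⟨x, hx, y, hy, hxy, hf⟩ := Finset.exists_ne_map_eq_of_card_lt_of_maps_to hcard
    (f := fun j => j / k) (fun j hj => by
      have hjJ := Finset.mem_range.1 (hP hj)
      have h4 : j / k ≤ J / k := Nat.div_le_div_right hjJ.le
      simp only [Finset.coe_range, Set.mem_Iio]
      omega)
  have hdiff : ∀ u v : ℕ, u < v → u / k = v / k → ((v - u : ℕ) : ℝ) ≤ 2 * E := by
    intro u v _ huv'
    have h5 := Nat.div_add_mod u k
    have h6 := Nat.div_add_mod v k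
    have h7 := Nat.mod_lt v (show 0 < k by omega)
    rw [huv'] at h5
    have h8 : v - u ≤ k := by omega
    have h9 : ((v - u : ℕ) : ℝ) ≤ k := by exact_mod_cast h8
    linarith
  rcases lt_or_gt_of_ne hxy with hlt | hgt
  · exact ⟨x, hx, y, hy, hlt, hdiff x y hlt hf⟩
  · exact ⟨y, hy, x, hx, hgt, hdiff y x hgt hf.symm⟩

lemma ToInt_inj {M : ℕ} {x y : ℤ} (h : (x : ZMod M) = (y : ZMod M)) (hlt : |y - x| < M) :
    x = y := by
  have h1 := (ZMod.intCast_eq_intCast_iff_dvd_sub x y M).1 h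
  have h2 := Int.eq_zero_of_abs_lt_dvd h1 hlt
  omega

/-- BACK TO THE INTEGERS.  `A ⊆ [-L, L]` integers, `M` prime, `M > 8 J L + 2 J + 8 L + 2`, `w ≠ 0` in
`ZMod M` and the image `Ā` of `A` satisfies `|Ā + prog w J| ≤ E |Ā|`, `E ≥ 1`.  If `J ≤ 8 E` take
`d = 1`, `n = 1`.  Otherwise `many_returns` gives `b`, `j'`, `P` with `|P| ≥ J/E > 8`; for `j ∈ P`
pick `x_j = a - b ∈ ℤ` (`|x_j| ≤ 2L`) with `x_j ≡ (j' - j) w`.  Two elements `i < i'` of `P` have
`i' - i ≤ J/(|P| - 1) ≤ 2E` (pigeonhole); let `i₀ = i' - i`, `d = x_i - x_{i'} ≡ i₀ w`, `|d| ≤ 4L`.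
`d ≠ 0` because `i₀ w ≠ 0` (`0 < i₀ < M`); replace `d` by `|d|` if necessary (reflect the
progression: `prog (-d) n` is a translate of `prog d n`).  With `n = ⌊J / i₀⌋ ≥ J/(2E) - 1 ≥ J/(8E)`
the image of `prog d n` is contained in `prog w J` (as `j i₀ < J` for `j < n`, because
`n i₀ ≤ J`), and the cast is injective on `A + prog d n`. -/
theorem to_int (A : Finset ℤ) (hA : A.Nonempty) (L : ℕ) (hL : ∀ a ∈ A, |a| ≤ L) (J : ℕ)
    (hJ : 0 < J) (M : ℕ) (hM : M.Prime) (hML : 8 * J * L + 2 * J + 8 * L + 2 < M) (w : ZMod M)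
    (hw : w ≠ 0) {E : ℝ} (hE : 1 ≤ E)
    (h : ((A.image (fun a : ℤ => (a : ZMod M)) + prog w J).card : ℝ) ≤ E * A.card) :
    ∃ (d : ℤ) (n : ℕ), 0 < d ∧ 0 < n ∧ (J : ℝ) ≤ 8 * E * n ∧
      ((A + prog d n).card : ℝ) ≤ E * A.card := by
  classical
  have hE0 : 0 < E := by linarith
  by_cases hJE : (J : ℝ) ≤ 8 * E
  · refine ⟨1, 1, one_pos, one_pos, by simpa using hJE, ?_⟩
    have h1 : prog (1 : ℤ) 1 = {0} := by
      unfold prog
      simp
    have h2 : (A + prog (1 : ℤ) 1).card = A.card := by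
      rw [h1]
      simp
    rw [h2]
    have h3 : (0 : ℝ) ≤ A.card := Nat.cast_nonneg _
    nlinarith
  · rw [not_le] at hJE
    haveI := Fact.mk hM
    have hL' : ∀ a ∈ A, -(L : ℤ) ≤ a ∧ a ≤ L := fun a ha => abs_le.1 (hL a ha)
    have hJZ : (0 : ℤ) < J := by exact_mod_cast hJ
    have hMZ : (8 * J * L + 2 * J + 8 * L + 2 : ℤ) < M := by exact_mod_cast hML
    have hJL : (0 : ℤ) ≤ (J : ℤ) * L := by positivity
    have hcardA : (A.image (fun a : ℤ => (a : ZMod M))).card = A.card := by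
      apply Finset.card_image_of_injOn
      intro x hx y hy hxy
      refine ToInt_inj hxy ?_
      obtain ⟨hx1, hx2⟩ := hL' x hx
      obtain ⟨hy1, hy2⟩ := hL' y hy
      rw [abs_lt]
      constructor <;> nlinarith
    obtain ⟨b', hb', j', hj', P, hP, hPc, hPa⟩ := many_returns
      (A.image (fun a : ℤ => (a : ZMod M))) (hA.image _) w J hJ hE0 (by rw [hcardA]; exact h)
    obtain ⟨i, hi, i', hi', hii, hi0⟩ := ToInt_pigeon J hE hJE P hP hPc
    obtain ⟨a1', ha1', e1⟩ := hPa i hi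
    obtain ⟨a1, ha1, rfl⟩ := Finset.mem_image.1 ha1'
    obtain ⟨a2', ha2', e2⟩ := hPa i' hi'
    obtain ⟨a2, ha2, rfl⟩ := Finset.mem_image.1 ha2'
    have hiJ : i' < J := Finset.mem_range.1 (hP hi')
    set i0 := i' - i with hi0def
    have hi0pos : 0 < i0 := by omega
    have hi0J : i0 < J := by omega
    have hd : ((a1 - a2 : ℤ) : ZMod M) = i0 • w := by
      have e3 : ((a1 : ℤ) : ZMod M) + i • w = ((a2 : ℤ) : ZMod M) + i' • w := e1.trans e2.symm
      have e4 : i' • w = i0 • w + i • w := by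
        rw [← add_nsmul]
        congr 1
        omega
      rw [e4] at e3
      push_cast
      linear_combination e3
    have hd0 : a1 - a2 ≠ 0 := by
      intro h0
      rw [h0, Int.cast_zero, nsmul_eq_mul, eq_comm, mul_eq_zero] at hd
      rcases hd with hd | hd
      · rw [ZMod.natCast_eq_zero_iff] at hd
        have h5 := Nat.le_of_dvd hi0pos hd
        have h6 : J ≤ 8 * J * L + 2 * J + 8 * L + 2 := by
          have : 0 ≤ J * L := Nat.zero_le _
          nlinarith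
        omega
      · exact hw hd
    obtain ⟨ha11, ha12⟩ := hL' a1 ha1
    obtain ⟨ha21, ha22⟩ := hL' a2 ha2
    set d := a1 - a2 with hddef
    have hd1 : -(2 * L : ℤ) ≤ d := by omega
    have hd2 : d ≤ (2 * L : ℤ) := by omega
    set n := J / i0 with hn
    have hnpos : 0 < n := Nat.div_pos hi0J.le hi0pos
    have hnmul : n * i0 ≤ J := Nat.div_mul_le_self J i0
    have hnJ : n ≤ J := Nat.div_le_self J i0
    have hJn : (J : ℝ) ≤ 8 * E * n := by
      have h5 : i0 * n + J % i0 = J := Nat.div_add_mod J i0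
      have h6 := Nat.mod_lt J hi0pos
      have h7 : J ≤ i0 * (n + 1) := by
        rw [Nat.mul_add, mul_one]
        omega
      have h8 : (J : ℝ) ≤ (i0 : ℝ) * ((n : ℝ) + 1) := by exact_mod_cast h7
      have h9 : (1 : ℝ) ≤ n := by exact_mod_cast hnpos
      have h10 : (i0 : ℝ) * ((n : ℝ) + 1) ≤ 2 * E * ((n : ℝ) + 1) :=
        mul_le_mul_of_nonneg_right hi0 (by linarith)
      nlinarith
    have hsub : (A + prog d n).image (fun a : ℤ => (a : ZMod M)) ⊆
        A.image (fun a : ℤ => (a : ZMod M)) + prog w J := by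
      intro z hz
      obtain ⟨x, hx, rfl⟩ := Finset.mem_image.1 hz
      obtain ⟨a, ha, y, hy, rfl⟩ := Finset.mem_add.1 hx
      obtain ⟨j, hj, rfl⟩ := Finset.mem_image.1 hy
      rw [Finset.mem_range] at hj
      refine Finset.mem_add.2 ⟨(a : ZMod M), Finset.mem_image_of_mem _ ha, (j * i0) • w,
        Finset.mem_image.2 ⟨j * i0, Finset.mem_range.2 ?_, rfl⟩, ?_⟩
      · calc j * i0 < n * i0 := Nat.mul_lt_mul_of_pos_right hj hi0pos
          _ ≤ J := hnmul
      · have h5 : ((a + j • d : ℤ) : ZMod M) = (a : ZMod M) + j • ((d : ℤ) : ZMod M) := by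
          push_cast
          simp only [nsmul_eq_mul]
          push_cast
          ring
        rw [h5, hd, ← mul_nsmul']
    have hinj : Set.InjOn (fun a : ℤ => (a : ZMod M)) (A + prog d n : Finset ℤ) := by
      have hbd : ∀ x ∈ A + prog d n, -(L + J * (2 * L) : ℤ) ≤ x ∧ x ≤ (L + J * (2 * L) : ℤ) := by
        intro x hx
        obtain ⟨a, ha, y, hy, rfl⟩ := Finset.mem_add.1 hx
        obtain ⟨j, hj, rfl⟩ := Finset.mem_image.1 hy
        rw [Finset.mem_range] at hj
        obtain ⟨h5, h6⟩ := hL' a ha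
        have h7 : (j : ℤ) ≤ J := by exact_mod_cast (hj.le.trans hnJ)
        have h8 : (0 : ℤ) ≤ j := Int.natCast_nonneg j
        have h9 : (0 : ℤ) ≤ 2 * (L : ℤ) := by positivity
        have h10 : (j : ℤ) * (2 * L) ≤ J * (2 * L) := mul_le_mul_of_nonneg_right h7 h9
        have h11 : (j : ℤ) * d ≤ j * (2 * L) := mul_le_mul_of_nonneg_left hd2 h8
        have h12 : (j : ℤ) * (-(2 * L)) ≤ j * d := mul_le_mul_of_nonneg_left hd1 h8
        rw [nsmul_eq_mul]
        constructor <;> linarith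
      intro x hx y hy hxy
      obtain ⟨hx1, hx2⟩ := hbd x hx
      obtain ⟨hy1, hy2⟩ := hbd y hy
      refine ToInt_inj hxy ?_
      have hL0 : (0 : ℤ) ≤ L := Int.natCast_nonneg L
      rw [abs_lt]
      constructor <;> nlinarith
    have hkey : ((A + prog d n).card : ℝ) ≤ E * A.card := by
      rw [← Finset.card_image_of_injOn hinj]
      refine le_trans ?_ h
      exact_mod_cast Finset.card_le_card hsub
    rcases lt_or_gt_of_ne hd0 with hneg | hpos
    · refine ⟨-d, n, by omega, hnpos, hJn, le_trans ?_ hkey⟩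
      exact_mod_cast ToInt_refl A d n
    · exact ⟨d, n, hpos, hnpos, hJn, hkey⟩

end Pool.Agent.OSP
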