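import Pool.Agent.OSP_h95.Group
import Pool.Agent.OSP_h95.ToInt
import Pool.Agent.OSP_h95.Absorb

/-!
# The theorem in the integers
-/

set_option autoImplicit false

namespace Pool.Agent.OSP

open Finset Real Pool.Agent.QFR
open scoped Pointwise

/-- numerical part of `long_ap` -/
theorem long_ap_num {C₁ k x E L n : ℝ} {r : ℕ} (hC : 1 ≤ C₁) (hk : 1 ≤ k) (hx : 0 ≤ x)
    (hr : (x - C₁ * k ^ 2) / (C₁ * k) ≤ r + 1) (hE : E = 48 * exp (k + 2 * (C₁ * k)))
    (hn : (2 : ℝ) ^ r ≤ 8 * E * n) (hn0 : 0 < n) (hL : L = 2 * C₁ + 20) :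
    x / (L * k) - L * k ≤ Real.log n := by
  have hk0 : 0 < k := by linarith
  have hC0 : 0 < C₁ := by linarith
  have h1 := Real.log_le_log (by positivity) hn
  rw [Real.log_pow, hE, Real.log_mul (by positivity) hn0.ne', Real.log_mul (by norm_num)
    (by positivity), Real.log_mul (by norm_num) (by positivity), Real.log_exp] at h1
  have h8 : Real.log 8 + Real.log 48 ≤ 6.3 := by
    have e0 : Real.log 8 + Real.log 48 = Real.log 384 := by
      rw [← Real.log_mul (by norm_num) (by norm_num)]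
      norm_num
    have e1 : Real.log 384 ≤ Real.log ((2 : ℝ) ^ 9) :=
      Real.log_le_log (by norm_num) (by norm_num)
    rw [Real.log_pow] at e1
    have e2 := Real.log_two_lt_d9
    rw [e0]
    refine e1.trans ?_
    push_cast
    linarith
  have h2 : (x - C₁ * k ^ 2) / (C₁ * k) = x / (C₁ * k) - k := by field_simp
  rw [h2] at hr
  have hl := Real.log_two_gt_d9
  have hl2 := Real.log_two_lt_d9
  have h3 : x / (L * k) ≤ (1 / 2) * (x / (C₁ * k)) := by
    rw [hL]
    calc x / ((2 * C₁ + 20) * k) ≤ x / ((2 * C₁) * k) := by gcongr; linarith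
      _ = _ := by field_simp
  have hq : 0 ≤ x / (C₁ * k) := by positivity
  have h4 : (1 / 2) * (x / (C₁ * k)) - k - 1 ≤ r * Real.log 2 := by
    have h5 : (0 : ℝ) ≤ r := Nat.cast_nonneg r
    rcases le_total (x / (C₁ * k) - k - 1) 0 with h | h
    · have : (0 : ℝ) ≤ r * Real.log 2 := by positivity
      linarith
    · have h6 : (x / (C₁ * k) - k - 1) * Real.log 2 ≤ r * Real.log 2 := by
        gcongr; linarith
      nlinarith
  have h7 : L * k = 2 * (C₁ * k) + 20 * k := by rw [hL]; ring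
  linarith

/-- The theorem in the integers: a set with small doubling absorbs a long progression. -/
theorem long_ap : ∃ C : ℝ, 1 ≤ C ∧ ∀ (k : ℝ) (A : Finset ℤ), 1 ≤ k → A.Nonempty →
    ((A + A).card : ℝ) ≤ exp k * A.card →
    ∃ (d : ℤ) (n : ℕ), 0 < d ∧ 0 < n ∧ Real.log A.card / (C * k) - C * k ≤ Real.log n ∧
      ((A + prog d n).card : ℝ) ≤ exp (C * k) * A.card := by
  obtain ⟨C₁, hC₁, hG⟩ := group_step
  refine ⟨2 * C₁ + 20, by linarith, ?_⟩
  intro k A hk hA hAA
  have hk0 : 0 < k := by linarith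
  have hA0 : (0 : ℝ) < A.card := by exact_mod_cast hA.card_pos
  obtain ⟨x, hx⟩ : ∃ x, x = Real.log A.card := ⟨_, rfl⟩
  have hx0 : 0 ≤ x := by
    rw [hx]; exact Real.log_nonneg (by exact_mod_cast hA.card_pos)
  rcases le_or_gt x (C₁ * k ^ 2) with hsmall | hbig
  · refine ⟨1, 1, one_pos, one_pos, ?_, ?_⟩
    · rw [← hx, Nat.cast_one, Real.log_one, sub_nonpos, div_le_iff₀ (by positivity)]
      have h1 : (2 * C₁ + 20) * k * ((2 * C₁ + 20) * k) = (2 * C₁ + 20) ^ 2 * k ^ 2 := by ring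
      rw [h1]
      refine hsmall.trans ?_
      have h2 : C₁ ≤ (2 * C₁ + 20) ^ 2 := by nlinarith
      gcongr
    · have h1 : prog (1 : ℤ) 1 = {0} := by
        ext z
        simp [prog, eq_comm]
      rw [h1, Finset.card_add_singleton]
      have : 1 ≤ exp ((2 * C₁ + 20) * k) := Real.one_le_exp (by positivity)
      nlinarith
  -- the exponent
  obtain ⟨y, hy⟩ : ∃ y, y = (x - C₁ * k ^ 2) / (C₁ * k) := ⟨_, rfl⟩
  have hy0 : 0 < y := by
    rw [hy]
    have : 0 < x - C₁ * k ^ 2 := by linarith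
    positivity
  obtain ⟨r, hr⟩ : ∃ r : ℕ, r = ⌈y⌉₊ - 1 := ⟨_, rfl⟩
  have hceil : 0 < ⌈y⌉₊ := Nat.ceil_pos.2 hy0
  have hr1 : y ≤ r + 1 := by
    have h1 : ((r : ℝ) + 1) = (⌈y⌉₊ : ℝ) := by
      rw [hr]
      have : ⌈y⌉₊ - 1 + 1 = ⌈y⌉₊ := Nat.sub_add_cancel hceil
      exact_mod_cast this
    rw [h1]
    exact Nat.le_ceil y
  have hr2 : (r : ℝ) < y := by
    have h1 : r < ⌈y⌉₊ := by omega
    exact Nat.lt_ceil.1 h1
  have hr3 : C₁ * k * r + C₁ * k ^ 2 < x := by
    rw [hy, lt_div_iff₀ (by positivity)] at hr2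
    linarith
  -- bound for `A`
  obtain ⟨L, hL⟩ : ∃ L : ℕ, ∀ a ∈ A, |a| ≤ (L : ℤ) := by
    obtain ⟨L, hL⟩ := (A.image fun a => a.natAbs).bddAbove
    refine ⟨L, fun a ha => ?_⟩
    have h1 := hL (Finset.mem_coe.2 (Finset.mem_image_of_mem _ ha))
    rw [Int.abs_eq_natAbs]
    exact_mod_cast h1
  obtain ⟨M, hMle, hM⟩ := Nat.exists_infinite_primes (8 * 2 ^ r * L + 2 * 2 ^ r + 8 * L + 3)
  have : Fact M.Prime := ⟨hM⟩
  obtain ⟨A', hA'⟩ : ∃ A' : Finset (ZMod M), A' = A.image (fun a : ℤ => (a : ZMod M)) := ⟨_, rfl⟩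
  have hinj : Set.InjOn (fun a : ℤ => (a : ZMod M)) (A : Set ℤ) := by
    intro a ha b hb hab
    have h1 : ((a - b : ℤ) : ZMod M) = 0 := by
      push_cast
      exact sub_eq_zero.2 hab
    rw [ZMod.intCast_zmod_eq_zero_iff_dvd] at h1
    by_contra hne
    have h2 := Int.le_of_dvd (abs_pos.2 (sub_ne_zero.2 hne)) ((dvd_abs _ _).2 h1)
    have h3 : |a - b| ≤ |a| + |b| := abs_sub a b
    have h4 := hL a (Finset.mem_coe.1 ha)
    have h5 := hL b (Finset.mem_coe.1 hb)
    have h6 : (2 * L : ℤ) < M := by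
      have : 2 * L < M := by
        have : 0 ≤ 8 * 2 ^ r * L + 2 * 2 ^ r := Nat.zero_le _
        omega
      exact_mod_cast this
    linarith
  have hcard : A'.card = A.card := by rw [hA']; exact Finset.card_image_of_injOn hinj
  have hA'ne : A'.Nonempty := by rw [hA']; exact hA.image _
  have hadd : ((A' + A').card : ℝ) ≤ exp k * A'.card := by
    have h1 : A' + A' = (A + A).image (fun a : ℤ => (a : ZMod M)) := by
      rw [hA']
      exact (Finset.image_add (Int.castRingHom (ZMod M))).symm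
    rw [hcard, h1]
    refine le_trans ?_ hAA
    exact_mod_cast Finset.card_image_le
  have hsub : ((A' - A').card : ℝ) ≤ exp (2 * k) * A'.card := by
    have h1 := Finset.ruzsa_triangle_inequality_sub_add_add A' A' A'
    have h2 : ((A' - A').card : ℝ) * A'.card ≤ (A' + A').card * (A' + A').card := by
      exact_mod_cast h1
    have hA'0 : (0 : ℝ) < A'.card := by rw [hcard]; exact hA0
    have h3 : ((A' - A').card : ℝ) * A'.card ≤ (exp (2 * k) * A'.card) * A'.card := by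
      calc _ ≤ _ := h2
        _ ≤ (exp k * A'.card) * (exp k * A'.card) := by gcongr
        _ = _ := by
          rw [two_mul, Real.exp_add]
          ring
    exact le_of_mul_le_mul_right h3 hA'0
  obtain ⟨w, hw, hH⟩ := hG (ZMod M) A' hA'ne k r hk hadd hsub (by rw [hcard, ← hx]; exact hr3)
  have hprog : (prog w (2 ^ r)).card = 2 ^ r := by
    unfold prog
    rw [Finset.card_image_of_injOn, Finset.card_range]
    intro i hi j hj hij
    rw [Finset.coe_range, Set.mem_Iio] at hi hj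
    have h1 : (i : ZMod M) * w = (j : ZMod M) * w := by
      simpa [nsmul_eq_mul] using hij
    have h2 := mul_right_cancel₀ hw h1
    have hMlt : 2 ^ r < M := by
      have : 0 ≤ 8 * 2 ^ r * L := Nat.zero_le _
      omega
    rw [ZMod.natCast_eq_natCast_iff'] at h2
    rwa [Nat.mod_eq_of_lt (hi.trans hMlt), Nat.mod_eq_of_lt (hj.trans hMlt)] at h2
  have habs := absorb A' hA'ne w r (c := C₁ * k) (by positivity) hprog hadd hH
  obtain ⟨E, hE⟩ : ∃ E : ℝ, E = 48 * exp (k + 2 * (C₁ * k)) := ⟨_, rfl⟩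
  have hE1 : 1 ≤ E := by
    have : 1 ≤ exp (k + 2 * (C₁ * k)) := Real.one_le_exp (by positivity)
    rw [hE]; linarith
  rw [← hE, hcard, hA'] at habs
  obtain ⟨d, n, hd, hn, hJn, hfin⟩ := to_int A hA L hL (2 ^ r) (by positivity) M hM (by omega) w hw
    hE1 habs
  refine ⟨d, n, hd, hn, ?_, ?_⟩
  · rw [← hx]
    refine long_ap_num hC₁ hk hx0 (by rw [← hy]; exact hr1) hE ?_ (by exact_mod_cast hn) rfl
    exact_mod_cast hJn
  · refine hfin.trans ?_
    have h1 : E ≤ exp ((2 * C₁ + 20) * k) := by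
      have h2 : (48 : ℝ) ≤ exp 4 := by
        have := Real.exp_one_gt_d9
        calc (48 : ℝ) ≤ 2.7182818283 ^ 4 := by norm_num
          _ ≤ exp 1 ^ 4 := by gcongr
          _ = exp 4 := by rw [← Real.exp_nat_mul]; norm_num
      rw [hE]
      calc 48 * exp (k + 2 * (C₁ * k)) ≤ exp 4 * exp (k + 2 * (C₁ * k)) := by gcongr
        _ = exp (4 + (k + 2 * (C₁ * k))) := (Real.exp_add _ _).symm
        _ ≤ _ := Real.exp_le_exp.2 (by nlinarith)
    gcongr

end Pool.Agent.OSP
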