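import Pool.Agent.OSP_h95.LongAP

/-!
The one-dimensional case of the polynomial Freiman-Ruzsa covering over the integers, with
polynomial constants: a finite set `A` of integers with `|A + A| ≤ K |A|` is covered by at most
`C K ^ C |A| / n` translates of a symmetric progression `{j d : |j| < n}`, where
`log n ≥ log |A| / (C (1 + log K)) - C (1 + log K)`.

The proof is in `Pool/Agent/OSP_h95`.
-/

set_option autoImplicit false

namespace Pool.Agent.Results.MP_626a77_co.LongProgression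

open Finset Real
open scoped Pointwise

/-- There is an absolute constant `C` such that every finite nonempty set `A` of integers with
`|A + A| ≤ K |A|` is covered by at most `C K ^ C |A| / n` translates of a symmetric arithmetic
progression `{j d : |j| < n}` with `log n ≥ log |A| / (C (1 + log K)) - C (1 + log K)`. -/
theorem result : ∃ C : ℝ, 0 < C ∧ ∀ (K : ℝ) (A : Finset ℤ), A.Nonempty →
    ((A + A).card : ℝ) ≤ K * A.card →
    ∃ (d : ℤ) (n : ℕ) (T : Finset ℤ), 0 < d ∧ 0 < n ∧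
      Real.log A.card / (C * (1 + Real.log K)) - C * (1 + Real.log K) ≤ Real.log n ∧
      (T.card : ℝ) * n ≤ C * K ^ C * A.card ∧
      ∀ a ∈ A, ∃ t ∈ T, ∃ j : ℤ, |j| < n ∧ a = t + d * j := by
  obtain ⟨C₀, hC₀, hL⟩ := Pool.Agent.OSP.long_ap
  have hC₀0 : 0 < C₀ := by linarith
  obtain ⟨C, hC⟩ : ∃ C : ℝ, C = Real.exp C₀ := ⟨_, rfl⟩
  have hCC₀ : C₀ ≤ C := by
    have := Real.add_one_le_exp C₀
    rw [hC]; linarith
  have hC0 : 0 < C := by linarith
  refine ⟨C, hC0, ?_⟩
  intro K A hA hAA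
  have hA0 : (0 : ℝ) < A.card := by exact_mod_cast hA.card_pos
  have hAA1 : (A.card : ℝ) ≤ (A + A).card := by
    exact_mod_cast Finset.card_le_card_add_right hA
  have hK1 : 1 ≤ K := by
    have h : (1 : ℝ) * A.card ≤ K * A.card := by linarith
    exact le_of_mul_le_mul_right h hA0
  have hK0 : 0 < K := by linarith
  have hlogK : 0 ≤ Real.log K := Real.log_nonneg hK1
  obtain ⟨k, hk⟩ : ∃ k : ℝ, k = 1 + Real.log K := ⟨_, rfl⟩
  have hk1 : 1 ≤ k := by linarith
  have hk0 : 0 < k := by linarith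
  have hKe : K ≤ Real.exp k := by
    rw [hk, Real.exp_add, Real.exp_log hK0]
    have : 1 ≤ Real.exp 1 := Real.one_le_exp zero_le_one
    nlinarith
  obtain ⟨d, n, hd, hn, hlog, habs⟩ := hL k A hk1 hA (hAA.trans (by gcongr))
  obtain ⟨Q, hQ⟩ : ∃ Q, Q = Pool.Agent.OSP.prog d n := ⟨_, rfl⟩
  rw [← hQ] at habs
  have hQmem : ∀ z, z ∈ Q ↔ ∃ j : ℕ, j < n ∧ j • d = z := by
    intro z
    rw [hQ]
    simp [Pool.Agent.OSP.prog]
  have hQcard : Q.card = n := by
    rw [hQ]
    unfold Pool.Agent.OSP.prog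
    rw [Finset.card_image_of_injective, Finset.card_range]
    intro i j hij
    have h1 : (i : ℤ) * d = (j : ℤ) * d := by simpa using hij
    exact_mod_cast mul_right_cancel₀ hd.ne' h1
  have hQne : Q.Nonempty := by rw [← Finset.card_pos, hQcard]; exact hn
  have hcov : ((A + Q).card : ℝ) ≤ (Real.exp (C₀ * k) * A.card / n) * Q.card := by
    rw [hQcard]
    have : (0 : ℝ) < n := by exact_mod_cast hn
    rw [div_mul_cancel₀ _ this.ne']
    exact habs
  obtain ⟨T, hTA, hTcard, hTcov⟩ := Finset.ruzsa_covering_add hQne hcov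
  refine ⟨d, n, T, hd, hn, ?_, ?_, ?_⟩
  · refine le_trans ?_ hlog
    rw [← hk]
    have h1 : Real.log A.card / (C * k) ≤ Real.log A.card / (C₀ * k) := by
      have : 0 ≤ Real.log A.card := Real.log_nonneg (by exact_mod_cast hA.card_pos)
      gcongr
    have h2 : C₀ * k ≤ C * k := by gcongr
    linarith
  · have hnr : (0 : ℝ) < n := by exact_mod_cast hn
    have h1 : (T.card : ℝ) * n ≤ Real.exp (C₀ * k) * A.card := by
      rwa [le_div_iff₀ hnr] at hTcard
    refine h1.trans ?_
    have h2 : Real.exp (C₀ * k) ≤ C * K ^ C := by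
      rw [hk, mul_add, mul_one, Real.exp_add, ← hC, mul_comm C₀, ← Real.rpow_def_of_pos hK0]
      gcongr
    gcongr
  · intro a ha
    have h1 := hTcov ha
    obtain ⟨t, ht, z, hz, h2⟩ := Finset.mem_add.1 h1
    obtain ⟨q₁, hq₁, q₂, hq₂, h3⟩ := Finset.mem_sub.1 hz
    obtain ⟨i, hi, h4⟩ := (hQmem _).1 hq₁
    obtain ⟨j, hj, h5⟩ := (hQmem _).1 hq₂
    refine ⟨t, ht, (i : ℤ) - j, ?_, ?_⟩
    · rw [abs_lt]
      constructor <;> omega
    · rw [← h2, ← h3, ← h4, ← h5]
      simp only [nsmul_eq_mul]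
      ring

end Pool.Agent.Results.MP_626a77_co.LongProgression
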