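import Mathlib

/-!
# Multilinear functions of cosines
-/

set_option autoImplicit false

namespace Pool.Agent.OSP

open Finset Real

/-- the sign of a bit -/
def sg (b : Bool) : ℝ := if b then 1 else -1

/-- probability of the bits `û` when the bits are independent with means `cos (θ b)` -/
noncomputable def bw {n : ℕ} (θ : Fin n → ℝ) (û : Fin n → Bool) : ℝ :=
  ∏ b, (1 + sg (û b) * cos (θ b)) / 2

/-- expectation of `g` when the bits are independent with means `cos (θ b)` -/
noncomputable def MA {n : ℕ} (g : (Fin n → Bool) → ℝ) (θ : Fin n → ℝ) : ℝ :=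
  ∑ û : Fin n → Bool, g û * bw θ û

theorem bw_nonneg {n : ℕ} (θ : Fin n → ℝ) (û : Fin n → Bool) : 0 ≤ bw θ û := by
  refine prod_nonneg fun b _ => ?_
  have h1 := neg_one_le_cos (θ b)
  have h2 := cos_le_one (θ b)
  cases û b
  · simp only [sg, Bool.false_eq_true, if_false]
    linarith
  · simp only [sg, if_true]
    linarith

theorem MA_sum_prod {n : ℕ} (f : Fin n → Bool → ℝ) :
    ∑ û : Fin n → Bool, ∏ b, f b (û b) = ∏ b, (f b true + f b false) := by
  have h := (Finset.prod_univ_sum (fun _ : Fin n => (univ : Finset Bool)) f).symm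
  rw [Fintype.piFinset_univ] at h
  rw [h]
  refine prod_congr rfl fun b _ => ?_
  rw [Fintype.sum_bool]

/-- `Finset.prod_univ_sum` (or induction) -/
theorem sum_bw {n : ℕ} (θ : Fin n → ℝ) : ∑ û : Fin n → Bool, bw θ û = 1 := by
  have h := MA_sum_prod (fun (b : Fin n) (s : Bool) => (1 + sg s * cos (θ b)) / 2)
  unfold bw
  rw [h]
  refine prod_eq_one fun b _ => ?_
  simp only [sg, Bool.false_eq_true, if_false, if_true]
  ring

/-- the mean of one bit; same computation as `sum_bw` with one modified factor (or induction) -/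
theorem sum_sg_bw {n : ℕ} (θ : Fin n → ℝ) (b : Fin n) :
    ∑ û : Fin n → Bool, sg (û b) * bw θ û = cos (θ b) := by
  have h := MA_sum_prod (fun (c : Fin n) (s : Bool) =>
    (if c = b then sg s else 1) * ((1 + sg s * cos (θ c)) / 2))
  have h2 : ∀ û : Fin n → Bool, sg (û b) * bw θ û =
      ∏ c, ((if c = b then sg (û c) else 1) * ((1 + sg (û c) * cos (θ c)) / 2)) := by
    intro û
    rw [prod_mul_distrib, Finset.prod_ite_eq' univ b (fun c => sg (û c))]
    simp [bw]
  rw [sum_congr rfl fun û _ => h2 û, h]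
  rw [← mul_prod_erase univ _ (mem_univ b)]
  have h3 : ∏ c ∈ univ.erase b, ((if c = b then sg true else 1) * ((1 + sg true * cos (θ c)) / 2) +
      (if c = b then sg false else 1) * ((1 + sg false * cos (θ c)) / 2)) = 1 := by
    refine prod_eq_one fun c hc => ?_
    rw [if_neg (ne_of_mem_erase hc), if_neg (ne_of_mem_erase hc)]
    simp only [sg, Bool.false_eq_true, if_false, if_true]
    ring
  rw [h3]
  simp only [sg, Bool.false_eq_true, if_false, if_true]
  ring

/-- adding the last bit -/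
theorem bw_snoc {n : ℕ} (θ : Fin (n + 1) → ℝ) (û : Fin n → Bool) (s : Bool) :
    bw θ (Fin.snoc (α := fun _ => Bool) û s) =
      bw (fun b => θ b.castSucc) û * ((1 + sg s * cos (θ (Fin.last n))) / 2) := by
  unfold bw
  rw [Fin.prod_univ_castSucc]
  simp only [Fin.snoc_castSucc, Fin.snoc_last]

/-- sums over `n + 1` bits -/
theorem sum_snoc {n : ℕ} (F : (Fin (n + 1) → Bool) → ℝ) :
    ∑ û : Fin (n + 1) → Bool, F û = ∑ û : Fin n → Bool,
      (F (Fin.snoc (α := fun _ => Bool) û true) + F (Fin.snoc (α := fun _ => Bool) û false)) := by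
  rw [← (Fin.snocEquiv (fun _ : Fin (n + 1) => Bool)).sum_comp F, Fintype.sum_prod_type_right]
  refine sum_congr rfl fun û _ => ?_
  rw [Fintype.sum_bool]
  rfl

/-- `|MA g θ| ≤ 1` -/
theorem abs_MA_le {n : ℕ} (g : (Fin n → Bool) → ℝ) (hg : ∀ û, |g û| ≤ 1) (θ : Fin n → ℝ) :
    |MA g θ| ≤ 1 := by
  unfold MA
  refine (abs_sum_le_sum_abs _ _).trans ?_
  rw [← sum_bw θ]
  refine sum_le_sum fun û _ => ?_
  rw [abs_mul, abs_of_nonneg (bw_nonneg θ û)]
  exact mul_le_of_le_one_left (bw_nonneg θ û) (hg û)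

end Pool.Agent.OSP
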