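import Pool.Agent.OSP_h95.MA

/-!
# Linearisation of multilinear functions of cosines
-/

set_option autoImplicit false

namespace Pool.Agent.OSP

open Finset Real

theorem MAlin_core (h : ℝ) : (cos h - 1) ^ 2 + (sin h - h) ^ 2 ≤ (h ^ 2 / 2) ^ 2 := by
  have key : ∀ x : ℝ, 0 ≤ x → (cos x - 1) ^ 2 + (sin x - x) ^ 2 ≤ (x ^ 2 / 2) ^ 2 := by
    let F : ℝ → ℝ := fun x => (x ^ 2 / 2) ^ 2 - ((cos x - 1) ^ 2 + (sin x - x) ^ 2)
    have hd : ∀ x : ℝ, HasDerivAt F (x * (x ^ 2 - 2 * (1 - cos x))) x := by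
      intro x
      have h1 : HasDerivAt (fun x : ℝ => (x ^ 2 / 2) ^ 2) (x ^ 3) x := by
        have := ((hasDerivAt_pow 2 x).div_const 2).pow 2
        refine this.congr_deriv ?_
        norm_num
        ring
      have h2 : HasDerivAt (fun x : ℝ => (cos x - 1) ^ 2) (2 * (cos x - 1) * (-sin x)) x := by
        have := ((Real.hasDerivAt_cos x).sub_const 1).pow 2
        refine this.congr_deriv ?_
        norm_num
      have h3 : HasDerivAt (fun x : ℝ => (sin x - x) ^ 2) (2 * (sin x - x) * (cos x - 1)) x := by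
        have := ((Real.hasDerivAt_sin x).sub (hasDerivAt_id x)).pow 2
        refine this.congr_deriv ?_
        simp
      have := h1.sub (h2.add h3)
      refine this.congr_deriv ?_
      ring
    have hm : MonotoneOn F (Set.Ici 0) := by
      apply monotoneOn_of_deriv_nonneg (convex_Ici 0)
      · exact fun x _ => (hd x).continuousAt.continuousWithinAt
      · exact fun x _ => (hd x).differentiableAt.differentiableWithinAt
      · intro x hx
        rw [interior_Ici] at hx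
        rw [(hd x).deriv]
        have h1 := Real.one_sub_sq_div_two_le_cos (x := x)
        have h2 : 0 ≤ x ^ 2 - 2 * (1 - cos x) := by linarith
        exact mul_nonneg (le_of_lt hx) h2
    intro x hx
    have := hm (Set.mem_Ici.2 le_rfl) (Set.mem_Ici.2 hx) hx
    simp only [F] at this
    simp at this
    linarith
  rcases le_total 0 h with hh | hh
  · exact key h hh
  · have := key (-h) (by linarith)
    rw [Real.cos_neg, Real.sin_neg] at this
    nlinarith [this]

theorem MAlin_abs_comb (a b x y : ℝ) (hab : a ^ 2 + b ^ 2 = 1) (c : ℝ) (hc : 0 ≤ c)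
    (h : x ^ 2 + y ^ 2 ≤ c ^ 2) : |a * x + b * y| ≤ c := by
  apply abs_le_of_sq_le_sq _ hc
  nlinarith [sq_nonneg (a * y - b * x), sq_nonneg x, sq_nonneg y]

theorem MAlin_cos (x y : ℝ) : |cos y - cos x + sin x * (y - x)| ≤ (y - x) ^ 2 / 2 := by
  have h := MAlin_core (y - x)
  have h2 := MAlin_abs_comb (cos x) (-sin x) (cos (y - x) - 1) (sin (y - x) - (y - x))
    (by have := Real.sin_sq_add_cos_sq x; nlinarith) ((y - x) ^ 2 / 2) (by positivity) h
  have e : cos y = cos x * cos (y - x) - sin x * sin (y - x) := by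
    rw [← Real.cos_add]; congr 1; ring
  rw [e]
  convert h2 using 2
  ring

theorem MAlin_sin (x y : ℝ) : |sin y - sin x - cos x * (y - x)| ≤ (y - x) ^ 2 / 2 := by
  have h := MAlin_core (y - x)
  have h2 := MAlin_abs_comb (sin x) (cos x) (cos (y - x) - 1) (sin (y - x) - (y - x))
    (by have := Real.sin_sq_add_cos_sq x; nlinarith) ((y - x) ^ 2 / 2) (by positivity) h
  have e : sin y = sin x * cos (y - x) + cos x * sin (y - x) := by
    rw [← Real.sin_add]; congr 1; ring
  rw [e]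
  convert h2 using 2
  ring

theorem MAlin_cos_lip (x y : ℝ) : |cos y - cos x| ≤ |y - x| := by
  have := Real.lipschitzWith_cos.dist_le_mul y x
  simpa [Real.dist_eq] using this

theorem MAlin_sin_lip (x y : ℝ) : |sin y - sin x| ≤ |y - x| := by
  have := Real.lipschitzWith_sin.dist_le_mul y x
  simpa [Real.dist_eq] using this

theorem MAlin_succ {n : ℕ} (g : (Fin (n + 1) → Bool) → ℝ) (θ : Fin (n + 1) → ℝ) :
    MA g θ = (1 + cos (θ (Fin.last n))) / 2 *
        MA (fun û => g (Fin.snoc (α := fun _ => Bool) û true)) (fun b => θ b.castSucc) +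
      (1 - cos (θ (Fin.last n))) / 2 *
        MA (fun û => g (Fin.snoc (α := fun _ => Bool) û false)) (fun b => θ b.castSucc) := by
  unfold MA
  rw [sum_snoc, Finset.mul_sum, Finset.mul_sum, ← Finset.sum_add_distrib]
  refine Finset.sum_congr rfl fun û _ => ?_
  rw [bw_snoc, bw_snoc]
  simp only [sg, if_true, Bool.false_eq_true, if_false]
  ring

/-- LINEARISATION OF MULTILINEAR FUNCTIONS OF COSINES.  Induction on `n`; for `n = 0` the function
is constant.  Step: with `p± = (1 ± cos θ_n)/2` and `G± = MA g±` (the last bit fixed), `G = p+ G+ +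
p- G-`.  Put `γ_b = p+ γ+_b + p- γ-_b` (`b < n`) and `γ_n = -sin θ_n (G+ - G-)/2` (values at `θ`).
* norm: `Σ_{b<n} γ_b² ≤ Σ p± Σ (γ±_b)²` (convexity) and
  `G² + γ_n² = (p+ G+ + p- G-)² + (1 - cos² θ_n)/4 (G+ - G-)² = p+ G+² + p- G-²`.
* with `Δ_b = θ'_b - θ_b`, `S = Σ_{b<n} |Δ_b|`:
  `G(θ') - G(θ) = Σ p±(θ) (G±(θ') - G±(θ)) + (cos θ'_n - cos θ_n)/2 (G+(θ') - G-(θ'))`.
  The Lipschitz bound follows (`|G+ - G-| ≤ 2`, `|cos θ'_n - cos θ_n| ≤ |Δ_n|`).  For the
  linearisation the error is at most `S²/2 + |Δ_n| S + Δ_n²/2 = (S + |Δ_n|)²/2`, using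
  `|(G+ - G-)(θ') - (G+ - G-)(θ)| ≤ 2 S` and `|cos θ' - cos θ + sin θ Δ| ≤ Δ²/2`. -/
theorem MA_lin {n : ℕ} (g : (Fin n → Bool) → ℝ) (hg : ∀ û, |g û| ≤ 1) (θ : Fin n → ℝ) :
    ∃ γ : Fin n → ℝ, MA g θ ^ 2 + ∑ b, γ b ^ 2 ≤ 1 ∧ ∀ θ' : Fin n → ℝ,
      |MA g θ' - MA g θ - ∑ b, γ b * (θ' b - θ b)| ≤ (∑ b, |θ' b - θ b|) ^ 2 / 2 ∧
      |MA g θ' - MA g θ| ≤ ∑ b, |θ' b - θ b| := by
  induction n with
  | zero =>
    refine ⟨0, ?_, fun θ' => ?_⟩
    · simp only [Finset.univ_eq_empty, Finset.sum_empty, add_zero]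
      have := abs_MA_le g hg θ
      have h2 := abs_le.1 this
      nlinarith
    · have : θ' = θ := Subsingleton.elim _ _
      subst this
      simp
  | succ n ih =>
    set gp : (Fin n → Bool) → ℝ := fun û => g (Fin.snoc (α := fun _ => Bool) û true) with hgp
    set gm : (Fin n → Bool) → ℝ := fun û => g (Fin.snoc (α := fun _ => Bool) û false) with hgm
    have hgp1 : ∀ û, |gp û| ≤ 1 := fun û => hg _
    have hgm1 : ∀ û, |gm û| ≤ 1 := fun û => hg _
    obtain ⟨γ1, hn1, hl1⟩ := ih gp hgp1 (fun b => θ b.castSucc)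
    obtain ⟨γ2, hn2, hl2⟩ := ih gm hgm1 (fun b => θ b.castSucc)
    set c := cos (θ (Fin.last n)) with hc
    set s := sin (θ (Fin.last n)) with hs
    have hcs : s ^ 2 + c ^ 2 = 1 := Real.sin_sq_add_cos_sq _
    have hc1 : -1 ≤ c := Real.neg_one_le_cos _
    have hc2 : c ≤ 1 := Real.cos_le_one _
    set A := MA gp (fun b => θ b.castSucc) with hA
    set B := MA gm (fun b => θ b.castSucc) with hB
    have hA1 : |A| ≤ 1 := abs_MA_le gp hgp1 _
    have hB1 : |B| ≤ 1 := abs_MA_le gm hgm1 _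
    have hmain : MA g θ = (1 + c) / 2 * A + (1 - c) / 2 * B := MAlin_succ g θ
    refine ⟨Fin.snoc (α := fun _ => ℝ) (fun b => (1 + c) / 2 * γ1 b + (1 - c) / 2 * γ2 b)
      (-s * (A - B) / 2), ?_, fun θ' => ?_⟩
    · rw [Fin.sum_univ_castSucc]
      simp only [Fin.snoc_castSucc, Fin.snoc_last]
      have hconv : ∑ b, ((1 + c) / 2 * γ1 b + (1 - c) / 2 * γ2 b) ^ 2 ≤
          (1 + c) / 2 * ∑ b, γ1 b ^ 2 + (1 - c) / 2 * ∑ b, γ2 b ^ 2 := by
        rw [Finset.mul_sum, Finset.mul_sum, ← Finset.sum_add_distrib]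
        refine Finset.sum_le_sum fun b _ => ?_
        nlinarith [mul_nonneg (mul_nonneg (by linarith : (0:ℝ) ≤ (1 + c) / 2)
          (by linarith : (0:ℝ) ≤ (1 - c) / 2)) (sq_nonneg (γ1 b - γ2 b))]
      rw [hmain]
      have e : ((1 + c) / 2 * A + (1 - c) / 2 * B) ^ 2 + (-s * (A - B) / 2) ^ 2 =
          (1 + c) / 2 * A ^ 2 + (1 - c) / 2 * B ^ 2 := by
        have : s ^ 2 = 1 - c ^ 2 := by linarith
        calc _ = ((1 + c) / 2 * A + (1 - c) / 2 * B) ^ 2 + s ^ 2 * (A - B) ^ 2 / 4 := by ring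
          _ = _ := by rw [this]; ring
      have e1 : (1 + c) / 2 * (A ^ 2 + ∑ b, γ1 b ^ 2) ≤ (1 + c) / 2 * 1 :=
        mul_le_mul_of_nonneg_left hn1 (by linarith)
      have e2 : (1 - c) / 2 * (B ^ 2 + ∑ b, γ2 b ^ 2) ≤ (1 - c) / 2 * 1 :=
        mul_le_mul_of_nonneg_left hn2 (by linarith)
      linarith
    · obtain ⟨hq1, hr1⟩ := hl1 (fun b => θ' b.castSucc)
      obtain ⟨hq2, hr2⟩ := hl2 (fun b => θ' b.castSucc)
      rw [Fin.sum_univ_castSucc, Fin.sum_univ_castSucc]
      simp only [Fin.snoc_castSucc, Fin.snoc_last]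
      have hmain' : MA g θ' = (1 + cos (θ' (Fin.last n))) / 2 *
          MA gp (fun b => θ' b.castSucc) + (1 - cos (θ' (Fin.last n))) / 2 *
          MA gm (fun b => θ' b.castSucc) := MAlin_succ g θ'
      have hcl := MAlin_cos_lip (θ (Fin.last n)) (θ' (Fin.last n))
      have hcq := MAlin_cos (θ (Fin.last n)) (θ' (Fin.last n))
      rw [← hc] at hcl hcq
      rw [← hs] at hcq
      set c' := cos (θ' (Fin.last n)) with hc'
      set A' := MA gp (fun b => θ' b.castSucc) with hA'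
      set B' := MA gm (fun b => θ' b.castSucc) with hB'
      have hA1' : |A'| ≤ 1 := abs_MA_le gp hgp1 _
      have hB1' : |B'| ≤ 1 := abs_MA_le gm hgm1 _
      set S := ∑ b : Fin n, |θ' b.castSucc - θ b.castSucc| with hS
      have hS0 : 0 ≤ S := Finset.sum_nonneg fun _ _ => abs_nonneg _
      set Δ := θ' (Fin.last n) - θ (Fin.last n) with hΔ
      set T1 := ∑ b : Fin n, γ1 b * (θ' b.castSucc - θ b.castSucc) with hT1
      set T2 := ∑ b : Fin n, γ2 b * (θ' b.castSucc - θ b.castSucc) with hT2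
      have hT : ∑ b : Fin n, ((1 + c) / 2 * γ1 b + (1 - c) / 2 * γ2 b) *
          (θ' b.castSucc - θ b.castSucc) = (1 + c) / 2 * T1 + (1 - c) / 2 * T2 := by
        rw [hT1, hT2, Finset.mul_sum, Finset.mul_sum, ← Finset.sum_add_distrib]
        refine Finset.sum_congr rfl fun b _ => ?_
        ring
      rw [hT, hmain, hmain']
      have hp0 : (0:ℝ) ≤ (1 + c) / 2 := by linarith
      have hm0 : (0:ℝ) ≤ (1 - c) / 2 := by linarith
      have hΔ0 := abs_nonneg Δ
      constructor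
      · have e : (1 + c') / 2 * A' + (1 - c') / 2 * B' - ((1 + c) / 2 * A + (1 - c) / 2 * B) -
            ((1 + c) / 2 * T1 + (1 - c) / 2 * T2 + -s * (A - B) / 2 * Δ) =
            (1 + c) / 2 * (A' - A - T1) + (1 - c) / 2 * (B' - B - T2) +
            (c' - c) / 2 * ((A' - A) - (B' - B)) + (c' - c + s * Δ) / 2 * (A - B) := by ring
        rw [e]
        have b1 : |(1 + c) / 2 * (A' - A - T1)| ≤ (1 + c) / 2 * (S ^ 2 / 2) := by
          rw [abs_mul, abs_of_nonneg hp0]
          exact mul_le_mul_of_nonneg_left hq1 hp0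
        have b2 : |(1 - c) / 2 * (B' - B - T2)| ≤ (1 - c) / 2 * (S ^ 2 / 2) := by
          rw [abs_mul, abs_of_nonneg hm0]
          exact mul_le_mul_of_nonneg_left hq2 hm0
        have b3 : |(c' - c) / 2 * ((A' - A) - (B' - B))| ≤ |Δ| * S := by
          rw [abs_mul, abs_div, abs_two]
          have h1 : |(A' - A) - (B' - B)| ≤ 2 * S := by
            calc _ ≤ |A' - A| + |B' - B| := abs_sub _ _
              _ ≤ S + S := add_le_add hr1 hr2
              _ = _ := by ring
          calc |c' - c| / 2 * |(A' - A) - (B' - B)| ≤ |Δ| / 2 * (2 * S) :=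
                mul_le_mul (by linarith) h1 (abs_nonneg _) (by linarith)
            _ = _ := by ring
        have b4 : |(c' - c + s * Δ) / 2 * (A - B)| ≤ Δ ^ 2 / 2 := by
          rw [abs_mul, abs_div, abs_two]
          have h1 : |A - B| ≤ 2 := by
            calc _ ≤ |A| + |B| := abs_sub _ _
              _ ≤ 2 := by linarith
          calc |c' - c + s * Δ| / 2 * |A - B| ≤ (Δ ^ 2 / 2) / 2 * 2 :=
                mul_le_mul (by linarith) h1 (abs_nonneg _) (by positivity)
            _ = _ := by ring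
        have hΔ2 : Δ ^ 2 = |Δ| ^ 2 := (sq_abs Δ).symm
        calc _ ≤ |(1 + c) / 2 * (A' - A - T1)| + |(1 - c) / 2 * (B' - B - T2)| +
              |(c' - c) / 2 * ((A' - A) - (B' - B))| + |(c' - c + s * Δ) / 2 * (A - B)| := by
                refine (abs_add_le _ _).trans (add_le_add ?_ le_rfl)
                refine (abs_add_le _ _).trans (add_le_add ?_ le_rfl)
                exact abs_add_le _ _
          _ ≤ (1 + c) / 2 * (S ^ 2 / 2) + (1 - c) / 2 * (S ^ 2 / 2) + |Δ| * S + Δ ^ 2 / 2 := by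
                linarith
          _ = _ := by rw [hΔ2]; ring
      · have e : (1 + c') / 2 * A' + (1 - c') / 2 * B' - ((1 + c) / 2 * A + (1 - c) / 2 * B) =
            (1 + c) / 2 * (A' - A) + (1 - c) / 2 * (B' - B) + (c' - c) / 2 * (A' - B') := by ring
        rw [e]
        have b1 : |(1 + c) / 2 * (A' - A)| ≤ (1 + c) / 2 * S := by
          rw [abs_mul, abs_of_nonneg hp0]
          exact mul_le_mul_of_nonneg_left hr1 hp0
        have b2 : |(1 - c) / 2 * (B' - B)| ≤ (1 - c) / 2 * S := by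
          rw [abs_mul, abs_of_nonneg hm0]
          exact mul_le_mul_of_nonneg_left hr2 hm0
        have b3 : |(c' - c) / 2 * (A' - B')| ≤ |Δ| := by
          rw [abs_mul, abs_div, abs_two]
          have h1 : |A' - B'| ≤ 2 := by
            calc _ ≤ |A'| + |B'| := abs_sub _ _
              _ ≤ 2 := by linarith
          calc |c' - c| / 2 * |A' - B'| ≤ |Δ| / 2 * 2 :=
                mul_le_mul (by linarith) h1 (abs_nonneg _) (by linarith)
            _ = _ := by ring
        calc _ ≤ |(1 + c) / 2 * (A' - A)| + |(1 - c) / 2 * (B' - B)| +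
              |(c' - c) / 2 * (A' - B')| := by
                refine (abs_add_le _ _).trans (add_le_add ?_ le_rfl)
                exact abs_add_le _ _
          _ ≤ (1 + c) / 2 * S + (1 - c) / 2 * S + |Δ| := by linarith
          _ = _ := by ring

/-- The same for `sin θ_n * G(θ_0, …, θ_{n-1})`; the coefficient of `θ_n` is `cos θ_n * G`.
Norm: `(cos θ_n G)² + sin² θ_n Σ γ_b² ≤ cos² + sin² = 1`;
`sin' G' - sin G = sin (G' - G) + (sin' - sin) G + (sin' - sin)(G' - G)`, errors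
`S²/2 + Δ_n²/2 + |Δ_n| S`. -/
theorem sin_MA_lin {n : ℕ} (g : (Fin n → Bool) → ℝ) (hg : ∀ û, |g û| ≤ 1)
    (θ : Fin (n + 1) → ℝ) :
    ∃ γ : Fin (n + 1) → ℝ, γ (Fin.last n) = cos (θ (Fin.last n)) * MA g (fun b => θ b.castSucc) ∧
      ∑ b, γ b ^ 2 ≤ 1 ∧ ∀ θ' : Fin (n + 1) → ℝ,
      |sin (θ' (Fin.last n)) * MA g (fun b => θ' b.castSucc) -
          sin (θ (Fin.last n)) * MA g (fun b => θ b.castSucc) - ∑ b, γ b * (θ' b - θ b)| ≤
        (∑ b, |θ' b - θ b|) ^ 2 / 2 ∧
      |sin (θ' (Fin.last n)) * MA g (fun b => θ' b.castSucc) -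
          sin (θ (Fin.last n)) * MA g (fun b => θ b.castSucc)| ≤ ∑ b, |θ' b - θ b| := by
  obtain ⟨γ0, hn0, hl0⟩ := MA_lin g hg (fun b => θ b.castSucc)
  set c := cos (θ (Fin.last n)) with hc
  set s := sin (θ (Fin.last n)) with hs
  have hcs : s ^ 2 + c ^ 2 = 1 := Real.sin_sq_add_cos_sq _
  set G := MA g (fun b => θ b.castSucc) with hG
  have hG1 : |G| ≤ 1 := abs_MA_le g hg _
  have hG2 : G ^ 2 ≤ 1 := by
    have := Finset.sum_nonneg (s := Finset.univ) (fun (b : Fin n) _ => sq_nonneg (γ0 b))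
    linarith
  have hg2 : ∑ b, γ0 b ^ 2 ≤ 1 := by
    have := sq_nonneg G
    linarith
  have hs1 : |s| ≤ 1 := Real.abs_sin_le_one _
  refine ⟨Fin.snoc (α := fun _ => ℝ) (fun b => s * γ0 b) (c * G), ?_, ?_, fun θ' => ?_⟩
  · simp
  · rw [Fin.sum_univ_castSucc]
    simp only [Fin.snoc_castSucc, Fin.snoc_last]
    have e : ∑ b, (s * γ0 b) ^ 2 = s ^ 2 * ∑ b, γ0 b ^ 2 := by
      rw [Finset.mul_sum]
      exact Finset.sum_congr rfl fun b _ => by ring
    rw [e, mul_pow]
    nlinarith [mul_le_mul_of_nonneg_left hg2 (sq_nonneg s),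
      mul_le_mul_of_nonneg_left hG2 (sq_nonneg c)]
  · obtain ⟨hq, hr⟩ := hl0 (fun b => θ' b.castSucc)
    rw [Fin.sum_univ_castSucc, Fin.sum_univ_castSucc]
    simp only [Fin.snoc_castSucc, Fin.snoc_last]
    have hsl := MAlin_sin_lip (θ (Fin.last n)) (θ' (Fin.last n))
    have hsq := MAlin_sin (θ (Fin.last n)) (θ' (Fin.last n))
    rw [← hs] at hsl hsq
    rw [← hc] at hsq
    set s' := sin (θ' (Fin.last n)) with hs'
    set G' := MA g (fun b => θ' b.castSucc) with hG'
    have hG1' : |G'| ≤ 1 := abs_MA_le g hg _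
    set S := ∑ b : Fin n, |θ' b.castSucc - θ b.castSucc| with hS
    have hS0 : 0 ≤ S := Finset.sum_nonneg fun _ _ => abs_nonneg _
    set Δ := θ' (Fin.last n) - θ (Fin.last n) with hΔ
    set T := ∑ b : Fin n, γ0 b * (θ' b.castSucc - θ b.castSucc) with hT
    have hT' : ∑ b : Fin n, s * γ0 b * (θ' b.castSucc - θ b.castSucc) = s * T := by
      rw [hT, Finset.mul_sum]
      exact Finset.sum_congr rfl fun b _ => by ring
    rw [hT']
    have hΔ0 := abs_nonneg Δ
    constructor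
    · have e : s' * G' - s * G - (s * T + c * G * Δ) =
          s * (G' - G - T) + (s' - s - c * Δ) * G + (s' - s) * (G' - G) := by ring
      rw [e]
      have b1 : |s * (G' - G - T)| ≤ S ^ 2 / 2 := by
        rw [abs_mul]
        calc |s| * |G' - G - T| ≤ 1 * (S ^ 2 / 2) :=
              mul_le_mul hs1 hq (abs_nonneg _) zero_le_one
          _ = _ := one_mul _
      have b2 : |(s' - s - c * Δ) * G| ≤ Δ ^ 2 / 2 := by
        rw [abs_mul]
        calc |s' - s - c * Δ| * |G| ≤ (Δ ^ 2 / 2) * 1 :=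
              mul_le_mul hsq hG1 (abs_nonneg _) (by positivity)
          _ = _ := mul_one _
      have b3 : |(s' - s) * (G' - G)| ≤ |Δ| * S := by
        rw [abs_mul]
        exact mul_le_mul hsl hr (abs_nonneg _) hΔ0
      have hΔ2 : Δ ^ 2 = |Δ| ^ 2 := (sq_abs Δ).symm
      calc _ ≤ |s * (G' - G - T)| + |(s' - s - c * Δ) * G| + |(s' - s) * (G' - G)| := by
              refine (abs_add_le _ _).trans (add_le_add ?_ le_rfl)
              exact abs_add_le _ _
        _ ≤ S ^ 2 / 2 + Δ ^ 2 / 2 + |Δ| * S := by linarith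
        _ = _ := by rw [hΔ2]; ring
    · have e : s' * G' - s * G = s * (G' - G) + (s' - s) * G' := by ring
      rw [e]
      have b1 : |s * (G' - G)| ≤ S := by
        rw [abs_mul]
        calc |s| * |G' - G| ≤ 1 * S := mul_le_mul hs1 hr (abs_nonneg _) zero_le_one
          _ = _ := one_mul _
      have b2 : |(s' - s) * G'| ≤ |Δ| := by
        rw [abs_mul]
        calc |s' - s| * |G'| ≤ |Δ| * 1 := mul_le_mul hsl hG1' (abs_nonneg _) hΔ0
          _ = _ := mul_one _
      calc _ ≤ |s * (G' - G)| + |(s' - s) * G'| := abs_add_le _ _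
        _ ≤ _ := by linarith

end Pool.Agent.OSP
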