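import Pool.Agent.OSP_h95.Defs

/-!
# Negation of families, isomorphisms
-/

set_option autoImplicit false

namespace Pool.Agent.OSP

open Finset Real Pool.Agent.QFR

variable {G : Type} [AddCommGroup G] [Fintype G]

/-- `H(-Y) = H(Y)` (`ent_equiv` with `Equiv.neg`) -/
theorem H_neg (a : Fam G) : (neg a).H = a.H := by
  show ∑ i : a.ι, ent (fun x => a.m i (-x)) = ∑ i, ent (a.m i)
  refine Finset.sum_congr rfl fun i _ => ?_
  exact ent_equiv (a.m i) (Equiv.neg G)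

/-- identity on labels -/
theorem iso_neg {a b : Fam G} (h : Iso a b) : Iso (neg a) (neg b) := by
  obtain ⟨e, he⟩ := h
  exact ⟨e, fun i x => he i (-x)⟩

/-- identity on labels, `neg_neg` -/
theorem iso_neg_neg (a : Fam G) : Iso (neg (neg a)) a := by
  refine ⟨Equiv.refl _, fun i x => ?_⟩
  show a.m i x = a.m i (- -x)
  rw [neg_neg]

/-- identity on labels; `conv f g (-x) = conv (f ∘ neg) (g ∘ neg) x` -/
theorem iso_neg_add (a b : Fam G) : Iso (neg (a.add b)) ((neg a).add (neg b)) := by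
  refine ⟨Equiv.refl _, fun i x => ?_⟩
  show conv (fun x => a.m i.1 (-x)) (fun x => b.m i.2 (-x)) x = conv (a.m i.1) (b.m i.2) (-x)
  unfold conv
  refine Fintype.sum_equiv (Equiv.neg G) _ _ fun y => ?_
  show a.m i.1 (-y) * b.m i.2 (-(x - y)) = a.m i.1 (-y) * b.m i.2 (-x - -y)
  congr 2
  abel

/-- `(i, j, s) ↦ (i, j, -s)` -/
theorem iso_neg_fib (a b : Fam G) : Iso (neg (a.fib b)) ((neg a).fib (neg b)) := by
  refine ⟨(Equiv.refl a.ι).prodCongr ((Equiv.refl b.ι).prodCongr (Equiv.neg G)),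
    fun i x => ?_⟩
  show a.m i.1 (-x) * b.m i.2.1 (-(-i.2.2 - x)) = a.m i.1 (-x) * b.m i.2.1 (i.2.2 - -x)
  congr 2
  abel

/-- labels `(i, j, s) ↦ (e i, e' j, s)` -/
theorem iso_fib {a a' b b' : Fam G} (h : Iso a a') (h' : Iso b b') :
    Iso (a.fib b) (a'.fib b') := by
  obtain ⟨e, he⟩ := h
  obtain ⟨e', he'⟩ := h'
  refine ⟨e.prodCongr (e'.prodCongr (Equiv.refl G)), fun i x => ?_⟩
  show a'.m (e i.1) x * b'.m (e' i.2.1) (i.2.2 - x) = a.m i.1 x * b.m i.2.1 (i.2.2 - x)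
  rw [he, he']

/-- `(Y_a | Y_a - Y_b, Y_b - Y_c) ≅ (Y_a | Y_a - Y_b, Y_a - Y_c)`.  Labels
`(i, (j, l, s₂), s₁) ↦ ((i, j, s₁), l, s₁ + s₂)`; both mass functions are
`x ↦ a_i(x) b_j(x - s₁) c_l(x - s₁ - s₂)` (up to the sign normalisation of the arguments). -/
theorem iso_assoc (a b c : Fam G) :
    Iso (a.fib (neg (b.fib (neg c)))) ((a.fib (neg b)).fib (neg c)) := by
  let e : (a.ι × (b.ι × c.ι × G) × G) ≃ ((a.ι × b.ι × G) × c.ι × G) :=
    { toFun := fun t => ((t.1, t.2.1.1, t.2.2), t.2.1.2.1, t.2.2 + t.2.1.2.2)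
      invFun := fun t => (t.1.1, (t.1.2.1, t.2.1, t.2.2 - t.1.2.2), t.1.2.2)
      left_inv := by
        rintro ⟨i, ⟨j, l, s₂⟩, s₁⟩
        simp
      right_inv := by
        rintro ⟨⟨i, j, t₁⟩, l, t₂⟩
        simp }
  refine ⟨e, ?_⟩
  rintro ⟨i, ⟨j, l, s₂⟩, s₁⟩ x
  show a.m i x * b.m j (-(s₁ - x)) * c.m l (-(s₁ + s₂ - x)) =
    a.m i x * (b.m j (-(s₁ - x)) * c.m l (-(s₂ - -(s₁ - x))))
  rw [mul_assoc]
  congr 3
  abel

/-- `a ≅ a'` refines -/
theorem refines_of_iso {a b : Fam G} (h : Iso a b) : Refines a b := by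
  classical
  obtain ⟨e, he⟩ := h
  refine ⟨e, fun j x => ?_⟩
  rw [Finset.sum_eq_single (e.symm j)]
  · rw [if_pos (e.apply_symm_apply j), ← he, e.apply_symm_apply]
  · intro i _ hi
    rw [if_neg]
    intro h
    exact hi (by rw [← h, e.symm_apply_apply])
  · intro h
    exact absurd (Finset.mem_univ _) h

/-- the negatives of refinements are refinements (same map on labels) -/
theorem refines_neg {a b : Fam G} (h : Refines a b) : Refines (neg a) (neg b) := by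
  obtain ⟨φ, hφ⟩ := h
  exact ⟨φ, fun j x => hφ j (-x)⟩

end Pool.Agent.OSP
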