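import Pool.Agent.OSP_h95.UI
import Pool.Agent.OSP_h95.ExLem

/-!
# From near-homomorphisms to `Nice`
-/

set_option autoImplicit false

namespace Pool.Agent.OSP

open Finset Real Pool.Agent.QFR

variable {G : Type} [AddCommGroup G] [Fintype G]

theorem NiceA_big {a θ U : ℝ} (ha : 0 < a) (ha' : 2 * a ≤ θ) (h : θ < |U|) :
    U ^ 2 ≤ 2 * (U * (U - clip a U)) := by
  have h1 := (clip_facts ha).1 U
  have h2 : U * clip a U ≤ |U| * a := by
    calc U * clip a U ≤ |U * clip a U| := le_abs_self _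
      _ = |U| * |clip a U| := abs_mul _ _
      _ ≤ |U| * a := mul_le_mul_of_nonneg_left h1 (abs_nonneg _)
  have h3 : |U| * (2 * a) ≤ |U| * |U| := mul_le_mul_of_nonneg_left (by linarith) (abs_nonneg _)
  have h4 : |U| * |U| = U ^ 2 := by rw [abs_mul_abs_self, sq]
  nlinarith

theorem NiceA_pos {a U : ℝ} (ha : 0 < a) : 0 ≤ U * (U - clip a U) :=
  (sq_nonneg _).trans ((clip_facts ha).2.2.2.2.1 U)

theorem NiceA_small {θ U : ℝ} (hθ' : θ ≤ 1 / 4) (h : |U| ≤ θ) :
    3 / 4 ≤ 1 - U ∧ |2 * U / (1 - U)| ≤ 4 * θ ∧ (2 * U / (1 - U) - 2 * U) ^ 2 ≤ 16 * θ ^ 2 * U ^ 2 := by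
  have h0 := abs_nonneg U
  have h1 : U ≤ θ := (le_abs_self U).trans h
  have h2 : 3 / 4 ≤ 1 - U := by linarith
  have h3 : 0 < 1 - U := by linarith
  have h4 : |2 * U / (1 - U)| ≤ 8 / 3 * |U| := by
    rw [abs_div, abs_mul, abs_two, abs_of_pos h3, div_le_iff₀ h3]
    nlinarith
  refine ⟨h2, by linarith, ?_⟩
  have h5 : 2 * U / (1 - U) - 2 * U = (2 * U / (1 - U)) * U := by
    field_simp
    ring
  have h6 : |2 * U / (1 - U) - 2 * U| ≤ 4 * θ * |U| := by
    rw [h5, abs_mul]
    exact mul_le_mul_of_nonneg_right (by linarith) h0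
  have h7 := pow_le_pow_left₀ (abs_nonneg _) h6 2
  rw [sq_abs] at h7
  calc _ ≤ (4 * θ * |U|) ^ 2 := h7
    _ = 16 * θ ^ 2 * U ^ 2 := by rw [mul_pow, sq_abs]; ring

/-- the square root estimate -/
theorem NiceA_sqrt {s t u θ : ℝ} (hs : 0 ≤ s) (ht : 0 ≤ t) (h : s ^ 2 * u = t ^ 2 - s ^ 2)
    (hu : |u| ≤ 4 * θ) : (t - s - s * u / 2) ^ 2 ≤ 4 * θ ^ 2 * (t - s) ^ 2 := by
  rcases hs.eq_or_lt with h0 | h0
  · have h1 : t = 0 := by
      rw [← h0] at h
      have : t ^ 2 = 0 := by linarith
      exact pow_eq_zero_iff (two_ne_zero) |>.1 this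
    rw [← h0, h1]
    norm_num
  · have h1 : t - s - s * u / 2 = -((t - s) * ((t - s) / (2 * s))) := by
      have : u = (t ^ 2 - s ^ 2) / s ^ 2 := by
        rw [eq_div_iff (by positivity)]
        linarith
      rw [this]
      field_simp
      ring
    have h2 : |(t - s) / (2 * s)| ≤ 2 * θ := by
      have h3 : |t - s| ≤ s * |u| := by
        have h4 : |t - s| * s ≤ |t - s| * (t + s) :=
          mul_le_mul_of_nonneg_left (by linarith) (abs_nonneg _)
        have h5 : |t - s| * (t + s) = s ^ 2 * |u| := by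
          rw [← abs_of_nonneg (show 0 ≤ t + s by positivity), ← abs_mul,
            ← abs_of_nonneg (show 0 ≤ s ^ 2 by positivity), ← abs_mul, h]
          congr 1
          ring
        have h6 : |t - s| * s ≤ (s * |u|) * s := by
          calc _ ≤ _ := h4
            _ = _ := by rw [h5]; ring
        exact le_of_mul_le_mul_right h6 h0
      rw [abs_div, abs_of_pos (show 0 < 2 * s by positivity), div_le_iff₀ (by positivity)]
      nlinarith
    have h3 := pow_le_pow_left₀ (abs_nonneg _) h2 2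
    rw [sq_abs] at h3
    rw [h1, neg_sq, mul_pow]
    calc (t - s) ^ 2 * ((t - s) / (2 * s)) ^ 2 ≤ (t - s) ^ 2 * (2 * θ) ^ 2 :=
          mul_le_mul_of_nonneg_left h3 (sq_nonneg _)
      _ = _ := by ring

/-- `Nice` FROM A NEAR-HOMOMORPHISM AND A TAIL BOUND.  Let `m = avg`, `U = rat`, `0 < θ ≤ 1/4`,
`0 < a ≤ θ/2`.  Take
`u = 2U/(1-U)` if `|U| ≤ θ` and `0` otherwise (so `T u = T^D - T` where `|U| ≤ θ`),
`f = 2 clip a U`, and `w' = clip (4a) (2 w)`.
* `Σ |T^D - T - T u| = Σ_{|U|>θ} 2 m |U| ≤ (2/θ) Σ m U² = (2/θ) eps2`.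
* `|f| ≤ 2a`, `|w'| ≤ 4a`.
* `(u - 2U)² ≤ (2θ/(1-θ))² U² ≤ 16 θ² U²` on `|U| ≤ θ` (as `u - 2U = 2U²/(1-U)`, `θ ≤ 1/4`:
  `|u - 2U| ≤ (8/3) θ |U|`), and `= 4U² ≤ 8 U(U - clip a U)` on `|U| > θ ≥ 2a`;
  `(2U - f)² = 4 (U - clip a U)² ≤ 4 U (U - clip a U)`.  With `T ≤ 2m`:
  `Ex (u-f)² ≤ 2·2·16 θ² eps2 + 2·2·8 Z + 2·2·4 Z ≤ 64 θ² eps2 + 48 Z`.
* `w'` versus `f_i(x) - f_j(y)`: clipping `2w` does not increase the distance to
  `f_i(x) - f_j(y) ∈ [-4a, 4a]`; `2w - (f - f') = 2 (w - (U-U')) + 2(U - clip U) - 2 (U' - clip U')`,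
  so `Ex Ex (...)² ≤ 4·(2·4 Q) + ... ≤ 32 Q + 64 Z` (`T T' ≤ 4 m m'`, `T ≤ 2m`,
  `(a+b)² ≤ 2a²+2b²` twice).
* `√T^D - √T - √T u / 2`: on `|U| ≤ θ` with `r = T^D/T` it is `-√T (√r - 1)²/2`, and
  `|√r - 1| ≤ |r - 1| ≤ 4θ`; so its square is `≤ 4 θ² (√T^D - √T)²`, total `≤ 4 θ² hel T D`;
  on `|U| > θ` the square is `(√T^D-√T)² ≤ 2 m U² ≤ 4 m U (U - clip a U)` (`hel_term_le`). -/
theorem nice_of_tail (T : Fam G) (D : G) (w : T.ι → T.ι → G → ℝ) {Q Z θ a : ℝ}
    (hθ : 0 < θ) (hθ' : θ ≤ 1 / 4) (ha : 0 < a) (ha' : 2 * a ≤ θ)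
    (hQ : ∑ i, ∑ x, ∑ j, ∑ y, avg T D i x * avg T D j y *
        (w i j (x - y) - (rat T D i x - rat T D j y)) ^ 2 ≤ Q)
    (hZ : ∑ i, ∑ x, avg T D i x * (rat T D i x * (rat T D i x - clip a (rat T D i x))) ≤ Z) :
    ∃ (u f : T.ι → G → ℝ) (w' : T.ι → T.ι → G → ℝ),
    (∑ i, ∑ x, |T.m i (x - D) - T.m i x - T.m i x * u i x| ≤ 2 / θ * eps2 T D) ∧
    (∀ i x, |f i x| ≤ 2 * a) ∧ (∀ i j s, |w' i j s| ≤ 4 * a) ∧
    (Ex T (fun i x => (u i x - f i x) ^ 2) ≤ 64 * θ ^ 2 * eps2 T D + 48 * Z) ∧
    (Ex T (fun i x => Ex T fun j y => (w' i j (x - y) - (f i x - f j y)) ^ 2) ≤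
      32 * Q + 64 * Z) ∧
    (∑ i, ∑ x, (√(T.m i (x - D)) - √(T.m i x) - √(T.m i x) * u i x / 2) ^ 2 ≤
      4 * θ ^ 2 * hel T D + 4 * Z) := by
  obtain ⟨c1, c2, -, c4, c5, -⟩ := clip_facts ha
  have h4a : 0 < 4 * a := by linarith
  obtain ⟨d1, d2, -, d4, -, -⟩ := clip_facts h4a
  -- basic pointwise facts
  have hm := avg_nonneg T D
  have hT := m_eq T D
  have hTD := m_shift_eq T D
  have hle := m_le T D
  have hPz : ∀ i x, 0 ≤ rat T D i x * (rat T D i x - clip a (rat T D i x)) := fun i x =>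
    NiceA_pos ha
  have hZ1 : Ex T (fun i x => rat T D i x * (rat T D i x - clip a (rat T D i x))) ≤ 2 * Z := by
    calc _ ≤ ∑ i, ∑ x, 2 * (avg T D i x *
          (rat T D i x * (rat T D i x - clip a (rat T D i x)))) := by
          refine Finset.sum_le_sum fun i _ => Finset.sum_le_sum fun x _ => ?_
          have := mul_le_mul_of_nonneg_right (hle i x) (hPz i x)
          linarith
      _ = 2 * ∑ i, ∑ x, avg T D i x *
          (rat T D i x * (rat T D i x - clip a (rat T D i x))) := by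
          simp only [Finset.mul_sum]
      _ ≤ 2 * Z := by linarith
  have hE1 : Ex T (fun i x => rat T D i x ^ 2) ≤ 2 * eps2 T D := by
    calc _ ≤ ∑ i, ∑ x, 2 * (avg T D i x * rat T D i x ^ 2) := by
          refine Finset.sum_le_sum fun i _ => Finset.sum_le_sum fun x _ => ?_
          have := mul_le_mul_of_nonneg_right (hle i x) (sq_nonneg (rat T D i x))
          linarith
      _ = 2 * eps2 T D := by
          unfold eps2
          simp only [Finset.mul_sum]
  refine ⟨fun i x => if |rat T D i x| ≤ θ then 2 * rat T D i x / (1 - rat T D i x) else 0,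
    fun i x => 2 * clip a (rat T D i x), fun i j s => clip (4 * a) (2 * w i j s),
    ?_, ?_, ?_, ?_, ?_, ?_⟩
  · -- total variation
    have hpt : ∀ i x, |T.m i (x - D) - T.m i x - T.m i x *
        (if |rat T D i x| ≤ θ then 2 * rat T D i x / (1 - rat T D i x) else 0)| ≤
        2 / θ * (avg T D i x * rat T D i x ^ 2) := by
      intro i x
      have hr : 0 ≤ 2 / θ * (avg T D i x * rat T D i x ^ 2) :=
        mul_nonneg (by positivity) (mul_nonneg (hm i x) (sq_nonneg _))
      split_ifs with h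
      · have h1 := (NiceA_small hθ' h).1
        have h2 : T.m i (x - D) - T.m i x - T.m i x * (2 * rat T D i x / (1 - rat T D i x)) = 0 := by
          rw [hT i x, hTD i x]
          have h3 : 1 - rat T D i x ≠ 0 := by linarith
          field_simp
          ring
        rw [h2, abs_zero]
        exact hr
      · push Not at h
        have h1 : T.m i (x - D) - T.m i x - T.m i x * 0 = 2 * avg T D i x * rat T D i x := by
          rw [hT i x, hTD i x]
          ring
        rw [h1, abs_mul, abs_of_nonneg (mul_nonneg two_pos.le (hm i x))]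
        have h2 : |rat T D i x| ≤ rat T D i x ^ 2 / θ := by
          rw [le_div_iff₀ hθ, ← sq_abs, sq]
          exact mul_le_mul_of_nonneg_left h.le (abs_nonneg _)
        calc 2 * avg T D i x * |rat T D i x| ≤ 2 * avg T D i x * (rat T D i x ^ 2 / θ) :=
              mul_le_mul_of_nonneg_left h2 (mul_nonneg two_pos.le (hm i x))
          _ = _ := by ring
    refine (Finset.sum_le_sum fun i _ => Finset.sum_le_sum fun x _ => hpt i x).trans ?_
    unfold eps2
    simp only [Finset.mul_sum]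
    exact le_rfl
  · intro i x
    rw [abs_mul, abs_two]
    linarith [c1 (rat T D i x)]
  · intro i j s
    exact d1 _
  · -- `u - f`
    have hpt : ∀ i x, ((if |rat T D i x| ≤ θ then 2 * rat T D i x / (1 - rat T D i x) else 0)
        - 2 * clip a (rat T D i x)) ^ 2 ≤ 32 * θ ^ 2 * rat T D i x ^ 2 +
          24 * (rat T D i x * (rat T D i x - clip a (rat T D i x))) := by
      intro i x
      have h0 := hPz i x
      have h5 := c5 (rat T D i x)
      have h6 : ((if |rat T D i x| ≤ θ then 2 * rat T D i x / (1 - rat T D i x) else 0)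
          - 2 * rat T D i x) ^ 2 ≤ 16 * θ ^ 2 * rat T D i x ^ 2 +
          8 * (rat T D i x * (rat T D i x - clip a (rat T D i x))) := by
        split_ifs with h
        · have h1 := (NiceA_small hθ' h).2.2
          linarith
        · push Not at h
          have h1 := NiceA_big ha ha' h
          have h2 : 0 ≤ 16 * θ ^ 2 * rat T D i x ^ 2 := by positivity
          nlinarith
      generalize (if |rat T D i x| ≤ θ then 2 * rat T D i x / (1 - rat T D i x) else 0) = u at *
      nlinarith [sq_nonneg ((u - 2 * rat T D i x) - (2 * rat T D i x - 2 * clip a (rat T D i x)))]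
    refine (Ex_mono T hpt).trans ?_
    rw [Ex_add T, Ex_mul_left T, Ex_mul_left T]
    have h1 : 0 ≤ 32 * θ ^ 2 := by positivity
    nlinarith [mul_le_mul_of_nonneg_left hE1 h1]
  · -- `w'`
    have hpt : ∀ i x j y, (clip (4 * a) (2 * w i j (x - y)) -
        (2 * clip a (rat T D i x) - 2 * clip a (rat T D j y))) ^ 2 ≤
        8 * (w i j (x - y) - (rat T D i x - rat T D j y)) ^ 2 +
        16 * (rat T D i x * (rat T D i x - clip a (rat T D i x))) +
        16 * (rat T D j y * (rat T D j y - clip a (rat T D j y))) := by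
      intro i x j y
      have h1 : |2 * clip a (rat T D i x) - 2 * clip a (rat T D j y)| ≤ 4 * a := by
        have e1 := c1 (rat T D i x)
        have e2 := c1 (rat T D j y)
        rw [abs_le] at *
        constructor <;> linarith [e1.1, e1.2, e2.1, e2.2]
      have h2 := d2 (2 * w i j (x - y)) (2 * clip a (rat T D i x) - 2 * clip a (rat T D j y))
      rw [d4 _ h1] at h2
      have h3 := pow_le_pow_left₀ (abs_nonneg _) h2 2
      rw [sq_abs, sq_abs] at h3
      refine h3.trans ?_
      have h4 := c5 (rat T D i x)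
      have h5 := c5 (rat T D j y)
      nlinarith [sq_nonneg (2 * (w i j (x - y) - (rat T D i x - rat T D j y)) -
        (2 * (rat T D i x - clip a (rat T D i x)) - 2 * (rat T D j y - clip a (rat T D j y)))),
        sq_nonneg ((rat T D i x - clip a (rat T D i x)) + (rat T D j y - clip a (rat T D j y)))]
    have h1 : Ex T (fun i x => Ex T fun j y =>
        (w i j (x - y) - (rat T D i x - rat T D j y)) ^ 2) ≤ 4 * Q := by
      have e1 : ∀ i x j y, T.m i x * (T.m j y *
          (w i j (x - y) - (rat T D i x - rat T D j y)) ^ 2) ≤ 4 * (avg T D i x * avg T D j y *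
          (w i j (x - y) - (rat T D i x - rat T D j y)) ^ 2) := by
        intro i x j y
        have e2 : T.m i x * T.m j y ≤ (2 * avg T D i x) * (2 * avg T D j y) :=
          mul_le_mul (hle i x) (hle j y) (T.nn j y) (mul_nonneg two_pos.le (hm i x))
        have e3 := mul_le_mul_of_nonneg_right e2
          (sq_nonneg (w i j (x - y) - (rat T D i x - rat T D j y)))
        calc _ = T.m i x * T.m j y * (w i j (x - y) - (rat T D i x - rat T D j y)) ^ 2 := by ring
          _ ≤ _ := e3
          _ = _ := by ring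
      calc _ = ∑ i, ∑ x, ∑ j, ∑ y, T.m i x * (T.m j y *
            (w i j (x - y) - (rat T D i x - rat T D j y)) ^ 2) := by
            unfold Ex
            simp only [Finset.mul_sum]
        _ ≤ ∑ i, ∑ x, ∑ j, ∑ y, 4 * (avg T D i x * avg T D j y *
            (w i j (x - y) - (rat T D i x - rat T D j y)) ^ 2) :=
            Finset.sum_le_sum fun i _ => Finset.sum_le_sum fun x _ =>
              Finset.sum_le_sum fun j _ => Finset.sum_le_sum fun y _ => e1 i x j y
        _ = 4 * ∑ i, ∑ x, ∑ j, ∑ y, avg T D i x * avg T D j y *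
            (w i j (x - y) - (rat T D i x - rat T D j y)) ^ 2 := by
            simp only [Finset.mul_sum]
        _ ≤ 4 * Q := by linarith
    refine (Ex_mono T fun i x => Ex_mono T fun j y => hpt i x j y).trans ?_
    have e : ∀ i x, Ex T (fun j y => 8 * (w i j (x - y) - (rat T D i x - rat T D j y)) ^ 2 +
        16 * (rat T D i x * (rat T D i x - clip a (rat T D i x))) +
        16 * (rat T D j y * (rat T D j y - clip a (rat T D j y)))) =
        8 * Ex T (fun j y => (w i j (x - y) - (rat T D i x - rat T D j y)) ^ 2) +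
        16 * (rat T D i x * (rat T D i x - clip a (rat T D i x))) +
        16 * Ex T (fun j y => rat T D j y * (rat T D j y - clip a (rat T D j y))) := by
      intro i x
      simp only [Ex_add, Ex_mul_left, Ex_const]
    simp only [e]
    simp only [Ex_add, Ex_mul_left, Ex_const]
    linarith
  · -- square roots
    have hpt : ∀ i x, (√(T.m i (x - D)) - √(T.m i x) - √(T.m i x) *
        (if |rat T D i x| ≤ θ then 2 * rat T D i x / (1 - rat T D i x) else 0) / 2) ^ 2 ≤
        4 * θ ^ 2 * (√(T.m i (x - D)) - √(T.m i x)) ^ 2 +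
        4 * (avg T D i x * (rat T D i x * (rat T D i x - clip a (rat T D i x)))) := by
      intro i x
      have h0 : 0 ≤ 4 * (avg T D i x * (rat T D i x * (rat T D i x - clip a (rat T D i x)))) :=
        mul_nonneg (by norm_num) (mul_nonneg (hm i x) (hPz i x))
      split_ifs with h
      · obtain ⟨h1, h2, -⟩ := NiceA_small hθ' h
        have h3 : √(T.m i x) ^ 2 * (2 * rat T D i x / (1 - rat T D i x)) =
            √(T.m i (x - D)) ^ 2 - √(T.m i x) ^ 2 := by
          rw [Real.sq_sqrt (T.nn i x), Real.sq_sqrt (T.nn i (x - D)), hT i x, hTD i x]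
          have h3 : 1 - rat T D i x ≠ 0 := by linarith
          field_simp
          ring
        have h4 := NiceA_sqrt (Real.sqrt_nonneg (T.m i x)) (Real.sqrt_nonneg (T.m i (x - D))) h3 h2
        linarith
      · push Not at h
        have h1 := NiceA_big ha ha' h
        have h2 := hel_term_le T D i x
        have h3 := mul_le_mul_of_nonneg_left h1 (hm i x)
        have h4 : 0 ≤ 4 * θ ^ 2 * (√(T.m i (x - D)) - √(T.m i x)) ^ 2 := by positivity
        have h5 : (√(T.m i (x - D)) - √(T.m i x) - √(T.m i x) * 0 / 2) ^ 2 =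
            (√(T.m i (x - D)) - √(T.m i x)) ^ 2 := by ring
        rw [h5]
        nlinarith
    refine (Finset.sum_le_sum fun i _ => Finset.sum_le_sum fun x _ => hpt i x).trans ?_
    simp only [Finset.sum_add_distrib, ← Finset.mul_sum]
    unfold hel
    linarith

end Pool.Agent.OSP
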