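import Pool.Agent.OSP_h95.Dim
import Pool.Agent.OSP_h95.GS
import Pool.Agent.OSP_h95.Greedy

/-!
# The packing bound
-/

set_option autoImplicit false

namespace Pool.Agent.OSP

open Finset Real Pool.Agent.QFR

/-- numerical part of `pack` -/
theorem pack_num {t₀ B C : ℝ} (ht : 0 < t₀) (ht1 : t₀ ≤ 1) (hB : 0 < B) (hC : 0 < C) :
    ∃ C' : ℝ, 1 ≤ C' ∧ ∀ (κ R t : ℝ), 0 ≤ κ → 0 < R → R * (C' * (1 + κ)) ^ 4 ≤ 1 → t₀ ≤ t → t ≤ 1 →
      R ≤ 1 ∧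
      (6 * (1 / 100000) + 9 * (t₀ / 1000000) / t +
        27 * B ^ 2 * C ^ 2 * (⌊40000000 * κ⌋₊ + 1 : ℕ) ^ 3 * R ^ 2 / t ^ 2 ≤ 1 / 2500) ∧
      SysData.err (⌊40000000 * κ⌋₊ + 1) R t B C 100 ≤ 1 ∧
      SysData.err (⌊40000000 * κ⌋₊ + 1) R t B C 200 ≤ 1 ∧
      2 * ((⌊40000000 * κ⌋₊ + 1 : ℕ) : ℝ) ≤ C' * (1 + κ) := by
  obtain ⟨q, hq⟩ : ∃ q : ℝ, q = 10000 * (C + 1600 * B + 320000 * B ^ 2 + 27 * B ^ 2 * C ^ 2 + 1) /
    t₀ ^ 2 := ⟨_, rfl⟩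
  have hq0 : 0 < q := by rw [hq]; positivity
  have hq1 : 1 ≤ q := by
    rw [hq, le_div_iff₀ (by positivity)]
    have h1 : t₀ ^ 2 ≤ 1 := pow_le_one₀ ht.le ht1
    have h2 : 0 < C + 1600 * B + 320000 * B ^ 2 + 27 * B ^ 2 * C ^ 2 := by positivity
    linarith
  refine ⟨40000000 ^ 4 * q, ?_, ?_⟩
  · have : (1 : ℝ) ≤ 40000000 ^ 4 := by norm_num
    nlinarith
  intro κ R t hκ hR hRC ht0 htt
  have htpos : 0 < t := lt_of_lt_of_le ht ht0
  obtain ⟨N, hN⟩ : ∃ N : ℕ, N = ⌊40000000 * κ⌋₊ + 1 := ⟨_, rfl⟩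
  rw [← hN]
  have hN1 : (1 : ℝ) ≤ N := by
    rw [hN]; push_cast
    have : (0 : ℝ) ≤ (⌊40000000 * κ⌋₊ : ℝ) := Nat.cast_nonneg _
    linarith
  have hNle : (N : ℝ) ≤ 40000000 * (1 + κ) := by
    rw [hN]; push_cast
    have := Nat.floor_le (by positivity : 0 ≤ 40000000 * κ)
    linarith
  have hN0 : (0 : ℝ) ≤ N := by linarith
  -- the key quantity
  have hNR : (N : ℝ) ^ 4 * R * q ≤ 1 := by
    have h1 : (N : ℝ) ^ 4 ≤ (40000000 * (1 + κ)) ^ 4 := pow_le_pow_left₀ hN0 hNle 4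
    have h2 : q ≤ (40000000 ^ 3 * q) ^ 4 := by
      have h3 : q ≤ 40000000 ^ 3 * q := by nlinarith
      have h4 : (1 : ℝ) ≤ 40000000 ^ 3 * q := by linarith
      calc q ≤ 40000000 ^ 3 * q := h3
        _ = (40000000 ^ 3 * q) ^ 1 := (pow_one _).symm
        _ ≤ (40000000 ^ 3 * q) ^ 4 := pow_le_pow_right₀ h4 (by norm_num)
    calc (N : ℝ) ^ 4 * R * q ≤ (40000000 * (1 + κ)) ^ 4 * R * (40000000 ^ 3 * q) ^ 4 := by
          gcongr
      _ = R * (40000000 ^ 4 * q * (1 + κ)) ^ 4 := by ring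
      _ ≤ 1 := hRC
  have hN4 : (1 : ℝ) ≤ (N : ℝ) ^ 4 := one_le_pow₀ hN1
  have hRq : R * q ≤ 1 := by
    have : R * q ≤ (N : ℝ) ^ 4 * R * q := by
      have h0 : 0 ≤ R * q := by positivity
      nlinarith
    linarith
  have hR1 : R ≤ 1 := by nlinarith
  have ht2 : t₀ ^ 2 ≤ t ^ 2 := pow_le_pow_left₀ ht.le ht0 2
  have hqt : q * t ^ 2 ≥ 10000 * (C + 1600 * B + 320000 * B ^ 2 + 27 * B ^ 2 * C ^ 2 + 1) := by
    have h1 : q * t₀ ^ 2 = 10000 * (C + 1600 * B + 320000 * B ^ 2 + 27 * B ^ 2 * C ^ 2 + 1) := by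
      rw [hq]; field_simp
    nlinarith
  have hNRt : (N : ℝ) ^ 4 * R *
      (10000 * (C + 1600 * B + 320000 * B ^ 2 + 27 * B ^ 2 * C ^ 2 + 1)) ≤ t ^ 2 := by
    calc (N : ℝ) ^ 4 * R *
          (10000 * (C + 1600 * B + 320000 * B ^ 2 + 27 * B ^ 2 * C ^ 2 + 1))
        ≤ (N : ℝ) ^ 4 * R * (q * t ^ 2) := by gcongr
      _ = ((N : ℝ) ^ 4 * R * q) * t ^ 2 := by ring
      _ ≤ 1 * t ^ 2 := by gcongr
      _ = t ^ 2 := one_mul _
  have hNR0 : 0 < (N : ℝ) ^ 4 * R := by positivity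
  have hNtail : ∀ X : ℝ, 0 ≤ X → X ≤ C + 1600 * B + 320000 * B ^ 2 + 27 * B ^ 2 * C ^ 2 + 1 →
      10000 * ((N : ℝ) ^ 4 * R * X) ≤ t ^ 2 := by
    intro X _ hX
    calc 10000 * ((N : ℝ) ^ 4 * R * X) = (N : ℝ) ^ 4 * R * (10000 * X) := by ring
      _ ≤ (N : ℝ) ^ 4 * R *
          (10000 * (C + 1600 * B + 320000 * B ^ 2 + 27 * B ^ 2 * C ^ 2 + 1)) := by gcongr
      _ ≤ t ^ 2 := hNRt
  have herr : ∀ Λ : ℝ, 0 ≤ Λ → Λ ≤ 200 → SysData.err N R t B C Λ ≤ 1 := by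
    intro Λ hΛ0 hΛ
    unfold SysData.err
    have hNt : 1 ≤ (N : ℝ) / t := by
      rw [le_div_iff₀ htpos]; linarith
    have hsq : √((N : ℝ) / t) ≤ N / t := by
      rw [Real.sqrt_le_left (by linarith)]
      nlinarith
    have hNN : (N : ℝ) ≤ (N : ℝ) ^ 4 := by
      calc (N : ℝ) = (N : ℝ) ^ 1 := (pow_one _).symm
        _ ≤ (N : ℝ) ^ 4 := pow_le_pow_right₀ hN1 (by norm_num)
    have hN24 : (N : ℝ) ^ 2 ≤ (N : ℝ) ^ 4 := pow_le_pow_right₀ hN1 (by norm_num)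
    have htt2 : t ^ 2 ≤ t := by nlinarith
    have e1 : √((N : ℝ) / t) * C * R ≤ (N : ℝ) ^ 4 * R * C / t ^ 2 := by
      calc √((N : ℝ) / t) * C * R ≤ (N / t) * C * R := by gcongr
        _ = N * (R * C) / t := by ring
        _ ≤ N * (R * C) / t ^ 2 := by gcongr
        _ ≤ (N : ℝ) ^ 4 * (R * C) / t ^ 2 := by gcongr
        _ = _ := by ring
    have e2 : 8 * Λ * B * N ^ 2 * R / t ≤ (N : ℝ) ^ 4 * R * (1600 * B) / t ^ 2 := by
      calc 8 * Λ * B * N ^ 2 * R / t ≤ 8 * 200 * B * N ^ 2 * R / t := by gcongr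
        _ ≤ 8 * 200 * B * (N : ℝ) ^ 4 * R / t ^ 2 := by gcongr
        _ = _ := by ring
    have e3 : 8 * Λ ^ 2 * B ^ 2 * N ^ 4 * R / t ^ 2 ≤
        (N : ℝ) ^ 4 * R * (320000 * B ^ 2) / t ^ 2 := by
      calc 8 * Λ ^ 2 * B ^ 2 * N ^ 4 * R / t ^ 2 ≤ 8 * 200 ^ 2 * B ^ 2 * N ^ 4 * R / t ^ 2 := by
            gcongr
        _ = _ := by ring
    have h4 := hNtail (C + 1600 * B + 320000 * B ^ 2) (by positivity) (by
      have : 0 < 27 * B ^ 2 * C ^ 2 := by positivity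
      linarith)
    have h5 : (N : ℝ) ^ 4 * R * (C + 1600 * B + 320000 * B ^ 2) / t ^ 2 ≤ 1 := by
      rw [div_le_one (by positivity)]
      have : 0 ≤ (N : ℝ) ^ 4 * R * (C + 1600 * B + 320000 * B ^ 2) := by positivity
      linarith
    have h6 : (N : ℝ) ^ 4 * R * (C + 1600 * B + 320000 * B ^ 2) / t ^ 2 =
        (N : ℝ) ^ 4 * R * C / t ^ 2 + (N : ℝ) ^ 4 * R * (1600 * B) / t ^ 2 +
          (N : ℝ) ^ 4 * R * (320000 * B ^ 2) / t ^ 2 := by ring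
    linarith
  refine ⟨hR1, ?_, herr 100 (by norm_num) (by norm_num), herr 200 (by norm_num) (by norm_num), ?_⟩
  · have h1 : 9 * (t₀ / 1000000) / t ≤ 9 / 1000000 := by
      rw [div_le_iff₀ htpos]
      linarith
    have h2 : 27 * B ^ 2 * C ^ 2 * (N : ℝ) ^ 3 * R ^ 2 / t ^ 2 ≤ 1 / 10000 := by
      have h3 := hNtail (27 * B ^ 2 * C ^ 2) (by positivity) (by
        have : 0 < C + 1600 * B + 320000 * B ^ 2 := by positivity
        linarith)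
      have hN34 : (N : ℝ) ^ 3 ≤ (N : ℝ) ^ 4 := pow_le_pow_right₀ hN1 (by norm_num)
      have hRR : R ^ 2 ≤ R := by nlinarith
      rw [div_le_iff₀ (by positivity)]
      calc 27 * B ^ 2 * C ^ 2 * (N : ℝ) ^ 3 * R ^ 2 ≤ 27 * B ^ 2 * C ^ 2 * (N : ℝ) ^ 4 * R := by
            gcongr
        _ = (N : ℝ) ^ 4 * R * (27 * B ^ 2 * C ^ 2) := by ring
        _ ≤ _ := by linarith
    linarith
  · calc 2 * (N : ℝ) ≤ 2 * (40000000 * (1 + κ)) := by linarith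
      _ ≤ 40000000 ^ 4 * 1 * (1 + κ) := by nlinarith
      _ ≤ 40000000 ^ 4 * q * (1 + κ) := by gcongr

theorem dbl_nonneg {G : Type} [AddCommGroup G] [Fintype G] (T : Fam G) : 0 ≤ dbl T :=
  sub_nonneg.2 (H_le_add_left _ _)

/-- THE PACKING BOUND. -/
theorem pack : ∃ η : ℝ, 0 < η ∧ ∀ B C : ℝ, 0 < B → 0 < C → ∃ C' : ℝ, 1 ≤ C' ∧
    ∀ (G : Type) [AddCommGroup G] [Fintype G] (T : Fam G) (κ R : ℝ) (𝒟 : Finset G),
      dbl T ≤ κ → 0 < R → R * (C' * (1 + κ)) ^ 4 ≤ 1 →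
      (∀ D ∈ 𝒟, hel T D ≤ R ^ 2 ∧ Nice T D R η B C) →
      (∀ D ∈ 𝒟, ∀ D' ∈ 𝒟, D ≠ D' → (2 / 3 * R) ^ 2 ≤ hel T (D - D')) →
      (𝒟.card : ℝ) ≤ exp (C' * (1 + κ)) := by
  obtain ⟨t₀, ht0, ht1, hgs⟩ := gs (ν := 1 / 100000) (by norm_num)
  refine ⟨t₀ / 1000000, by positivity, ?_⟩
  intro B C hB hC
  obtain ⟨C', hC', hnum⟩ := pack_num ht0 ht1 hB hC
  refine ⟨C', hC', ?_⟩
  intro G _ _ T κ R 𝒟 hκ hR hRC hD hsep
  have hκ0 : 0 ≤ κ := (dbl_nonneg T).trans hκ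
  obtain ⟨N, hN⟩ : ∃ N : ℕ, N = ⌊40000000 * κ⌋₊ + 1 := ⟨_, rfl⟩
  have hlast := (hnum κ R t₀ hκ0 hR hRC le_rfl ht1).2.2.2.2
  rw [← hN] at hlast
  by_contra hcon
  push Not at hcon
  have h5 : 5 ^ N < 𝒟.card := by
    have h6 : ((5 ^ N : ℕ) : ℝ) < 𝒟.card := by
      refine lt_of_le_of_lt ?_ hcon
      push_cast
      have h7 : (5 : ℝ) ≤ exp 2 := by
        have := Real.quadratic_le_exp_of_nonneg (by norm_num : (0 : ℝ) ≤ 2)
        norm_num at this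
        linarith
      calc (5 : ℝ) ^ N ≤ (exp 2) ^ N := by gcongr
        _ = exp (2 * N) := by rw [← Real.exp_nat_mul]; ring_nf
        _ ≤ _ := Real.exp_le_exp.2 hlast
    exact_mod_cast h6
  have hnice : ∀ D ∈ 𝒟, Nice T D R (t₀ / 1000000) B C := fun D h => (hD D h).2
  unfold Nice at hnice
  choose! u f w hu1 hf hw huf hwf hu2 using hnice
  obtain ⟨xv, hxv⟩ : ∃ xv : G → EuclideanSpace ℝ (T.ι × G), xv = fun D =>
    WithLp.toLp 2 (fun p : T.ι × G => √(T.m p.1 (p.2 - D)) - √(T.m p.1 p.2)) := ⟨_, rfl⟩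
  obtain ⟨vv, hvv⟩ : ∃ vv : G → EuclideanSpace ℝ (T.ι × G), vv = fun D =>
    WithLp.toLp 2 (fun p : T.ι × G => √(T.m p.1 p.2) * u D p.1 p.2 / 2) := ⟨_, rfl⟩
  have nsq : ∀ F : T.ι × G → ℝ, ‖(WithLp.toLp 2 F : EuclideanSpace ℝ (T.ι × G))‖ ^ 2 =
      ∑ i, ∑ x, F (i, x) ^ 2 := by
    intro F
    rw [EuclideanSpace.norm_sq_eq, Fintype.sum_prod_type]
    simp only [Real.norm_eq_abs, sq_abs]
  have hx1 : ∀ D ∈ 𝒟, ‖xv D‖ ≤ R := by
    intro D h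
    have h1 : ‖xv D‖ ^ 2 = hel T D := by
      rw [hxv]; exact nsq _
    refine abs_le_of_sq_le_sq' ?_ hR.le |>.2
    rw [h1]
    exact (hD D h).1
  have hx2 : ∀ D ∈ 𝒟, ∀ D' ∈ 𝒟, D ≠ D' → 2 / 3 * R ≤ ‖xv D - xv D'‖ := by
    intro D h D' h' hne
    have h1 : ‖xv D - xv D'‖ ^ 2 = hel T (D - D') := by
      rw [hxv, ← hel_sub_eq]
      simp only [← WithLp.toLp_sub]
      rw [nsq]
      refine Finset.sum_congr rfl fun i _ => Finset.sum_congr rfl fun x _ => ?_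
      simp only [Pi.sub_apply]
      ring
    refine le_of_sq_le_sq ?_ (norm_nonneg _)
    rw [h1]
    exact hsep D h D' h' hne
  have hη48 : t₀ / 1000000 * R ^ 2 ≤ (R / 48) ^ 2 := by
    have h1 : t₀ / 1000000 ≤ 1 / 48 ^ 2 := by linarith
    calc t₀ / 1000000 * R ^ 2 ≤ 1 / 48 ^ 2 * R ^ 2 := by gcongr
      _ = _ := by ring
  have hx3 : ∀ D ∈ 𝒟, ‖xv D - vv D‖ ≤ R / 48 := by
    intro D h
    have h1 : ‖xv D - vv D‖ ^ 2 = ∑ i, ∑ x,
        (√(T.m i (x - D)) - √(T.m i x) - √(T.m i x) * u D i x / 2) ^ 2 := by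
      rw [hxv, hvv]
      simp only [← WithLp.toLp_sub]
      rw [nsq]
      refine Finset.sum_congr rfl fun i _ => Finset.sum_congr rfl fun x _ => ?_
      simp only [Pi.sub_apply]
    refine le_of_sq_le_sq ?_ (by positivity)
    rw [h1]
    exact (hu2 D h).trans hη48
  obtain ⟨d, hd, hdist⟩ := greedy 𝒟 xv vv hR N hx1 hx2 hx3 h5
  obtain ⟨a, ha⟩ : ∃ a : Fin N → EuclideanSpace ℝ (T.ι × G), a = fun l => (2 / R) • vv (d l) :=
    ⟨_, rfl⟩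
  have ha1 : ∀ l, ‖a l‖ ≤ 3 := by
    intro l
    have h1 : ‖vv (d l)‖ ≤ R + R / 48 := by
      calc ‖vv (d l)‖ = ‖xv (d l) - (xv (d l) - vv (d l))‖ := by congr 1; abel
        _ ≤ ‖xv (d l)‖ + ‖xv (d l) - vv (d l)‖ := norm_sub_le _ _
        _ ≤ _ := add_le_add (hx1 _ (hd l)) (hx3 _ (hd l))
    rw [ha]
    show ‖(2 / R) • vv (d l)‖ ≤ 3
    rw [norm_smul, Real.norm_eq_abs, abs_of_pos (by positivity), div_mul_eq_mul_div,
      div_le_iff₀ hR]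
    linarith
  have ha2 : ∀ l (c : Fin N → ℝ), 1 / 8 ≤ ‖a l - ∑ k ∈ univ.filter (· < l), c k • a k‖ := by
    intro l c
    have h1 : a l - ∑ k ∈ univ.filter (· < l), c k • a k =
        (2 / R) • (vv (d l) - ∑ k ∈ univ.filter (· < l), c k • vv (d k)) := by
      rw [ha, smul_sub, Finset.smul_sum]
      congr 1
      refine Finset.sum_congr rfl fun k _ => ?_
      show c k • (2 / R) • vv (d k) = (2 / R) • c k • vv (d k)
      rw [smul_smul, smul_smul, mul_comm]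
    rw [h1, norm_smul, Real.norm_eq_abs, abs_of_pos (by positivity)]
    calc (1 : ℝ) / 8 = 2 / R * (R / 16) := by field_simp; norm_num
      _ ≤ _ := by gcongr; exact hdist l c
  obtain ⟨t, α, htt0, htt1, hb, hα, hg⟩ := hgs (EuclideanSpace ℝ (T.ι × G)) N a ha1 ha2
  obtain ⟨hR1, hΞ, he1, he2, -⟩ := hnum κ R t hκ0 hR hRC htt0 htt1
  rw [← hN] at hΞ he1 he2
  obtain ⟨S, hS⟩ : ∃ S : SysData T N, S = ⟨d, fun l => u (d l), fun l => f (d l),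
    fun l => w (d l), α, R, t⟩ := ⟨_, rfl⟩
  have hinner : ∀ (φ : T.ι → G → ℝ) (b : ℕ),
      inner ℝ (WithLp.toLp 2 (fun p : T.ι × G => √(T.m p.1 p.2) * φ p.1 p.2) :
        EuclideanSpace ℝ (T.ι × G)) (∑ l, α b l • a l) =
      Ex T fun i x => φ i x * S.om b i x := by
    intro φ b
    have h1 : (∑ l, α b l • a l) = WithLp.toLp 2 (fun p : T.ι × G =>
        √(T.m p.1 p.2) * S.om b p.1 p.2) := by
      ext p
      rw [hS, ha, hvv]
      simp only [SysData.om, WithLp.ofLp_sum, WithLp.ofLp_smul, Finset.sum_apply, Pi.smul_apply,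
        smul_eq_mul, Finset.sum_div, Finset.mul_sum]
      refine Finset.sum_congr rfl fun l _ => ?_
      ring
    rw [h1, PiLp.inner_apply, Fintype.sum_prod_type]
    unfold Ex
    refine Finset.sum_congr rfl fun i _ => Finset.sum_congr rfl fun x _ => ?_
    have h2 := Real.mul_self_sqrt (T.nn i x)
    simp only [RCLike.inner_apply, conj_trivial]
    calc √(T.m i x) * S.om b i x * (√(T.m i x) * φ i x)
        = (√(T.m i x) * √(T.m i x)) * (φ i x * S.om b i x) := by ring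
      _ = _ := by rw [h2]
  have hsum : ∀ b : ℕ, (∑ l, α b l • a l) = WithLp.toLp 2 (fun p : T.ι × G =>
        √(T.m p.1 p.2) * S.om b p.1 p.2) := by
    intro b
    ext p
    rw [hS, ha, hvv]
    simp only [SysData.om, WithLp.ofLp_sum, WithLp.ofLp_smul, Finset.sum_apply, Pi.smul_apply,
      smul_eq_mul, Finset.sum_div, Finset.mul_sum]
    refine Finset.sum_congr rfl fun l _ => ?_
    ring
  have hOk : S.Ok (t₀ / 1000000) B C (1 / 100000) := by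
    refine ⟨?_, ?_, ?_, ?_, ?_, ?_, hB, hC, ?_, ?_, ?_, ?_, ?_, ?_, ?_, ?_, ?_⟩
    · rw [hN]; omega
    · rw [hS]; exact hR
    · rw [hS]; exact hR1
    · rw [hS]; exact lt_of_lt_of_le ht0 htt0
    · rw [hS]; exact htt1
    · positivity
    · intro l; rw [hS]; exact (hD _ (hd l)).1
    · intro l; rw [hS]; exact hu1 _ (hd l)
    · intro l; rw [hS]; exact hf _ (hd l)
    · intro l; rw [hS]; exact hw _ (hd l)
    · intro l; rw [hS]; exact huf _ (hd l)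
    · intro l; rw [hS]; exact hwf _ (hd l)
    · intro φ
      have h1 := hb (WithLp.toLp 2 (fun p : T.ι × G => √(T.m p.1 p.2) * φ p.1 p.2))
      rw [nsq] at h1
      simp only [hinner] at h1
      refine h1.trans (le_of_eq ?_)
      unfold Ex
      refine Finset.sum_congr rfl fun i _ => Finset.sum_congr rfl fun x _ => ?_
      rw [mul_pow, Real.sq_sqrt (T.nn i x)]
    · intro g
      have h1 := hα g
      rw [hS]
      exact h1
    · have h1 := hg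
      refine le_trans (le_of_eq ?_) h1
      refine Finset.sum_congr rfl fun b _ => Finset.sum_congr rfl fun b' _ => ?_
      rw [← hinner (S.om b) b', ← hsum b]
  have hfin := dim_bound hOk (by rw [hS]; show t₀ / 1000000 ≤ t; linarith) hκ
    (by rw [hS]; exact hΞ) (by rw [hS]; exact he1) (by rw [hS]; exact he2)
  have h8 := Nat.lt_floor_add_one (40000000 * κ)
  rw [hN] at hfin
  push_cast at hfin
  linarith

end Pool.Agent.OSP
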