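import Pool.Agent.OSP_h95.Popular

/-!
# Points of the plane in general position
-/

set_option autoImplicit false

namespace Pool.Agent.OSP

open Finset Real Pool.Agent.QFR
open scoped Pointwise

/-- A finite set of points of the plane is in general position if no three distinct points of it
are collinear. -/
def GeneralPosition (S : Finset (ℝ × ℝ)) : Prop :=
  ∀ p ∈ S, ∀ q ∈ S, ∀ r ∈ S, p ≠ q → p ≠ r → q ≠ r → ¬ Collinear ℝ {p, q, r}

/-- A rational functional, integral on `S` and nonzero on finitely many given vectors. -/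
theorem Plane_functional (S F : Finset (ℝ × ℝ)) (hF : ∀ z ∈ F, z ≠ 0) :
    ∃ (g : (ℝ × ℝ) →ₗ[ℚ] ℚ) (ψ : ℝ × ℝ → ℤ), (∀ s ∈ S, (ψ s : ℚ) = g s) ∧
      ∀ z ∈ F, g z ≠ 0 := by
  classical
  obtain ⟨f, hf⟩ := Module.exists_dual_forall_apply_ne_zero (K := ℚ) (M := ℝ × ℝ)
    (fun z : {z // z ∈ F} => z.1) (fun z => hF z.1 z.2)
  let N : ℕ := ∏ s ∈ S, (f s).den
  have hN : N ≠ 0 := Finset.prod_ne_zero_iff.2 fun s _ => (f s).den_ne_zero
  have hNq : (N : ℚ) ≠ 0 := by exact_mod_cast hN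
  have hex : ∀ s : ℝ × ℝ, ∃ m : ℤ, s ∈ S → (m : ℚ) = ((N : ℚ) • f) s := by
    intro s
    by_cases hs : s ∈ S
    · obtain ⟨k, hk⟩ := Finset.dvd_prod_of_mem (fun s => (f s).den) hs
      refine ⟨k * (f s).num, fun _ => ?_⟩
      have h1 : (N : ℚ) = (f s).den * k := by exact_mod_cast hk
      rw [LinearMap.smul_apply, smul_eq_mul, h1]
      have h2 := Rat.mul_den_eq_num (f s)
      push_cast
      rw [← h2]
      ring
    · exact ⟨0, fun h => absurd h hs⟩
  choose ψ hψ using hex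
  refine ⟨(N : ℚ) • f, ψ, hψ, ?_⟩
  intro z hz h
  rw [LinearMap.smul_apply, smul_eq_mul] at h
  rcases mul_eq_zero.1 h with h | h
  · exact hNq h
  · exact hf ⟨z, hz⟩ h

/-- Three points with `m (p - q) = l (p - r)`, `m ≠ 0`, are collinear. -/
theorem Plane_collinear {p q r : ℝ × ℝ} {m l : ℤ} (hm : m ≠ 0)
    (h : m • (p - q) - l • (p - r) = 0) : Collinear ℝ {p, q, r} := by
  have hm' : (m : ℝ) ≠ 0 := by exact_mod_cast hm
  rw [collinear_iff_of_mem (p₀ := p) (Set.mem_insert _ _)]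
  refine ⟨p - r, ?_⟩
  intro s hs
  rw [Set.mem_insert_iff, Set.mem_insert_iff, Set.mem_singleton_iff] at hs
  rcases hs with rfl | rfl | rfl
  · exact ⟨0, by simp⟩
  · refine ⟨-((l : ℝ) / m), ?_⟩
    have h1 : (m : ℝ) • (p - s) = (l : ℝ) • (p - r) := by
      rw [Int.cast_smul_eq_zsmul, Int.cast_smul_eq_zsmul]
      exact sub_eq_zero.1 h
    have h2 : p - s = ((l : ℝ) / m) • (p - r) := by
      rw [div_eq_inv_mul, mul_smul, ← h1, smul_smul, inv_mul_cancel₀ hm', one_smul]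
    rw [vadd_eq_add, neg_smul, ← h2]
    abel
  · exact ⟨-1, by rw [vadd_eq_add, neg_smul, one_smul]; abel⟩

/-- COUNTING.  Let `S` be in general position with `|S - S| ≤ exp ℓ |S|` and `J` a positive
integer.  There is a set of integers `A`, `|A| = |S|`, `|A + A| ≤ exp (2ℓ) |A|`, such that for
every nonzero integer `d`, `|A| J ≤ 2 |A + prog d J|`.
Proof.  Let `F` be the finite set of all nonzero vectors `m (p - q) - l (p - r)`, `p, q, r ∈ S`,
`|m|, |l| ≤ J` integers, together with the nonzero differences.  As in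
`Pool.Agent.Results.MP_577aaf_co.LowerBound.exists_functional` there are a `ℚ`-linear
`g : ℝ × ℝ → ℚ` and `ψ` with integer values, `ψ = g` on `S`, and `g z ≠ 0` for `z ∈ F`
(copy that lemma into this file).  `A = ψ(S)`; `|A + A| ≤ |S + S| ≤ exp(2ℓ) |S|` by
`Finset.pluennecke_ruzsa_inequality_nsmul_sub` as in `main_step` there.  Every `z` has at most two
representations `z = a + i d` (`a ∈ A`, `i < J`): for three distinct ones `(a,i), (b,j), (c,l)`
the points `a = ψ p`, `b = ψ q`, `c = ψ r` are distinct (`d ≠ 0`), `a - b = (j-i) d`,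
`a - c = (l-i) d`, so `g ((l-i)(p-q) - (j-i)(p-r)) = 0`, hence `(l-i)(p-q) = (j-i)(p-r)` and
`p, q, r` are collinear. -/
theorem plane_to_int (S : Finset (ℝ × ℝ)) (hS : GeneralPosition S) (hne : S.Nonempty) {ℓ : ℝ}
    (hV : ((S - S).card : ℝ) ≤ exp ℓ * S.card) (J : ℕ) (hJ : 0 < J) :
    ∃ A : Finset ℤ, A.card = S.card ∧ ((A + A).card : ℝ) ≤ exp (2 * ℓ) * A.card ∧
      ∀ d : ℤ, d ≠ 0 → A.card * J ≤ 2 * (A + prog d J).card := by
  classical
  have hn0 : 0 < S.card := hne.card_pos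
  have hnr : (0 : ℝ) < S.card := by exact_mod_cast hn0
  -- the functional
  let dif : ((ℝ × ℝ) × (ℝ × ℝ) × (ℝ × ℝ)) × (ℤ × ℤ) → ℝ × ℝ := fun x =>
    x.2.1 • (x.1.1 - x.1.2.1) - x.2.2 • (x.1.1 - x.1.2.2)
  let F : Finset (ℝ × ℝ) := (((S ×ˢ (S ×ˢ S)) ×ˢ
    (Finset.Icc (-(J : ℤ)) J ×ˢ Finset.Icc (-(J : ℤ)) J)).image dif).filter fun z => z ≠ 0
  obtain ⟨g, ψ, hψ, hg⟩ := Plane_functional S F fun z hz => (Finset.mem_filter.1 hz).2
  have hker : ∀ p ∈ S, ∀ q ∈ S, ∀ r ∈ S, ∀ m l : ℤ, -(J : ℤ) ≤ m → m ≤ J → -(J : ℤ) ≤ l → l ≤ J →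
      m * (ψ p - ψ q) - l * (ψ p - ψ r) = 0 → m • (p - q) - l • (p - r) = 0 := by
    intro p hp q hq r hr m l hm1 hm2 hl1 hl2 h
    by_contra hcon
    refine hg (m • (p - q) - l • (p - r)) ?_ ?_
    · refine Finset.mem_filter.2 ⟨Finset.mem_image.2 ⟨((p, (q, r)), (m, l)), ?_, rfl⟩, hcon⟩
      simp only [Finset.mem_product, Finset.mem_Icc]
      exact ⟨⟨hp, hq, hr⟩, ⟨hm1, hm2⟩, hl1, hl2⟩
    · rw [map_sub, map_zsmul, map_zsmul, map_sub, map_sub, ← hψ p hp, ← hψ q hq, ← hψ r hr,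
        zsmul_eq_mul, zsmul_eq_mul]
      exact_mod_cast h
  have hJ1 : (1 : ℤ) ≤ J := by exact_mod_cast hJ
  have hψinj : Set.InjOn ψ (S : Set (ℝ × ℝ)) := by
    intro p hp q hq h
    have h1 := hker p hp q hq p hp 1 0 (by omega) hJ1 (by omega) (by omega)
      (by rw [h]; ring)
    simpa [sub_eq_zero] using h1
  let A : Finset ℤ := S.image ψ
  have hAc : A.card = S.card := Finset.card_image_of_injOn hψinj
  have hSS : ((S + S).card : ℝ) ≤ Real.exp (2 * ℓ) * S.card := by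
    have h1 := Finset.pluennecke_ruzsa_inequality_nsmul_sub hne S 2
    have h2 : (((2 • S).card : ℚ≥0) : ℝ) ≤ (((((S - S).card : ℚ≥0) / (S.card : ℚ≥0)) ^ 2 *
        (S.card : ℚ≥0) : ℚ≥0) : ℝ) := by exact_mod_cast h1
    push_cast at h2
    rw [two_nsmul] at h2
    refine h2.trans ?_
    have h3 : ((S - S).card : ℝ) / S.card ≤ exp ℓ := by
      rw [div_le_iff₀ hnr]
      exact hV
    have h4 : (((S - S).card : ℝ) / S.card) ^ 2 ≤ exp ℓ ^ 2 :=
      pow_le_pow_left₀ (by positivity) h3 2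
    have h5 : exp ℓ ^ 2 = exp (2 * ℓ) := by
      rw [← Real.exp_nat_mul]
      norm_num
    rw [h5] at h4
    exact mul_le_mul_of_nonneg_right h4 hnr.le
  have hAA : ((A + A).card : ℝ) ≤ Real.exp (2 * ℓ) * A.card := by
    rw [hAc]
    refine le_trans ?_ hSS
    have hex : ∀ z ∈ A + A, ∃ y ∈ S + S, g y = z := by
      intro z hz
      obtain ⟨x, hx, y, hy, rfl⟩ := Finset.mem_add.1 hz
      obtain ⟨p, hp, rfl⟩ := Finset.mem_image.1 hx
      obtain ⟨q, hq, rfl⟩ := Finset.mem_image.1 hy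
      exact ⟨p + q, Finset.add_mem_add hp hq, by rw [map_add, ← hψ p hp, ← hψ q hq]; push_cast; rfl⟩
    have hcard : (A + A).card ≤ (S + S).card := by
      calc (A + A).card = ((A + A).image fun z : ℤ => (z : ℚ)).card :=
            (Finset.card_image_of_injective _ Int.cast_injective).symm
        _ ≤ ((S + S).image g).card := by
            refine Finset.card_le_card ?_
            intro z hz
            obtain ⟨y, hy, rfl⟩ := Finset.mem_image.1 hz
            obtain ⟨x, hx, h⟩ := hex y hy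
            exact Finset.mem_image.2 ⟨x, hx, h⟩
        _ ≤ _ := Finset.card_image_le
    exact_mod_cast hcard
  refine ⟨A, hAc, hAA, ?_⟩
  intro d hd
  have h0 : A.card * J = (A ×ˢ Finset.range J).card := by
    rw [Finset.card_product, Finset.card_range]
  have hsub : ((A ×ˢ Finset.range J).image fun x : ℤ × ℕ => x.1 + x.2 • d) ⊆ A + prog d J := by
    intro z hz
    obtain ⟨⟨a, j⟩, haj, rfl⟩ := Finset.mem_image.1 hz
    obtain ⟨ha, hj⟩ := Finset.mem_product.1 haj
    exact Finset.add_mem_add ha (Finset.mem_image.2 ⟨j, hj, rfl⟩)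
  have hcount : (A ×ˢ Finset.range J).card ≤
      2 * ((A ×ˢ Finset.range J).image fun x : ℤ × ℕ => x.1 + x.2 • d).card := by
    refine Finset.card_le_mul_card_image _ 2 ?_
    intro z _
    by_contra hcon
    push Not at hcon
    obtain ⟨⟨a, i⟩, ha, ⟨b, j⟩, hb, ⟨c, k⟩, hc, hab, hac, hbc⟩ := Finset.two_lt_card.1 hcon
    simp only [Finset.mem_filter, Finset.mem_product, Finset.mem_range, nsmul_eq_mul] at ha hb hc
    have key : ∀ (a b : ℤ) (i j : ℕ), a + (i : ℤ) * d = z → b + (j : ℤ) * d = z →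
        (a, i) ≠ (b, j) → (i : ℤ) ≠ j ∧ a ≠ b := by
      intro a b i j h1 h2 h3
      have h4 : (i : ℤ) ≠ j := by
        intro h
        apply h3
        have h5 : i = j := by exact_mod_cast h
        subst h5
        have h6 : a = b := by linarith
        rw [h6]
      refine ⟨h4, ?_⟩
      intro h
      subst h
      have h7 : ((i : ℤ) - j) * d = 0 := by linarith
      rcases mul_eq_zero.1 h7 with h8 | h8
      · exact h4 (sub_eq_zero.1 h8)
      · exact hd h8
    obtain ⟨e1, f1⟩ := key a b i j ha.2 hb.2 hab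
    obtain ⟨e2, f2⟩ := key a c i k ha.2 hc.2 hac
    obtain ⟨_, f3⟩ := key b c j k hb.2 hc.2 hbc
    obtain ⟨p, hp, hpa⟩ := Finset.mem_image.1 ha.1.1
    obtain ⟨q, hq, hqb⟩ := Finset.mem_image.1 hb.1.1
    obtain ⟨r, hr, hrc⟩ := Finset.mem_image.1 hc.1.1
    have hpq : p ≠ q := fun h => f1 (by rw [← hpa, ← hqb, h])
    have hpr : p ≠ r := fun h => f2 (by rw [← hpa, ← hrc, h])
    have hqr : q ≠ r := fun h => f3 (by rw [← hqb, ← hrc, h])
    have hi := ha.1.2
    have hj := hb.1.2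
    have hk := hc.1.2
    have hrel : ((k : ℤ) - i) * (ψ p - ψ q) - ((j : ℤ) - i) * (ψ p - ψ r) = 0 := by
      have h1 : a - b = ((j : ℤ) - i) * d := by linarith [ha.2, hb.2]
      have h2 : a - c = ((k : ℤ) - i) * d := by linarith [ha.2, hc.2]
      rw [hpa, hqb, hrc, h1, h2]
      ring
    have hz := hker p hp q hq r hr ((k : ℤ) - i) ((j : ℤ) - i) (by omega) (by omega) (by omega)
      (by omega) hrel
    exact hS p hp q hq r hr hpq hpr hqr (Plane_collinear (sub_ne_zero.2 (Ne.symm e2)) hz)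
  rw [h0]
  exact hcount.trans (Nat.mul_le_mul_left _ (Finset.card_le_card hsub))

end Pool.Agent.OSP
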