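import Pool.Agent.OSP_h95.Walk

/-!
# From entropy to sumsets
-/

set_option autoImplicit false

namespace Pool.Agent.OSP

open Finset Real Pool.Agent.QFR
open scoped Pointwise

/-- the progression `{j w : j < J}` -/
def prog {G : Type} [AddCommGroup G] [DecidableEq G] (w : G) (J : ℕ) : Finset G :=
  (Finset.range J).image fun j : ℕ => j • w

variable {G : Type} [AddCommGroup G] [Fintype G] [DecidableEq G]

/-- number of representations of `z` -/
noncomputable def Popular_rho (A : Finset G) (w : G) (J : ℕ) (z : G) : ℝ :=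
  ∑ a ∈ A, (((Finset.range J).filter fun j : ℕ => j • w = z - a).card : ℝ)

omit [Fintype G] in
theorem Popular_rho_nonneg (A : Finset G) (w : G) (J : ℕ) (z : G) : 0 ≤ Popular_rho A w J z :=
  Finset.sum_nonneg fun _ _ => Nat.cast_nonneg _

omit [Fintype G] in
theorem Popular_rho_le (A : Finset G) (w : G) (J : ℕ) (z : G) : Popular_rho A w J z ≤ J := by
  unfold Popular_rho
  have h1 : ∑ a ∈ A, ((Finset.range J).filter fun j : ℕ => j • w = z - a).card =
      ((Finset.range J).filter fun j : ℕ => z - j • w ∈ A).card := by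
    rw [Finset.card_eq_sum_card_fiberwise (f := fun j : ℕ => z - j • w) (t := A)
      (s := (Finset.range J).filter fun j : ℕ => z - j • w ∈ A)
      (fun j hj => (Finset.mem_filter.1 (Finset.mem_coe.1 hj)).2)]
    refine Finset.sum_congr rfl fun a ha => ?_
    congr 1
    ext j
    simp only [Finset.mem_filter, Finset.mem_range]
    constructor
    · rintro ⟨hj, h⟩
      refine ⟨⟨hj, ?_⟩, ?_⟩
      · rw [h, sub_sub_cancel]
        exact ha
      · rw [h, sub_sub_cancel]
    · rintro ⟨⟨hj, _⟩, h⟩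
      exact ⟨hj, by rw [← h, sub_sub_cancel]⟩
  have h2 : ((Finset.range J).filter fun j : ℕ => z - j • w ∈ A).card ≤ J :=
    (Finset.card_filter_le _ _).trans (by rw [Finset.card_range])
  rw [← Nat.cast_sum, h1]
  exact_mod_cast h2

omit [Fintype G] in
theorem Popular_sum (A Z : Finset G) (w : G) (J : ℕ) :
    ∑ z ∈ Z, Popular_rho A w J z =
      ∑ a ∈ A, (((Finset.range J).filter fun j : ℕ => a + j • w ∈ Z).card : ℝ) := by
  unfold Popular_rho
  rw [Finset.sum_comm]
  refine Finset.sum_congr rfl fun a _ => ?_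
  rw [Finset.card_eq_sum_card_fiberwise (f := fun j : ℕ => a + j • w) (t := Z)
      (s := (Finset.range J).filter fun j : ℕ => a + j • w ∈ Z)
      (fun j hj => (Finset.mem_filter.1 (Finset.mem_coe.1 hj)).2), Nat.cast_sum]
  refine Finset.sum_congr rfl fun z hz => ?_
  congr 2
  ext j
  simp only [Finset.mem_filter, Finset.mem_range]
  constructor
  · rintro ⟨hj, h⟩
    refine ⟨⟨hj, ?_⟩, ?_⟩
    · rw [h, add_sub_cancel]
      exact hz
    · rw [h, add_sub_cancel]
  · rintro ⟨⟨hj, _⟩, h⟩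
    exact ⟨hj, by rw [← h, add_sub_cancel_left]⟩

/-- POPULAR VALUES.  Let `J = 2^r` and `ρ(z) = #{j < J : z - j w ∈ A}`; the law of
`X + walk` at `z` is `ρ(z) / (|A| J)` (`walk_m`; the label types are trivial), so the hypothesis
says `Σ_z ρ(z)/(|A|J) log (J/ρ(z)) ≤ c`.  By Markov (`log (J/ρ) ≥ 0`) the set
`Z = {z : ρ(z) ≥ exp(-2c) J}` has `Σ_{z∈Z} ρ(z) ≥ |A| J / 2`, and `|Z| exp(-2c) J ≤ |A| J`.
(If `c = 0` then `ρ ∈ {0, J}` on the support and `Z` is the support.) -/
theorem popular (A : Finset G) (hA : A.Nonempty) (w : G) (r : ℕ) {c : ℝ} (hc : 0 ≤ c)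
    (h : ((Fam.unif A hA).add (walk w r)).H ≤ Real.log A.card + c) :
    ∃ Z : Finset G, (Z.card : ℝ) ≤ exp (2 * c) * A.card ∧
      (A.card : ℝ) * 2 ^ r / 2 ≤
        ∑ a ∈ A, (((Finset.range (2 ^ r)).filter fun j : ℕ => a + j • w ∈ Z).card : ℝ) := by
  obtain ⟨J, hJ⟩ : ∃ J : ℕ, J = 2 ^ r := ⟨_, rfl⟩
  have hJpos : (0 : ℝ) < J := by rw [hJ]; positivity
  have hJr : ((2 : ℝ) ^ r) = J := by rw [hJ]; push_cast; rfl
  have hApos : (0 : ℝ) < A.card := by exact_mod_cast hA.card_pos
  obtain ⟨e, he⟩ := walk_m w r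
  rw [← hJ] at he ⊢
  rw [hJr] at he ⊢
  obtain ⟨ρ, hρ⟩ : ∃ ρ : G → ℝ, ρ = Popular_rho A w J := ⟨_, rfl⟩
  obtain ⟨ν, hν⟩ : ∃ ν : G → ℝ, ν = fun z => ρ z / (A.card * J) := ⟨_, rfl⟩
  have hρ0 : ∀ z, 0 ≤ ρ z := fun z => by rw [hρ]; exact Popular_rho_nonneg A w J z
  have hρJ : ∀ z, ρ z ≤ J := fun z => by rw [hρ]; exact Popular_rho_le A w J z
  have hν0 : ∀ z, 0 ≤ ν z := fun z => by
    rw [hν]
    exact div_nonneg (hρ0 z) (by positivity)
  have hm : ∀ i, conv (QFR.unif A) ((walk w r).m i) = ν := by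
    intro i
    funext z
    unfold conv
    have h1 : ∀ y, QFR.unif A y * (walk w r).m i (z - y) = if y ∈ A then
        (((Finset.range J).filter fun j : ℕ => j • w = z - y).card : ℝ) / (A.card * J) else 0 := by
      intro y
      rw [he]
      unfold QFR.unif
      split_ifs
      · field_simp
      · rw [zero_mul]
    rw [Finset.sum_congr rfl fun y _ => h1 y, Finset.sum_ite_mem, Finset.univ_inter, hν, hρ]
    unfold Popular_rho
    exact (Finset.sum_div _ _ _).symm
  have hι : Fintype.card (walk w r).ι = 1 := by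
    rw [Fintype.card_congr e, Fintype.card_unit]
  obtain ⟨i0⟩ : Nonempty (walk w r).ι := ⟨e.symm ()⟩
  have hν1 : ∑ z, ν z = 1 := by
    rw [← hm i0, sum_conv, sum_unif hA, one_mul]
    have h2 := (walk w r).tot
    have h3 : ∀ i ∈ (Finset.univ : Finset (walk w r).ι), i ≠ i0 → ∑ x, (walk w r).m i x = 0 := by
      intro i _ hi
      exact absurd (Fintype.card_le_one_iff.1 hι.le i i0) hi
    rw [Finset.sum_eq_single i0 h3 (fun h => absurd (Finset.mem_univ _) h)] at h2
    exact h2
  have hH : ((Fam.unif A hA).add (walk w r)).H = ent ν := by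
    show ∑ i : Unit × (walk w r).ι, ent (conv (QFR.unif A) ((walk w r).m i.2)) = _
    rw [Finset.sum_congr rfl fun i _ => by rw [hm i.2], Finset.sum_const, Finset.card_univ,
      Fintype.card_prod, Fintype.card_unit, hι]
    simp
  obtain ⟨L, hL⟩ : ∃ L : G → ℝ, L = fun z => Real.log J - Real.log (ρ z) := ⟨_, rfl⟩
  have hterm : ∀ z, negMulLog (ν z) = ν z * Real.log A.card + ν z * L z := by
    intro z
    rcases eq_or_lt_of_le (hρ0 z) with h0 | h0
    · have : ν z = 0 := by
        rw [hν]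
        simp only
        rw [← h0, zero_div]
      rw [this]
      simp
    · have h4 : Real.log (ν z) = Real.log (ρ z) - (Real.log A.card + Real.log J) := by
        rw [hν]
        simp only
        rw [Real.log_div h0.ne' (by positivity), Real.log_mul hApos.ne' hJpos.ne']
      unfold negMulLog
      rw [h4, hL]
      ring
  have hsumL : ∑ z, ν z * L z ≤ c := by
    rw [hH] at h
    unfold ent at h
    rw [hν1, Real.negMulLog_one, sub_zero, Finset.sum_congr rfl fun z _ => hterm z,
      Finset.sum_add_distrib, ← Finset.sum_mul, hν1, one_mul] at h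
    linarith
  have hLnn : ∀ z, 0 ≤ ν z * L z := by
    intro z
    rcases eq_or_lt_of_le (hρ0 z) with h0 | h0
    · have : ν z = 0 := by
        rw [hν]
        simp only
        rw [← h0, zero_div]
      rw [this, zero_mul]
    · refine mul_nonneg (hν0 z) ?_
      rw [hL]
      simp only
      have := Real.log_le_log h0 (hρJ z)
      linarith
  obtain ⟨Z, hZ⟩ : ∃ Z : Finset G, Z = Finset.univ.filter (fun z => exp (-(2 * c)) * J ≤ ρ z) :=
    ⟨_, rfl⟩
  have hZmem : ∀ z, z ∈ Z ↔ exp (-(2 * c)) * J ≤ ρ z := by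
    intro z
    rw [hZ, Finset.mem_filter]
    exact ⟨fun h => h.2, fun h => ⟨Finset.mem_univ _, h⟩⟩
  have hLbig : ∀ z, z ∉ Z → 0 < ρ z → 2 * c < L z := by
    intro z hz h0
    rw [hZmem] at hz
    push Not at hz
    have h5 := Real.log_lt_log h0 hz
    rw [Real.log_mul (exp_pos _).ne' hJpos.ne', Real.log_exp] at h5
    rw [hL]
    simp only
    linarith
  have hνpos : ∀ z, 0 < ρ z → 0 < ν z := by
    intro z h0
    rw [hν]
    positivity
  have hνzero : ∀ z, ρ z = 0 → ν z = 0 := by
    intro z h0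
    rw [hν]
    simp only
    rw [h0, zero_div]
  have hout : ∑ z ∈ Zᶜ, ν z ≤ 1 / 2 := by
    rcases eq_or_lt_of_le hc with hc0 | hc0
    · have h6 : ∑ z, ν z * L z = 0 :=
        le_antisymm (hc0 ▸ hsumL) (Finset.sum_nonneg fun z _ => hLnn z)
      have h7 := (Finset.sum_eq_zero_iff_of_nonneg fun z _ => hLnn z).1 h6
      have h8 : ∑ z ∈ Zᶜ, ν z = 0 := by
        refine Finset.sum_eq_zero fun z hz => ?_
        rw [Finset.mem_compl] at hz
        rcases eq_or_lt_of_le (hρ0 z) with h0 | h0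
        · exact hνzero z h0.symm
        · have h9 := h7 z (Finset.mem_univ _)
          have h10 := mul_pos (hνpos z h0) (lt_of_le_of_lt (by linarith) (hLbig z hz h0))
          exact absurd h9 h10.ne'
      rw [h8]
      norm_num
    · have h6 : ∑ z ∈ Zᶜ, 2 * c * ν z ≤ ∑ z ∈ Zᶜ, ν z * L z := by
        refine Finset.sum_le_sum fun z hz => ?_
        rw [Finset.mem_compl] at hz
        rcases eq_or_lt_of_le (hρ0 z) with h0 | h0
        · rw [hνzero z h0.symm, mul_zero, zero_mul]
        · rw [mul_comm (2 * c)]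
          exact mul_le_mul_of_nonneg_left (hLbig z hz h0).le (hν0 z)
      have h7 : ∑ z ∈ Zᶜ, ν z * L z ≤ ∑ z, ν z * L z :=
        Finset.sum_le_sum_of_subset_of_nonneg (Finset.subset_univ _) fun z _ _ => hLnn z
      rw [← Finset.mul_sum] at h6
      have h8 : 2 * c * ∑ z ∈ Zᶜ, ν z ≤ 2 * c * (1 / 2) := by linarith
      exact le_of_mul_le_mul_left h8 (by linarith)
  have hin : 1 / 2 ≤ ∑ z ∈ Z, ν z := by
    have := Finset.sum_add_sum_compl Z ν
    linarith
  have hρν : ∀ z, ρ z = A.card * J * ν z := by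
    intro z
    rw [hν]
    simp only
    field_simp
  have hsumZ : ∑ z ∈ Z, ρ z = A.card * J * ∑ z ∈ Z, ν z := by
    rw [Finset.mul_sum]
    exact Finset.sum_congr rfl fun z _ => hρν z
  refine ⟨Z, ?_, ?_⟩
  · have h11 : (Z.card : ℝ) * (exp (-(2 * c)) * J) ≤ ∑ z ∈ Z, ρ z := by
      rw [← nsmul_eq_mul, ← Finset.sum_const]
      exact Finset.sum_le_sum fun z hz => (hZmem z).1 hz
    have h12 : ∑ z ∈ Z, ρ z ≤ A.card * J := by
      rw [hsumZ]
      have h13 : ∑ z ∈ Z, ν z ≤ 1 := by
        rw [← hν1]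
        exact Finset.sum_le_sum_of_subset_of_nonneg (Finset.subset_univ _) fun z _ _ => hν0 z
      have := mul_le_mul_of_nonneg_left h13 (mul_pos hApos hJpos).le
      linarith
    have h14 : (Z.card : ℝ) * exp (-(2 * c)) * J ≤ A.card * J := by
      rw [mul_assoc]
      exact h11.trans h12
    have h15 : (Z.card : ℝ) * exp (-(2 * c)) ≤ A.card := le_of_mul_le_mul_right h14 hJpos
    have h16 := mul_le_mul_of_nonneg_left h15 (exp_pos (2 * c)).le
    have h17 : exp (2 * c) * (Z.card * exp (-(2 * c))) = Z.card := by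
      have : exp (2 * c) * exp (-(2 * c)) = 1 := by
        rw [← Real.exp_add, add_neg_cancel, Real.exp_zero]
      linear_combination (Z.card : ℝ) * this
    rw [h17] at h16
    exact h16
  · rw [← Popular_sum, ← hρ, hsumZ]
    have := mul_le_mul_of_nonneg_left hin (mul_pos hApos hJpos).le
    linarith

end Pool.Agent.OSP
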