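import Pool.Agent.OSP_h95.Popular

/-!
# From `ZMod M` back to the integers
-/

set_option autoImplicit false

namespace Pool.Agent.OSP

open Finset Real Pool.Agent.QFR
open scoped Pointwise

/-- MANY RETURNS.  In an abelian group, if `|prog w J| = J` and `|A + prog w J| ≤ E |A|`
then there are `b ∈ A`, `j' < J` and a set `P ⊆ range J` with `|P| ≥ J/E` such that for `j ∈ P`
there is `a ∈ A` with `a + j w = b + j' w`.  Cauchy-Schwarz: the number of quadruples
`(a, j, b, j')` with `a + j w = b + j' w` is at least `(|A| J)² / |A + Q| ≥ |A| J · J / E`; take the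
pair `(b, j')` with the most partners `(a, j)`; `a` is determined by `j`. -/
theorem many_returns {G : Type} [AddCommGroup G] [DecidableEq G] (A : Finset G)
    (hA : A.Nonempty) (w : G) (J : ℕ) (hJ : 0 < J) {E : ℝ} (hE : 0 < E)
    (h : ((A + prog w J).card : ℝ) ≤ E * A.card) :
    ∃ b ∈ A, ∃ j' < J, ∃ P ⊆ Finset.range J, (J : ℝ) / E ≤ P.card ∧
      ∀ j ∈ P, ∃ a ∈ A, a + j • w = b + j' • w := by
  have hmemQ : ∀ j < J, j • w ∈ prog w J := fun j hj =>
    Finset.mem_image.2 ⟨j, Finset.mem_range.2 hj, rfl⟩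
  set S := A + prog w J with hS
  have hcount : ∑ z ∈ S, ((Finset.range J).filter fun j : ℕ => z - j • w ∈ A).card =
      J * A.card := by
    have h1 : ∀ z ∈ S, ((Finset.range J).filter fun j : ℕ => z - j • w ∈ A).card =
        ∑ j ∈ Finset.range J, if z - j • w ∈ A then 1 else 0 := fun z _ => by
      rw [Finset.card_filter]
    rw [Finset.sum_congr rfl h1, Finset.sum_comm]
    have h2 : ∀ j ∈ Finset.range J, ∑ z ∈ S, (if z - j • w ∈ A then 1 else 0) = A.card := by
      intro j hj
      rw [← Finset.card_filter]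
      have h3 : S.filter (fun z => z - j • w ∈ A) = A.image (fun a => a + j • w) := by
        ext z
        rw [Finset.mem_filter, Finset.mem_image]
        constructor
        · rintro ⟨-, hz⟩
          exact ⟨_, hz, by abel⟩
        · rintro ⟨a, ha, rfl⟩
          refine ⟨Finset.add_mem_add ha (hmemQ j (Finset.mem_range.1 hj)), ?_⟩
          rwa [add_sub_cancel_right]
      rw [h3, Finset.card_image_of_injective _ (add_left_injective _)]
    rw [Finset.sum_congr rfl h2, Finset.sum_const, Finset.card_range, smul_eq_mul]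
  have hApos : (0 : ℝ) < A.card := by exact_mod_cast hA.card_pos
  have hJpos : (0 : ℝ) < J := by exact_mod_cast hJ
  obtain ⟨z, hz, hzc⟩ : ∃ z ∈ S, (J : ℝ) / E ≤
      ((Finset.range J).filter fun j : ℕ => z - j • w ∈ A).card := by
    by_contra hcon
    push Not at hcon
    have hne : S.Nonempty := by
      obtain ⟨a, ha⟩ := hA
      exact ⟨_, Finset.add_mem_add ha (hmemQ 0 hJ)⟩
    have h1 : ∑ z ∈ S, (((Finset.range J).filter fun j : ℕ => z - j • w ∈ A).card : ℝ) <
        ∑ z ∈ S, (J : ℝ) / E := Finset.sum_lt_sum_of_nonempty hne hcon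
    rw [← Nat.cast_sum, hcount, Finset.sum_const, nsmul_eq_mul] at h1
    have h2 : (S.card : ℝ) * (J / E) ≤ E * A.card * (J / E) :=
      mul_le_mul_of_nonneg_right h (by positivity)
    have h3 : E * A.card * (J / E) = J * A.card := by field_simp
    push_cast at h1
    linarith
  obtain ⟨b, hb, y, hy, hby⟩ := Finset.mem_add.1 hz
  obtain ⟨j', hj', rfl⟩ := Finset.mem_image.1 hy
  refine ⟨b, hb, j', Finset.mem_range.1 hj', _, Finset.filter_subset _ _, hzc, fun j hj => ?_⟩
  refine ⟨z - j • w, (Finset.mem_filter.1 hj).2, ?_⟩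
  rw [hby, sub_add_cancel]

end Pool.Agent.OSP
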