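import Pool.Agent.OSP_h95.SysD

/-!
# Systems of short translates: pointwise bounds
-/

set_option autoImplicit false

namespace Pool.Agent.OSP

open Finset Real Pool.Agent.QFR

variable {G : Type} [AddCommGroup G] [Fintype G]

namespace SysData

variable {T : Fam G} {N : ℕ} {S : SysData T N} {η B C ν : ℝ}

/-- `alpha` with `g = α b`: `t (Σ α²)² ≤ Σ α²`; then Cauchy-Schwarz -/
theorem sum_abs_alpha (h : S.Ok η B C ν) {b : ℕ} (hb : b < N) :
    ∑ l, |S.α b l| ≤ √(N / S.t) := by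
  have ht := h.t0
  have h1 := h.alpha (S.α b)
  have h2 : (∑ l, S.α b l * S.α b l) ^ 2 ≤
      ∑ b' ∈ range N, (∑ l, S.α b' l * S.α b l) ^ 2 :=
    Finset.single_le_sum (f := fun b' => (∑ l, S.α b' l * S.α b l) ^ 2)
      (fun _ _ => sq_nonneg _) (Finset.mem_range.2 hb)
  have h3 : ∑ l, S.α b l * S.α b l = ∑ l, S.α b l ^ 2 :=
    Finset.sum_congr rfl fun l _ => (sq _).symm
  rw [h3] at h2
  set q := ∑ l, S.α b l ^ 2 with hq
  have hq0 : 0 ≤ q := Finset.sum_nonneg fun l _ => sq_nonneg _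
  have h4 : S.t * q ^ 2 ≤ q := (mul_le_mul_of_nonneg_left h2 ht.le).trans h1
  have h5 : q ≤ 1 / S.t := by
    rw [le_div_iff₀ ht]
    rcases hq0.eq_or_lt with h0 | h0
    · rw [← h0]; simp
    · nlinarith
  have h6 : (∑ l, |S.α b l|) ^ 2 ≤ N * q := by
    have := sq_sum_le_card_mul_sum_sq (s := (Finset.univ : Finset (Fin N)))
      (f := fun l => |S.α b l|)
    simpa [sq_abs] using this
  refine Real.le_sqrt_of_sq_le (h6.trans ?_)
  calc (N : ℝ) * q ≤ N * (1 / S.t) := mul_le_mul_of_nonneg_left h5 (Nat.cast_nonneg _)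
    _ = N / S.t := by ring

theorem SysA_abs_div_le (h : S.Ok η B C ν) {b : ℕ} (hb : b < N) (g : Fin N → ℝ) (M : ℝ)
    (hg : ∀ l, |g l| ≤ M * S.R) : |(∑ l, S.α b l * g l) / S.R| ≤ M * √(N / S.t) := by
  have hR := h.R0
  have hN : 0 < N := lt_of_le_of_lt (Nat.zero_le _) hb
  have hM : 0 ≤ M := by
    have h1 := (abs_nonneg _).trans (hg ⟨0, hN⟩)
    exact nonneg_of_mul_nonneg_left h1 hR
  rw [abs_div, abs_of_pos hR, div_le_iff₀ hR]
  calc |∑ l, S.α b l * g l| ≤ ∑ l, |S.α b l * g l| := Finset.abs_sum_le_sum_abs _ _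
    _ ≤ ∑ l, |S.α b l| * (M * S.R) := Finset.sum_le_sum fun l _ => by
        rw [abs_mul]
        exact mul_le_mul_of_nonneg_left (hg l) (abs_nonneg _)
    _ = (∑ l, |S.α b l|) * (M * S.R) := by rw [Finset.sum_mul]
    _ ≤ √(N / S.t) * (M * S.R) :=
        mul_le_mul_of_nonneg_right (sum_abs_alpha h hb) (mul_nonneg hM hR.le)
    _ = M * √(N / S.t) * S.R := by ring

theorem abs_hh_le (h : S.Ok η B C ν) {b : ℕ} (hb : b < N) (i j : T.ι) (s : G) :
    |S.hh b i j s| ≤ 2 * B * √(N / S.t) :=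
  SysA_abs_div_le h hb _ _ fun l => by
    have := h.w_le l i j s
    linarith

theorem abs_ee_le (h : S.Ok η B C ν) {b : ℕ} (hb : b < N) (i : T.ι) (x : G) :
    |S.ee b i x| ≤ B * √(N / S.t) :=
  SysA_abs_div_le h hb _ _ fun l => h.f_le l i x

/-- `bessel` with `φ = ω b`: `q² ≤ q`, `q = Ex ω²` -/
theorem om_sq_le (h : S.Ok η B C ν) {b : ℕ} (hb : b < N) :
    Ex T (fun i x => S.om b i x ^ 2) ≤ 1 := by
  have h1 := h.bessel (S.om b)
  have h2 : (Ex T fun i x => S.om b i x * S.om b i x) ^ 2 ≤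
      ∑ b' ∈ range N, (Ex T fun i x => S.om b i x * S.om b' i x) ^ 2 :=
    Finset.single_le_sum (f := fun b' => (Ex T fun i x => S.om b i x * S.om b' i x) ^ 2)
      (fun _ _ => sq_nonneg _) (Finset.mem_range.2 hb)
  have h3 : (fun (i : T.ι) (x : G) => S.om b i x * S.om b i x) = fun i x => S.om b i x ^ 2 := by
    funext i x; ring
  rw [h3] at h2
  have h4 := h2.trans h1
  have h5 : 0 ≤ Ex T (fun i x => S.om b i x ^ 2) := Ex_nonneg T fun i x => sq_nonneg _
  by_contra hc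
  rw [not_le] at hc
  nlinarith

/-- substitute `y ↦ y - D` : `ẽ b (x - D) = Σ_{j,y} T.m j (y - D) h b i j (x - y)` -/
theorem et_shift (b : ℕ) (i : T.ι) (x D : G) :
    S.et b i (x - D) = ∑ j, ∑ y, T.m j (y - D) * S.hh b i j (x - y) := by
  unfold et Ex
  refine Finset.sum_congr rfl fun j _ => ?_
  refine (Fintype.sum_equiv (Equiv.subRight D) _ _ fun y => ?_).symm
  simp only [Equiv.subRight_apply]
  congr 2
  abel

/-- `et_shift`, `l1_le`, `abs_hh_le` -/
theorem abs_et_shift_le (h : S.Ok η B C ν) {b : ℕ} (hb : b < N) (i : T.ι) (x : G) (l : Fin N) :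
    |S.et b i (x - S.D l) - S.et b i x| ≤ 4 * B * √(N / S.t) * S.R := by
  have h1 : S.et b i (x - S.D l) - S.et b i x =
      ∑ j, ∑ y, (T.m j (y - S.D l) - T.m j y) * S.hh b i j (x - y) := by
    rw [et_shift]
    unfold et Ex
    rw [← Finset.sum_sub_distrib]
    refine Finset.sum_congr rfl fun j _ => ?_
    rw [← Finset.sum_sub_distrib]
    exact Finset.sum_congr rfl fun y _ => by ring
  rw [h1]
  have hB := h.B0
  have hs : 0 ≤ √(N / S.t) := Real.sqrt_nonneg _
  have h2 : √(hel T (S.D l)) ≤ S.R := by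
    rw [Real.sqrt_le_left h.R0.le]
    exact h.hel_le l
  calc |∑ j, ∑ y, (T.m j (y - S.D l) - T.m j y) * S.hh b i j (x - y)|
      ≤ ∑ j, ∑ y, |T.m j (y - S.D l) - T.m j y| * (2 * B * √(N / S.t)) := by
        refine (Finset.abs_sum_le_sum_abs _ _).trans (Finset.sum_le_sum fun j _ => ?_)
        refine (Finset.abs_sum_le_sum_abs _ _).trans (Finset.sum_le_sum fun y _ => ?_)
        rw [abs_mul]
        exact mul_le_mul_of_nonneg_left (abs_hh_le h hb i j _) (abs_nonneg _)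
    _ = (∑ j, ∑ y, |T.m j (y - S.D l) - T.m j y|) * (2 * B * √(N / S.t)) := by
        simp only [Finset.sum_mul]
    _ ≤ (2 * S.R) * (2 * B * √(N / S.t)) := by
        refine mul_le_mul_of_nonneg_right ((l1_le T (S.D l)).trans ?_) (by positivity)
        linarith
    _ = 4 * B * √(N / S.t) * S.R := by ring

end SysData

end Pool.Agent.OSP
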