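import Pool.Agent.OSP_h95.SysA

/-!
# Systems of short translates: mean square bounds
-/

set_option autoImplicit false

namespace Pool.Agent.OSP

open Finset Real Pool.Agent.QFR

variable {G : Type} [AddCommGroup G] [Fintype G]

namespace SysData

variable {T : Fam G} {N : ℕ} {S : SysData T N} {η B C ν : ℝ}

/-- the hypothesis `alpha` divided by `t R²` -/
theorem SysB_alpha (h : S.Ok η B C ν) (g : Fin N → ℝ) (F : ℕ → ℝ)
    (hF : ∀ b, F b = (∑ l, S.α b l * g l) / S.R) :
    ∑ b ∈ range N, F b ^ 2 ≤ (1 / (S.t * S.R ^ 2)) * ∑ l, g l ^ 2 := by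
  have hR := h.R0
  have ht := h.t0
  have h1 := h.alpha g
  have h3 : ∑ b ∈ range N, F b ^ 2 =
      (∑ b ∈ range N, (∑ l, S.α b l * g l) ^ 2) / S.R ^ 2 := by
    rw [Finset.sum_div]
    refine Finset.sum_congr rfl fun b _ => ?_
    rw [hF, div_pow]
  rw [h3, div_le_iff₀ (by positivity)]
  have h4 : 1 / (S.t * S.R ^ 2) * (∑ l, g l ^ 2) * S.R ^ 2 = (∑ l, g l ^ 2) / S.t := by
    field_simp
  rw [h4, le_div_iff₀ ht]
  linarith

/-- `alpha` pointwise with `g = (f - u)(i, x) / R`, then `uf` -/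
theorem sum_ee_om (h : S.Ok η B C ν) :
    ∑ b ∈ range N, Ex T (fun i x => (S.ee b i x - S.om b i x) ^ 2) ≤ N * η / S.t := by
  have hR := h.R0
  have ht := h.t0
  rw [← Ex_sum]
  have key : ∀ i x, ∑ b ∈ range N, (S.ee b i x - S.om b i x) ^ 2 ≤
      (1 / (S.t * S.R ^ 2)) * ∑ l, (S.u l i x - S.f l i x) ^ 2 := by
    intro i x
    have h5 : ∀ b, (S.ee b i x - S.om b i x) ^ 2 = (S.om b i x - S.ee b i x) ^ 2 := fun b => by
      ring
    rw [Finset.sum_congr rfl fun b _ => h5 b]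
    refine SysB_alpha h (fun l => S.u l i x - S.f l i x) (fun b => S.om b i x - S.ee b i x) ?_
    intro b
    show S.om b i x - S.ee b i x = _
    unfold ee om
    rw [← sub_div, ← Finset.sum_sub_distrib]
    refine congrArg (fun z => z / S.R) (Finset.sum_congr rfl fun l _ => ?_)
    ring
  refine (Ex_mono T key).trans ?_
  rw [Ex_mul_left, Ex_sum]
  have h6 : ∑ l : Fin N, Ex T (fun i x => (S.u l i x - S.f l i x) ^ 2) ≤
      ∑ l : Fin N, η * S.R ^ 2 := Finset.sum_le_sum fun l _ => h.uf l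
  rw [Finset.sum_const, Finset.card_univ, Fintype.card_fin, nsmul_eq_mul] at h6
  calc 1 / (S.t * S.R ^ 2) * ∑ l : Fin N, Ex T (fun i x => (S.u l i x - S.f l i x) ^ 2)
      ≤ 1 / (S.t * S.R ^ 2) * (N * (η * S.R ^ 2)) :=
        mul_le_mul_of_nonneg_left h6 (by positivity)
    _ = N * η / S.t := by field_simp

/-- `alpha` pointwise with `g = (w - (f - f')) / R`, then `wf` -/
theorem sum_hh_ee (h : S.Ok η B C ν) :
    ∑ b ∈ range N, Ex T (fun i x => Ex T fun j y =>
      (S.hh b i j (x - y) - (S.ee b i x - S.ee b j y)) ^ 2) ≤ N * η / S.t := by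
  have hR := h.R0
  have ht := h.t0
  rw [← Ex_sum]
  have key : ∀ i x, ∑ b ∈ range N, (Ex T fun j y =>
      (S.hh b i j (x - y) - (S.ee b i x - S.ee b j y)) ^ 2) ≤
      (1 / (S.t * S.R ^ 2)) * ∑ l, Ex T fun j y =>
        (S.w l i j (x - y) - (S.f l i x - S.f l j y)) ^ 2 := by
    intro i x
    rw [← Ex_sum, ← Ex_sum, ← Ex_mul_left]
    refine Ex_mono T fun j y => ?_
    refine SysB_alpha h (fun l => S.w l i j (x - y) - (S.f l i x - S.f l j y))
      (fun b => S.hh b i j (x - y) - (S.ee b i x - S.ee b j y)) ?_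
    intro b
    show S.hh b i j (x - y) - (S.ee b i x - S.ee b j y) = _
    unfold ee hh
    rw [← sub_div, ← sub_div, ← Finset.sum_sub_distrib, ← Finset.sum_sub_distrib]
    refine congrArg (fun z => z / S.R) (Finset.sum_congr rfl fun l _ => ?_)
    ring
  refine (Ex_mono T key).trans ?_
  rw [Ex_mul_left, Ex_sum]
  have h6 : ∑ l : Fin N, Ex T (fun i x => Ex T fun j y =>
      (S.w l i j (x - y) - (S.f l i x - S.f l j y)) ^ 2) ≤
      ∑ l : Fin N, η * S.R ^ 2 := Finset.sum_le_sum fun l _ => h.wf l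
  rw [Finset.sum_const, Finset.card_univ, Fintype.card_fin, nsmul_eq_mul] at h6
  calc 1 / (S.t * S.R ^ 2) * ∑ l : Fin N, Ex T (fun i x => Ex T fun j y =>
      (S.w l i j (x - y) - (S.f l i x - S.f l j y)) ^ 2)
      ≤ 1 / (S.t * S.R ^ 2) * (N * (η * S.R ^ 2)) :=
        mul_le_mul_of_nonneg_left h6 (by positivity)
    _ = N * η / S.t := by field_simp

/-- `h = r + e - e'`, `(r + e - e')² ≤ 3 (r² + e² + e'²)`, `Ex e² ≤ 2 Ex ω² + 2 Ex (e-ω)²` -/
theorem sum_hh_sq (h : S.Ok η B C ν) (hη : η ≤ S.t) :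
    ∑ b ∈ range N, Ex T (fun i x => Ex T fun j y => S.hh b i j (x - y) ^ 2) ≤ 27 * N := by
  have ht := h.t0
  have hN : (N : ℝ) * η / S.t ≤ N := by
    rw [div_le_iff₀ ht]
    exact mul_le_mul_of_nonneg_left hη (Nat.cast_nonneg N)
  have hee : ∀ b ∈ range N, Ex T (fun i x => S.ee b i x ^ 2) ≤
      2 + 2 * Ex T (fun i x => (S.ee b i x - S.om b i x) ^ 2) := by
    intro b hb
    have h1 := om_sq_le h (Finset.mem_range.mp hb)
    have h2 : Ex T (fun i x => S.ee b i x ^ 2) ≤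
        Ex T (fun i x => 2 * S.om b i x ^ 2 + 2 * (S.ee b i x - S.om b i x) ^ 2) := by
      refine Ex_mono T fun i x => ?_
      nlinarith [sq_nonneg (S.ee b i x - 2 * S.om b i x)]
    rw [Ex_add, Ex_mul_left, Ex_mul_left] at h2
    linarith
  have hS : ∑ b ∈ range N, Ex T (fun i x => S.ee b i x ^ 2) ≤ 4 * N := by
    refine (Finset.sum_le_sum hee).trans ?_
    rw [Finset.sum_add_distrib, ← Finset.mul_sum, Finset.sum_const, Finset.card_range,
      nsmul_eq_mul]
    have := sum_ee_om h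
    linarith
  have hh1 : ∀ b ∈ range N, Ex T (fun i x => Ex T fun j y => S.hh b i j (x - y) ^ 2) ≤
      3 * Ex T (fun i x => Ex T fun j y =>
        (S.hh b i j (x - y) - (S.ee b i x - S.ee b j y)) ^ 2) +
      6 * Ex T (fun i x => S.ee b i x ^ 2) := by
    intro b _
    have h2 : Ex T (fun i x => Ex T fun j y => S.hh b i j (x - y) ^ 2) ≤
        Ex T (fun i x => Ex T fun j y =>
          3 * (S.hh b i j (x - y) - (S.ee b i x - S.ee b j y)) ^ 2 +
          (3 * S.ee b i x ^ 2 + 3 * S.ee b j y ^ 2)) := by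
      refine Ex_mono T fun i x => Ex_mono T fun j y => ?_
      nlinarith [sq_nonneg (S.hh b i j (x - y) - (S.ee b i x - S.ee b j y) - S.ee b i x),
        sq_nonneg (S.hh b i j (x - y) - (S.ee b i x - S.ee b j y) + S.ee b j y),
        sq_nonneg (S.ee b i x + S.ee b j y)]
    simp only [Ex_add, Ex_mul_left, Ex_const] at h2
    linarith
  refine (Finset.sum_le_sum hh1).trans ?_
  rw [Finset.sum_add_distrib, ← Finset.mul_sum, ← Finset.mul_sum]
  have := sum_hh_ee h
  linarith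

end SysData

end Pool.Agent.OSP
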