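import Pool.Agent.OSP_h95.Hel
import Pool.Agent.OSP_h95.ExLem

/-!
# Systems of short translates: definitions and first estimates
-/

set_option autoImplicit false

namespace Pool.Agent.OSP

open Finset Real Pool.Agent.QFR

variable {G : Type} [AddCommGroup G] [Fintype G]

/-- the data: translates `D l` with their functions `u l`, `f l`, `w l` (see `Nice`) and
coefficients `α` (see `gs`) -/
structure SysData (T : Fam G) (N : ℕ) where
  D : Fin N → G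
  u : Fin N → T.ι → G → ℝ
  f : Fin N → T.ι → G → ℝ
  w : Fin N → T.ι → T.ι → G → ℝ
  α : ℕ → Fin N → ℝ
  R : ℝ
  t : ℝ

namespace SysData

variable {T : Fam G} {N : ℕ} (S : SysData T N)

/-- the (nearly orthonormal) combinations `ω b = Σ_l α b l u l / R` -/
noncomputable def om (b : ℕ) (i : T.ι) (x : G) : ℝ := (∑ l, S.α b l * S.u l i x) / S.R

/-- the bounded versions `e b = Σ_l α b l f l / R` -/
noncomputable def ee (b : ℕ) (i : T.ι) (x : G) : ℝ := (∑ l, S.α b l * S.f l i x) / S.R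

/-- `h b = Σ_l α b l w l / R` -/
noncomputable def hh (b : ℕ) (i j : T.ι) (s : G) : ℝ := (∑ l, S.α b l * S.w l i j s) / S.R

/-- `ẽ b (i, x) = E h b (i, j, x - y)` -/
noncomputable def et (b : ℕ) (i : T.ι) (x : G) : ℝ := Ex T fun j y => S.hh b i j (x - y)

/-- `Γ a b (i, x) = Σ_l α a l (ẽ b (x - D l) - ẽ b (x)) / R` -/
noncomputable def Gam (a b : ℕ) (i : T.ι) (x : G) : ℝ :=
  (∑ l, S.α a l * (S.et b i (x - S.D l) - S.et b i x)) / S.R

/-- the hypotheses on a system -/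
structure Ok (η B C ν : ℝ) : Prop where
  N1 : 1 ≤ N
  R0 : 0 < S.R
  R1 : S.R ≤ 1
  t0 : 0 < S.t
  t1 : S.t ≤ 1
  η0 : 0 ≤ η
  B0 : 0 < B
  C0 : 0 < C
  hel_le : ∀ l, hel T (S.D l) ≤ S.R ^ 2
  v_le : ∀ l, ∑ i, ∑ x, |T.m i (x - S.D l) - T.m i x - T.m i x * S.u l i x| ≤ C * S.R ^ 2
  f_le : ∀ l i x, |S.f l i x| ≤ B * S.R
  w_le : ∀ l i j s, |S.w l i j s| ≤ 2 * (B * S.R)
  uf : ∀ l, Ex T (fun i x => (S.u l i x - S.f l i x) ^ 2) ≤ η * S.R ^ 2
  wf : ∀ l, Ex T (fun i x => Ex T fun j y =>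
    (S.w l i j (x - y) - (S.f l i x - S.f l j y)) ^ 2) ≤ η * S.R ^ 2
  bessel : ∀ φ : T.ι → G → ℝ,
    ∑ b ∈ range N, (Ex T fun i x => φ i x * S.om b i x) ^ 2 ≤ Ex T fun i x => φ i x ^ 2
  alpha : ∀ g : Fin N → ℝ, S.t * ∑ b ∈ range N, (∑ l, S.α b l * g l) ^ 2 ≤ ∑ l, g l ^ 2
  gram : ∑ a ∈ range N, ∑ b ∈ range N,
    ((Ex T fun i x => S.om a i x * S.om b i x) - if a = b then 1 else 0) ^ 2 ≤ ν * N

variable {S} {η B C ν : ℝ}

end SysData

end Pool.Agent.OSP
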