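import Pool.Agent.OSP_h95.Gam

/-!
# Testing with smooth functions of the near-homomorphisms
-/

set_option autoImplicit false

namespace Pool.Agent.OSP

open Finset Real Pool.Agent.QFR

variable {G : Type} [AddCommGroup G] [Fintype G]

namespace SysData

variable {T : Fam G} {N : ℕ} {S : SysData T N} {η B C ν : ℝ}

/-- `ξ a = (Ex Σ_b (Γ a b + δ_ab)²)^(1/2)` -/
noncomputable def xi (S : SysData T N) (a : ℕ) : ℝ :=
  √(∑ b ∈ range N, Ex T (fun i x => (S.Gam a b i x + if a = b then 1 else 0) ^ 2))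

/-- the error term in `test` -/
noncomputable def err (N : ℕ) (R t B C Λ : ℝ) : ℝ :=
  √(N / t) * C * R + 8 * Λ * B * N ^ 2 * R / t + 8 * Λ ^ 2 * B ^ 2 * N ^ 4 * R / t ^ 2

theorem test_shift (T : Fam G) (D : G) (F : T.ι → G → ℝ) :
    Ex T (fun i x => F i (x - D) - F i x) =
      -(∑ i, ∑ x, (T.m i (x - D) - T.m i x) * F i x) -
        ∑ i, ∑ x, (T.m i (x - D) - T.m i x) * (F i (x - D) - F i x) := by
  have e : ∀ i, ∑ x, T.m i (x - D) * F i (x - D) = ∑ x, T.m i x * F i x := fun i =>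
    Fintype.sum_equiv (Equiv.subRight D) _ _ fun x => rfl
  unfold Ex
  rw [← Finset.sum_neg_distrib, ← Finset.sum_sub_distrib]
  refine Finset.sum_congr rfl fun i _ => ?_
  have e1 := e i
  have h1 : ∑ x, T.m i x * (F i (x - D) - F i x) =
      ∑ x, T.m i x * F i (x - D) - ∑ x, T.m i x * F i x := by
    rw [← Finset.sum_sub_distrib]
    exact Finset.sum_congr rfl fun x _ => by ring
  have h2 : ∑ x, (T.m i (x - D) - T.m i x) * (F i (x - D) - F i x) =
      ∑ x, T.m i (x - D) * F i (x - D) - ∑ x, T.m i x * F i (x - D) -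
        ∑ x, (T.m i (x - D) - T.m i x) * F i x := by
    rw [← Finset.sum_sub_distrib, ← Finset.sum_sub_distrib]
    exact Finset.sum_congr rfl fun x _ => by ring
  rw [h1, h2, e1]
  ring

theorem test_s_le (h : S.Ok η B C ν) (i : T.ι) (x : G) (l : Fin N) :
    ∑ b ∈ range N, |S.et b i (x - S.D l) - S.et b i x| ≤ N * (4 * B * √(N / S.t) * S.R) := by
  calc ∑ b ∈ range N, |S.et b i (x - S.D l) - S.et b i x|
      ≤ ∑ _b ∈ range N, 4 * B * √(N / S.t) * S.R :=
        Finset.sum_le_sum fun b hb => abs_et_shift_le h (Finset.mem_range.1 hb) i x l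
    _ = N * (4 * B * √(N / S.t) * S.R) := by
        rw [Finset.sum_const, Finset.card_range, nsmul_eq_mul]

theorem test_comb (h : S.Ok η B C ν) {a : ℕ} (ha : a < N) (g : Fin N → ℝ) {M : ℝ}
    (hg : ∀ l, |g l| ≤ M) : |∑ l, S.α a l * g l| ≤ √(N / S.t) * M := by
  have hM : 0 ≤ M := by
    have : 0 < N := h.N1
    exact (abs_nonneg _).trans (hg ⟨0, this⟩)
  calc |∑ l, S.α a l * g l| ≤ ∑ l, |S.α a l * g l| := Finset.abs_sum_le_sum_abs _ _
    _ ≤ ∑ l, |S.α a l| * M := by
        refine Finset.sum_le_sum fun l _ => ?_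
        rw [abs_mul]
        exact mul_le_mul_of_nonneg_left (hg l) (abs_nonneg _)
    _ = (∑ l, |S.α a l|) * M := by rw [Finset.sum_mul]
    _ ≤ √(N / S.t) * M := mul_le_mul_of_nonneg_right (sum_abs_alpha h ha) hM

theorem test_om (a : ℕ) (F : T.ι → G → ℝ) :
    Ex T (fun i x => S.om a i x * F i x) =
      (∑ l, S.α a l * Ex T (fun i x => S.u l i x * F i x)) / S.R := by
  have e : (fun (i : T.ι) (x : G) => S.om a i x * F i x) =
      fun i x => (1 / S.R) * ∑ l, S.α a l * (S.u l i x * F i x) := by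
    funext i x
    unfold om
    rw [div_mul_eq_mul_div, Finset.sum_mul, one_div, ← div_eq_inv_mul]
    congr 1
    exact Finset.sum_congr rfl fun l _ => by ring
  rw [e, Ex_mul_left, Ex_sum, one_div, ← div_eq_inv_mul]
  congr 1
  exact Finset.sum_congr rfl fun l _ => by rw [Ex_mul_left]

/-- TEST FUNCTIONS.  `F` is bounded by `1` and, along every shift by `-D l`, is described to first
order by the increments of `ẽ b` with coefficients `γ b` whose `ℓ²` norm is at most `Λ`.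
Let `A = Σ_l α a l (Ex F(x - D l) - Ex F(x)) / R`, `s_l = sup Σ_b |ẽ b (x-D l) - ẽ b x|
≤ N 4 B √(N/t) R` (`abs_et_shift_le`).
(i) `Σ T(x) (F(x-D) - F(x)) = -Σ (T(x-D) - T(x)) F(x-D)
   = -Σ (T(x-D)-T(x)) F(x) - Σ (T(x-D)-T(x)) (F(x-D) - F(x))`; the last sum is at most
   `2R Λ s_l` (`l1_le`).  So `|A| ≤ |Ex(ω a F)| + Σ_l |α a l| C R + Σ_l |α a l| 2 Λ s_l
   ≤ 1 + √(N/t) C R + 8 Λ B N² R / t` (`om_sq_le`, `v_le`, `sum_abs_alpha`).
(ii) `|A - Ex Σ_b γ b Γ a b| ≤ Σ_l |α a l| Λ² s_l² / (2R) ≤ 8 Λ² B² N^(7/2) R / t^(3/2)`, and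
   `Ex Σ_b γ b Γ a b = -Ex (γ a) + Ex Σ_b γ b (Γ a b + δ_ab)`, the last term being at most
   `Λ ξ a` by Cauchy-Schwarz.
(`N ≥ 1`, `t ≤ 1`: `N^(7/2)/t^(3/2) ≤ N⁴/t²`.) -/
theorem test (h : S.Ok η B C ν) {a : ℕ} (ha : a < N) {Λ : ℝ} (hΛ : 0 ≤ Λ)
    (F : T.ι → G → ℝ) (γ : ℕ → T.ι → G → ℝ) (hF : ∀ i x, |F i x| ≤ 1)
    (hγ : ∀ i x, ∑ b ∈ range N, γ b i x ^ 2 ≤ Λ ^ 2)
    (hlip : ∀ i x l, |F i (x - S.D l) - F i x| ≤
      Λ * ∑ b ∈ range N, |S.et b i (x - S.D l) - S.et b i x|)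
    (hlin : ∀ i x l, |F i (x - S.D l) - F i x -
        ∑ b ∈ range N, γ b i x * (S.et b i (x - S.D l) - S.et b i x)| ≤
      (Λ * ∑ b ∈ range N, |S.et b i (x - S.D l) - S.et b i x|) ^ 2 / 2) :
    |Ex T (γ a)| ≤ 1 + err N S.R S.t B C Λ + Λ * S.xi a := by
  have hR := h.R0
  have ht := h.t0
  have hB := h.B0
  have hN1 : (1 : ℝ) ≤ N := by exact_mod_cast h.N1
  have hN0 : (0 : ℝ) < N := by linarith
  set q : ℝ := √(N / S.t) with hq
  have hq0 : 0 ≤ q := Real.sqrt_nonneg _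
  have hq2 : q ^ 2 = N / S.t := Real.sq_sqrt (by positivity)
  have hNt : 1 ≤ N / S.t := by
    rw [le_div_iff₀ ht]; linarith [h.t1]
  have hq1 : 1 ≤ q := by
    rw [hq, Real.one_le_sqrt]; exact hNt
  set s : ℝ := N * (4 * B * q * S.R) with hs
  have hs0 : 0 ≤ s := by positivity
  have hsum : ∀ i x l, ∑ b ∈ range N, |S.et b i (x - S.D l) - S.et b i x| ≤ s :=
    fun i x l => test_s_le h i x l
  have hsum0 : ∀ i x l, 0 ≤ ∑ b ∈ range N, |S.et b i (x - S.D l) - S.et b i x| :=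
    fun i x l => Finset.sum_nonneg fun b _ => abs_nonneg _
  have hlip' : ∀ i x l, |F i (x - S.D l) - F i x| ≤ Λ * s := fun i x l =>
    (hlip i x l).trans (mul_le_mul_of_nonneg_left (hsum i x l) hΛ)
  set A : ℝ := (∑ l, S.α a l * Ex T (fun i x => F i (x - S.D l) - F i x)) / S.R with hA
  -- part (i)
  have hAeq : A = -(Ex T fun i x => S.om a i x * F i x) -
      (∑ l, S.α a l * ∑ i, ∑ x,
        (T.m i (x - S.D l) - T.m i x - T.m i x * S.u l i x) * F i x) / S.R -
      (∑ l, S.α a l * ∑ i, ∑ x,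
        (T.m i (x - S.D l) - T.m i x) * (F i (x - S.D l) - F i x)) / S.R := by
    rw [hA, test_om, ← neg_div, ← sub_div, ← sub_div, ← Finset.sum_neg_distrib,
      ← Finset.sum_sub_distrib, ← Finset.sum_sub_distrib]
    congr 1
    refine Finset.sum_congr rfl fun l _ => ?_
    rw [test_shift]
    have e1 : ∑ i, ∑ x, (T.m i (x - S.D l) - T.m i x) * F i x =
        Ex T (fun i x => S.u l i x * F i x) + ∑ i, ∑ x,
          (T.m i (x - S.D l) - T.m i x - T.m i x * S.u l i x) * F i x := by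
      unfold Ex
      rw [← Finset.sum_add_distrib]
      refine Finset.sum_congr rfl fun i _ => ?_
      rw [← Finset.sum_add_distrib]
      exact Finset.sum_congr rfl fun x _ => by ring
    rw [e1]
    ring
  have b1 : |Ex T fun i x => S.om a i x * F i x| ≤ 1 := by
    have h1 := Ex_mul_sq_le T (S.om a) F
    have h2 := om_sq_le h ha
    have h3 : (Ex T fun i x => F i x ^ 2) ≤ 1 := by
      calc (Ex T fun i x => F i x ^ 2) ≤ Ex T (fun _ _ => (1 : ℝ)) :=
            Ex_mono T fun i x => by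
              have := hF i x
              rw [abs_le] at this
              nlinarith [this.1, this.2]
        _ = 1 := Ex_const T 1
    have h4 : 0 ≤ Ex T fun i x => S.om a i x ^ 2 := Ex_nonneg T fun i x => sq_nonneg _
    have h5 : (Ex T fun i x => S.om a i x * F i x) ^ 2 ≤ 1 :=
      h1.trans (mul_le_one₀ h2 (Ex_nonneg T fun i x => sq_nonneg _) h3)
    exact abs_le_one_iff_mul_self_le_one.2 (by nlinarith)
  have b2 : |(∑ l, S.α a l * ∑ i, ∑ x,
        (T.m i (x - S.D l) - T.m i x - T.m i x * S.u l i x) * F i x) / S.R| ≤ q * C * S.R := by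
    have h1 : ∀ l, |∑ i, ∑ x,
        (T.m i (x - S.D l) - T.m i x - T.m i x * S.u l i x) * F i x| ≤ C * S.R ^ 2 := by
      intro l
      refine le_trans ?_ (h.v_le l)
      refine (Finset.abs_sum_le_sum_abs _ _).trans (Finset.sum_le_sum fun i _ => ?_)
      refine (Finset.abs_sum_le_sum_abs _ _).trans (Finset.sum_le_sum fun x _ => ?_)
      rw [abs_mul]
      exact mul_le_of_le_one_right (abs_nonneg _) (hF i x)
    have h2 := test_comb h ha _ h1
    rw [abs_div, abs_of_pos hR, div_le_iff₀ hR]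
    calc _ ≤ q * (C * S.R ^ 2) := h2
      _ = q * C * S.R * S.R := by ring
  have b3 : |(∑ l, S.α a l * ∑ i, ∑ x,
        (T.m i (x - S.D l) - T.m i x) * (F i (x - S.D l) - F i x)) / S.R| ≤
      8 * Λ * B * N ^ 2 * S.R / S.t := by
    have h1 : ∀ l, |∑ i, ∑ x,
        (T.m i (x - S.D l) - T.m i x) * (F i (x - S.D l) - F i x)| ≤ 2 * S.R * (Λ * s) := by
      intro l
      have h2 : |∑ i, ∑ x, (T.m i (x - S.D l) - T.m i x) * (F i (x - S.D l) - F i x)| ≤
          (∑ i, ∑ x, |T.m i (x - S.D l) - T.m i x|) * (Λ * s) := by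
        rw [Finset.sum_mul]
        refine (Finset.abs_sum_le_sum_abs _ _).trans (Finset.sum_le_sum fun i _ => ?_)
        rw [Finset.sum_mul]
        refine (Finset.abs_sum_le_sum_abs _ _).trans (Finset.sum_le_sum fun x _ => ?_)
        rw [abs_mul]
        exact mul_le_mul_of_nonneg_left (hlip' i x l) (abs_nonneg _)
      have h3 : ∑ i, ∑ x, |T.m i (x - S.D l) - T.m i x| ≤ 2 * S.R := by
        refine (l1_le T (S.D l)).trans ?_
        have : √(hel T (S.D l)) ≤ S.R := by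
          rw [Real.sqrt_le_left hR.le]
          exact h.hel_le l
        linarith
      exact h2.trans (mul_le_mul_of_nonneg_right h3 (by positivity))
    have h2 := test_comb h ha _ h1
    rw [abs_div, abs_of_pos hR, div_le_iff₀ hR]
    calc _ ≤ q * (2 * S.R * (Λ * s)) := h2
      _ = 8 * Λ * B * N * (q ^ 2) * S.R * S.R := by rw [hs]; ring
      _ = 8 * Λ * B * N ^ 2 * S.R / S.t * S.R := by rw [hq2]; ring
  have hAle : |A| ≤ 1 + q * C * S.R + 8 * Λ * B * N ^ 2 * S.R / S.t := by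
    rw [hAeq]
    have t1 := abs_sub (-(Ex T fun i x => S.om a i x * F i x) -
      (∑ l, S.α a l * ∑ i, ∑ x,
        (T.m i (x - S.D l) - T.m i x - T.m i x * S.u l i x) * F i x) / S.R)
      ((∑ l, S.α a l * ∑ i, ∑ x,
        (T.m i (x - S.D l) - T.m i x) * (F i (x - S.D l) - F i x)) / S.R)
    have t2 := abs_sub (-(Ex T fun i x => S.om a i x * F i x))
      ((∑ l, S.α a l * ∑ i, ∑ x,
        (T.m i (x - S.D l) - T.m i x - T.m i x * S.u l i x) * F i x) / S.R)
    rw [abs_neg] at t2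
    linarith
  -- part (ii)
  have hΓ : (Ex T fun i x => ∑ b ∈ range N, γ b i x * S.Gam a b i x) =
      (∑ l, S.α a l * Ex T (fun i x =>
        ∑ b ∈ range N, γ b i x * (S.et b i (x - S.D l) - S.et b i x))) / S.R := by
    have e : (fun (i : T.ι) (x : G) => ∑ b ∈ range N, γ b i x * S.Gam a b i x) =
        fun i x => (1 / S.R) * ∑ l, S.α a l *
          (∑ b ∈ range N, γ b i x * (S.et b i (x - S.D l) - S.et b i x)) := by
      funext i x
      unfold Gam
      have e1 : ∀ b, γ b i x * ((∑ l, S.α a l * (S.et b i (x - S.D l) - S.et b i x)) / S.R) =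
          (1 / S.R) * ∑ l, S.α a l * (γ b i x * (S.et b i (x - S.D l) - S.et b i x)) := by
        intro b
        rw [← mul_div_assoc, Finset.mul_sum, one_div, ← div_eq_inv_mul]
        congr 1
        exact Finset.sum_congr rfl fun l _ => by ring
      rw [Finset.sum_congr rfl fun b _ => e1 b, ← Finset.mul_sum, Finset.sum_comm]
      congr 1
      exact Finset.sum_congr rfl fun l _ => by rw [Finset.mul_sum]
    rw [e, Ex_mul_left, Ex_sum, one_div, ← div_eq_inv_mul]
    congr 1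
    exact Finset.sum_congr rfl fun l _ => by rw [Ex_mul_left]
  have hdiff : |A - Ex T fun i x => ∑ b ∈ range N, γ b i x * S.Gam a b i x| ≤
      8 * Λ ^ 2 * B ^ 2 * N ^ 4 * S.R / S.t ^ 2 := by
    have e : A - (Ex T fun i x => ∑ b ∈ range N, γ b i x * S.Gam a b i x) =
        (∑ l, S.α a l * Ex T (fun i x => F i (x - S.D l) - F i x -
          ∑ b ∈ range N, γ b i x * (S.et b i (x - S.D l) - S.et b i x))) / S.R := by
      rw [hΓ, hA, ← sub_div, ← Finset.sum_sub_distrib]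
      congr 1
      refine Finset.sum_congr rfl fun l _ => ?_
      rw [Ex_sub T (fun i x => F i (x - S.D l) - F i x)]
      ring
    have h1 : ∀ l, |Ex T (fun i x => F i (x - S.D l) - F i x -
          ∑ b ∈ range N, γ b i x * (S.et b i (x - S.D l) - S.et b i x))| ≤ (Λ * s) ^ 2 / 2 := by
      intro l
      refine (abs_Ex_le T _).trans ?_
      calc (Ex T fun i x => |F i (x - S.D l) - F i x -
          ∑ b ∈ range N, γ b i x * (S.et b i (x - S.D l) - S.et b i x)|)
          ≤ Ex T (fun _ _ => (Λ * s) ^ 2 / 2) := Ex_mono T fun i x => by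
            refine (hlin i x l).trans ?_
            have h2 : Λ * ∑ b ∈ range N, |S.et b i (x - S.D l) - S.et b i x| ≤ Λ * s :=
              mul_le_mul_of_nonneg_left (hsum i x l) hΛ
            have h3 : 0 ≤ Λ * ∑ b ∈ range N, |S.et b i (x - S.D l) - S.et b i x| :=
              mul_nonneg hΛ (hsum0 i x l)
            have h4 := pow_le_pow_left₀ h3 h2 2
            linarith
        _ = (Λ * s) ^ 2 / 2 := Ex_const T _
    have h2 := test_comb h ha _ h1
    rw [e, abs_div, abs_of_pos hR, div_le_iff₀ hR]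
    have h3 : q ^ 3 ≤ (N / S.t) ^ 2 := by
      rw [← hq2]
      calc q ^ 3 ≤ q ^ 4 := pow_le_pow_right₀ hq1 (by norm_num)
        _ = (q ^ 2) ^ 2 := by ring
    calc _ ≤ q * ((Λ * s) ^ 2 / 2) := h2
      _ = 8 * Λ ^ 2 * B ^ 2 * N ^ 2 * q ^ 3 * S.R ^ 2 := by rw [hs]; ring
      _ ≤ 8 * Λ ^ 2 * B ^ 2 * N ^ 2 * (N / S.t) ^ 2 * S.R ^ 2 := by
          apply mul_le_mul_of_nonneg_right _ (by positivity)
          apply mul_le_mul_of_nonneg_left h3 (by positivity)
      _ = 8 * Λ ^ 2 * B ^ 2 * N ^ 4 * S.R / S.t ^ 2 * S.R := by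
          rw [div_pow]; ring
  -- the diagonal
  have hsplit : Ex T (γ a) = (Ex T fun i x => ∑ b ∈ range N, γ b i x *
      (S.Gam a b i x + if a = b then 1 else 0)) -
        Ex T fun i x => ∑ b ∈ range N, γ b i x * S.Gam a b i x := by
    rw [← Ex_sub]
    congr 1
    funext i x
    rw [← Finset.sum_sub_distrib]
    have e1 : ∀ b ∈ range N, γ b i x * (S.Gam a b i x + if a = b then 1 else 0) -
        γ b i x * S.Gam a b i x = if a = b then γ b i x else 0 := by
      intro b _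
      split_ifs <;> ring
    rw [Finset.sum_congr rfl e1, Finset.sum_ite_eq]
    simp [ha]
  have hCS : |Ex T fun i x => ∑ b ∈ range N, γ b i x *
      (S.Gam a b i x + if a = b then 1 else 0)| ≤ Λ * S.xi a := by
    have hpt : ∀ i x, (∑ b ∈ range N, γ b i x *
        (S.Gam a b i x + if a = b then 1 else 0)) ^ 2 ≤
        Λ ^ 2 * ∑ b ∈ range N, (S.Gam a b i x + if a = b then 1 else 0) ^ 2 := by
      intro i x
      refine (Finset.sum_mul_sq_le_sq_mul_sq _ _ _).trans ?_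
      exact mul_le_mul_of_nonneg_right (hγ i x) (Finset.sum_nonneg fun b _ => sq_nonneg _)
    have h1 := Ex_sq_le T fun i x => ∑ b ∈ range N, γ b i x *
      (S.Gam a b i x + if a = b then 1 else 0)
    have h2 : (Ex T fun i x => (∑ b ∈ range N, γ b i x *
        (S.Gam a b i x + if a = b then 1 else 0)) ^ 2) ≤ (Λ * S.xi a) ^ 2 := by
      calc _ ≤ Ex T (fun i x => Λ ^ 2 *
            ∑ b ∈ range N, (S.Gam a b i x + if a = b then 1 else 0) ^ 2) :=
            Ex_mono T fun i x => hpt i x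
        _ = Λ ^ 2 * ∑ b ∈ range N, Ex T (fun i x =>
              (S.Gam a b i x + if a = b then 1 else 0) ^ 2) := by
            rw [Ex_mul_left, Ex_sum]
        _ = (Λ * S.xi a) ^ 2 := by
            rw [mul_pow, xi, Real.sq_sqrt]
            exact Finset.sum_nonneg fun b _ => Ex_nonneg T fun i x => sq_nonneg _
    exact abs_le_of_sq_le_sq (h1.trans h2) (mul_nonneg hΛ (Real.sqrt_nonneg _))
  have hfin : Ex T (γ a) = (Ex T fun i x => ∑ b ∈ range N, γ b i x *
      (S.Gam a b i x + if a = b then 1 else 0)) +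
        (A - Ex T fun i x => ∑ b ∈ range N, γ b i x * S.Gam a b i x) - A := by
    rw [hsplit]; ring
  rw [hfin]
  have t1 := abs_sub ((Ex T fun i x => ∑ b ∈ range N, γ b i x *
      (S.Gam a b i x + if a = b then 1 else 0)) +
        (A - Ex T fun i x => ∑ b ∈ range N, γ b i x * S.Gam a b i x)) A
  have t2 := abs_add_le (Ex T fun i x => ∑ b ∈ range N, γ b i x *
      (S.Gam a b i x + if a = b then 1 else 0))
        (A - Ex T fun i x => ∑ b ∈ range N, γ b i x * S.Gam a b i x)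
  unfold err
  rw [← hq]
  linarith

/-- `Σ_a ξ a ≤ √N (Σ ξ a²)^(1/2)` and `sum_Gam` -/
theorem sum_xi (h : S.Ok η B C ν) :
    ∑ a ∈ range N, S.xi a ≤
      N * √(6 * ν + 9 * η / S.t + 27 * B ^ 2 * C ^ 2 * N ^ 3 * S.R ^ 2 / S.t ^ 2) := by
  have h1 := sum_Gam h
  set Q : ℝ := 6 * ν + 9 * η / S.t + 27 * B ^ 2 * C ^ 2 * N ^ 3 * S.R ^ 2 / S.t ^ 2 with hQ
  have hN1 : (1 : ℝ) ≤ N := by exact_mod_cast h.N1
  have hsq : ∑ a ∈ range N, S.xi a ^ 2 ≤ N * Q := by
    refine le_trans (le_of_eq ?_) h1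
    refine Finset.sum_congr rfl fun a _ => ?_
    rw [xi, Real.sq_sqrt]
    exact Finset.sum_nonneg fun b _ => Ex_nonneg T fun i x => sq_nonneg _
  have h0 : 0 ≤ ∑ a ∈ range N, S.xi a ^ 2 := Finset.sum_nonneg fun a _ => sq_nonneg _
  have hQ0 : 0 ≤ Q := by
    by_contra hneg
    push Not at hneg
    have : (N : ℝ) * Q < 0 := mul_neg_of_pos_of_neg (by linarith) hneg
    linarith
  have h2 : (∑ a ∈ range N, S.xi a) ^ 2 ≤ (N * √Q) ^ 2 := by
    have h3 := Finset.sum_mul_sq_le_sq_mul_sq (range N) (fun _ => (1 : ℝ)) S.xi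
    simp only [one_mul, one_pow, Finset.sum_const, Finset.card_range, nsmul_eq_mul,
      mul_one] at h3
    calc (∑ a ∈ range N, S.xi a) ^ 2 ≤ N * ∑ a ∈ range N, S.xi a ^ 2 := h3
      _ ≤ N * (N * Q) := mul_le_mul_of_nonneg_left hsq (by linarith)
      _ = (N * √Q) ^ 2 := by rw [mul_pow, Real.sq_sqrt hQ0]; ring
  exact (abs_le_of_sq_le_sq' h2 (by positivity)).2

end SysData

end Pool.Agent.OSP
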