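import Pool.Agent.OSP_h95.Test
import Pool.Agent.OSP_h95.MAlin

/-!
# The two applications of `test`
-/

set_option autoImplicit false

namespace Pool.Agent.OSP

open Finset Real Pool.Agent.QFR

variable {G : Type} [AddCommGroup G] [Fintype G]

namespace SysData

variable {T : Fam G} {N : ℕ} {S : SysData T N} {η B C ν : ℝ}

theorem TestB_sum_fin_le {N a : ℕ} (ha : a < N) (f : ℕ → ℝ) (hf : ∀ b, 0 ≤ f b) :
    ∑ b : Fin (a + 1), f b ≤ ∑ b ∈ range N, f b := by
  rw [Fin.sum_univ_eq_sum_range (fun b => f b) (a + 1)]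
  exact Finset.sum_le_sum_of_subset_of_nonneg
    (Finset.range_subset_range.2 (by omega)) (fun b _ _ => hf b)

theorem TestB_sum_eq {N a : ℕ} (ha : a < N) (c : Fin (a + 1) → ℝ) (f : ℕ → ℝ) :
    ∑ b ∈ range N, (if hb : b < a + 1 then c ⟨b, hb⟩ else 0) * f b =
      ∑ b : Fin (a + 1), c b * f b := by
  have hsub : range (a + 1) ⊆ range N := Finset.range_subset_range.2 (by omega)
  rw [← Finset.sum_subset hsub (fun b _ hb => by
    rw [dif_neg (by simpa using hb), zero_mul])]
  rw [← Fin.sum_univ_eq_sum_range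
    (fun b => (if hb : b < a + 1 then c ⟨b, hb⟩ else 0) * f b) (a + 1)]
  refine Finset.sum_congr rfl fun b _ => ?_
  rw [dif_pos b.2]

theorem TestB_sum_sq {N a : ℕ} (ha : a < N) (c : Fin (a + 1) → ℝ) :
    ∑ b ∈ range N, (if hb : b < a + 1 then c ⟨b, hb⟩ else 0) ^ 2 =
      ∑ b : Fin (a + 1), c b ^ 2 := by
  have hsub : range (a + 1) ⊆ range N := Finset.range_subset_range.2 (by omega)
  rw [← Finset.sum_subset hsub (fun b _ hb => by
    rw [dif_neg (by simpa using hb)]
    norm_num)]
  rw [← Fin.sum_univ_eq_sum_range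
    (fun b => (if hb : b < a + 1 then c ⟨b, hb⟩ else 0) ^ 2) (a + 1)]
  refine Finset.sum_congr rfl fun b _ => ?_
  rw [dif_pos b.2]

/-- `test` for `F = sin (τ ẽ a) MA (g i) (τ ẽ b : b < a)`, `Λ = τ`, with the coefficients
`γ b = τ · (coefficient from sin_MA_lin)` for `b ≤ a` and `0` for `b > a`; in particular
`γ a = τ cos (τ ẽ a) MA`. -/
theorem test_cos (h : S.Ok η B C ν) {a : ℕ} (ha : a < N) {τ : ℝ} (hτ : 0 < τ)
    (g : T.ι → (Fin a → Bool) → ℝ) (hg : ∀ i û, |g i û| ≤ 1) :
    |Ex T (fun i x => cos (τ * S.et a i x) *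
        MA (g i) (fun b : Fin a => τ * S.et b i x))| ≤
      (1 + err N S.R S.t B C τ) / τ + S.xi a := by
  have hlinall := fun (i : T.ι) (x : G) =>
    sin_MA_lin (g i) (hg i) (fun b : Fin (a + 1) => τ * S.et b i x)
  choose c hc1 hc2 hc3 using hlinall
  simp only [Fin.val_last, Fin.val_castSucc] at hc1 hc3
  set F : T.ι → G → ℝ := fun i x =>
    sin (τ * S.et a i x) * MA (g i) (fun b : Fin a => τ * S.et b i x) with hF
  set γ : ℕ → T.ι → G → ℝ := fun b i x =>
    if hb : b < a + 1 then τ * c i x ⟨b, hb⟩ else 0 with hγ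
  have hkey : ∀ (i : T.ι) (x : G) (l : Fin N),
      ∑ b : Fin (a + 1), |τ * S.et b i (x - S.D l) - τ * S.et b i x| ≤
        τ * ∑ b ∈ range N, |S.et b i (x - S.D l) - S.et b i x| := by
    intro i x l
    rw [Finset.mul_sum]
    refine le_trans (le_of_eq ?_) (TestB_sum_fin_le ha
      (fun b => τ * |S.et b i (x - S.D l) - S.et b i x|)
      (fun b => mul_nonneg hτ.le (abs_nonneg _)))
    refine Finset.sum_congr rfl fun b _ => ?_
    rw [← mul_sub, abs_mul, abs_of_pos hτ]
  have hmain := test h ha hτ.le F γ ?_ ?_ ?_ ?_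
  · have hγa : Ex T (γ a) = τ * Ex T (fun i x => cos (τ * S.et a i x) *
        MA (g i) (fun b : Fin a => τ * S.et b i x)) := by
      rw [← Ex_mul_left]
      congr 1
      funext i x
      have e : (⟨a, Nat.lt_succ_self a⟩ : Fin (a + 1)) = Fin.last a := rfl
      simp only [hγ, Nat.lt_succ_self, dif_pos]
      rw [e, hc1]
    rw [hγa, abs_mul, abs_of_pos hτ] at hmain
    rw [div_add' _ _ _ hτ.ne', le_div_iff₀ hτ]
    linarith
  · intro i x
    simp only [hF]
    rw [abs_mul]
    have h1 := abs_sin_le_one (τ * S.et a i x)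
    have h2 := abs_MA_le (g i) (hg i) (fun b : Fin a => τ * S.et b i x)
    have h3 := abs_nonneg (sin (τ * S.et a i x))
    have h4 := abs_nonneg (MA (g i) (fun b : Fin a => τ * S.et b i x))
    nlinarith
  · intro i x
    have e := TestB_sum_sq ha (fun b => τ * c i x b)
    simp only [hγ]
    rw [e]
    have e2 : ∑ b : Fin (a + 1), (τ * c i x b) ^ 2 = τ ^ 2 * ∑ b, c i x b ^ 2 := by
      rw [Finset.mul_sum]
      exact Finset.sum_congr rfl fun b _ => by ring
    rw [e2]
    have := hc2 i x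
    nlinarith [sq_nonneg τ]
  · intro i x l
    have h1 := (hc3 i x (fun b => τ * S.et b i (x - S.D l))).2
    exact h1.trans (hkey i x l)
  · intro i x l
    have h1 := (hc3 i x (fun b => τ * S.et b i (x - S.D l))).1
    have e := TestB_sum_eq ha (fun b => τ * c i x b)
      (fun b => S.et b i (x - S.D l) - S.et b i x)
    have e3 : ∑ b ∈ range N, γ b i x * (S.et b i (x - S.D l) - S.et b i x) =
        ∑ b : Fin (a + 1), c i x b * (τ * S.et b i (x - S.D l) - τ * S.et b i x) := by
      simp only [hγ]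
      rw [e]
      exact Finset.sum_congr rfl fun b _ => by ring
    rw [e3]
    refine h1.trans ?_
    have h2 := hkey i x l
    have h3 : 0 ≤ ∑ b : Fin (a + 1), |τ * S.et b i (x - S.D l) - τ * S.et b i x| :=
      Finset.sum_nonneg fun b _ => abs_nonneg _
    have h4 := pow_le_pow_left₀ h3 h2 2
    linarith

theorem TestB_cos_lip (y t : ℝ) : |cos (y + t) - cos y| ≤ |t| := by
  have := abs_cos_sub_cos_le (y + t) y
  rwa [add_sub_cancel_left] at this

theorem TestB_sin_pos (y c : ℝ) (hc : |c| = 1) {δ : ℝ} (hδ : 0 ≤ δ) :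
    c * (sin (y + δ) - sin y - δ * cos y) ≤ δ ^ 2 / 2 := by
  have hd : ∀ t : ℝ, HasDerivAt (fun t => t ^ 2 / 2 - c * (sin (y + t) - sin y - t * cos y))
      (t - c * (cos (y + t) - cos y)) t := by
    intro t
    have h1 : HasDerivAt (fun t : ℝ => t ^ 2 / 2) t t := by
      have := (hasDerivAt_pow 2 t).div_const 2
      simpa using this
    have h2 : HasDerivAt (fun t : ℝ => sin (y + t)) (cos (y + t)) t := by
      have := (hasDerivAt_sin (y + t)).comp t ((hasDerivAt_id t).const_add y)
      rw [mul_one] at this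
      exact this
    have h3 : HasDerivAt (fun t : ℝ => t * cos y) (cos y) t := by
      have := (hasDerivAt_id t).mul_const (cos y)
      simpa using this
    exact h1.sub (((h2.sub_const (sin y)).sub h3).const_mul c)
  have hmono : MonotoneOn (fun t => t ^ 2 / 2 - c * (sin (y + t) - sin y - t * cos y))
      (Set.Ici (0 : ℝ)) := by
    refine monotoneOn_of_deriv_nonneg (convex_Ici 0)
      (fun t _ => (hd t).continuousAt.continuousWithinAt)
      (fun t _ => (hd t).differentiableAt.differentiableWithinAt) ?_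
    intro t ht
    rw [interior_Ici] at ht
    rw [(hd t).deriv]
    have ht' : 0 < t := ht
    have h1 := TestB_cos_lip y t
    rw [abs_of_pos ht'] at h1
    have h2 : |c * (cos (y + t) - cos y)| ≤ t := by
      rw [abs_mul, hc, one_mul]
      exact h1
    linarith [le_abs_self (c * (cos (y + t) - cos y))]
  have := hmono (Set.self_mem_Ici) (show δ ∈ Set.Ici (0 : ℝ) from hδ) hδ
  simp only [add_zero, sub_self, zero_mul, mul_zero] at this
  norm_num at this
  linarith

theorem TestB_sin_lin (y y' : ℝ) : |sin y' - sin y - (y' - y) * cos y| ≤ (y' - y) ^ 2 / 2 := by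
  have key : ∀ u δ : ℝ, 0 ≤ δ → |sin (u + δ) - sin u - δ * cos u| ≤ δ ^ 2 / 2 := by
    intro u δ hδ
    rw [abs_le]
    have h1 := TestB_sin_pos u 1 (by norm_num) hδ
    have h2 := TestB_sin_pos u (-1) (by norm_num) hδ
    constructor <;> linarith
  rcases le_total y y' with hy | hy
  · have := key y (y' - y) (by linarith)
    rwa [add_sub_cancel] at this
  · have := key (-y) (y - y') (by linarith)
    have e : -y + (y - y') = -y' := by ring
    rw [e, sin_neg, sin_neg, cos_neg] at this
    have e2 : (y' - y) ^ 2 = (y - y') ^ 2 := by ring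
    rw [e2, ← abs_neg]
    convert this using 2
    ring

/-- `test` for `F = sin (2 τ ẽ a)`, `Λ = 2 τ`, `γ a = 2 τ cos (2 τ ẽ a)`, other `γ b = 0`;
`|sin (y+δ) - sin y - δ cos y| ≤ δ²/2`. -/
theorem test_cos_two (h : S.Ok η B C ν) {a : ℕ} (ha : a < N) {τ : ℝ} (hτ : 0 < τ) :
    |Ex T (fun i x => cos (2 * (τ * S.et a i x)))| ≤
      (1 + err N S.R S.t B C (2 * τ)) / (2 * τ) + S.xi a := by
  have hΛ : 0 < 2 * τ := by linarith
  set F : T.ι → G → ℝ := fun i x => sin (2 * (τ * S.et a i x)) with hF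
  set γ : ℕ → T.ι → G → ℝ := fun b i x =>
    if b = a then (2 * τ) * cos (2 * (τ * S.et a i x)) else 0 with hγ
  have hmem : a ∈ range N := Finset.mem_range.2 ha
  have hkey : ∀ (i : T.ι) (x : G) (l : Fin N),
      |2 * (τ * S.et a i (x - S.D l)) - 2 * (τ * S.et a i x)| ≤
        (2 * τ) * ∑ b ∈ range N, |S.et b i (x - S.D l) - S.et b i x| := by
    intro i x l
    have e : 2 * (τ * S.et a i (x - S.D l)) - 2 * (τ * S.et a i x) =
        (2 * τ) * (S.et a i (x - S.D l) - S.et a i x) := by ring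
    rw [e, abs_mul, abs_of_pos hΛ]
    refine mul_le_mul_of_nonneg_left ?_ hΛ.le
    exact Finset.single_le_sum (f := fun b => |S.et b i (x - S.D l) - S.et b i x|)
      (fun b _ => abs_nonneg _) hmem
  have hmain := test h ha hΛ.le F γ ?_ ?_ ?_ ?_
  · have hγa : Ex T (γ a) = (2 * τ) * Ex T (fun i x => cos (2 * (τ * S.et a i x))) := by
      rw [← Ex_mul_left]
      congr 1
      funext i x
      simp only [hγ, if_true]
    rw [hγa, abs_mul, abs_of_pos hΛ] at hmain
    rw [div_add' _ _ _ hΛ.ne', le_div_iff₀ hΛ]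
    linarith
  · intro i x
    exact abs_sin_le_one _
  · intro i x
    have e : ∑ b ∈ range N, γ b i x ^ 2 = ((2 * τ) * cos (2 * (τ * S.et a i x))) ^ 2 := by
      rw [Finset.sum_eq_single a (fun b _ hb => by
        simp only [hγ, if_neg hb]
        norm_num) (fun hna => absurd hmem hna)]
      simp only [hγ, if_true]
    rw [e, mul_pow]
    have h1 : cos (2 * (τ * S.et a i x)) ^ 2 ≤ 1 := cos_sq_le_one _
    nlinarith [sq_nonneg (2 * τ)]
  · intro i x l
    refine le_trans ?_ (hkey i x l)
    simp only [hF]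
    exact abs_sin_sub_sin_le _ _
  · intro i x l
    have e : ∑ b ∈ range N, γ b i x * (S.et b i (x - S.D l) - S.et b i x) =
        (2 * (τ * S.et a i (x - S.D l)) - 2 * (τ * S.et a i x)) *
          cos (2 * (τ * S.et a i x)) := by
      rw [Finset.sum_eq_single a (fun b _ hb => by
        simp only [hγ, if_neg hb, zero_mul]) (fun hna => absurd hmem hna)]
      simp only [hγ, if_true]
      ring
    rw [e]
    have h1 := TestB_sin_lin (2 * (τ * S.et a i x)) (2 * (τ * S.et a i (x - S.D l)))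
    refine h1.trans ?_
    have h2 := hkey i x l
    have h3 := pow_le_pow_left₀ (abs_nonneg _) h2 2
    rw [sq_abs] at h3
    linarith

end SysData

end Pool.Agent.OSP
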