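import Pool.Agent.OSP_h95.Rat

/-!
# Uniform integrability of the scores
-/

set_option autoImplicit false

namespace Pool.Agent.OSP

open Finset Real Pool.Agent.QFR

variable {G : Type} [AddCommGroup G] [Fintype G]

/-- truncation to `[-a, a]` -/
noncomputable def clip (a x : ℝ) : ℝ := max (-a) (min a x)

/-- `|clip a x| ≤ a`, `|clip a x - clip a y| ≤ |x - y|`, monotone, `clip a x = x` for `|x| ≤ a`,
`(x - clip a x)² ≤ x (x - clip a x)`. -/
theorem clip_facts {a : ℝ} (ha : 0 < a) :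
    (∀ x, |clip a x| ≤ a) ∧ (∀ x y, |clip a x - clip a y| ≤ |x - y|) ∧ Monotone (clip a) ∧
    (∀ x, |x| ≤ a → clip a x = x) ∧ (∀ x, (x - clip a x) ^ 2 ≤ x * (x - clip a x)) ∧
    (∀ x, |clip a x| ≤ |x|) := by
  have h0 : clip a 0 = 0 := by
    unfold clip
    rw [min_eq_right ha.le, max_eq_right (by linarith)]
  have hL : ∀ x y, |clip a x - clip a y| ≤ |x - y| := by
    intro x y
    unfold clip
    calc |max (-a) (min a x) - max (-a) (min a y)|
        ≤ max |(-a) - (-a)| |min a x - min a y| := abs_max_sub_max_le_max _ _ _ _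
      _ ≤ |x - y| := by
        rw [sub_self, abs_zero, max_eq_right (abs_nonneg _)]
        calc |min a x - min a y| ≤ max |a - a| |x - y| := abs_min_sub_min_le_max _ _ _ _
          _ = |x - y| := by rw [sub_self, abs_zero, max_eq_right (abs_nonneg _)]
  refine ⟨?_, hL, ?_, ?_, ?_, ?_⟩
  · intro x
    unfold clip
    rw [abs_le]
    exact ⟨le_max_left _ _, max_le (by linarith) (min_le_left _ _)⟩
  · intro x y hxy
    unfold clip
    exact max_le_max le_rfl (min_le_min le_rfl hxy)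
  · intro x hx
    rw [abs_le] at hx
    unfold clip
    rw [min_eq_right hx.2, max_eq_right hx.1]
  · intro x
    unfold clip
    rcases le_total x (-a) with h | h
    · rw [min_eq_right (by linarith), max_eq_left h]
      nlinarith
    · rcases le_total x a with h' | h'
      · rw [min_eq_right h', max_eq_right h]
        simp
      · rw [min_eq_left h', max_eq_right (by linarith)]
        nlinarith
  · intro x
    have := hL x 0
    rwa [h0, sub_zero, sub_zero] at this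

/-- Cauchy-Schwarz with weights -/
theorem ui_cs {κ : Type} [Fintype κ] (m f g : κ → ℝ) (hm : ∀ k, 0 ≤ m k) :
    (∑ k, m k * (f k * g k)) ^ 2 ≤ (∑ k, m k * f k ^ 2) * ∑ k, m k * g k ^ 2 := by
  apply Finset.sum_sq_le_sum_mul_sum_of_sq_le_mul
  · intro k _
    exact mul_nonneg (hm k) (sq_nonneg _)
  · intro k _
    exact mul_nonneg (hm k) (sq_nonneg _)
  · intro k _
    exact le_of_eq (by ring)

theorem ui_abs {κ : Type} [Fintype κ] (σ : κ ≃ κ) (T m u v R : κ → ℝ) {e Q a : ℝ} (ha : 0 < a)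
    (hT : ∀ k, 0 ≤ T k) (hT1 : ∑ k, T k = 1) (hm : ∀ k, m k = (T k + T (σ k)) / 2)
    (hu : ∀ k, m k * u k = (T (σ k) - T k) / 2) (he : ∑ k, m k * u k ^ 2 = e)
    (hv : ∀ k, v k - v (σ k) = 2 * e + R k) (hR : ∑ k, m k * R k ^ 2 ≤ 4 * e * Q)
    (hvu : ∑ k, m k * (v k - u k) ^ 2 ≤ 2 * e ^ 2 + 4 * Q) :
    ∑ k, m k * (u k * (u k - clip a (u k))) ≤
      e * (2 / a ^ 2 * (2 * e + 4 * e ^ 2 + 8 * Q)) + √(2 * e * Q) +
        √(e * (2 * e ^ 2 + 4 * Q)) := by
  obtain ⟨c1, c2, c3, c4, c5, c6⟩ := clip_facts ha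
  have hm0 : ∀ k, 0 ≤ m k := fun k => by
    rw [hm]
    have := hT k
    have := hT (σ k)
    linarith
  have he0 : 0 ≤ e := by
    rw [← he]
    exact Finset.sum_nonneg fun k _ => mul_nonneg (hm0 k) (sq_nonneg _)
  have hTσ : ∑ k, T (σ k) = 1 := by rw [Equiv.sum_comp σ T, hT1]
  -- the second moment of v
  have hS : ∑ k, m k * v k ^ 2 ≤ 2 * e + 4 * e ^ 2 + 8 * Q := by
    have h1 : ∑ k, m k * v k ^ 2 ≤ ∑ k, (2 * (m k * u k ^ 2) + 2 * (m k * (v k - u k) ^ 2)) := by
      refine Finset.sum_le_sum fun k _ => ?_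
      have := mul_nonneg (hm0 k) (sq_nonneg (u k - (v k - u k)))
      nlinarith
    rw [Finset.sum_add_distrib, ← Finset.mul_sum, ← Finset.mul_sum, he] at h1
    linarith
  -- pointwise bound
  have hp : ∀ k, 2 * e * (1 - (v k ^ 2 + v (σ k) ^ 2) / a ^ 2) - |R k| ≤
      clip a (v k) - clip a (v (σ k)) := by
    intro k
    have hk : v k = v (σ k) + (2 * e + R k) := by linarith [hv k]
    have ha2 : 0 < a ^ 2 := by positivity
    by_cases hg : |v k| ≤ a ∧ |v (σ k)| ≤ a
    · rw [c4 _ hg.1, c4 _ hg.2]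
      have h1 : 0 ≤ (v k ^ 2 + v (σ k) ^ 2) / a ^ 2 := by positivity
      have h2 := neg_abs_le (R k)
      have h3 := hv k
      nlinarith [mul_nonneg he0 h1]
    · have h1 : 1 ≤ (v k ^ 2 + v (σ k) ^ 2) / a ^ 2 := by
        rw [le_div_iff₀ ha2, one_mul]
        rw [not_and_or, not_le, not_le] at hg
        rcases hg with h | h
        · have : a ^ 2 ≤ v k ^ 2 := by
            rw [← sq_abs (v k)]
            exact pow_le_pow_left₀ ha.le h.le 2
          have := sq_nonneg (v (σ k))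
          linarith
        · have : a ^ 2 ≤ v (σ k) ^ 2 := by
            rw [← sq_abs (v (σ k))]
            exact pow_le_pow_left₀ ha.le h.le 2
          have := sq_nonneg (v k)
          linarith
      have h2 : clip a (v (σ k) + R k) ≤ clip a (v k) := by
        apply c3
        rw [hk]
        linarith
      have h3 := c2 (v (σ k) + R k) (v (σ k))
      rw [add_sub_cancel_left] at h3
      have h4 := (abs_le.1 h3).1
      have h5 : 2 * e * (1 - (v k ^ 2 + v (σ k) ^ 2) / a ^ 2) ≤ 0 :=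
        mul_nonpos_of_nonneg_of_nonpos (by linarith) (by linarith)
      linarith
  -- the identity for the truncated functions
  have hid : 2 * ∑ k, m k * (u k * clip a (v k)) =
      ∑ k, T (σ k) * (clip a (v k) - clip a (v (σ k))) := by
    have h1 : ∑ k, T (σ k) * clip a (v (σ k)) = ∑ k, T k * clip a (v k) :=
      Equiv.sum_comp σ fun k => T k * clip a (v k)
    have h2 : ∑ k, T (σ k) * (clip a (v k) - clip a (v (σ k))) =
        ∑ k, T (σ k) * clip a (v k) - ∑ k, T k * clip a (v k) := by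
      rw [← h1, ← Finset.sum_sub_distrib]
      refine Finset.sum_congr rfl fun k _ => ?_
      ring
    rw [h2, ← Finset.sum_sub_distrib, Finset.mul_sum]
    refine Finset.sum_congr rfl fun k _ => ?_
    have := hu k
    linear_combination 2 * clip a (v k) * this
  -- the mass of |R|
  have hRab : ∑ k, T (σ k) * |R k| ≤ √(8 * e * Q) := by
    apply Real.le_sqrt_of_sq_le
    have h1 := ui_cs (fun k => T (σ k)) (fun _ => 1) (fun k => |R k|) (fun k => hT (σ k))
    simp only [one_mul, one_pow, mul_one, sq_abs, hTσ] at h1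
    refine h1.trans ?_
    calc ∑ k, T (σ k) * R k ^ 2 ≤ ∑ k, 2 * (m k * R k ^ 2) := by
          refine Finset.sum_le_sum fun k _ => ?_
          rw [hm]
          have := mul_nonneg (hT k) (sq_nonneg (R k))
          nlinarith
      _ ≤ 8 * e * Q := by
          rw [← Finset.mul_sum]
          linarith
  have h8 : √(8 * e * Q) = 2 * √(2 * e * Q) := by
    rw [show 8 * e * Q = 2 ^ 2 * (2 * e * Q) by ring, Real.sqrt_mul (by norm_num),
      Real.sqrt_sq (by norm_num)]
  -- lower bound for the correlation with the truncated v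
  have hlow : 2 * ∑ k, m k * (u k * clip a (v k)) ≥
      2 * e * (1 - 2 / a ^ 2 * (2 * e + 4 * e ^ 2 + 8 * Q)) - 2 * √(2 * e * Q) := by
    rw [hid]
    have h1 : ∑ k, T (σ k) * (2 * e * (1 - (v k ^ 2 + v (σ k) ^ 2) / a ^ 2) - |R k|) ≤
        ∑ k, T (σ k) * (clip a (v k) - clip a (v (σ k))) :=
      Finset.sum_le_sum fun k _ => mul_le_mul_of_nonneg_left (hp k) (hT _)
    have h2 : ∑ k, T (σ k) * (2 * e * (1 - (v k ^ 2 + v (σ k) ^ 2) / a ^ 2) - |R k|) =
        2 * e * ∑ k, T (σ k) - 2 * e / a ^ 2 * (∑ k, T (σ k) * v k ^ 2 +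
          ∑ k, T (σ k) * v (σ k) ^ 2) - ∑ k, T (σ k) * |R k| := by
      rw [← Finset.sum_add_distrib, Finset.mul_sum, Finset.mul_sum, ← Finset.sum_sub_distrib,
        ← Finset.sum_sub_distrib]
      refine Finset.sum_congr rfl fun k _ => ?_
      ring
    have h3 : ∑ k, T (σ k) * v (σ k) ^ 2 = ∑ k, T k * v k ^ 2 :=
      Equiv.sum_comp σ fun k => T k * v k ^ 2
    have h4 : ∑ k, T (σ k) * v k ^ 2 + ∑ k, T (σ k) * v (σ k) ^ 2 = 2 * ∑ k, m k * v k ^ 2 := by
      rw [h3, ← Finset.sum_add_distrib, Finset.mul_sum]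
      refine Finset.sum_congr rfl fun k _ => ?_
      rw [hm]
      ring
    rw [h2, hTσ, h4] at h1
    have h5 : 2 * e / a ^ 2 * (2 * ∑ k, m k * v k ^ 2) ≤
        2 * e / a ^ 2 * (2 * (2 * e + 4 * e ^ 2 + 8 * Q)) :=
      mul_le_mul_of_nonneg_left (by linarith) (by positivity)
    rw [h8] at hRab
    have h6 : 2 * e * (1 - 2 / a ^ 2 * (2 * e + 4 * e ^ 2 + 8 * Q)) =
        2 * e * 1 - 2 * e / a ^ 2 * (2 * (2 * e + 4 * e ^ 2 + 8 * Q)) := by ring
    rw [h6]
    linarith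
  -- the difference
  have hdiff : ∑ k, m k * (u k * (clip a (v k) - clip a (u k))) ≤
      √(e * (2 * e ^ 2 + 4 * Q)) := by
    have h1 : ∑ k, m k * (u k * (clip a (v k) - clip a (u k))) ≤
        ∑ k, m k * (|u k| * |v k - u k|) := by
      refine Finset.sum_le_sum fun k _ => mul_le_mul_of_nonneg_left ?_ (hm0 k)
      calc u k * (clip a (v k) - clip a (u k)) ≤ |u k * (clip a (v k) - clip a (u k))| :=
            le_abs_self _
        _ = |u k| * |clip a (v k) - clip a (u k)| := abs_mul _ _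
        _ ≤ |u k| * |v k - u k| := mul_le_mul_of_nonneg_left (c2 _ _) (abs_nonneg _)
    refine h1.trans ?_
    apply Real.le_sqrt_of_sq_le
    have h2 := ui_cs m (fun k => |u k|) (fun k => |v k - u k|) hm0
    simp only [sq_abs, he] at h2
    exact h2.trans (mul_le_mul_of_nonneg_left hvu he0)
  have hfin : ∑ k, m k * (u k * (u k - clip a (u k))) =
      e - ∑ k, m k * (u k * clip a (v k)) +
        ∑ k, m k * (u k * (clip a (v k) - clip a (u k))) := by
    rw [← he, ← Finset.sum_sub_distrib, ← Finset.sum_add_distrib]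
    refine Finset.sum_congr rfl fun k _ => ?_
    ring
  rw [hfin]
  have h9 : 2 * e * (1 - 2 / a ^ 2 * (2 * e + 4 * e ^ 2 + 8 * Q)) =
      2 * e - 2 * (e * (2 / a ^ 2 * (2 * e + 4 * e ^ 2 + 8 * Q))) := by ring
  rw [h9] at hlow
  linarith

theorem ui_core {κ : Type} [Fintype κ] (σ : κ ≃ κ) (T m u : κ → ℝ) (W : κ → κ → ℝ) {e Q a : ℝ}
    (ha : 0 < a) (hT : ∀ k, 0 ≤ T k) (hT1 : ∑ k, T k = 1) (hm : ∀ k, m k = (T k + T (σ k)) / 2)
    (hu : ∀ k, m k * u k = (T (σ k) - T k) / 2) (he : ∑ k, m k * u k ^ 2 = e)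
    (hTu : ∑ k, T k * u k = -e)
    (hQ : ∑ k, ∑ l, m k * m l * (W k l - (u k - u l)) ^ 2 ≤ Q)
    (hW : ∀ k l, W (σ k) (σ l) = W k l) :
    ∑ k, m k * (u k * (u k - clip a (u k))) ≤
      e * (2 / a ^ 2 * (2 * e + 4 * e ^ 2 + 8 * Q)) + √(2 * e * Q) +
        √(e * (2 * e ^ 2 + 4 * Q)) := by
  have hm0 : ∀ k, 0 ≤ m k := fun k => by
    rw [hm]
    have := hT k
    have := hT (σ k)
    linarith
  have he0 : 0 ≤ e := by
    rw [← he]
    exact Finset.sum_nonneg fun k _ => mul_nonneg (hm0 k) (sq_nonneg _)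
  have hQ0 : 0 ≤ Q := le_trans (Finset.sum_nonneg fun k _ => Finset.sum_nonneg fun l _ =>
    mul_nonneg (mul_nonneg (hm0 k) (hm0 l)) (sq_nonneg _)) hQ
  have hTσ : ∑ k, T (σ k) = 1 := by rw [Equiv.sum_comp σ T, hT1]
  have hmu : ∑ k, m k * u k = 0 := by
    rw [Finset.sum_congr rfl fun k _ => hu k, ← Finset.sum_div, Finset.sum_sub_distrib, hTσ, hT1]
    simp
  have hQ' : ∑ k, m k * ∑ l, m l * (W k l - (u k - u l)) ^ 2 ≤ Q := by
    refine le_trans (le_of_eq ?_) hQ
    refine Finset.sum_congr rfl fun k _ => ?_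
    rw [Finset.mul_sum]
    refine Finset.sum_congr rfl fun l _ => ?_
    ring
  refine ui_abs σ T m u (fun k => ∑ l, T l * W k l)
    (fun k => -2 * ∑ l, m l * (u l * (W k l - (u k - u l)))) ha hT hT1 hm hu he ?_ ?_ ?_
  · intro k
    have h1 : ∑ l, T l * W (σ k) l = ∑ l, T (σ l) * W k l := by
      rw [← Equiv.sum_comp σ fun l => T l * W (σ k) l]
      refine Finset.sum_congr rfl fun l _ => ?_
      rw [hW]
    rw [h1, ← Finset.sum_sub_distrib]
    have h2 : ∀ l, T l * W k l - T (σ l) * W k l =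
        (-2 * u k) * (m l * u l) + 2 * (m l * u l ^ 2) +
          (-2) * (m l * (u l * (W k l - (u k - u l)))) := by
      intro l
      linear_combination (2 * W k l) * hu l
    rw [Finset.sum_congr rfl fun l _ => h2 l, Finset.sum_add_distrib, Finset.sum_add_distrib,
      ← Finset.mul_sum, ← Finset.mul_sum, ← Finset.mul_sum, hmu, he]
    ring
  · have h1 : ∀ k, m k * (-2 * ∑ l, m l * (u l * (W k l - (u k - u l)))) ^ 2 ≤
        4 * e * (m k * ∑ l, m l * (W k l - (u k - u l)) ^ 2) := by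
      intro k
      have h2 := ui_cs m u (fun l => W k l - (u k - u l)) hm0
      rw [he] at h2
      have h3 := mul_le_mul_of_nonneg_left h2 (hm0 k)
      calc m k * (-2 * ∑ l, m l * (u l * (W k l - (u k - u l)))) ^ 2 =
            4 * (m k * (∑ l, m l * (u l * (W k l - (u k - u l)))) ^ 2) := by ring
        _ ≤ 4 * (m k * (e * ∑ l, m l * (W k l - (u k - u l)) ^ 2)) := by linarith
        _ = 4 * e * (m k * ∑ l, m l * (W k l - (u k - u l)) ^ 2) := by ring
    refine (Finset.sum_le_sum fun k _ => h1 k).trans ?_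
    rw [← Finset.mul_sum]
    exact mul_le_mul_of_nonneg_left hQ' (by linarith)
  · have h1 : ∀ k, m k * (∑ l, T l * W k l - u k) ^ 2 ≤
        2 * e ^ 2 * m k + 4 * (m k * ∑ l, m l * (W k l - (u k - u l)) ^ 2) := by
      intro k
      have h2 : ∑ l, T l * W k l - u k = e + ∑ l, T l * (1 * (W k l - (u k - u l))) := by
        have h3 : ∀ l, T l * (1 * (W k l - (u k - u l))) =
            T l * W k l - u k * T l + T l * u l := by
          intro l
          ring
        rw [Finset.sum_congr rfl fun l _ => h3 l, Finset.sum_add_distrib,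
          Finset.sum_sub_distrib, ← Finset.mul_sum, hT1, hTu]
        ring
      have h4 := ui_cs T (fun _ => 1) (fun l => W k l - (u k - u l)) hT
      simp only [one_pow, mul_one, hT1] at h4
      have h5 : ∑ l, T l * (W k l - (u k - u l)) ^ 2 ≤
          2 * ∑ l, m l * (W k l - (u k - u l)) ^ 2 := by
        rw [Finset.mul_sum]
        refine Finset.sum_le_sum fun l _ => ?_
        rw [hm]
        have := mul_nonneg (hT (σ l)) (sq_nonneg (W k l - (u k - u l)))
        nlinarith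
      rw [h2]
      have h6 : (e + ∑ l, T l * (1 * (W k l - (u k - u l)))) ^ 2 ≤
          2 * e ^ 2 + 4 * ∑ l, m l * (W k l - (u k - u l)) ^ 2 := by
        have h7 := sq_nonneg (e - ∑ l, T l * (1 * (W k l - (u k - u l))))
        nlinarith
      calc m k * (e + ∑ l, T l * (1 * (W k l - (u k - u l)))) ^ 2
          ≤ m k * (2 * e ^ 2 + 4 * ∑ l, m l * (W k l - (u k - u l)) ^ 2) :=
            mul_le_mul_of_nonneg_left h6 (hm0 k)
        _ = _ := by ring
    refine (Finset.sum_le_sum fun k _ => h1 k).trans ?_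
    rw [Finset.sum_add_distrib, ← Finset.mul_sum, ← Finset.mul_sum]
    have h8 : ∑ k, m k = 1 := by
      rw [Finset.sum_congr rfl fun k _ => hm k, ← Finset.sum_div, Finset.sum_add_distrib, hTσ, hT1]
      norm_num
    rw [h8]
    linarith

/-- UNIFORM INTEGRABILITY.  Write `m = avg T D`, `u = rat T D`, `e = eps2 T D`,
`r(i,x,j,y) = w i j (x-y) - (u_i(x) - u_j(y))` and `v(i,x) = Σ_{j,y} T_j(y) w i j (x-y)`.
(1) `v(i,x) - v(i,x-D) = -Σ_{j,y} (T_j(y-D) - T_j(y)) w i j (x-y) = -2 Σ m_j u_j (u_i(x) - u_j + r)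
 = 2 e + R(i,x)`, `R(i,x) = -2 Σ_{j,y} m_j(y) u_j(y) r(i,x,j,y)`, `Σ m R² ≤ 4 e Q`.
(2) `v - u = e + Σ_{j,y} T_j(y) r` (`sum_m_rat`), so `Σ m (v-u)² ≤ 2 e² + 4 Q` (`T ≤ 2 m`) and
`Σ m v² ≤ 2 e + 4 e² + 8 Q`.
(3) With `Ψ = clip a`:  `2 Σ m u Ψ(v) = Σ (T_i(x-D) - T_i(x)) Ψ(v(i,x))
 = Σ_{i,x} T_i(x-D) (Ψ(v(i,x)) - Ψ(v(i,x-D)))`.  Pointwise
`Ψ(v(x)) - Ψ(v(x-D)) ≥ 2 e 1_good - |R(i,x)|`, good meaning `|v(i,x)| ≤ a` and `|v(i,x-D)| ≤ a`
(on the good set it equals `2e + R`; in general `Ψ` is monotone and 1-Lipschitz and `2e ≥ 0`).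
The bad set has `T_i(x-D)`-mass at most `(2/a²) Σ m v²` (Chebyshev for `v(x)` and `v(x-D)`:
the sum of the two weights is `T_i(x-D) + T_i(x) = 2m`), and
`Σ T_i(x-D) |R| ≤ (2 Σ m R²)^(1/2) ≤ (8 e Q)^(1/2)`.  So
`Σ m u Ψ(v) ≥ e (1 - (2/a²)(2e+4e²+8Q)) - √(2 e Q)`.
(4) `Σ m |u| |Ψ(v) - Ψ(u)| ≤ √e √(Σ m (v-u)²) ≤ √(e (2e²+4Q))`, and `Σ m u² = e`. -/
theorem ui (T : Fam G) (D : G) (w : T.ι → T.ι → G → ℝ) {Q a : ℝ} (ha : 0 < a)
    (hQ : ∑ i, ∑ x, ∑ j, ∑ y, avg T D i x * avg T D j y *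
        (w i j (x - y) - (rat T D i x - rat T D j y)) ^ 2 ≤ Q) :
    ∑ i, ∑ x, avg T D i x * (rat T D i x * (rat T D i x - clip a (rat T D i x))) ≤
      eps2 T D * (2 / a ^ 2 * (2 * eps2 T D + 4 * eps2 T D ^ 2 + 8 * Q)) +
        √(2 * eps2 T D * Q) + √(eps2 T D * (2 * eps2 T D ^ 2 + 4 * Q)) := by
  have h := ui_core (κ := T.ι × G)
    ((Equiv.refl T.ι).prodCongr (Equiv.subRight D))
    (fun k => T.m k.1 k.2) (fun k => avg T D k.1 k.2) (fun k => rat T D k.1 k.2)
    (fun k l => w k.1 l.1 (k.2 - l.2)) (e := eps2 T D) (Q := Q) ha (fun k => T.nn _ _) ?_ ?_ ?_ ?_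
    ?_ ?_ ?_
  · rw [Fintype.sum_prod_type] at h
    exact h
  · rw [Fintype.sum_prod_type]
    exact T.tot
  · intro k
    rfl
  · intro k
    have h1 := m_eq T D k.1 k.2
    have h2 := m_shift_eq T D k.1 k.2
    simp only [Equiv.prodCongr_apply, Prod.map_fst, Prod.map_snd, Equiv.refl_apply,
      Equiv.subRight_apply]
    linarith
  · rw [Fintype.sum_prod_type]
    rfl
  · rw [Fintype.sum_prod_type]
    exact sum_m_rat T D
  · rw [Fintype.sum_prod_type]
    refine le_trans (le_of_eq ?_) hQ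
    refine Finset.sum_congr rfl fun i _ => Finset.sum_congr rfl fun x _ => ?_
    rw [Fintype.sum_prod_type]
  · intro k l
    simp only [Equiv.prodCongr_apply, Prod.map_fst, Prod.map_snd, Equiv.refl_apply,
      Equiv.subRight_apply, sub_sub_sub_cancel_right]

end Pool.Agent.OSP
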