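import Pool.Agent.OSP_h95.LongAP
import Pool.Agent.OSP_h95.Plane

/-!
# The lower bound for the number of difference vectors
-/

set_option autoImplicit false

namespace Pool.Agent.OSP

open Finset Real Pool.Agent.QFR
open scoped Pointwise

/-- `long_ap` and `plane_to_int` -/
theorem log_card_le : ∃ C : ℝ, 1 ≤ C ∧ ∀ (S : Finset (ℝ × ℝ)) (ℓ : ℝ), GeneralPosition S →
    S.Nonempty → 0 ≤ ℓ → ((S - S).card : ℝ) ≤ exp ℓ * S.card →
    Real.log S.card ≤ C * (1 + ℓ) ^ 2 := by
  obtain ⟨C, hC, hL⟩ := long_ap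
  refine ⟨16 * C ^ 2, by nlinarith, ?_⟩
  intro S ℓ hS hne hℓ hV
  obtain ⟨k, hk⟩ : ∃ k : ℝ, k = 1 + 2 * ℓ := ⟨_, rfl⟩
  have hk1 : 1 ≤ k := by linarith
  have hk0 : 0 < k := by linarith
  obtain ⟨J, hJ⟩ : ∃ J : ℕ, J = ⌈3 * exp (C * k)⌉₊ := ⟨_, rfl⟩
  have hexp : 1 ≤ exp (C * k) := Real.one_le_exp (by positivity)
  have hJ1 : 3 * exp (C * k) ≤ J := by rw [hJ]; exact Nat.le_ceil _
  have hJ2 : (J : ℝ) ≤ 4 * exp (C * k) := by
    have := (Nat.ceil_lt_add_one (by positivity : 0 ≤ 3 * exp (C * k))).le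
    rw [← hJ] at this
    linarith
  have hJ0 : 0 < J := by
    have : (0 : ℝ) < J := by linarith
    exact_mod_cast this
  obtain ⟨A, hA, hAA, hAJ⟩ := plane_to_int S hS hne hV J hJ0
  have hAne : A.Nonempty := by
    rw [← Finset.card_pos, hA]; exact hne.card_pos
  have hA0 : (0 : ℝ) < A.card := by exact_mod_cast hAne.card_pos
  have hAA' : ((A + A).card : ℝ) ≤ exp k * A.card := by
    refine hAA.trans ?_
    have : exp (2 * ℓ) ≤ exp k := Real.exp_le_exp.2 (by linarith)
    gcongr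
  obtain ⟨d, n, hd, hn, hlog, habs⟩ := hL k A hk1 hAne hAA'
  have hnJ : n < J := by
    by_contra hcon
    push Not at hcon
    have h1 : prog d J ⊆ prog d n := Finset.image_subset_image (Finset.range_subset_range.2 hcon)
    have h2 : ((A + prog d J).card : ℝ) ≤ exp (C * k) * A.card := by
      refine le_trans ?_ habs
      exact_mod_cast Finset.card_le_card (Finset.add_subset_add_left h1)
    have h3 : (A.card : ℝ) * J ≤ 2 * (A + prog d J).card := by exact_mod_cast hAJ d hd.ne'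
    have h4 : (A.card : ℝ) * J ≤ A.card * (2 * exp (C * k)) := by linarith
    have h5 := le_of_mul_le_mul_left h4 hA0
    linarith
  have h1 : Real.log n ≤ 2 + C * k := by
    have h2 : Real.log n ≤ Real.log (4 * exp (C * k)) := by
      refine Real.log_le_log (by exact_mod_cast hn) ?_
      have : (n : ℝ) ≤ J := by exact_mod_cast hnJ.le
      linarith
    rw [Real.log_mul (by norm_num) (Real.exp_pos _).ne', Real.log_exp] at h2
    have h4 : Real.log 4 ≤ 2 := by
      rw [show (4 : ℝ) = 2 ^ 2 by norm_num, Real.log_pow]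
      have := Real.log_two_lt_d9
      push_cast
      linarith
    linarith
  rw [hA] at hlog
  have h2 : Real.log S.card / (C * k) ≤ 2 + 2 * (C * k) := by linarith
  rw [div_le_iff₀ (by positivity)] at h2
  refine h2.trans ?_
  have h3 : 1 ≤ C * k := one_le_mul_of_one_le_of_one_le hC hk1
  calc (2 + 2 * (C * k)) * (C * k) ≤ 4 * (C * k) ^ 2 := by nlinarith
    _ ≤ 4 * (C * (2 * (1 + ℓ))) ^ 2 := by gcongr; linarith
    _ = 16 * C ^ 2 * (1 + ℓ) ^ 2 := by ring

end Pool.Agent.OSP
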